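import Pool.Agent.H62.ST.Defs

/-!
# Module XfB: the factor `X` of the functional equation

* `Xf_bound`: `|Im s| ≥ 1`: `Pool.Agent.H6.Xf_norm_bound`; `|Im s| ≤ 1`: continuity of `Xf` on `Re s > 0` and compactness.
* `Xf_differentiableAt'`: `Xf s = 2 (2π)^{-s} Γ(s) cos(π s/2)`, `Γ` is differentiable for `Re s > 0`.
-/

set_option autoImplicit false

open Complex Filter Topology MeasureTheory Set Metric
open scoped ArithmeticFunction.vonMangoldt

namespace Pool.Agent.H62.ST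

open Pool.Agent.H6 Pool.Agent.H6.Win

lemma Xf_differentiableAt' {s : ℂ} (hs : 0 < s.re) : DifferentiableAt ℂ Xf s := by
  unfold Xf
  have h1 : DifferentiableAt ℂ (fun s : ℂ ↦ (2 * Real.pi : ℂ) ^ (-s)) s :=
    differentiableAt_id.neg.const_cpow (Or.inl two_pi_ne)
  have h2 : DifferentiableAt ℂ Complex.Gamma s := by
    refine differentiableAt_Gamma s fun n h ↦ ?_
    rw [h] at hs
    simp only [neg_re, natCast_re, Left.neg_pos_iff] at hs
    have : (0 : ℝ) ≤ n := Nat.cast_nonneg n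
    linarith
  have h3 : DifferentiableAt ℂ (fun s : ℂ ↦ Complex.cos (Real.pi * s / 2)) s := by fun_prop
  exact ((h1.const_mul 2).mul h2).mul h3

theorem Xf_bound : ∃ C : ℝ, 0 < C ∧ ∀ s : ℂ, 1 / 2 ≤ s.re → s.re ≤ 2 →
    ‖Xf s‖ ≤ C * (1 + |s.im|) ^ (s.re - 1 / 2) := by
  obtain ⟨C0, hC0, h0⟩ := Xf_norm_bound
  have hK : IsCompact (Icc (1 / 2 : ℝ) 2 ×ℂ Icc (-1 : ℝ) 1) := isCompact_Icc.reProdIm isCompact_Icc
  have hc : ContinuousOn Xf (Icc (1 / 2 : ℝ) 2 ×ℂ Icc (-1 : ℝ) 1) := by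
    intro s hs
    rw [Complex.mem_reProdIm] at hs
    have : 0 < s.re := by linarith [hs.1.1]
    exact (Xf_differentiableAt' this).continuousAt.continuousWithinAt
  obtain ⟨C1, hC1⟩ := hK.exists_bound_of_continuousOn hc
  refine ⟨Real.exp C0 + |C1|, by positivity, fun s h1 h2 ↦ ?_⟩
  have hb : 0 ≤ |s.im| := abs_nonneg _
  rcases le_total 1 |s.im| with h3 | h3
  · have h4 := h0 s h1 (by linarith) h3
    have him : s.im ≠ 0 := by intro h; rw [h, abs_zero] at h3; linarith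
    have h5 : 0 < ‖Xf s‖ := norm_pos_iff.2 (Xf_ne_zero him)
    have h6 : Real.log ‖Xf s‖ ≤ C0 + (s.re - 1 / 2) * Real.log |s.im| := by
      have := (abs_le.1 h4).2
      linarith
    have h7 : ‖Xf s‖ ≤ Real.exp C0 * |s.im| ^ (s.re - 1 / 2) := by
      rw [Real.rpow_def_of_pos (by linarith), ← Real.exp_add]
      rw [← Real.exp_log h5]
      refine Real.exp_le_exp.2 ?_
      linarith
    have h8 : |s.im| ^ (s.re - 1 / 2) ≤ (1 + |s.im|) ^ (s.re - 1 / 2) :=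
      Real.rpow_le_rpow hb (by linarith) (by linarith)
    have h9 : 0 ≤ (1 + |s.im|) ^ (s.re - 1 / 2) := by positivity
    calc ‖Xf s‖ ≤ Real.exp C0 * |s.im| ^ (s.re - 1 / 2) := h7
      _ ≤ Real.exp C0 * (1 + |s.im|) ^ (s.re - 1 / 2) := by gcongr
      _ ≤ (Real.exp C0 + |C1|) * (1 + |s.im|) ^ (s.re - 1 / 2) := by
          gcongr
          linarith [abs_nonneg C1]
  · have h4 : s ∈ Icc (1 / 2 : ℝ) 2 ×ℂ Icc (-1 : ℝ) 1 := by
      rw [Complex.mem_reProdIm]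
      exact ⟨⟨h1, h2⟩, abs_le.1 h3⟩
    have h5 := hC1 s h4
    have h6 : 1 ≤ (1 + |s.im|) ^ (s.re - 1 / 2) :=
      Real.one_le_rpow (by linarith) (by linarith)
    calc ‖Xf s‖ ≤ C1 := h5
      _ ≤ |C1| := le_abs_self _
      _ ≤ Real.exp C0 + |C1| := by linarith [Real.exp_pos C0]
      _ = (Real.exp C0 + |C1|) * 1 := by ring
      _ ≤ (Real.exp C0 + |C1|) * (1 + |s.im|) ^ (s.re - 1 / 2) := by gcongr

end Pool.Agent.H62.ST
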