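import Pool.Agent.H62.ST.ZpGrowth
import Pool.Agent.H62.ST.XfB
import Pool.Agent.H6.Shift

/-!
# Module AfeL: the left line of the approximate functional equation

`s = 1/2 + iy`, `w = -3/2 + iv`, `z = s + w`, `Re z = -1`, `Re (1-z) = 2`, `ζ(z) = Xf(1-z) ζ(1-z)` (`zeta_one_sub`, for `Im z ≠ 0`, i.e. for
almost all `v`), `zetaPole z = (z-1) ζ(z)`. `ζ(1-z) = ∑_{n ≤ Z} n^{-(1-z)} + O(1/Z)` (`zeta_tail`).
Tail: `‖z-1‖ ≤ ‖s-1‖ (1 + 2‖w‖)`, `‖Xf(1-z)‖ ≤ C (1+|y+v|)^{3/2} ≤ C' T^{3/2} (1+|v|)^{3/2}` (`Xf_bound`, `|y| ≤ 8T`), `|Q^w| = T^{-3/4}`, `1/Z ≤ T^{-3/4}`: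
total `≤ C ‖s-1‖`. Finite part: `w ↦ (s+w-1) Xf(1-s-w) ∑_{n ≤ Z} n^{s+w-1} Q^w exp(w^2)/w` is holomorphic for `-3/2 ≤ Re w < 0`
(there `Re (1-s-w) ≥ 1/2 > 0`, `Xf_differentiableAt'`), move the line to `Re w = -η`, `η = 1/log T` (`vertical_shift`); there
`‖Xf(1/2 + η - i(y+v))‖ ≤ C (1+|y+v|)^η ≤ C' (1+|v|)`, `|Q^w| ≤ 1`, `1/|w| ≤ log T`, and
`|∑ n^{s+w-1}| = |∑ n^{-1/2-η+i(y+v)}| = ‖Pz T (y+v)‖` (complex conjugate).
-/

set_option autoImplicit false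

open Complex Filter Topology MeasureTheory Set Metric
open scoped ArithmeticFunction.vonMangoldt

namespace Pool.Agent.H62.ST

open Pool.Agent.H6 Pool.Agent.H6.Win

private lemma AfeL_s1 (y : ℝ) : 1 / 2 ≤ ‖(1 / 2 + y * I - 1 : ℂ)‖ := by
  have h := Complex.abs_re_le_norm (1 / 2 + y * I - 1 : ℂ)
  have h1 : (1 / 2 + y * I - 1 : ℂ).re = -(1 / 2) := by simp; norm_num
  rw [h1, abs_neg, abs_of_pos (by norm_num)] at h
  exact h

private lemma AfeL_s2 (y : ℝ) (w : ℂ) : ‖(1 / 2 + y * I + w - 1 : ℂ)‖ ≤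
    ‖(1 / 2 + y * I - 1 : ℂ)‖ * (1 + 2 * ‖w‖) := by
  have h1 := AfeL_s1 y
  have h2 : (1 / 2 + y * I + w - 1 : ℂ) = (1 / 2 + y * I - 1) + w := by ring
  rw [h2]
  have h3 := norm_add_le (1 / 2 + y * I - 1 : ℂ) w
  have h4 : 0 ≤ (‖(1 / 2 + y * I - 1 : ℂ)‖ - 1 / 2) * ‖w‖ :=
    mul_nonneg (by linarith) (norm_nonneg w)
  nlinarith

private lemma AfeL_sq (v : ℝ) : (1 + |v|) ^ 2 ≤ 4 * Real.exp (v ^ 2 / 2) := by
  have h1 := Real.add_one_le_exp (v ^ 2 / 2)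
  have h2 : |v| ^ 2 = v ^ 2 := sq_abs v
  nlinarith [sq_nonneg (1 - |v|)]

private noncomputable def AfeL_D (T y : ℝ) (w : ℂ) : ℂ :=
  ∑ n ∈ Finset.Icc 1 (Zm T), (n : ℂ) ^ (1 / 2 + y * I + w - 1)

private noncomputable def AfeL_A (T y : ℝ) (w : ℂ) : ℂ :=
  (1 / 2 + y * I + w - 1) * Xf (1 - (1 / 2 + y * I + w)) * ((Real.sqrt T : ℝ) : ℂ) ^ w *
    cexp (w ^ 2) / w

private lemma AfeL_expn (w : ℂ) : ‖cexp (w ^ 2)‖ = Real.exp (w.re ^ 2 - w.im ^ 2) := by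
  rw [Complex.norm_exp]
  congr 1
  rw [sq, Complex.mul_re]
  ring

private lemma AfeL_A_norm {CX : ℝ} (hCX : 0 < CX)
    (hX : ∀ s : ℂ, 1 / 2 ≤ s.re → s.re ≤ 2 → ‖Xf s‖ ≤ CX * (1 + |s.im|) ^ (s.re - 1 / 2))
    {T y : ℝ} (hT : 1 ≤ T) (hy : |y| ≤ 8 * T) {w : ℂ} (h0 : w.re ≤ 0) (h1 : -(3 / 2) ≤ w.re) :
    ‖AfeL_A T y w‖ ≤ ‖(1 / 2 + y * I - 1 : ℂ)‖ * CX *
      ((9 * T) ^ (-w.re) * (Real.sqrt T) ^ (w.re)) *
      ((1 + |w.im|) ^ 2 * Real.exp (w.re ^ 2 - w.im ^ 2) * ((1 + 2 * ‖w‖) / ‖w‖)) := by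
  have hTpos : 0 < T := by linarith
  have hsq : 0 < Real.sqrt T := Real.sqrt_pos.2 hTpos
  have e1 : (1 - (1 / 2 + y * I + w) : ℂ).re = 1 / 2 - w.re := by simp; ring
  have e2 : (1 - (1 / 2 + y * I + w) : ℂ).im = -(y + w.im) := by simp
  have hx := hX (1 - (1 / 2 + y * I + w)) (by rw [e1]; linarith) (by rw [e1]; linarith)
  rw [e1, e2, abs_neg] at hx
  have e3 : 1 / 2 - w.re - 1 / 2 = -w.re := by ring
  rw [e3] at hx
  have hv : 0 ≤ |w.im| := abs_nonneg _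
  have h2 : 1 + |y + w.im| ≤ 9 * T * (1 + |w.im|) := by
    have := abs_add_le y w.im
    nlinarith
  have h3 : (1 + |y + w.im|) ^ (-w.re) ≤ (9 * T) ^ (-w.re) * (1 + |w.im|) ^ 2 := by
    calc (1 + |y + w.im|) ^ (-w.re) ≤ (9 * T * (1 + |w.im|)) ^ (-w.re) :=
          Real.rpow_le_rpow (by positivity) h2 (by linarith)
      _ = (9 * T) ^ (-w.re) * (1 + |w.im|) ^ (-w.re) :=
          Real.mul_rpow (by positivity) (by positivity)
      _ ≤ (9 * T) ^ (-w.re) * (1 + |w.im|) ^ (2 : ℝ) := by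
          gcongr
          · linarith
          · linarith
      _ = _ := by norm_num
  have hx2 : ‖Xf (1 - (1 / 2 + y * I + w))‖ ≤ CX * ((9 * T) ^ (-w.re) * (1 + |w.im|) ^ 2) :=
    hx.trans (mul_le_mul_of_nonneg_left h3 hCX.le)
  have h4 := AfeL_s2 y w
  unfold AfeL_A
  rw [norm_div, norm_mul, norm_mul, norm_mul, Complex.norm_cpow_eq_rpow_re_of_pos hsq, AfeL_expn]
  calc ‖(1 / 2 + y * I + w - 1 : ℂ)‖ * ‖Xf (1 - (1 / 2 + y * I + w))‖ * Real.sqrt T ^ w.re *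
        Real.exp (w.re ^ 2 - w.im ^ 2) / ‖w‖ ≤
      (‖(1 / 2 + y * I - 1 : ℂ)‖ * (1 + 2 * ‖w‖)) *
        (CX * ((9 * T) ^ (-w.re) * (1 + |w.im|) ^ 2)) * Real.sqrt T ^ w.re *
        Real.exp (w.re ^ 2 - w.im ^ 2) / ‖w‖ := by gcongr
    _ = _ := by ring

private lemma AfeL_diff {T y : ℝ} (hT : 1 ≤ T) {w : ℂ} (hw : w.re < 0) :
    DifferentiableAt ℂ (fun w ↦ AfeL_A T y w * AfeL_D T y w) w := by
  have hsq : ((Real.sqrt T : ℝ) : ℂ) ≠ 0 := by
    have : 0 < Real.sqrt T := Real.sqrt_pos.2 (by linarith)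
    exact_mod_cast this.ne'
  have hw0 : w ≠ 0 := by
    rintro rfl
    simp at hw
  have e1 : (1 - (1 / 2 + y * I + w) : ℂ).re = 1 / 2 - w.re := by simp; ring
  have hXd : DifferentiableAt ℂ (fun w : ℂ ↦ Xf (1 - (1 / 2 + y * I + w))) w := by
    have h1 := Xf_differentiableAt' (s := 1 - (1 / 2 + y * I + w)) (by rw [e1]; linarith)
    exact h1.comp w (by fun_prop : DifferentiableAt ℂ (fun w : ℂ ↦ 1 - (1 / 2 + y * I + w)) w)
  have hcp : DifferentiableAt ℂ (fun w : ℂ ↦ ((Real.sqrt T : ℝ) : ℂ) ^ w) w :=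
    DifferentiableAt.const_cpow differentiableAt_id (Or.inl hsq)
  have hA : DifferentiableAt ℂ (fun w ↦ AfeL_A T y w) w := by
    unfold AfeL_A
    exact ((((by fun_prop : DifferentiableAt ℂ (fun w : ℂ ↦ (1 / 2 + y * I + w - 1)) w).mul
      hXd).mul hcp).mul (by fun_prop)).div differentiableAt_id hw0
  have hD : DifferentiableAt ℂ (fun w ↦ AfeL_D T y w) w := by
    unfold AfeL_D
    refine DifferentiableAt.fun_sum fun n hn ↦ ?_
    have hn0 : (n : ℂ) ≠ 0 := by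
      have : 1 ≤ n := (Finset.mem_Icc.1 hn).1
      exact_mod_cast (by omega : n ≠ 0)
    exact DifferentiableAt.const_cpow (by fun_prop) (Or.inl hn0)
  exact hA.mul hD

private lemma AfeL_Dn {T y : ℝ} {w : ℂ} (hw : w.re ≤ 0) : ‖AfeL_D T y w‖ ≤ Zm T := by
  unfold AfeL_D
  refine (norm_sum_le _ _).trans ?_
  calc ∑ n ∈ Finset.Icc 1 (Zm T), ‖(n : ℂ) ^ (1 / 2 + y * I + w - 1)‖ ≤
        ∑ n ∈ Finset.Icc 1 (Zm T), (1 : ℝ) := by
        refine Finset.sum_le_sum fun n hn ↦ ?_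
        have hn1 : 1 ≤ n := (Finset.mem_Icc.1 hn).1
        rw [Complex.norm_natCast_cpow_of_pos (by omega)]
        refine Real.rpow_le_one_of_one_le_of_nonpos (by exact_mod_cast hn1) ?_
        have : (1 / 2 + y * I + w - 1 : ℂ).re = w.re - 1 / 2 := by simp; ring
        rw [this]
        linarith
    _ = Zm T := by simp

private lemma AfeL_Dline {T y v : ℝ} :
    ‖AfeL_D T y (((-(1 / Real.log T) : ℝ) : ℂ) + v * I)‖ = ‖Pz T (y + v)‖ := by
  have h : AfeL_D T y (((-(1 / Real.log T) : ℝ) : ℂ) + v * I) =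
      (starRingEnd ℂ) (Pz T (y + v)) := by
    unfold AfeL_D Pz dp
    rw [map_sum]
    refine Finset.sum_congr rfl fun n hn ↦ ?_
    have hn1 : 1 ≤ n := (Finset.mem_Icc.1 hn).1
    have hn0 : (n : ℂ) ≠ 0 := by exact_mod_cast (by omega : n ≠ 0)
    rw [map_mul, Complex.conj_ofReal]
    have h1 : (starRingEnd ℂ) ((n : ℂ) ^ (-(((y + v : ℝ) : ℂ) * I))) =
        (n : ℂ) ^ (((y + v : ℝ) : ℂ) * I) := by
      have harg : (n : ℂ).arg ≠ Real.pi := by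
        rw [Complex.natCast_arg]
        exact Real.pi_pos.ne
      have h2 := Complex.cpow_conj (n : ℂ) (-(((y + v : ℝ) : ℂ) * I)) harg
      rw [Complex.conj_natCast] at h2
      rw [← h2]
      congr 1
      simp
    rw [h1, Complex.ofReal_cpow (by positivity), Complex.ofReal_natCast,
      ← Complex.cpow_add _ _ hn0]
    congr 1
    push_cast
    ring
  rw [h, Complex.norm_conj]

private lemma AfeL_sum {T y v : ℝ} (hT : 1 ≤ T) (hyv : y + v ≠ 0) :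
    ‖PhiA T y (-(3 / 2) + v * I) / (-(3 / 2) + v * I) -
      AfeL_A T y (-(3 / 2) + v * I) * AfeL_D T y (-(3 / 2) + v * I)‖ ≤
      ‖AfeL_A T y (-(3 / 2) + v * I)‖ * (1 / Zm T) := by
  set w : ℂ := -(3 / 2) + v * I with hw
  set z : ℂ := 1 / 2 + y * I + w with hz
  have hzim : z.im = y + v := by simp [hz, hw]
  have hzre : z.re = -1 := by simp [hz, hw]; norm_num
  have h1im : (1 - z).im ≠ 0 := by
    rw [Complex.sub_im, Complex.one_im, zero_sub, hzim]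
    exact neg_ne_zero.2 hyv
  have h1re : (1 - z).re = 2 := by
    rw [Complex.sub_re, Complex.one_re, hzre]
    norm_num
  have hz1 : z ≠ 1 := by
    intro h
    rw [h] at hzim
    simp at hzim
    exact hyv hzim.symm
  have hfe : riemannZeta z = Xf (1 - z) * riemannZeta (1 - z) := by
    have := zeta_one_sub h1im
    rwa [sub_sub_cancel] at this
  have hZ : 1 ≤ Zm T := by
    unfold Zm
    exact Nat.one_le_ceil_iff.2 (by positivity)
  have ht := zeta_tail h1re hZ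
  have hsum : ∑ n ∈ Finset.Icc 1 (Zm T), (n : ℂ) ^ (-(1 - z)) = AfeL_D T y w := by
    unfold AfeL_D
    refine Finset.sum_congr rfl fun n _ ↦ ?_
    congr 1
    rw [hz]
    ring
  rw [hsum] at ht
  have hmain : PhiA T y w / w - AfeL_A T y w * AfeL_D T y w =
      AfeL_A T y w * (riemannZeta (1 - z) - AfeL_D T y w) := by
    unfold PhiA AfeL_A
    rw [← hz, zetaPole_of_ne hz1, hfe]
    ring
  rw [hmain, norm_mul]
  exact mul_le_mul_of_nonneg_left ht (norm_nonneg _)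

private lemma AfeL_gs (v : ℝ) : (1 + |v|) ^ 2 * Real.exp (-v ^ 2) ≤ 4 * Real.exp (-(v ^ 2 / 2)) := by
  have h1 := AfeL_sq v
  have h2 : Real.exp (-v ^ 2) = Real.exp (-(v ^ 2 / 2)) * Real.exp (-(v ^ 2 / 2)) := by
    rw [← Real.exp_add]
    congr 1
    ring
  have h3 : Real.exp (v ^ 2 / 2) * Real.exp (-(v ^ 2 / 2)) = 1 := by
    rw [← Real.exp_add]
    simp
  have h4 : 0 < Real.exp (-(v ^ 2 / 2)) := Real.exp_pos _
  calc (1 + |v|) ^ 2 * Real.exp (-v ^ 2) ≤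
        4 * Real.exp (v ^ 2 / 2) * Real.exp (-v ^ 2) := by gcongr
    _ = 4 * (Real.exp (v ^ 2 / 2) * Real.exp (-(v ^ 2 / 2))) * Real.exp (-(v ^ 2 / 2)) := by
        rw [h2]; ring
    _ = _ := by rw [h3]; ring

private lemma AfeL_dec (v : ℝ) :
    (1 + |v|) ^ 2 * Real.exp (-v ^ 2) ≤ 16 * (1 + |v|) ^ (-(2 : ℝ)) := by
  have h1 := AfeL_sq v
  have h0 : 0 < 1 + |v| := by positivity
  have h2 : (1 + |v|) ^ (-(2 : ℝ)) = ((1 + |v|) ^ 2)⁻¹ := by
    rw [Real.rpow_neg h0.le]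
    norm_num
  have h3 : Real.exp (v ^ 2 / 2) * Real.exp (v ^ 2 / 2) * Real.exp (-v ^ 2) = 1 := by
    rw [← Real.exp_add, ← Real.exp_add]
    have : v ^ 2 / 2 + v ^ 2 / 2 + -v ^ 2 = 0 := by ring
    rw [this, Real.exp_zero]
  rw [h2, ← div_eq_mul_inv, le_div_iff₀ (by positivity)]
  calc (1 + |v|) ^ 2 * Real.exp (-v ^ 2) * (1 + |v|) ^ 2 =
        (1 + |v|) ^ 2 * (1 + |v|) ^ 2 * Real.exp (-v ^ 2) := by ring
    _ ≤ (4 * Real.exp (v ^ 2 / 2)) * (4 * Real.exp (v ^ 2 / 2)) * Real.exp (-v ^ 2) := by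
        gcongr
    _ = 16 * (Real.exp (v ^ 2 / 2) * Real.exp (v ^ 2 / 2) * Real.exp (-v ^ 2)) := by ring
    _ = 16 := by rw [h3, mul_one]

theorem afe_left : ∃ C : ℝ, 0 < C ∧ ∀ᶠ T : ℝ in atTop, ∀ y : ℝ, |y| ≤ 8 * T →
    ‖∫ v : ℝ, PhiA T y (-(3 / 2) + v * I) / (-(3 / 2) + v * I)‖ ≤
      C * ‖(1 / 2 + y * I - 1 : ℂ)‖ * Real.log T *
        (1 + ∫ v : ℝ, Real.exp (-(v ^ 2 / 2)) * ‖Pz T (y + v)‖) := by
  obtain ⟨CX, hCX, hX⟩ := Xf_bound
  set J : ℝ := ∫ v : ℝ, Real.exp (-(v ^ 2 / 2)) with hJ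
  have hJ0 : 0 ≤ J := integral_nonneg fun v ↦ (Real.exp_pos _).le
  refine ⟨CX * (108 * Real.exp 2 + 324 * Real.exp (9 / 4) * J), by positivity, ?_⟩
  filter_upwards [eventually_ge_atTop (Real.exp 1)] with T hT y hy
  have hTpos : 0 < T := (Real.exp_pos 1).trans_le hT
  have hT1 : 1 ≤ T := (Real.one_le_exp zero_le_one).trans hT
  have hL : 1 ≤ Real.log T := by rw [Real.le_log_iff_exp_le hTpos]; exact hT
  have hTL : T ^ (1 / Real.log T) = Real.exp 1 := by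
    rw [Real.rpow_def_of_pos hTpos, mul_one_div, div_self (by linarith)]
  have hDline : ∀ v : ℝ, ‖AfeL_D T y (((-(1 / Real.log T) : ℝ) : ℂ) + v * I)‖ =
      ‖Pz T (y + v)‖ := fun v ↦ AfeL_Dline
  have hPc : Continuous fun v : ℝ ↦ Pz T (y + v) := by
    unfold Pz dp
    refine continuous_finsetSum _ fun n hn ↦ ?_
    have hn1 : 1 ≤ n := (Finset.mem_Icc.1 hn).1
    have hn0 : (n : ℂ) ≠ 0 := by exact_mod_cast (by omega : n ≠ 0)
    refine continuous_const.mul (Continuous.const_cpow (by fun_prop) (Or.inl hn0))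
  have hPb : ∀ v : ℝ, ‖Pz T (y + v)‖ ≤ Zm T := by
    intro v
    rw [← hDline v]
    refine AfeL_Dn ?_
    have : ((((-(1 / Real.log T) : ℝ) : ℂ) + v * I).re) = -(1 / Real.log T) := by simp
    rw [this]
    have : 0 < 1 / Real.log T := by positivity
    linarith
  set L := Real.log T with hLdef
  have hLpos : 0 < L := by linarith
  have hLi : 0 < 1 / L := by positivity
  have hLi1 : 1 / L ≤ 1 := by rw [div_le_one hLpos]; exact hL
  set s1 : ℝ := ‖(1 / 2 + y * I - 1 : ℂ)‖ with hs1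
  have hs1p : 1 / 2 ≤ s1 := AfeL_s1 y
  have hs0 : 0 < s1 := by linarith
  have hZT : T ^ (3 / 4 : ℝ) ≤ (Zm T : ℝ) := Nat.le_ceil _
  have hZpos : 0 < (Zm T : ℝ) := lt_of_lt_of_le (by positivity) hZT
  have hsq1 : 1 ≤ Real.sqrt T := Real.one_le_sqrt.2 hT1
  have hgi : Integrable fun v : ℝ ↦ Real.exp (-(v ^ 2 / 2)) := by
    have h := integrable_exp_neg_mul_sq (b := 1 / 2) (by norm_num)
    refine h.congr (ae_of_all _ fun v ↦ ?_)
    simp only
    congr 1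
    ring
  have hfac : ∀ w : ℂ, w.re ≤ -(1 / L) → (1 + 2 * ‖w‖) / ‖w‖ ≤ 3 * L := by
    intro w hw
    have h1 : 1 / L ≤ ‖w‖ := by
      have := Complex.abs_re_le_norm w
      have h2 := neg_le_abs w.re
      linarith
    have h2 : 0 < ‖w‖ := by linarith
    have h3 : 1 ≤ L * ‖w‖ := by
      calc (1 : ℝ) = L * (1 / L) := by field_simp
        _ ≤ L * ‖w‖ := by gcongr
    rw [div_le_iff₀ h2]
    nlinarith
  -- general bound in the strip
  have hgen : ∀ w : ℂ, -(3 / 2) ≤ w.re → w.re ≤ -(1 / L) →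
      ‖AfeL_A T y w‖ ≤ s1 * CX * ((9 * T) ^ (-w.re) * (Real.sqrt T) ^ (w.re)) *
        ((1 + |w.im|) ^ 2 * Real.exp (w.re ^ 2 - w.im ^ 2) * (3 * L)) := by
    intro w h1 h2
    refine (AfeL_A_norm hCX hX hT1 hy (by linarith) h1).trans ?_
    gcongr
    exact hfac w h2
  have hexp : ∀ w : ℂ, Real.exp (w.re ^ 2 - w.im ^ 2) =
      Real.exp (w.re ^ 2) * Real.exp (-w.im ^ 2) := by
    intro w
    rw [← Real.exp_add]
    congr 1
  set K : ℝ := s1 * CX * (9 * T) ^ (3 / 2 : ℝ) * (Real.exp (9 / 4) * 16 * (3 * L)) * Zm T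
    with hK
  have hstrip : ∀ w : ℂ, ((-(3 / 2) : ℝ)) ≤ w.re → w.re ≤ -(1 / L) →
      ‖AfeL_A T y w * AfeL_D T y w‖ ≤ K * (1 + |w.im|) ^ (-(2 : ℝ)) := by
    intro w h1 h2
    have hw0 : w.re ≤ 0 := by linarith
    have e1 : (9 * T) ^ (-w.re) * (Real.sqrt T) ^ (w.re) ≤ (9 * T) ^ (3 / 2 : ℝ) * 1 := by
      have a1 : (9 * T) ^ (-w.re) ≤ (9 * T) ^ (3 / 2 : ℝ) :=
        Real.rpow_le_rpow_of_exponent_le (by linarith) (by linarith)
      have a2 : (Real.sqrt T) ^ (w.re) ≤ 1 :=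
        Real.rpow_le_one_of_one_le_of_nonpos hsq1 hw0
      gcongr
    have e2 : (1 + |w.im|) ^ 2 * Real.exp (w.re ^ 2 - w.im ^ 2) ≤
        Real.exp (9 / 4) * (16 * (1 + |w.im|) ^ (-(2 : ℝ))) := by
      rw [hexp w]
      have a1 : Real.exp (w.re ^ 2) ≤ Real.exp (9 / 4) := Real.exp_le_exp.2 (by nlinarith)
      have a2 := AfeL_dec w.im
      calc (1 + |w.im|) ^ 2 * (Real.exp (w.re ^ 2) * Real.exp (-w.im ^ 2)) =
            Real.exp (w.re ^ 2) * ((1 + |w.im|) ^ 2 * Real.exp (-w.im ^ 2)) := by ring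
        _ ≤ _ := by gcongr
    rw [norm_mul]
    calc ‖AfeL_A T y w‖ * ‖AfeL_D T y w‖ ≤
          (s1 * CX * ((9 * T) ^ (3 / 2 : ℝ) * 1) *
          ((Real.exp (9 / 4) * (16 * (1 + |w.im|) ^ (-(2 : ℝ)))) * (3 * L))) * Zm T := by
          refine mul_le_mul ((hgen w h1 h2).trans ?_) (AfeL_Dn hw0) (norm_nonneg _) (by positivity)
          gcongr
      _ = K * (1 + |w.im|) ^ (-(2 : ℝ)) := by rw [hK]; ring
  have hdiffb : ∀ w : ℂ, ((-(3 / 2) : ℝ)) ≤ w.re → w.re ≤ -(1 / L) →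
      DifferentiableAt ℂ (fun w ↦ AfeL_A T y w * AfeL_D T y w) w := fun w _ h2 ↦
    AfeL_diff hT1 (by linarith)
  have hshift := vertical_shift (Φ := fun w ↦ AfeL_A T y w * AfeL_D T y w)
    (l := -(3 / 2)) (u := -(1 / L)) (by linarith) hdiffb (K := K) (p := 2) (by norm_num) hstrip
  have hre : ∀ x v : ℝ, ((x : ℂ) + v * I).re = x := by intro x v; simp
  have him : ∀ x v : ℝ, ((x : ℂ) + v * I).im = v := by intro x v; simp
  have hGi : Integrable fun v : ℝ ↦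
      (fun w ↦ AfeL_A T y w * AfeL_D T y w) (((-(3 / 2) : ℝ) : ℂ) + v * I) := by
    refine vertical_integrable (K := K) (p := 2) (by norm_num)
      (fun v ↦ (hdiffb _ (by rw [hre]) (by rw [hre]; linarith)).continuousAt) fun v ↦ ?_
    have := hstrip (((-(3 / 2) : ℝ) : ℂ) + v * I) (by rw [hre]) (by rw [hre]; linarith)
    rwa [him] at this
  have hcast : (((-(3 / 2) : ℝ) : ℂ)) = -(3 / 2) := by push_cast; rfl
  rw [hcast] at hshift hGi
  simp only at hshift hGi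
  set f : ℝ → ℂ := fun v ↦ PhiA T y (-(3 / 2) + v * I) / (-(3 / 2) + v * I) with hf
  set g : ℝ → ℂ := fun v ↦ AfeL_A T y (-(3 / 2) + v * I) * AfeL_D T y (-(3 / 2) + v * I) with hg
  have hfc : Continuous f := by
    have hsq : ((Real.sqrt T : ℝ) : ℂ) ≠ 0 := by exact_mod_cast (by linarith : Real.sqrt T ≠ 0)
    have hz : Continuous fun v : ℝ ↦ zetaPole (1 / 2 + y * I + (-(3 / 2) + v * I)) :=
      zetaPole_differentiable.continuous.comp (by fun_prop)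
    have hc : Continuous fun v : ℝ ↦ ((Real.sqrt T : ℝ) : ℂ) ^ (-(3 / 2) + v * I : ℂ) :=
      Continuous.const_cpow (by fun_prop) (Or.inl hsq)
    rw [hf]
    unfold PhiA
    refine Continuous.div ((hz.mul hc).mul (by fun_prop)) (by fun_prop) fun v h ↦ ?_
    have h1 := congrArg Complex.re h
    simp at h1
  have htail : ∀ᵐ v : ℝ, ‖f v - g v‖ ≤
      (s1 * CX * L * (324 * Real.exp (9 / 4))) * Real.exp (-(v ^ 2 / 2)) := by
    have hne : ∀ᵐ v : ℝ, v ≠ -y := by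
      have : (volume : Measure ℝ) {-y} = 0 := measure_singleton _
      rw [ae_iff]
      simp
    filter_upwards [hne] with v hv
    have hyv : y + v ≠ 0 := by
      intro h
      apply hv
      linarith
    refine (AfeL_sum hT1 hyv).trans ?_
    have h1 : (-(3 / 2) + v * I : ℂ).re = -(3 / 2) := by simp
    have h2 : (-(3 / 2) + v * I : ℂ).im = v := by simp
    have h3 := hgen (-(3 / 2) + v * I) (by rw [h1]) (by rw [h1]; linarith)
    rw [hexp, h1, h2] at h3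
    have e1 : (9 * T) ^ (-(-(3 / 2) : ℝ)) * Real.sqrt T ^ (-(3 / 2) : ℝ) =
        27 * T ^ (3 / 4 : ℝ) := by
      have a1 : (9 * T) ^ (-(-(3 / 2) : ℝ)) = 27 * T ^ (3 / 2 : ℝ) := by
        rw [neg_neg, Real.mul_rpow (by norm_num) hTpos.le]
        congr 1
        rw [show (9 : ℝ) = 3 ^ (2 : ℝ) by norm_num, ← Real.rpow_mul (by norm_num)]
        norm_num
      have a2 : Real.sqrt T ^ (-(3 / 2) : ℝ) = T ^ (-(3 / 4) : ℝ) := by
        rw [Real.sqrt_eq_rpow, ← Real.rpow_mul hTpos.le]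
        norm_num
      rw [a1, a2, mul_assoc, ← Real.rpow_add hTpos]
      norm_num
    rw [e1] at h3
    have e2 : T ^ (3 / 4 : ℝ) * (1 / Zm T) ≤ 1 := by
      rw [mul_one_div, div_le_one hZpos]
      exact hZT
    have e3 := AfeL_gs v
    have e4 : Real.exp ((-(3 / 2) : ℝ) ^ 2) = Real.exp (9 / 4) := by norm_num
    rw [e4] at h3
    calc ‖AfeL_A T y (-(3 / 2) + v * I)‖ * (1 / Zm T) ≤
          (s1 * CX * (27 * T ^ (3 / 4 : ℝ)) * ((1 + |v|) ^ 2 *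
            (Real.exp (9 / 4) * Real.exp (-v ^ 2)) * (3 * L))) * (1 / Zm T) := by gcongr
      _ = s1 * CX * L * 81 * Real.exp (9 / 4) * (T ^ (3 / 4 : ℝ) * (1 / Zm T)) *
            ((1 + |v|) ^ 2 * Real.exp (-v ^ 2)) := by ring
      _ ≤ s1 * CX * L * 81 * Real.exp (9 / 4) * 1 * (4 * Real.exp (-(v ^ 2 / 2))) := by gcongr
      _ = _ := by ring
  have hdi : Integrable fun v ↦ f v - g v :=
    (hgi.const_mul _).mono' (hfc.aestronglyMeasurable.sub hGi.aestronglyMeasurable) htail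
  have hsplit : ∫ v, f v = (∫ v, g v) + ∫ v, (f v - g v) := by
    rw [← integral_add hGi hdi]
    congr 1
    funext v
    ring
  have hmain : ‖∫ v, g v‖ ≤ (s1 * CX * L * (108 * Real.exp 2)) *
      ∫ v : ℝ, Real.exp (-(v ^ 2 / 2)) * ‖Pz T (y + v)‖ := by
    have hPi : Integrable fun v : ℝ ↦ Real.exp (-(v ^ 2 / 2)) * ‖Pz T (y + v)‖ := by
      refine (hgi.mul_const (Zm T : ℝ)).mono' ?_ (ae_of_all _ fun v ↦ ?_)
      · exact ((by fun_prop : Continuous fun v : ℝ ↦ Real.exp (-(v ^ 2 / 2))).mul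
          hPc.norm).aestronglyMeasurable
      · rw [Real.norm_of_nonneg (by positivity)]
        have := hPb v
        gcongr
    rw [hg, hshift, ← integral_const_mul]
    refine norm_integral_le_of_norm_le (hPi.const_mul _) (ae_of_all _ fun v ↦ ?_)
    rw [norm_mul, hDline v]
    have h1 : ((((-(1 / L) : ℝ) : ℂ) + v * I)).re = -(1 / L) := hre _ _
    have h2 : ((((-(1 / L) : ℝ) : ℂ) + v * I)).im = v := him _ _
    have h3 := hgen (((-(1 / L) : ℝ) : ℂ) + v * I) (by rw [h1]; linarith) (by rw [h1])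
    rw [hexp, h1, h2] at h3
    have e1 : (9 * T) ^ (-(-(1 / L) : ℝ)) * Real.sqrt T ^ (-(1 / L) : ℝ) ≤
        (9 * Real.exp 1) * 1 := by
      have a1 : (9 * T) ^ (-(-(1 / L) : ℝ)) ≤ 9 * Real.exp 1 := by
        rw [neg_neg, Real.mul_rpow (by norm_num) hTpos.le, hTL]
        have : (9 : ℝ) ^ (1 / L) ≤ 9 ^ (1 : ℝ) :=
          Real.rpow_le_rpow_of_exponent_le (by norm_num) hLi1
        rw [Real.rpow_one] at this
        gcongr
      have a2 : Real.sqrt T ^ (-(1 / L) : ℝ) ≤ 1 :=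
        Real.rpow_le_one_of_one_le_of_nonpos hsq1 (by linarith)
      gcongr
    have e2 : Real.exp ((-(1 / L) : ℝ) ^ 2) ≤ Real.exp 1 := by
      apply Real.exp_le_exp.2
      nlinarith
    have e3 := AfeL_gs v
    have e4 : Real.exp 2 = Real.exp 1 * Real.exp 1 := by rw [← Real.exp_add]; norm_num
    calc ‖AfeL_A T y (((-(1 / L) : ℝ) : ℂ) + v * I)‖ * ‖Pz T (y + v)‖ ≤
          (s1 * CX * ((9 * Real.exp 1) * 1) * ((1 + |v|) ^ 2 *
            (Real.exp 1 * Real.exp (-v ^ 2)) * (3 * L))) * ‖Pz T (y + v)‖ := by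
          refine mul_le_mul_of_nonneg_right (h3.trans ?_) (norm_nonneg _)
          gcongr
      _ = s1 * CX * L * 27 * (Real.exp 1 * Real.exp 1) *
            ((1 + |v|) ^ 2 * Real.exp (-v ^ 2)) * ‖Pz T (y + v)‖ := by ring
      _ ≤ s1 * CX * L * 27 * (Real.exp 1 * Real.exp 1) *
            (4 * Real.exp (-(v ^ 2 / 2))) * ‖Pz T (y + v)‖ := by gcongr
      _ = _ := by rw [e4]; ring
  have htl : ‖∫ v, (f v - g v)‖ ≤ (s1 * CX * L * (324 * Real.exp (9 / 4))) * J := by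
    rw [hJ, ← integral_const_mul]
    exact norm_integral_le_of_norm_le (hgi.const_mul _) htail
  have hPn : 0 ≤ ∫ v : ℝ, Real.exp (-(v ^ 2 / 2)) * ‖Pz T (y + v)‖ :=
    integral_nonneg fun v ↦ by positivity
  rw [hsplit]
  refine (norm_add_le _ _).trans ((add_le_add hmain htl).trans ?_)
  have q1 : 0 ≤ s1 * CX * L * (108 * Real.exp 2) := by positivity
  have q2 : 0 ≤ s1 * CX * L * (324 * Real.exp (9 / 4) * J) *
      ∫ v : ℝ, Real.exp (-(v ^ 2 / 2)) * ‖Pz T (y + v)‖ := mul_nonneg (by positivity) hPn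
  nlinarith

end Pool.Agent.H62.ST
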