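import Pool.Agent.H62.ST.Defs
import Pool.Agent.H6.Shift

/-!
# Module Res: moving a vertical line across the pole of `Φ(w)/w` at `0`

1. `g(w) = (Φ(w) - Φ(0) exp(w^2))/w` extends analytically to `w = 0` (`dslope`), so by
   `Pool.Agent.H6.vertical_shift` its integrals over `Re w = l` and `Re w = u` agree.
2. `∫ exp((u+iy)^2)/(u+iy) dy = π` for `u > 0`, by `1/(u+iy) = ∫_0^∞ exp(-x(u+iy)) dx`, Fubini and the
   Gaussian Fourier integral.
-/

set_option autoImplicit false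

open Complex Filter Topology MeasureTheory Set Metric
open scoped ArithmeticFunction.vonMangoldt

namespace Pool.Agent.H62.ST

open Pool.Agent.H6 Pool.Agent.H6.Win

private lemma res_norm_exp_sq (u y : ℝ) :
    ‖cexp (((u : ℂ) + y * I) ^ 2)‖ = Real.exp (u ^ 2) * Real.exp (-y ^ 2) := by
  rw [Complex.norm_exp, ← Real.exp_add]
  congr 1
  simp [pow_two]
  ring

private lemma res_inner {u : ℝ} (x y : ℝ) :
    cexp (((u : ℂ) + y * I) ^ 2 - x * ((u : ℂ) + y * I)) =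
      cexp ((-1 : ℂ) * (y : ℂ) ^ 2 + (I * (2 * u - x)) * y + (u ^ 2 - x * u)) := by
  congr 1
  have : (I : ℂ) ^ 2 = -1 := I_sq
  linear_combination ((y : ℂ) ^ 2) * this

private lemma res_gauss {u : ℝ} (x : ℝ) :
    ∫ y : ℝ, cexp (((u : ℂ) + y * I) ^ 2 - x * ((u : ℂ) + y * I)) =
      ((Real.sqrt Real.pi * Real.exp (-(1 / 4) * x ^ 2) : ℝ) : ℂ) := by
  simp_rw [res_inner (u := u) x]
  rw [integral_cexp_quadratic (by simp)]
  push_cast
  have h1 : ((Real.pi : ℂ) / - -1) ^ (1 / 2 : ℂ) = ((Real.sqrt Real.pi : ℝ) : ℂ) := by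
    rw [Real.sqrt_eq_rpow, Complex.ofReal_cpow Real.pi_pos.le]
    norm_num
  rw [h1]
  congr 2
  have : (I : ℂ) ^ 2 = -1 := I_sq
  linear_combination ((2 * (u : ℂ) - x) ^ 2 / 4) * this

private lemma res_laplace {u : ℝ} (hu : 0 < u) (y : ℝ) :
    ∫ x in Ioi (0 : ℝ), cexp (((u : ℂ) + y * I) ^ 2 - x * ((u : ℂ) + y * I)) =
      cexp (((u : ℂ) + y * I) ^ 2) / ((u : ℂ) + y * I) := by
  have h0 : (-((u : ℂ) + y * I)).re < 0 := by simp [hu]
  have h := integral_exp_mul_complex_Ioi (a := -((u : ℂ) + y * I)) h0 0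
  have h2 : ∀ x : ℝ, cexp (((u : ℂ) + y * I) ^ 2 - x * ((u : ℂ) + y * I)) =
      cexp (((u : ℂ) + y * I) ^ 2) * cexp (-((u : ℂ) + y * I) * x) := by
    intro x
    rw [← Complex.exp_add]
    congr 1
    ring
  simp_rw [h2]
  rw [integral_const_mul, h]
  have h3 : -cexp (-((u : ℂ) + y * I) * ((0 : ℝ) : ℂ)) / -((u : ℂ) + y * I) =
      1 / ((u : ℂ) + y * I) := by
    rw [neg_div_neg_eq]
    simp
  rw [h3, mul_one_div]

private lemma res_pi {u : ℝ} (hu : 0 < u) :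
    ∫ y : ℝ, cexp (((u : ℂ) + y * I) ^ 2) / ((u : ℂ) + y * I) = Real.pi := by
  have hint : Integrable (Function.uncurry fun (y x : ℝ) ↦
      cexp (((u : ℂ) + y * I) ^ 2 - x * ((u : ℂ) + y * I)))
      (volume.prod (volume.restrict (Ioi (0 : ℝ)))) := by
    have h1 : Integrable (fun y : ℝ ↦ Real.exp (u ^ 2) * Real.exp (-1 * y ^ 2)) :=
      (integrable_exp_neg_mul_sq one_pos).const_mul _
    have h2 : Integrable (fun x : ℝ ↦ Real.exp (-u * x)) (volume.restrict (Ioi (0 : ℝ))) :=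
      integrableOn_exp_mul_Ioi (by linarith) 0
    refine (h1.mul_prod h2).mono' ?_ ?_
    · refine Continuous.aestronglyMeasurable ?_
      fun_prop
    · refine Eventually.of_forall fun z ↦ ?_
      simp only [Function.uncurry]
      rw [Complex.exp_sub, norm_div, res_norm_exp_sq, Complex.norm_exp, div_eq_mul_inv,
        ← Real.exp_neg]
      refine le_of_eq ?_
      congr 1
      · congr 2; ring
      · congr 1; simp; ring
  have h := integral_integral_swap hint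
  simp_rw [res_laplace hu, res_gauss] at h
  rw [h, integral_complex_ofReal]
  congr 1
  rw [integral_const_mul, integral_gaussian_Ioi]
  rw [show Real.pi / (1 / 4) = 2 ^ 2 * Real.pi by ring, Real.sqrt_mul (by positivity),
    Real.sqrt_sq (by norm_num)]
  have := Real.mul_self_sqrt Real.pi_pos.le
  linarith

private lemma res_neg_pi {l : ℝ} (hl : l < 0) :
    ∫ y : ℝ, cexp (((l : ℂ) + y * I) ^ 2) / ((l : ℂ) + y * I) = -Real.pi := by
  rw [← integral_neg_eq_self]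
  have h := res_pi (u := -l) (by linarith)
  rw [← h, ← integral_neg]
  refine integral_congr_ae (Eventually.of_forall fun y ↦ ?_)
  simp only
  rw [← div_neg]
  congr 2
  · push_cast; ring
  · push_cast; ring

private lemma res_exp_bound {l u p : ℝ} (hp2 : p ≤ 2) (s : ℂ) (h1 : l ≤ s.re)
    (h2 : s.re ≤ u) : ‖cexp (s ^ 2)‖ ≤ (2 * Real.exp (l ^ 2 + u ^ 2)) * (1 + |s.im|) ^ (-p) := by
  have h3 : s = (s.re : ℂ) + s.im * I := (Complex.re_add_im s).symm
  rw [h3, res_norm_exp_sq]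
  have him : ((s.re : ℂ) + s.im * I).im = s.im := by simp
  rw [him]
  have h4 : Real.exp (s.re ^ 2) ≤ Real.exp (l ^ 2 + u ^ 2) := by
    apply Real.exp_le_exp.2
    rcases le_total 0 s.re with h | h
    · nlinarith [sq_nonneg l]
    · nlinarith [sq_nonneg u]
  have h5 : Real.exp (-s.im ^ 2) ≤ 2 * (1 + |s.im|) ^ (-p) := by
    have h6 : (1 + |s.im|) ^ (-2 : ℝ) ≤ (1 + |s.im|) ^ (-p) :=
      Real.rpow_le_rpow_of_exponent_le (by linarith [abs_nonneg s.im]) (by linarith)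
    have h7 : Real.exp (-s.im ^ 2) ≤ 2 * (1 + |s.im|) ^ (-2 : ℝ) := by
      rw [Real.rpow_neg (by positivity), Real.exp_neg]
      have h8 : (1 + |s.im|) ^ (2 : ℝ) = (1 + |s.im|) ^ 2 := by norm_cast
      rw [h8]
      have h9 : s.im ^ 2 + 1 ≤ Real.exp (s.im ^ 2) := Real.add_one_le_exp _
      have h10 : (1 + |s.im|) ^ 2 ≤ 2 * (s.im ^ 2 + 1) := by
        nlinarith [sq_nonneg (1 - |s.im|), sq_abs s.im]
      rw [← div_eq_mul_inv, inv_eq_one_div, div_le_div_iff₀ (Real.exp_pos _) (by positivity)]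
      linarith
    linarith
  calc Real.exp (s.re ^ 2) * Real.exp (-s.im ^ 2)
      ≤ Real.exp (l ^ 2 + u ^ 2) * (2 * (1 + |s.im|) ^ (-p)) :=
        mul_le_mul h4 h5 (Real.exp_pos _).le (Real.exp_pos _).le
    _ = _ := by ring

theorem res_shift {Φ : ℂ → ℂ} {l u K p : ℝ} (hl : l < 0) (hu : 0 < u) (hp : 1 < p)
    (hΦ : ∀ s : ℂ, l ≤ s.re → s.re ≤ u → DifferentiableAt ℂ Φ s)
    (hb : ∀ s : ℂ, l ≤ s.re → s.re ≤ u → ‖Φ s‖ ≤ K * (1 + |s.im|) ^ (-p)) :
    (∫ y : ℝ, Φ ((u : ℂ) + y * I) / ((u : ℂ) + y * I)) -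
      (∫ y : ℝ, Φ ((l : ℂ) + y * I) / ((l : ℂ) + y * I)) = 2 * Real.pi * Φ 0 := by
  set p' := min p 2 with hp'
  have hp1 : 1 < p' := lt_min hp (by norm_num)
  have hp2 : p' ≤ 2 := min_le_right _ _
  have hK : 0 ≤ K := by
    have h1 := (norm_nonneg _).trans (hb 0 (by simpa using hl.le) (by simpa using hu.le))
    simpa using h1
  have hb' : ∀ s : ℂ, l ≤ s.re → s.re ≤ u → ‖Φ s‖ ≤ K * (1 + |s.im|) ^ (-p') := by
    intro s h1 h2
    refine (hb s h1 h2).trans (mul_le_mul_of_nonneg_left ?_ hK)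
    exact Real.rpow_le_rpow_of_exponent_le (by linarith [abs_nonneg s.im])
      (by linarith [min_le_left p 2])
  set Φ1 : ℂ → ℂ := fun w ↦ Φ w - Φ 0 * cexp (w ^ 2) with hΦ1
  set g : ℂ → ℂ := dslope Φ1 0 with hg
  have h0 : Φ1 0 = 0 := by simp [hΦ1]
  have hgne : ∀ w : ℂ, w ≠ 0 → g w = Φ1 w / w := by
    intro w hw
    rw [hg, dslope_of_ne _ hw, slope_def_field, h0]
    simp
  have hΦ1d : ∀ s : ℂ, l ≤ s.re → s.re ≤ u → DifferentiableAt ℂ Φ1 s := by
    intro s h1 h2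
    have := hΦ s h1 h2
    fun_prop
  have hopen : IsOpen {s : ℂ | l < s.re ∧ s.re < u} :=
    (isOpen_lt continuous_const Complex.continuous_re).inter
      (isOpen_lt Complex.continuous_re continuous_const)
  have hgd : ∀ s : ℂ, l ≤ s.re → s.re ≤ u → DifferentiableAt ℂ g s := by
    intro s h1 h2
    by_cases hs : s = 0
    · have h3 : {s : ℂ | l < s.re ∧ s.re < u} ∈ 𝓝 (0 : ℂ) := hopen.mem_nhds (by simp [hl, hu])
      have h4 : DifferentiableOn ℂ Φ1 {s : ℂ | l < s.re ∧ s.re < u} := fun z hz ↦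
        (hΦ1d z hz.1.le hz.2.le).differentiableWithinAt
      rw [hs]
      exact ((Complex.differentiableOn_dslope h3).2 h4).differentiableAt h3
    · exact (differentiableAt_dslope_of_ne hs).2 (hΦ1d s h1 h2)
  set K1 : ℝ := K + ‖Φ 0‖ * (2 * Real.exp (l ^ 2 + u ^ 2)) with hK1
  have hK1n : 0 ≤ K1 := by positivity
  have hb1 : ∀ s : ℂ, l ≤ s.re → s.re ≤ u → ‖Φ1 s‖ ≤ K1 * (1 + |s.im|) ^ (-p') := by
    intro s h1 h2
    calc ‖Φ1 s‖ ≤ ‖Φ s‖ + ‖Φ 0 * cexp (s ^ 2)‖ := norm_sub_le _ _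
      _ ≤ K * (1 + |s.im|) ^ (-p') +
          ‖Φ 0‖ * ((2 * Real.exp (l ^ 2 + u ^ 2)) * (1 + |s.im|) ^ (-p')) := by
        rw [norm_mul]
        exact add_le_add (hb' s h1 h2)
          (mul_le_mul_of_nonneg_left (res_exp_bound hp2 s h1 h2) (norm_nonneg _))
      _ = _ := by rw [hK1]; ring
  -- the compact part
  have hcomp : IsCompact (Icc l u ×ℂ Icc (-1 : ℝ) 1) :=
    IsCompact.reProdIm isCompact_Icc isCompact_Icc
  have hcont : ContinuousOn (fun z ↦ ‖g z‖) (Icc l u ×ℂ Icc (-1 : ℝ) 1) := by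
    intro z hz
    rw [mem_reProdIm] at hz
    exact (hgd z hz.1.1 hz.1.2).continuousAt.norm.continuousWithinAt
  obtain ⟨M, hM⟩ := hcomp.bddAbove_image hcont
  have hM' : ∀ s : ℂ, l ≤ s.re → s.re ≤ u → |s.im| ≤ 1 → ‖g s‖ ≤ max M 0 := by
    intro s h1 h2 h3
    refine le_trans (hM ⟨s, ?_, rfl⟩) (le_max_left _ _)
    rw [mem_reProdIm]
    exact ⟨⟨h1, h2⟩, abs_le.1 h3⟩
  set K2 : ℝ := max M 0 * 4 + K1 with hK2
  have hb2 : ∀ s : ℂ, l ≤ s.re → s.re ≤ u → ‖g s‖ ≤ K2 * (1 + |s.im|) ^ (-p') := by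
    intro s h1 h2
    have hpos : 0 < (1 + |s.im|) ^ (-p') := Real.rpow_pos_of_pos (by positivity) _
    rcases le_total |s.im| 1 with h3 | h3
    · have h4 : (1 / 4 : ℝ) ≤ (1 + |s.im|) ^ (-p') := by
        have h5 : (2 : ℝ) ^ (-2 : ℝ) ≤ (1 + |s.im|) ^ (-p') := by
          calc (2 : ℝ) ^ (-2 : ℝ) ≤ (2 : ℝ) ^ (-p') :=
                Real.rpow_le_rpow_of_exponent_le (by norm_num) (by linarith)
            _ ≤ _ := Real.rpow_le_rpow_of_nonpos (by positivity) (by linarith) (by linarith)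
        have h6 : (2 : ℝ) ^ (-2 : ℝ) = 1 / 4 := by
          rw [Real.rpow_neg (by norm_num)]
          norm_num
        rw [h6] at h5
        exact h5
      have h5 := hM' s h1 h2 h3
      have h6 : 0 ≤ max M 0 := le_max_right _ _
      have h7 : 0 ≤ K1 * (1 + |s.im|) ^ (-p') := by positivity
      rw [hK2, add_mul]
      nlinarith
    · have hs : s ≠ 0 := by
        rintro rfl
        norm_num at h3
      rw [hgne s hs, norm_div]
      have h4 : 1 ≤ ‖s‖ := h3.trans (Complex.abs_im_le_norm s)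
      have h5 : ‖Φ1 s‖ / ‖s‖ ≤ ‖Φ1 s‖ := div_le_self (norm_nonneg _) h4
      have h6 : 0 ≤ max M 0 * 4 * (1 + |s.im|) ^ (-p') := by positivity
      have h7 := hb1 s h1 h2
      rw [hK2, add_mul]
      linarith
  have hshift := vertical_shift (by linarith) hgd hp1 hb2
  have hint : ∀ x : ℝ, l ≤ x → x ≤ u → x ≠ 0 →
      (∫ y : ℝ, Φ ((x : ℂ) + y * I) / ((x : ℂ) + y * I)) =
        (∫ y : ℝ, g ((x : ℂ) + y * I)) +
          Φ 0 * ∫ y : ℝ, cexp (((x : ℂ) + y * I) ^ 2) / ((x : ℂ) + y * I) := by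
    intro x h1 h2 hx
    have hne : ∀ y : ℝ, (x : ℂ) + y * I ≠ 0 := by
      intro y h
      apply hx
      have := congrArg Complex.re h
      simpa using this
    have hre : ∀ y : ℝ, ((x : ℂ) + y * I).re = x := by intro y; simp
    have him : ∀ y : ℝ, ((x : ℂ) + y * I).im = y := by intro y; simp
    have i1 : Integrable fun y : ℝ ↦ g ((x : ℂ) + y * I) := by
      refine vertical_integrable (K := K2) hp1 (fun y ↦ (hgd _ ?_ ?_).continuousAt) fun y ↦ ?_
      · rw [hre]; exact h1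
      · rw [hre]; exact h2
      · have := hb2 ((x : ℂ) + y * I) (by rw [hre]; exact h1) (by rw [hre]; exact h2)
        rwa [him] at this
    have i2 : Integrable fun y : ℝ ↦ cexp (((x : ℂ) + y * I) ^ 2) / ((x : ℂ) + y * I) := by
      refine vertical_integrable (Φ := fun w ↦ cexp (w ^ 2) / w)
        (K := (2 * Real.exp (l ^ 2 + u ^ 2)) * |x|⁻¹) hp1 (fun y ↦ ?_) fun y ↦ ?_
      · exact ContinuousAt.div (by fun_prop) continuousAt_id (hne y)
      · rw [norm_div]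
        have h3 := res_exp_bound (l := l) (u := u) (p := p') hp2 ((x : ℂ) + y * I)
          (by rw [hre]; exact h1) (by rw [hre]; exact h2)
        rw [him] at h3
        have h4 : |x| ≤ ‖(x : ℂ) + y * I‖ := by
          have := Complex.abs_re_le_norm ((x : ℂ) + y * I)
          rwa [hre] at this
        have h5 : 0 < |x| := abs_pos.2 hx
        have h6 : 0 ≤ (2 * Real.exp (l ^ 2 + u ^ 2)) * (1 + |y|) ^ (-p') := by positivity
        calc ‖cexp (((x : ℂ) + y * I) ^ 2)‖ / ‖(x : ℂ) + y * I‖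
            ≤ ((2 * Real.exp (l ^ 2 + u ^ 2)) * (1 + |y|) ^ (-p')) / |x| :=
              div_le_div₀ h6 h3 h5 h4
          _ = _ := by rw [div_eq_mul_inv]; ring
    rw [← integral_const_mul, ← integral_add i1 (i2.const_mul _)]
    refine integral_congr_ae (Eventually.of_forall fun y ↦ ?_)
    simp only
    rw [hgne _ (hne y), hΦ1]
    simp only
    rw [sub_div]
    ring
  rw [hint u (by linarith) le_rfl hu.ne', hint l le_rfl (by linarith) hl.ne, res_pi hu,
    res_neg_pi hl, hshift]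
  ring

end Pool.Agent.H62.ST
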