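import Pool.Agent.H62.ST.AfeR
import Pool.Agent.H62.ST.AfeL
import Pool.Agent.H62.ST.Res

/-!
# Module Afe: the approximate functional equation as an inequality

`res_shift` with `Φ = PhiA T y`, `l = -3/2`, `u = 3/2` (entire; decay from `zetaPole_growth` and `|exp(w^2)| = exp(Re^2 - Im^2)`):
`2π zetaPole(1/2+iy) = right - left`, `zetaPole(s) = (s-1) ζ(s)`, divide by `‖s-1‖`.
-/

set_option autoImplicit false

open Complex Filter Topology MeasureTheory Set Metric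
open scoped ArithmeticFunction.vonMangoldt

namespace Pool.Agent.H62.ST

open Pool.Agent.H6 Pool.Agent.H6.Win

private lemma Afe_dec (v : ℝ) :
    (1 + |v|) ^ 4 * Real.exp (-v ^ 2) ≤ 216 * (1 + |v|) ^ (-(2 : ℝ)) := by
  have h1 : (1 + |v|) ^ 2 ≤ 6 * Real.exp (v ^ 2 / 3) := by
    have h1 := Real.add_one_le_exp (v ^ 2 / 3)
    have h2 : |v| ^ 2 = v ^ 2 := sq_abs v
    nlinarith [sq_nonneg (1 - |v|)]
  have h0 : 0 < 1 + |v| := by positivity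
  have h2 : (1 + |v|) ^ (-(2 : ℝ)) = ((1 + |v|) ^ 2)⁻¹ := by
    rw [Real.rpow_neg h0.le]
    norm_num
  have h3 : Real.exp (v ^ 2 / 3) ^ 3 * Real.exp (-v ^ 2) = 1 := by
    rw [← Real.exp_nat_mul, ← Real.exp_add]
    have : ((3 : ℕ) : ℝ) * (v ^ 2 / 3) + -v ^ 2 = 0 := by push_cast; ring
    rw [this, Real.exp_zero]
  rw [h2, ← div_eq_mul_inv, le_div_iff₀ (by positivity)]
  calc (1 + |v|) ^ 4 * Real.exp (-v ^ 2) * (1 + |v|) ^ 2 =
        ((1 + |v|) ^ 2) ^ 3 * Real.exp (-v ^ 2) := by ring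
    _ ≤ (6 * Real.exp (v ^ 2 / 3)) ^ 3 * Real.exp (-v ^ 2) := by gcongr
    _ = 216 * (Real.exp (v ^ 2 / 3) ^ 3 * Real.exp (-v ^ 2)) := by ring
    _ = 216 := by rw [h3, mul_one]

private lemma Afe_diff {T y : ℝ} (hT : 1 ≤ T) (w : ℂ) : DifferentiableAt ℂ (PhiA T y) w := by
  have hsq : ((Real.sqrt T : ℝ) : ℂ) ≠ 0 := by
    have : 0 < Real.sqrt T := Real.sqrt_pos.2 (by linarith)
    exact_mod_cast this.ne'
  have h1 : DifferentiableAt ℂ (fun w : ℂ ↦ zetaPole (1 / 2 + y * I + w)) w :=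
    (zetaPole_differentiable (1 / 2 + y * I + w)).comp w
      (by fun_prop : DifferentiableAt ℂ (fun w : ℂ ↦ 1 / 2 + y * I + w) w)
  have h2 : DifferentiableAt ℂ (fun w : ℂ ↦ ((Real.sqrt T : ℝ) : ℂ) ^ w) w :=
    DifferentiableAt.const_cpow differentiableAt_id (Or.inl hsq)
  exact (h1.mul h2).mul (by fun_prop)

private lemma Afe_bound {C : ℝ} (hC : 0 < C)
    (hz : ∀ s : ℂ, -1 ≤ s.re → s.re ≤ 2 → ‖zetaPole s‖ ≤ C * (1 + |s.im|) ^ (4 : ℕ))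
    {T y : ℝ} (hT : 1 ≤ T) (w : ℂ) (h1 : -(3 / 2) ≤ w.re) (h2 : w.re ≤ 3 / 2) :
    ‖PhiA T y w‖ ≤ (C * (1 + |y|) ^ 4 * Real.sqrt T ^ (3 / 2 : ℝ) * Real.exp (9 / 4) * 216) *
      (1 + |w.im|) ^ (-(2 : ℝ)) := by
  have hsq1 : 1 ≤ Real.sqrt T := Real.one_le_sqrt.2 hT
  have hsq : 0 < Real.sqrt T := by linarith
  have e1 : (1 / 2 + y * I + w : ℂ).re = 1 / 2 + w.re := by simp
  have e2 : (1 / 2 + y * I + w : ℂ).im = y + w.im := by simp
  have h3 := hz (1 / 2 + y * I + w) (by rw [e1]; linarith) (by rw [e1]; linarith)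
  rw [e2] at h3
  have h4 : 1 + |y + w.im| ≤ (1 + |y|) * (1 + |w.im|) := by
    have := abs_add_le y w.im
    nlinarith [abs_nonneg y, abs_nonneg w.im, mul_nonneg (abs_nonneg y) (abs_nonneg w.im)]
  have h5 : Real.sqrt T ^ w.re ≤ Real.sqrt T ^ (3 / 2 : ℝ) :=
    Real.rpow_le_rpow_of_exponent_le hsq1 h2
  have h6 : ‖cexp (w ^ 2)‖ ≤ Real.exp (9 / 4) * Real.exp (-w.im ^ 2) := by
    rw [Complex.norm_exp, ← Real.exp_add]
    apply Real.exp_le_exp.2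
    rw [sq, Complex.mul_re]
    nlinarith
  have h7 := Afe_dec w.im
  unfold PhiA
  rw [norm_mul, norm_mul, Complex.norm_cpow_eq_rpow_re_of_pos hsq]
  calc ‖zetaPole (1 / 2 + y * I + w)‖ * Real.sqrt T ^ w.re * ‖cexp (w ^ 2)‖ ≤
        (C * ((1 + |y|) * (1 + |w.im|)) ^ 4) * Real.sqrt T ^ (3 / 2 : ℝ) *
          (Real.exp (9 / 4) * Real.exp (-w.im ^ 2)) := by
        have h8 : ‖zetaPole (1 / 2 + y * I + w)‖ ≤ C * ((1 + |y|) * (1 + |w.im|)) ^ 4 := by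
          refine h3.trans ?_
          gcongr
        gcongr
    _ = (C * (1 + |y|) ^ 4 * Real.sqrt T ^ (3 / 2 : ℝ) * Real.exp (9 / 4)) *
          ((1 + |w.im|) ^ 4 * Real.exp (-w.im ^ 2)) := by ring
    _ ≤ (C * (1 + |y|) ^ 4 * Real.sqrt T ^ (3 / 2 : ℝ) * Real.exp (9 / 4)) *
          (216 * (1 + |w.im|) ^ (-(2 : ℝ))) := by gcongr
    _ = _ := by ring

theorem afe : ∃ C : ℝ, 0 < C ∧ ∀ᶠ T : ℝ in atTop, ∀ y : ℝ, |y| ≤ 8 * T →
    ‖riemannZeta (1 / 2 + y * I)‖ ≤ C * Real.log T *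
        (1 + ∫ v : ℝ, Real.exp (-(v ^ 2 / 2)) * ‖Pz T (y + v)‖) := by
  obtain ⟨C1, hC1, h1⟩ := afe_right
  obtain ⟨C2, hC2, h2⟩ := afe_left
  obtain ⟨Cz, hCz, hz⟩ := zetaPole_growth
  refine ⟨(C1 + C2) / (2 * Real.pi), by positivity, ?_⟩
  filter_upwards [h1, h2, eventually_ge_atTop 1] with T h1 h2 hT y hy
  have hr := h1 y hy
  have hl := h2 y hy
  have hres := res_shift (Φ := PhiA T y) (l := -(3 / 2)) (u := 3 / 2) (p := 2) (by norm_num)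
    (by norm_num) (by norm_num) (fun w _ _ ↦ Afe_diff hT w) (Afe_bound hCz hz hT)
  have hc1 : (((3 / 2 : ℝ)) : ℂ) = 3 / 2 := by push_cast; rfl
  have hc2 : (((-(3 / 2) : ℝ)) : ℂ) = -(3 / 2) := by push_cast; rfl
  rw [hc1, hc2] at hres
  have hPhi : PhiA T y 0 = (1 / 2 + y * I - 1) * riemannZeta (1 / 2 + y * I) := by
    have hne : (1 / 2 + y * I : ℂ) ≠ 1 := by
      intro h
      have := congrArg Complex.re h
      simp at this
    unfold PhiA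
    rw [add_zero, zetaPole_of_ne hne]
    simp
  rw [hPhi] at hres
  set s1 : ℝ := ‖(1 / 2 + y * I - 1 : ℂ)‖ with hs1
  have hs1p : 1 / 2 ≤ s1 := by
    have h := Complex.abs_re_le_norm (1 / 2 + y * I - 1 : ℂ)
    have h1 : (1 / 2 + y * I - 1 : ℂ).re = -(1 / 2) := by simp; norm_num
    rw [h1, abs_neg, abs_of_pos (by norm_num)] at h
    exact h
  have hn : 2 * Real.pi * (s1 * ‖riemannZeta (1 / 2 + y * I)‖) ≤
      C1 * s1 * Real.log T * (1 + ∫ v : ℝ, Real.exp (-(v ^ 2 / 2)) * ‖Pz T (y + v)‖) +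
      C2 * s1 * Real.log T * (1 + ∫ v : ℝ, Real.exp (-(v ^ 2 / 2)) * ‖Pz T (y + v)‖) := by
    have h3 := congrArg norm hres
    have e : ‖(2 : ℂ) * (Real.pi : ℂ)‖ = 2 * Real.pi := by
      rw [norm_mul, Complex.norm_real, Real.norm_of_nonneg Real.pi_pos.le]
      norm_num
    rw [norm_mul, e, norm_mul] at h3
    rw [← h3]
    exact (norm_sub_le _ _).trans (add_le_add hr hl)
  set M : ℝ := 1 + ∫ v : ℝ, Real.exp (-(v ^ 2 / 2)) * ‖Pz T (y + v)‖ with hM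
  have hpi := Real.pi_pos
  have h5 : s1 * (2 * Real.pi * ‖riemannZeta (1 / 2 + y * I)‖) ≤
      s1 * ((C1 + C2) * Real.log T * M) := by
    calc s1 * (2 * Real.pi * ‖riemannZeta (1 / 2 + y * I)‖) =
          2 * Real.pi * (s1 * ‖riemannZeta (1 / 2 + y * I)‖) := by ring
      _ ≤ _ := hn
      _ = _ := by ring
  have h6 := le_of_mul_le_mul_left h5 (by linarith)
  rw [div_mul_eq_mul_div, div_mul_eq_mul_div, le_div_iff₀ (by positivity)]
  linarith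

end Pool.Agent.H62.ST
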