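import Pool.Agent.H62.ST.ZpGrowth
import Pool.Agent.H6.Shift

/-!
# Module AfeR: the right line of the approximate functional equation

`s = 1/2 + iy`, `w = 3/2 + iv`, `Q = √T`, `Z = Zm T ≥ T^{3/4}`, `η = 1/log T`. Then `Re (s+w) = 2`, `zetaPole (s+w) = (s+w-1) ζ(s+w)`,
`ζ(s+w) = ∑_{n ≤ Z} n^{-s-w} + O(1/Z)` (`zeta_tail`). Tail: `‖s+w-1‖ ≤ ‖s-1‖ (1 + 2‖w‖)` (`‖s-1‖ ≥ 1/2`), `|Q^w| = T^{3/4} ≤ Z`,
`|exp(w^2)| = exp(9/4 - v^2)`: total `≤ C ‖s-1‖`. Finite part: the function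
`w ↦ (s+w-1) ∑_{n ≤ Z} n^{-s-w} Q^w exp(w^2)/w` is holomorphic for `Re w > 0`, move the line to `Re w = η`
(`Pool.Agent.H6.vertical_shift`; the decay hypothesis holds with some `K` depending on everything); there `1/|w| ≤ log T`,
`|Q^w| = exp(1/2)`, `|n^{-s-w}|`: the sum is exactly `Pz T (y+v)`, `(1 + 2‖w‖) exp(η^2 - v^2) ≤ C exp(-v^2/2)`.
(The condition `|y| ≤ 8 T` is not needed here.)
-/

set_option autoImplicit false

open Complex Filter Topology MeasureTheory Set Metric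
open scoped ArithmeticFunction.vonMangoldt

namespace Pool.Agent.H62.ST

open Pool.Agent.H6 Pool.Agent.H6.Win

/-- the finite part of the integrand -/
noncomputable def AfeR_F (Z : ℕ) (Q y : ℝ) (w : ℂ) : ℂ :=
  (1 / 2 + y * I - 1 + w) * (∑ n ∈ Finset.Icc 1 Z, (n : ℂ) ^ (-(1 / 2 + y * I + w))) *
    (Q : ℂ) ^ w * cexp (w ^ 2) / w

private lemma AfeR_sum {Z : ℕ} {y : ℝ} {w : ℂ} (hw : -(1 / 2) ≤ w.re) :
    ‖∑ n ∈ Finset.Icc 1 Z, (n : ℂ) ^ (-(1 / 2 + y * I + w))‖ ≤ Z := by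
  refine (norm_sum_le _ _).trans ?_
  calc ∑ n ∈ Finset.Icc 1 Z, ‖(n : ℂ) ^ (-(1 / 2 + y * I + w))‖
      ≤ ∑ n ∈ Finset.Icc 1 Z, (1 : ℝ) := by
        refine Finset.sum_le_sum fun n hn ↦ ?_
        have hn1 : 1 ≤ n := (Finset.mem_Icc.1 hn).1
        rw [Complex.norm_natCast_cpow_of_pos (by omega)]
        refine Real.rpow_le_one_of_one_le_of_nonpos (by exact_mod_cast hn1) ?_
        simp
        linarith
    _ = Z := by simp

private lemma AfeR_cube (v : ℝ) : (1 + |v|) ^ 3 * Real.exp (-v ^ 2) ≤ Real.exp (9 / 4) := by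
  have h1 : 1 + |v| ≤ Real.exp |v| := by
    have := Real.add_one_le_exp |v|
    linarith
  have h2 : (1 + |v|) ^ 3 ≤ Real.exp |v| ^ 3 := by
    have : 0 ≤ 1 + |v| := by positivity
    gcongr
  calc (1 + |v|) ^ 3 * Real.exp (-v ^ 2) ≤ Real.exp |v| ^ 3 * Real.exp (-v ^ 2) := by gcongr
    _ = Real.exp (3 * |v| - v ^ 2) := by
        rw [← Real.exp_nat_mul, ← Real.exp_add]
        norm_num [sub_eq_add_neg]
    _ ≤ Real.exp (9 / 4) := by
        apply Real.exp_le_exp.2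
        have : v ^ 2 = |v| ^ 2 := (sq_abs v).symm
        rw [this]
        nlinarith [sq_nonneg (|v| - 3 / 2)]

private lemma AfeR_exp_norm (w : ℂ) : ‖cexp (w ^ 2)‖ = Real.exp (w.re ^ 2 - w.im ^ 2) := by
  rw [Complex.norm_exp]
  congr 1
  simp [sq]

private lemma AfeR_decay {Z : ℕ} {Q y η : ℝ} (hη : 0 < η) (hQ : 1 ≤ Q) (w : ℂ)
    (h1 : η ≤ w.re) (h2 : w.re ≤ 3 / 2) :
    ‖AfeR_F Z Q y w‖ ≤ ((‖(1 / 2 + y * I - 1 : ℂ)‖ + 3 / 2) * Z * Q ^ (3 / 2 : ℝ) *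
      Real.exp (9 / 4) * Real.exp (9 / 4) / η) * (1 + |w.im|) ^ (-(2 : ℝ)) := by
  set A := ‖(1 / 2 + y * I - 1 : ℂ)‖ with hA
  have hA0 : 0 ≤ A := norm_nonneg _
  have hw : ‖w‖ ≤ 3 / 2 + |w.im| := by
    have := Complex.norm_le_abs_re_add_abs_im w
    rw [abs_of_nonneg (hη.le.trans h1)] at this
    linarith
  have hlow : η ≤ ‖w‖ := h1.trans ((le_abs_self _).trans (Complex.abs_re_le_norm w))
  have hv : 0 ≤ |w.im| := abs_nonneg _
  have hf1 : ‖(1 / 2 + y * I - 1 + w : ℂ)‖ ≤ (A + 3 / 2) * (1 + |w.im|) := by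
    refine (norm_add_le _ _).trans ?_
    rw [← hA]
    nlinarith
  have hf2 := AfeR_sum (Z := Z) (y := y) (w := w) (by linarith)
  have hf3 : ‖(Q : ℂ) ^ w‖ ≤ Q ^ (3 / 2 : ℝ) := by
    rw [Complex.norm_cpow_eq_rpow_re_of_pos (by linarith)]
    exact Real.rpow_le_rpow_of_exponent_le hQ h2
  have hf4 : ‖cexp (w ^ 2)‖ ≤ Real.exp (9 / 4) * Real.exp (-w.im ^ 2) := by
    rw [AfeR_exp_norm, ← Real.exp_add]
    apply Real.exp_le_exp.2
    nlinarith
  have hQ0 : 0 ≤ Q ^ (3 / 2 : ℝ) := by positivity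
  have hZ0 : (0 : ℝ) ≤ Z := by positivity
  unfold AfeR_F
  rw [norm_div, norm_mul, norm_mul, norm_mul]
  have hcube := AfeR_cube w.im
  have hrp : (1 + |w.im|) ^ (-(2 : ℝ)) = ((1 + |w.im|) ^ 2)⁻¹ := by
    rw [Real.rpow_neg (by positivity)]
    norm_cast
  rw [hrp]
  have hpos : 0 < 1 + |w.im| := by positivity
  calc ‖(1 / 2 + y * I - 1 + w : ℂ)‖ * ‖∑ n ∈ Finset.Icc 1 Z, (n : ℂ) ^ (-(1 / 2 + y * I + w))‖ *
        ‖(Q : ℂ) ^ w‖ * ‖cexp (w ^ 2)‖ / ‖w‖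
      ≤ ((A + 3 / 2) * (1 + |w.im|)) * Z * Q ^ (3 / 2 : ℝ) *
        (Real.exp (9 / 4) * Real.exp (-w.im ^ 2)) / η := by
        gcongr
    _ = (A + 3 / 2) * Z * Q ^ (3 / 2 : ℝ) * Real.exp (9 / 4) / η *
        ((1 + |w.im|) * Real.exp (-w.im ^ 2)) := by ring
    _ ≤ (A + 3 / 2) * Z * Q ^ (3 / 2 : ℝ) * Real.exp (9 / 4) / η *
        (Real.exp (9 / 4) * ((1 + |w.im|) ^ 2)⁻¹) := by
        have : (1 + |w.im|) * Real.exp (-w.im ^ 2) ≤ Real.exp (9 / 4) * ((1 + |w.im|) ^ 2)⁻¹ := by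
          rw [← div_eq_mul_inv, le_div_iff₀ (by positivity)]
          calc (1 + |w.im|) * Real.exp (-w.im ^ 2) * (1 + |w.im|) ^ 2
              = (1 + |w.im|) ^ 3 * Real.exp (-w.im ^ 2) := by ring
            _ ≤ _ := hcube
        gcongr
    _ = _ := by ring

private lemma AfeR_diff {Z : ℕ} {Q y : ℝ} (hQ : 1 ≤ Q) {w : ℂ} (hw : w ≠ 0) :
    DifferentiableAt ℂ (AfeR_F Z Q y) w := by
  unfold AfeR_F
  refine DifferentiableAt.div ?_ differentiableAt_id hw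
  refine DifferentiableAt.mul (DifferentiableAt.mul (DifferentiableAt.mul (by fun_prop) ?_) ?_)
    (by fun_prop)
  · refine DifferentiableAt.fun_sum fun n hn ↦ ?_
    have hn1 : 1 ≤ n := (Finset.mem_Icc.1 hn).1
    have hn0 : (n : ℂ) ≠ 0 := by exact_mod_cast (by omega : n ≠ 0)
    exact DifferentiableAt.const_cpow (by fun_prop) (Or.inl hn0)
  · have hQ0 : (Q : ℂ) ≠ 0 := by exact_mod_cast (by linarith : Q ≠ 0)
    exact DifferentiableAt.const_cpow differentiableAt_id (Or.inl hQ0)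

private lemma AfeR_pz (T y v : ℝ) :
    ∑ n ∈ Finset.Icc 1 (Zm T),
      (n : ℂ) ^ (-(1 / 2 + y * I + (((1 / Real.log T : ℝ) : ℂ) + v * I))) = Pz T (y + v) := by
  unfold Pz dp
  refine Finset.sum_congr rfl fun n hn ↦ ?_
  have hn1 : 1 ≤ n := (Finset.mem_Icc.1 hn).1
  have hn0 : (n : ℂ) ≠ 0 := by exact_mod_cast (by omega : n ≠ 0)
  show _ = (((n : ℝ) ^ (-(1 / 2 + 1 / Real.log T) : ℝ) : ℝ) : ℂ) * (n : ℂ) ^ (-(((y + v : ℝ) : ℂ) * I))
  rw [Complex.ofReal_cpow (by positivity), Complex.ofReal_natCast, ← Complex.cpow_add _ _ hn0]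
  congr 1
  push_cast
  ring

theorem afe_right : ∃ C : ℝ, 0 < C ∧ ∀ᶠ T : ℝ in atTop, ∀ y : ℝ, |y| ≤ 8 * T →
    ‖∫ v : ℝ, PhiA T y (3 / 2 + v * I) / (3 / 2 + v * I)‖ ≤
      C * ‖(1 / 2 + y * I - 1 : ℂ)‖ * Real.log T *
        (1 + ∫ v : ℝ, Real.exp (-(v ^ 2 / 2)) * ‖Pz T (y + v)‖) := by
  refine ⟨3 * Real.exp (9 / 4) * Real.sqrt Real.pi + 3 * Real.exp (3 / 2), by positivity, ?_⟩
  filter_upwards [eventually_ge_atTop (Real.exp 1)] with T hT y _
  have hT0 : 0 < T := (Real.exp_pos 1).trans_le hT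
  have hT1 : 1 ≤ T := by
    have := Real.add_one_le_exp (1 : ℝ)
    linarith
  have hlog : 1 ≤ Real.log T := by
    rw [Real.le_log_iff_exp_le hT0]
    exact hT
  obtain ⟨η, hη⟩ : ∃ η : ℝ, η = 1 / Real.log T := ⟨_, rfl⟩
  have hη0 : 0 < η := by rw [hη]; positivity
  have hη1 : η ≤ 1 := by
    rw [hη, div_le_one (by linarith)]
    exact hlog
  obtain ⟨Q, hQd⟩ : ∃ Q : ℝ, Q = Real.sqrt T := ⟨_, rfl⟩
  have hQ1 : 1 ≤ Q := by
    rw [hQd]
    exact Real.one_le_sqrt.2 hT1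
  have hQ0 : 0 < Q := by linarith
  set Z := Zm T with hZd
  have hQZ : Q ^ (3 / 2 : ℝ) ≤ Z := by
    rw [hQd, Real.sqrt_eq_rpow, ← Real.rpow_mul hT0.le, hZd]
    unfold Zm
    have := Nat.le_ceil (T ^ (3 / 4 : ℝ))
    norm_num at this ⊢
    exact this
  have hZ1 : 1 ≤ Z := by
    have : (1 : ℝ) ≤ Z := (Real.one_le_rpow hQ1 (by norm_num)).trans hQZ
    exact_mod_cast this
  set A := ‖(1 / 2 + y * I - 1 : ℂ)‖ with hA
  have hA1 : 1 / 2 ≤ A := by
    have := Complex.abs_re_le_norm (1 / 2 + y * I - 1 : ℂ)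
    rw [← hA] at this
    refine le_trans ?_ this
    have : (1 / 2 + y * I - 1 : ℂ).re = -(1 / 2) := by
      simp
      norm_num
    rw [this, abs_neg, abs_of_nonneg (by norm_num)]
  have hfac : ∀ w : ℂ, ‖(1 / 2 + y * I - 1 + w : ℂ)‖ ≤ A * (1 + 2 * ‖w‖) := by
    intro w
    refine (norm_add_le _ _).trans ?_
    rw [← hA]
    nlinarith [norm_nonneg w]
  have hne : ∀ x v : ℝ, 0 < x → ((x : ℂ) + v * I) ≠ 0 := by
    intro x v hx h
    have := congrArg Complex.re h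
    simp at this
    linarith
  -- the finite part
  have hshift : ∫ v : ℝ, AfeR_F Z Q y ((η : ℂ) + v * I) =
      ∫ v : ℝ, AfeR_F Z Q y (((3 / 2 : ℝ) : ℂ) + v * I) := by
    refine vertical_shift (p := 2) (by linarith) (fun s h1 _ ↦ ?_) (by norm_num)
      (fun s h1 h2 ↦ AfeR_decay hη0 hQ1 s h1 h2)
    refine AfeR_diff hQ1 fun h ↦ ?_
    rw [h] at h1
    simp at h1
    linarith
  have hFint : Integrable fun v : ℝ ↦ AfeR_F Z Q y (((3 / 2 : ℝ) : ℂ) + v * I) := by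
    refine vertical_integrable (p := 2) (by norm_num)
      (fun v ↦ (AfeR_diff hQ1 (hne _ _ (by norm_num))).continuousAt)
      (K := ((A + 3 / 2) * Z * Q ^ (3 / 2 : ℝ) *
      Real.exp (9 / 4) * Real.exp (9 / 4) / η)) fun v ↦ ?_
    have h := AfeR_decay (Z := Z) (y := y) hη0 hQ1 (((3 / 2 : ℝ) : ℂ) + v * I)
      (by simp; linarith) (by simp)
    have him : (((3 / 2 : ℝ) : ℂ) + v * I).im = v := by simp
    rw [him] at h
    exact h
  -- the tail
  have hDb : ∀ v : ℝ, ‖PhiA T y (3 / 2 + v * I) / (3 / 2 + v * I) -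
      AfeR_F Z Q y (((3 / 2 : ℝ) : ℂ) + v * I)‖ ≤
      3 * A * Real.exp (9 / 4) * Real.exp (-1 * v ^ 2) := by
    intro v
    have hw : (((3 / 2 : ℝ) : ℂ) + v * I) = 3 / 2 + v * I := by push_cast; ring
    rw [hw]
    set w : ℂ := 3 / 2 + v * I with hwd
    have hre : w.re = 3 / 2 := by simp [hwd]
    have him : w.im = v := by simp [hwd]
    have hs : (1 / 2 + y * I + w : ℂ).re = 2 := by
      rw [Complex.add_re, hre]
      simp
      norm_num
    have hs1 : (1 / 2 + y * I + w : ℂ) ≠ 1 := by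
      intro h
      rw [h] at hs
      norm_num at hs
    have htail := zeta_tail hs hZ1
    have heq : PhiA T y w / w - AfeR_F Z Q y w =
        (1 / 2 + y * I - 1 + w) * (riemannZeta (1 / 2 + y * I + w) -
          ∑ n ∈ Finset.Icc 1 Z, (n : ℂ) ^ (-(1 / 2 + y * I + w))) * (Q : ℂ) ^ w *
          cexp (w ^ 2) / w := by
      unfold PhiA AfeR_F
      rw [zetaPole_of_ne hs1, hQd]
      ring
    rw [heq, norm_div, norm_mul, norm_mul, norm_mul, AfeR_exp_norm, hre, him,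
      Complex.norm_cpow_eq_rpow_re_of_pos hQ0, hre]
    have hwn : 1 ≤ ‖w‖ := by
      have := Complex.abs_re_le_norm w
      rw [hre, abs_of_nonneg (by norm_num)] at this
      linarith
    have hZ0 : (0 : ℝ) < Z := by exact_mod_cast hZ1
    have hA0 : 0 ≤ A := by linarith
    calc ‖(1 / 2 + y * I - 1 + w : ℂ)‖ * ‖riemannZeta (1 / 2 + y * I + w) -
          ∑ n ∈ Finset.Icc 1 Z, (n : ℂ) ^ (-(1 / 2 + y * I + w))‖ * Q ^ (3 / 2 : ℝ) *
          Real.exp ((3 / 2) ^ 2 - v ^ 2) / ‖w‖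
        ≤ (A * (1 + 2 * ‖w‖)) * (1 / Z) * Z * Real.exp ((3 / 2) ^ 2 - v ^ 2) / ‖w‖ := by
          gcongr
          exact hfac w
      _ = A * ((1 + 2 * ‖w‖) / ‖w‖) * Real.exp ((3 / 2) ^ 2 - v ^ 2) := by
          field_simp
      _ ≤ A * 3 * Real.exp ((3 / 2) ^ 2 - v ^ 2) := by
          have : (1 + 2 * ‖w‖) / ‖w‖ ≤ 3 := by
            rw [div_le_iff₀ (by linarith)]
            linarith
          gcongr
      _ = 3 * A * Real.exp (9 / 4) * Real.exp (-1 * v ^ 2) := by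
          rw [show ((3 / 2 : ℝ) ^ 2 - v ^ 2) = 9 / 4 + -1 * v ^ 2 by ring, Real.exp_add]
          ring
  have hcont : Continuous fun v : ℝ ↦ PhiA T y (3 / 2 + v * I) / (3 / 2 + v * I) := by
    unfold PhiA
    have hQc : ((Real.sqrt T : ℝ) : ℂ) ≠ 0 := by
      rw [← hQd]
      exact_mod_cast hQ0.ne'
    refine Continuous.div ?_ (by fun_prop) fun v ↦ ?_
    · refine ((zetaPole_differentiable.continuous.comp (by fun_prop)).mul ?_).mul (by fun_prop)
      exact Continuous.const_cpow (by fun_prop) (Or.inl hQc)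
    · have := hne (3 / 2) v (by norm_num)
      push_cast at this
      exact this
  have hFc : Continuous fun v : ℝ ↦ AfeR_F Z Q y (((3 / 2 : ℝ) : ℂ) + v * I) := by
    rw [continuous_iff_continuousAt]
    intro v
    exact ContinuousAt.comp (f := fun v : ℝ ↦ (((3 / 2 : ℝ) : ℂ) + v * I))
      (AfeR_diff hQ1 (hne _ _ (by norm_num))).continuousAt (by fun_prop)
  have hgi : Integrable fun v : ℝ ↦ 3 * A * Real.exp (9 / 4) * Real.exp (-1 * v ^ 2) :=
    (integrable_exp_neg_mul_sq one_pos).const_mul _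
  have hDint : Integrable fun v : ℝ ↦ PhiA T y (3 / 2 + v * I) / (3 / 2 + v * I) -
      AfeR_F Z Q y (((3 / 2 : ℝ) : ℂ) + v * I) :=
    hgi.mono' (hcont.sub hFc).aestronglyMeasurable (Eventually.of_forall hDb)
  have hsplit : ∫ v : ℝ, PhiA T y (3 / 2 + v * I) / (3 / 2 + v * I) =
      (∫ v : ℝ, (PhiA T y (3 / 2 + v * I) / (3 / 2 + v * I) -
        AfeR_F Z Q y (((3 / 2 : ℝ) : ℂ) + v * I))) +
      ∫ v : ℝ, AfeR_F Z Q y ((η : ℂ) + v * I) := by
    rw [hshift, ← integral_add hDint hFint]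
    congr 1
    funext v
    ring
  have hD : ‖∫ v : ℝ, (PhiA T y (3 / 2 + v * I) / (3 / 2 + v * I) -
        AfeR_F Z Q y (((3 / 2 : ℝ) : ℂ) + v * I))‖ ≤
        3 * A * Real.exp (9 / 4) * Real.sqrt Real.pi := by
    refine (norm_integral_le_of_norm_le hgi (Eventually.of_forall hDb)).trans ?_
    rw [integral_const_mul, integral_gaussian]
    simp
  -- the shifted line
  have hPzc : Continuous fun v : ℝ ↦ Pz T (y + v) := by
    unfold Pz dp
    refine continuous_finsetSum _ fun n hn ↦ ?_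
    have hn1 : 1 ≤ n := (Finset.mem_Icc.1 hn).1
    have hn0 : (n : ℂ) ≠ 0 := by exact_mod_cast (by omega : n ≠ 0)
    exact continuous_const.mul (Continuous.const_cpow (by fun_prop) (Or.inl hn0))
  have hPzb : ∀ v : ℝ, ‖Pz T (y + v)‖ ≤ Z := by
    intro v
    rw [← AfeR_pz]
    refine AfeR_sum ?_
    rw [← hη]
    simp
    linarith
  have hGi : Integrable fun v : ℝ ↦ Real.exp (-(v ^ 2 / 2)) * ‖Pz T (y + v)‖ := by
    refine Integrable.mono' (g := fun v ↦ Z * Real.exp (-(1 / 2) * v ^ 2))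
      ((integrable_exp_neg_mul_sq (by norm_num)).const_mul _)
      (by fun_prop) (Eventually.of_forall fun v ↦ ?_)
    rw [norm_mul, norm_norm, Real.norm_of_nonneg (Real.exp_pos _).le, mul_comm]
    gcongr
    · exact hPzb v
    · apply le_of_eq
      ring
  have hFb : ∀ v : ℝ, ‖AfeR_F Z Q y ((η : ℂ) + v * I)‖ ≤
      (3 * Real.exp (3 / 2) * A * Real.log T) * (Real.exp (-(v ^ 2 / 2)) * ‖Pz T (y + v)‖) := by
    intro v
    have hpz := AfeR_pz T y v
    rw [← hη, ← hZd] at hpz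
    unfold AfeR_F
    rw [hpz, norm_div, norm_mul, norm_mul, norm_mul, AfeR_exp_norm,
      Complex.norm_cpow_eq_rpow_re_of_pos hQ0]
    set w : ℂ := (η : ℂ) + v * I with hwd
    have hre : w.re = η := by simp [hwd]
    have him : w.im = v := by simp [hwd]
    rw [hre, him]
    have hwn : η ≤ ‖w‖ := by
      have := Complex.abs_re_le_norm w
      rw [hre, abs_of_nonneg hη0.le] at this
      linarith
    have hQη : Q ^ η = Real.exp (1 / 2) := by
      rw [hQd, Real.sqrt_eq_rpow, ← Real.rpow_mul hT0.le, Real.rpow_def_of_pos hT0, hη]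
      congr 1
      have : Real.log T ≠ 0 := by linarith
      field_simp
    rw [hQη]
    have h1 : (1 + 2 * ‖w‖) / ‖w‖ ≤ 3 * Real.log T := by
      have hw0 : 0 < ‖w‖ := by linarith
      rw [add_div, mul_div_assoc, div_self hw0.ne']
      have : 1 / ‖w‖ ≤ Real.log T := by
        rw [div_le_iff₀ hw0]
        have : Real.log T * η = 1 := by
          rw [hη]
          have : Real.log T ≠ 0 := by linarith
          field_simp
        nlinarith
      linarith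
    have hA0 : 0 ≤ A := by linarith
    calc ‖(1 / 2 + y * I - 1 + w : ℂ)‖ * ‖Pz T (y + v)‖ * Real.exp (1 / 2) *
          Real.exp (η ^ 2 - v ^ 2) / ‖w‖
        ≤ (A * (1 + 2 * ‖w‖)) * ‖Pz T (y + v)‖ * Real.exp (1 / 2) *
          (Real.exp 1 * Real.exp (-(v ^ 2 / 2))) / ‖w‖ := by
          gcongr
          · exact hfac w
          · rw [← Real.exp_add]
            apply Real.exp_le_exp.2
            nlinarith [sq_nonneg v]
      _ = A * ((1 + 2 * ‖w‖) / ‖w‖) * (Real.exp (1 / 2) * Real.exp 1) *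
          (Real.exp (-(v ^ 2 / 2)) * ‖Pz T (y + v)‖) := by ring
      _ ≤ A * (3 * Real.log T) * (Real.exp (1 / 2) * Real.exp 1) *
          (Real.exp (-(v ^ 2 / 2)) * ‖Pz T (y + v)‖) := by gcongr
      _ = _ := by
          rw [← Real.exp_add, show (1 / 2 + 1 : ℝ) = 3 / 2 by norm_num]
          ring
  have hF : ‖∫ v : ℝ, AfeR_F Z Q y ((η : ℂ) + v * I)‖ ≤
      (3 * Real.exp (3 / 2) * A * Real.log T) *
        ∫ v : ℝ, Real.exp (-(v ^ 2 / 2)) * ‖Pz T (y + v)‖ := by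
    rw [← integral_const_mul]
    exact norm_integral_le_of_norm_le (hGi.const_mul _) (Eventually.of_forall hFb)
  have hG0 : 0 ≤ ∫ v : ℝ, Real.exp (-(v ^ 2 / 2)) * ‖Pz T (y + v)‖ :=
    integral_nonneg fun v ↦ by positivity
  rw [hsplit]
  refine (norm_add_le _ _).trans ?_
  set G := ∫ v : ℝ, Real.exp (-(v ^ 2 / 2)) * ‖Pz T (y + v)‖ with hG
  have hA0 : 0 ≤ A := by linarith
  have e1 : 0 ≤ 3 * Real.exp (9 / 4) * Real.sqrt Real.pi := by positivity
  have e2 : 0 ≤ 3 * Real.exp (3 / 2) := by positivity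
  calc _ ≤ 3 * A * Real.exp (9 / 4) * Real.sqrt Real.pi +
        (3 * Real.exp (3 / 2) * A * Real.log T) * G := add_le_add hD hF
    _ = (3 * Real.exp (9 / 4) * Real.sqrt Real.pi) * A * 1 * 1 +
        (3 * Real.exp (3 / 2)) * A * Real.log T * G := by ring
    _ ≤ (3 * Real.exp (9 / 4) * Real.sqrt Real.pi) * A * Real.log T * (1 + G) +
        (3 * Real.exp (3 / 2)) * A * Real.log T * (1 + G) := by
        gcongr
        · linarith
        · linarith
    _ = _ := by ring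

end Pool.Agent.H62.ST
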