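import Pool.Agent.H62.ST.Defs
import Pool.Agent.H6.Win.Area

/-!
# Module AreaW: weighted sum over points with bounded overlap

For `u ∈ F`: `π ρ^2 = π ρ^2 ‖G(u)^2‖ ≤ ∫_{ball u ρ} ‖G‖^2` (`Pool.Agent.H6.Win.enorm_mul_volume_le` with `h = G^2`), and `A(Im u) ≤ e A(Im z)` for `z ∈ ball u ρ`,
`ρ ≤ 1`. Multiply by `m u`, sum, exchange sum and integral: `∑_u m u 1_{ball u ρ}(z) ≤ M`. The balls lie in the closed rectangle; write the integral over the
rectangle as an iterated integral (compare `Pool.Agent.H6.Win.lintegral_rect`, `area_sum`).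
-/

set_option autoImplicit false

open Complex Filter Topology MeasureTheory Set Metric
open scoped ArithmeticFunction.vonMangoldt

namespace Pool.Agent.H62.ST

open Pool.Agent.H6 Pool.Agent.H6.Win

theorem area_weighted {G : ℂ → ℂ} {A : ℝ → ℝ} {F : Finset ℂ} {m : ℂ → ℝ} {ρ x0 x1 y0 y1 M : ℝ}
    (hρ : 0 < ρ) (hρ1 : ρ ≤ 1) (hx : x0 ≤ x1) (hy : y0 ≤ y1) (hM : 0 ≤ M)
    (hG : ∀ z : ℂ, x0 ≤ z.re → z.re ≤ x1 → y0 ≤ z.im → z.im ≤ y1 → DifferentiableAt ℂ G z)
    (hA : Continuous A) (hA0 : ∀ y, 0 ≤ A y) (hAl : ∀ y h, A (y + h) ≤ Real.exp |h| * A y)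
    (hm : ∀ u ∈ F, 0 ≤ m u) (hGu : ∀ u ∈ F, ‖G u‖ = 1)
    (hloc : ∀ u ∈ F, x0 + ρ ≤ u.re ∧ u.re + ρ ≤ x1 ∧ y0 + ρ ≤ u.im ∧ u.im + ρ ≤ y1)
    (hov : ∀ z : ℂ, ∑ u ∈ F.filter (fun u ↦ dist z u < ρ), m u ≤ M) :
    Real.pi * ρ ^ 2 * ∑ u ∈ F, m u * A u.im ≤
      Real.exp 1 * M * ∫ x in x0..x1, ∫ y in y0..y1, ‖G (x + y * I)‖ ^ 2 * A y := by
  classical
  set R : Set ℂ := Icc x0 x1 ×ℂ Icc y0 y1 with hR
  have hRm : MeasurableSet R := by
    rw [hR]
    exact (measurableSet_Icc.preimage Complex.measurable_re).inter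
      (measurableSet_Icc.preimage Complex.measurable_im)
  have hGc : ∀ z ∈ R, ContinuousAt G z := by
    intro z hz
    rw [hR, Complex.mem_reProdIm] at hz
    exact (hG z hz.1.1 hz.1.2 hz.2.1 hz.2.2).continuousAt
  have hc1 : ContinuousOn (fun z : ℂ ↦ ‖G z‖ ^ 2 * A z.im) R := by
    refine ContinuousOn.mul ?_ ?_
    · exact (ContinuousOn.norm fun z hz ↦ (hGc z hz).continuousWithinAt).pow 2
    · exact (hA.comp Complex.continuous_im).continuousOn
  set F1 : ℂ → ENNReal := R.indicator (fun z ↦ ENNReal.ofReal (‖G z‖ ^ 2 * A z.im)) with hF1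
  have hF1m : Measurable F1 := by
    rw [hF1, ← Set.piecewise_eq_indicator]
    refine ContinuousOn.measurable_piecewise ?_ continuousOn_const hRm
    exact ENNReal.continuous_ofReal.comp_continuousOn hc1
  -- the balls lie in the rectangle
  have hball : ∀ u ∈ F, ball u ρ ⊆ R := by
    intro u hu z hz
    obtain ⟨a1, a2, a3, a4⟩ := hloc u hu
    rw [mem_ball, dist_eq_norm] at hz
    have b1 := (Complex.abs_re_le_norm (z - u)).trans hz.le
    have b2 := (Complex.abs_im_le_norm (z - u)).trans hz.le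
    rw [Complex.sub_re, abs_le] at b1
    rw [Complex.sub_im, abs_le] at b2
    rw [hR, Complex.mem_reProdIm]
    exact ⟨⟨by linarith, by linarith⟩, ⟨by linarith, by linarith⟩⟩
  have hvol : ∀ u : ℂ, volume (ball u ρ) = ENNReal.ofReal (Real.pi * ρ ^ 2) := by
    intro u
    rw [Complex.volume_ball, ENNReal.ofReal_mul Real.pi_pos.le, mul_comm]
    congr 1
    · rw [← NNReal.coe_real_pi, ENNReal.ofReal_coe_nnreal]
    · rw [ENNReal.ofReal_pow hρ.le]
  -- the mean value inequality at each point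
  have h1 : ∀ u ∈ F, ENNReal.ofReal (Real.pi * ρ ^ 2) * ENNReal.ofReal (A u.im) ≤
      ENNReal.ofReal (Real.exp 1) * ∫⁻ z in ball u ρ, F1 z := by
    intro u hu
    have e1 : ‖G u ^ 2‖ₑ * volume (ball u ρ) ≤ ∫⁻ z in ball u ρ, ‖G z ^ 2‖ₑ := by
      refine enorm_mul_volume_le (h := fun z ↦ G z ^ 2) ?_
      intro z hz
      have hz' := hball u hu hz
      rw [hR, Complex.mem_reProdIm] at hz'
      exact ((hG z hz'.1.1 hz'.1.2 hz'.2.1 hz'.2.2).pow 2).differentiableWithinAt
    have e2 : ‖G u ^ 2‖ₑ = 1 := by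
      rw [← ofReal_norm, norm_pow, hGu u hu]
      simp
    rw [e2, one_mul, hvol] at e1
    calc ENNReal.ofReal (Real.pi * ρ ^ 2) * ENNReal.ofReal (A u.im)
        ≤ (∫⁻ z in ball u ρ, ‖G z ^ 2‖ₑ) * ENNReal.ofReal (A u.im) := by gcongr
      _ = ∫⁻ z in ball u ρ, ‖G z ^ 2‖ₑ * ENNReal.ofReal (A u.im) := by
          rw [lintegral_mul_const' _ _ ENNReal.ofReal_ne_top]
      _ ≤ ∫⁻ z in ball u ρ, ENNReal.ofReal (Real.exp 1) * F1 z := by
          refine setLIntegral_mono' measurableSet_ball fun z hz ↦ ?_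
          rw [hF1, indicator_of_mem (hball u hu hz), ← ofReal_norm, norm_pow,
            ← ENNReal.ofReal_mul (by positivity), ← ENNReal.ofReal_mul (Real.exp_pos _).le]
          refine ENNReal.ofReal_le_ofReal ?_
          have g1 : A u.im ≤ Real.exp 1 * A z.im := by
            have g2 := hAl z.im (u.im - z.im)
            rw [show z.im + (u.im - z.im) = u.im by ring] at g2
            refine g2.trans (mul_le_mul_of_nonneg_right (Real.exp_le_exp.2 ?_) (hA0 _))
            rw [mem_ball, dist_eq_norm] at hz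
            have b2 := (Complex.abs_im_le_norm (z - u)).trans hz.le
            rw [Complex.sub_im, abs_sub_comm] at b2
            linarith
          calc ‖G z‖ ^ 2 * A u.im ≤ ‖G z‖ ^ 2 * (Real.exp 1 * A z.im) := by gcongr
            _ = Real.exp 1 * (‖G z‖ ^ 2 * A z.im) := by ring
      _ = ENNReal.ofReal (Real.exp 1) * ∫⁻ z in ball u ρ, F1 z := by
          rw [lintegral_const_mul' _ _ ENNReal.ofReal_ne_top]
  -- summation
  have h2 : ∑ u ∈ F, ENNReal.ofReal (m u) * ∫⁻ z in ball u ρ, F1 z ≤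
      ENNReal.ofReal M * ∫⁻ z in R, F1 z := by
    have e1 : ∀ u ∈ F, ENNReal.ofReal (m u) * ∫⁻ z in ball u ρ, F1 z =
        ∫⁻ z, ENNReal.ofReal (m u) * (ball u ρ).indicator F1 z := by
      intro u _
      rw [lintegral_const_mul' _ _ ENNReal.ofReal_ne_top, lintegral_indicator measurableSet_ball]
    rw [Finset.sum_congr rfl e1, ← lintegral_finsetSum, ← lintegral_indicator hRm,
      ← lintegral_const_mul' _ _ ENNReal.ofReal_ne_top]
    · apply lintegral_mono
      intro z
      dsimp only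
      by_cases hz : z ∈ R
      · rw [indicator_of_mem hz]
        calc ∑ u ∈ F, ENNReal.ofReal (m u) * (ball u ρ).indicator F1 z
            = ∑ u ∈ F.filter (fun u ↦ dist z u < ρ), ENNReal.ofReal (m u) * F1 z := by
              rw [Finset.sum_filter]
              refine Finset.sum_congr rfl fun u _ ↦ ?_
              rw [Set.indicator_apply, mem_ball]
              split_ifs with h
              · rfl
              · rw [mul_zero]
          _ = ENNReal.ofReal (∑ u ∈ F.filter (fun u ↦ dist z u < ρ), m u) * F1 z := by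
              rw [← Finset.sum_mul, ENNReal.ofReal_sum_of_nonneg]
              intro u hu
              exact hm u (Finset.mem_filter.1 hu).1
          _ ≤ ENNReal.ofReal M * F1 z := by
              gcongr
              exact hov z
      · rw [indicator_of_notMem hz, mul_zero]
        apply le_of_eq
        apply Finset.sum_eq_zero
        intro u hu
        rw [indicator_of_notMem, mul_zero]
        intro hzb
        exact hz (hball u hu hzb)
    · intro u _
      exact (hF1m.indicator measurableSet_ball).const_mul _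
  -- the integral over the rectangle
  set f : ℝ × ℝ → ℝ := fun p ↦ ‖G (p.1 + p.2 * I)‖ ^ 2 * A p.2 with hf
  have hf0 : ∀ p, 0 ≤ f p := fun p ↦ mul_nonneg (by positivity) (hA0 _)
  have hfc : ContinuousOn f (Icc x0 x1 ×ˢ Icc y0 y1) := by
    have g1 : ContinuousOn (fun p : ℝ × ℝ ↦ ((p.1 : ℂ) + p.2 * I)) (Icc x0 x1 ×ˢ Icc y0 y1) := by
      fun_prop
    have g2 : MapsTo (fun p : ℝ × ℝ ↦ ((p.1 : ℂ) + p.2 * I)) (Icc x0 x1 ×ˢ Icc y0 y1) R := by
      intro p hp
      rw [hR, Complex.mem_reProdIm]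
      simp only [add_re, ofReal_re, mul_re, I_re, mul_zero, ofReal_im, I_im, mul_one, sub_self,
        add_zero, add_im, mul_im, zero_add]
      exact hp
    refine (hc1.comp g1 g2).congr ?_
    intro p hp
    simp [hf]
  have hfi : IntegrableOn f (Icc x0 x1 ×ˢ Icc y0 y1) (volume.prod volume) := by
    rw [← Measure.volume_eq_prod]
    exact hfc.integrableOn_compact (isCompact_Icc.prod isCompact_Icc)
  have h3 : ∫⁻ z in R, F1 z =
      ENNReal.ofReal (∫ x in x0..x1, ∫ y in y0..y1, ‖G (x + y * I)‖ ^ 2 * A y) := by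
    have g1 := (Complex.volume_preserving_equiv_real_prod.symm
      Complex.measurableEquivRealProd).setLIntegral_comp_preimage_emb
      (MeasurableEquiv.measurableEmbedding _) F1 R
    have g2 : Complex.measurableEquivRealProd.symm ⁻¹' R = Icc x0 x1 ×ˢ Icc y0 y1 := by
      ext p
      simp only [hR, Complex.measurableEquivRealProd, Set.mem_preimage, Complex.mem_reProdIm,
        Set.mem_prod]
      rfl
    rw [g2] at g1
    rw [← g1]
    have g3 : ∫⁻ p in Icc x0 x1 ×ˢ Icc y0 y1, F1 (Complex.measurableEquivRealProd.symm p) =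
        ∫⁻ p in Icc x0 x1 ×ˢ Icc y0 y1, ENNReal.ofReal (f p) := by
      refine setLIntegral_congr_fun (measurableSet_Icc.prod measurableSet_Icc) fun p hp ↦ ?_
      have g4 : Complex.measurableEquivRealProd.symm p = (p.1 : ℂ) + p.2 * I := by
        apply Complex.ext <;> simp [Complex.measurableEquivRealProd]
      have g5 : (p.1 : ℂ) + p.2 * I ∈ R := by
        rw [hR, Complex.mem_reProdIm]
        simp only [add_re, ofReal_re, mul_re, I_re, mul_zero, ofReal_im, I_im, mul_one, sub_self,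
          add_zero, add_im, mul_im, zero_add]
        exact hp
      rw [g4, hF1, indicator_of_mem g5]
      simp [hf]
    rw [g3, Measure.volume_eq_prod, ← ofReal_integral_eq_lintegral_ofReal hfi
      (Eventually.of_forall hf0), setIntegral_prod _ hfi]
    congr 1
    rw [intervalIntegral.integral_of_le hx, ← integral_Icc_eq_integral_Ioc]
    refine integral_congr_ae (Eventually.of_forall fun x ↦ ?_)
    simp only
    rw [intervalIntegral.integral_of_le hy, ← integral_Icc_eq_integral_Ioc]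
  have h5 : 0 ≤ ∫ x in x0..x1, ∫ y in y0..y1, ‖G (x + y * I)‖ ^ 2 * A y := by
    refine intervalIntegral.integral_nonneg hx fun x _ ↦ ?_
    exact intervalIntegral.integral_nonneg hy fun y _ ↦ mul_nonneg (by positivity) (hA0 _)
  have h6 : 0 ≤ Real.exp 1 * M * ∫ x in x0..x1, ∫ y in y0..y1, ‖G (x + y * I)‖ ^ 2 * A y := by
    positivity
  refine (ENNReal.ofReal_le_ofReal_iff h6).1 ?_
  calc ENNReal.ofReal (Real.pi * ρ ^ 2 * ∑ u ∈ F, m u * A u.im)
      = ∑ u ∈ F, ENNReal.ofReal (m u) *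
          (ENNReal.ofReal (Real.pi * ρ ^ 2) * ENNReal.ofReal (A u.im)) := by
        rw [Finset.mul_sum, ENNReal.ofReal_sum_of_nonneg
          (fun u hu ↦ mul_nonneg (by positivity) (mul_nonneg (hm u hu) (hA0 _)))]
        refine Finset.sum_congr rfl fun u hu ↦ ?_
        rw [← ENNReal.ofReal_mul (by positivity), ← ENNReal.ofReal_mul (hm u hu)]
        congr 1
        ring
    _ ≤ ∑ u ∈ F, ENNReal.ofReal (m u) *
          (ENNReal.ofReal (Real.exp 1) * ∫⁻ z in ball u ρ, F1 z) := by
        refine Finset.sum_le_sum fun u hu ↦ ?_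
        exact mul_le_mul_right (h1 u hu) _
    _ = ENNReal.ofReal (Real.exp 1) * ∑ u ∈ F, ENNReal.ofReal (m u) * ∫⁻ z in ball u ρ, F1 z := by
        rw [Finset.mul_sum]
        exact Finset.sum_congr rfl fun u _ ↦ by ring
    _ ≤ ENNReal.ofReal (Real.exp 1) * (ENNReal.ofReal M * ∫⁻ z in R, F1 z) := by
        gcongr
    _ = ENNReal.ofReal (Real.exp 1 * M *
          ∫ x in x0..x1, ∫ y in y0..y1, ‖G (x + y * I)‖ ^ 2 * A y) := by
        rw [h3, ← ENNReal.ofReal_mul hM, ← ENNReal.ofReal_mul (Real.exp_pos _).le]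
        congr 1
        ring

end Pool.Agent.H62.ST
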