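import Pool.Agent.H62.ST.BigFactor

/-!
# Module Arg: `Im ell (1/2 + iy)` is the argument of `ζ`

`f y' = Im lz(2+iy')` on `[0, y]` (continuous, `f 0 = 0` by `lz_two_im`, `exp(lz) = ζ` so `ζ = |ζ| exp(i Im lz)`), `g x = Im ell(x + iy)` on `[1/2, 2]`
(continuous: no zero on the line, so `x + iy - u ∈ slitPlane` because `Im (..) ≠ 0`: every `u ∈ S` is a zero of `ζ`, `zetaPole u = (u-1) ζ(u)`; `g 2 = f y` by `IsEll.right`;
`exp(ell) = ζ` by `IsEll.fac` and `Complex.exp_log`).
-/

set_option autoImplicit false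

open Complex Filter Topology MeasureTheory Set Metric
open scoped ArithmeticFunction.vonMangoldt

namespace Pool.Agent.H62.ST

open Pool.Agent.H6 Pool.Agent.H6.Win

private lemma Arg_exp (w : ℂ) : cexp w = (‖cexp w‖ : ℂ) * cexp (w.im * I) := by
  rw [Complex.norm_exp, Complex.ofReal_exp, ← Complex.exp_add, Complex.re_add_im]

private lemma Arg_mem {T : ℝ} (hT : 20 ≤ T) {y : ℝ} (hy : y ∈ Icc (T / 2) (3 * T / 2)) {x : ℝ}
    (hx : x ∈ Icc (1 / 2 : ℝ) 2) : (x : ℂ) + y * I ∈ ball ((2 : ℂ) + T * I) (7 / 10 * T) := by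
  rw [mem_ball, dist_eq_norm]
  have h1 := Complex.norm_le_abs_re_add_abs_im ((x : ℂ) + y * I - (2 + T * I))
  have e1 : ((x : ℂ) + y * I - (2 + T * I)).re = x - 2 := by simp
  have e2 : ((x : ℂ) + y * I - (2 + T * I)).im = y - T := by simp
  rw [e1, e2] at h1
  have h2 : |x - 2| ≤ 3 / 2 := by
    rw [abs_le]; constructor <;> linarith [hx.1, hx.2]
  have h3 : |y - T| ≤ T / 2 := by
    rw [abs_le]; constructor <;> linarith [hy.1, hy.2]
  linarith

private lemma Arg_im_ne {T : ℝ} {S : Finset ℂ} {L : ℂ → ℂ} (h : IsEll T S L) {y : ℝ}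
    (hn : NonOrd y) {u : ℂ} (hu : u ∈ S) : u.im ≠ y := by
  intro he
  have h0 := h.zero u hu
  have hu1 : u ≠ 1 := by
    rintro rfl
    exact zetaPole_ne_zero_of_one_le (by simp) h0
  rw [zetaPole_of_ne hu1] at h0
  have h1 : riemannZeta u = 0 := by
    rcases mul_eq_zero.1 h0 with h2 | h2
    · exact absurd (sub_eq_zero.1 h2) hu1
    · exact h2
  apply hn u.re
  rw [← he, Complex.re_add_im]
  exact h1

private lemma Arg_slit {T : ℝ} {S : Finset ℂ} {L : ℂ → ℂ} (h : IsEll T S L) {y : ℝ}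
    (hn : NonOrd y) {u : ℂ} (hu : u ∈ S) (x : ℝ) : (x : ℂ) + y * I - u ∈ slitPlane := by
  rw [mem_slitPlane_iff]
  right
  have e : ((x : ℂ) + y * I - u).im = y - u.im := by simp
  rw [e]
  exact sub_ne_zero.2 (Arg_im_ne h hn hu).symm

theorem arg_of_ell {T : ℝ} (hT : 20 ≤ T) {S : Finset ℂ} {L : ℂ → ℂ} (h : IsEll T S L) {y : ℝ}
    (hy : y ∈ Icc (T / 2) (3 * T / 2)) (hn : NonOrd y) :
    IsArg y (ell S L (1 / 2 + y * I)).im := by
  refine ⟨fun y' ↦ (lz (2 + y' * I)).im, fun x ↦ (ell S L ((x : ℂ) + y * I)).im, ?_, ?_, ?_, ?_,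
    ?_, ?_, ?_⟩
  · -- continuity of `f`
    apply Continuous.continuousOn
    rw [continuous_iff_continuousAt]
    intro y'
    have h1 : ContinuousAt lz (2 + (y' : ℂ) * I) :=
      (lz_differentiableAt (by simp)).continuousAt
    have h2 : ContinuousAt (fun y' : ℝ ↦ (2 : ℂ) + (y' : ℂ) * I) y' := by fun_prop
    exact Complex.continuous_im.continuousAt.comp (ContinuousAt.comp (f := fun y' : ℝ ↦
      (2 : ℂ) + (y' : ℂ) * I) h1 h2)
  · -- continuity of `g`
    intro x hx
    apply ContinuousAt.continuousWithinAt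
    have h2 : ContinuousAt (fun x : ℝ ↦ (x : ℂ) + (y : ℂ) * I) x := by fun_prop
    have h1 : ContinuousAt (ell S L) ((x : ℂ) + y * I) := by
      unfold ell
      apply ContinuousAt.add
      · exact (h.diff.differentiableAt (isOpen_ball.mem_nhds (Arg_mem hT hy hx))).continuousAt
      · apply tendsto_finsetSum
        intro u hu
        apply ContinuousAt.mul continuousAt_const
        have h3 : ContinuousAt (fun z : ℂ ↦ z - u) ((x : ℂ) + y * I) := by fun_prop
        exact h3.clog (Arg_slit h hn hu x)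
    exact Complex.continuous_im.continuousAt.comp (ContinuousAt.comp (f := fun x : ℝ ↦
      (x : ℂ) + (y : ℂ) * I) h1 h2)
  · simp only [Complex.ofReal_zero, zero_mul, add_zero]
    exact lz_two_im
  · have := h.right y hy
    simp only [Complex.ofReal_ofNat]
    rw [this]
  · simp only [Complex.ofReal_div, Complex.ofReal_one, Complex.ofReal_ofNat]
  · intro y' _
    have h1 : cexp (lz (2 + y' * I)) = riemannZeta (2 + y' * I) := exp_lz (by simp)
    rw [← h1]
    exact Arg_exp _
  · intro x hx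
    have h1 := h.fac _ (Arg_mem hT hy hx)
    have h2 : riemannZeta ((x : ℂ) + y * I) = cexp (ell S L ((x : ℂ) + y * I)) := by
      rw [h1]
      unfold ell
      rw [Complex.exp_add, Complex.exp_sum]
      congr 1
      refine Finset.prod_congr rfl fun u hu ↦ ?_
      rw [Complex.exp_nat_mul, Complex.exp_log (slitPlane_ne_zero (Arg_slit h hn hu x))]
    rw [h2]
    exact Arg_exp _

end Pool.Agent.H62.ST
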