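import Pool.Agent.H62.ST.LogZeta

/-!
# Module ArgU: uniqueness and existence of the argument

`isArg_unique`: two continuous lifts differ by a continuous function with values in `2π ℤ` on an interval, hence by a constant.
`isArg_exists`: `T > 0` not an ordinate; `f y = Im lz(2+iy)` as in module Arg, `g x = f T - Im ∫_x^2 ζ'/ζ(x'+iT) dx'`.
-/

set_option autoImplicit false

open Complex Filter Topology MeasureTheory Set Metric
open scoped ArithmeticFunction.vonMangoldt

namespace Pool.Agent.H62.ST

open Pool.Agent.H6 Pool.Agent.H6.Win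

/-- A continuous function with values in `2π ℤ` on an interval is constant. -/
private lemma ArgU_const {h : ℝ → ℝ} {a b : ℝ} (hc : ContinuousOn h (Icc a b))
    (hz : ∀ x ∈ Icc a b, ∃ n : ℤ, h x = n * (2 * Real.pi)) {x y : ℝ} (hx : x ∈ Icc a b)
    (hy : y ∈ Icc a b) : h x = h y := by
  have hpi : (2 * Real.pi : ℝ) ≠ 0 := by positivity
  have hsub : (h '' Icc a b).Subsingleton := by
    have hconn : IsPreconnected (h '' Icc a b) := isPreconnected_Icc.image h hc
    have hcount : (h '' Icc a b).Countable := by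
      refine (Set.countable_range (fun n : ℤ => (n : ℝ) * (2 * Real.pi))).mono ?_
      rintro _ ⟨z, hz', rfl⟩
      obtain ⟨n, hn⟩ := hz z hz'
      exact ⟨n, hn.symm⟩
    intro u hu v hv
    by_contra huv
    rcases lt_or_gt_of_ne huv with h1 | h1
    · exact (Cardinal.Real.Ioo_countable_iff.not.2 (not_le.2 h1))
        (hcount.mono (Set.Ioo_subset_Icc_self.trans (hconn.Icc_subset hu hv)))
    · exact (Cardinal.Real.Ioo_countable_iff.not.2 (not_le.2 h1))
        (hcount.mono (Set.Ioo_subset_Icc_self.trans (hconn.Icc_subset hv hu)))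
  exact hsub (mem_image_of_mem h hx) (mem_image_of_mem h hy)

private lemma ArgU_lift {w : ℂ} (hw : w ≠ 0) {p q : ℝ} (h1 : w = (‖w‖ : ℂ) * cexp (p * I))
    (h2 : w = (‖w‖ : ℂ) * cexp (q * I)) : ∃ n : ℤ, p - q = n * (2 * Real.pi) := by
  have hn : (‖w‖ : ℂ) ≠ 0 := by
    simpa using hw
  have h3 : cexp (p * I) = cexp (q * I) := mul_left_cancel₀ hn (h1.symm.trans h2)
  rw [Complex.exp_eq_exp_iff_exists_int] at h3
  obtain ⟨n, hn'⟩ := h3
  refine ⟨n, ?_⟩
  have h4 : ((p : ℂ) - q - n * (2 * Real.pi)) * I = 0 := by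
    linear_combination hn'
  have h5 : ((p : ℂ) - q - n * (2 * Real.pi)) = 0 := by
    rcases mul_eq_zero.1 h4 with h | h
    · exact h
    · exact absurd h I_ne_zero
  have h6 : (((p - q - n * (2 * Real.pi) : ℝ)) : ℂ) = 0 := by
    push_cast
    exact h5
  have h7 : p - q - n * (2 * Real.pi) = 0 := by exact_mod_cast h6
  linarith

theorem isArg_unique {T θ θ' : ℝ} (hT : 0 < T) (hn : NonOrd T) (h : IsArg T θ)
    (h' : IsArg T θ') : θ = θ' := by
  obtain ⟨f, g, hf, hg, hf0, hg2, hgθ, hfz, hgz⟩ := h
  obtain ⟨f', g', hf', hg', hf0', hg2', hgθ', hfz', hgz'⟩ := h'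
  have e1 : (fun y => f y - f' y) 0 = (fun y => f y - f' y) T := by
    refine ArgU_const (hf.sub hf') ?_ (left_mem_Icc.2 hT.le) (right_mem_Icc.2 hT.le)
    intro y hy
    refine ArgU_lift ?_ (hfz y hy) (hfz' y hy)
    refine riemannZeta_ne_zero_of_one_lt_re ?_
    simp
  have e2 : (fun x => g x - g' x) (1 / 2) = (fun x => g x - g' x) 2 := by
    refine ArgU_const (hg.sub hg') ?_ (left_mem_Icc.2 (by norm_num)) (right_mem_Icc.2 (by norm_num))
    intro x hx
    exact ArgU_lift (hn x) (hgz x hx) (hgz' x hx)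
  simp only at e1 e2
  linarith

private lemma ArgU_exp {w z : ℂ} (h : w = cexp z) : w = (‖w‖ : ℂ) * cexp ((z.im : ℝ) * I) := by
  have h1 : (‖w‖ : ℂ) = cexp (z.re) := by
    rw [h, Complex.norm_exp]
    push_cast
    rfl
  rw [h1, ← Complex.exp_add, Complex.re_add_im, h]

theorem isArg_exists {T : ℝ} (hT : 0 < T) (hn : NonOrd T) : ∃ θ : ℝ, IsArg T θ := by
  have hne : ∀ x : ℝ, (x : ℂ) + T * I ≠ 1 := by
    intro x hx
    have := congrArg Complex.im hx
    simp at this
    exact hT.ne' this
  have hdz : DifferentiableOn ℂ riemannZeta {(1 : ℂ)}ᶜ := fun z hz =>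
    (differentiableAt_riemannZeta hz).differentiableWithinAt
  have hop : IsOpen ({(1 : ℂ)}ᶜ : Set ℂ) := isOpen_compl_singleton
  have hdd : DifferentiableOn ℂ (deriv riemannZeta) {(1 : ℂ)}ᶜ := hdz.deriv hop
  have hline : Continuous (fun x : ℝ => (x : ℂ) + T * I) := by fun_prop
  set φ : ℝ → ℂ := fun x => deriv riemannZeta (x + T * I) / riemannZeta (x + T * I) with hφ
  have hφc : Continuous φ := by
    refine Continuous.div ?_ ?_ hn
    · exact hdd.continuousOn.comp_continuous hline hne
    · exact hdz.continuousOn.comp_continuous hline hne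
  set F : ℝ → ℂ := fun x => lz (2 + T * I) + ∫ t in (2 : ℝ)..x, φ t with hF
  have hF' : ∀ x : ℝ, HasDerivAt F (φ x) x := by
    intro x
    exact (intervalIntegral.integral_hasDerivAt_right (hφc.intervalIntegrable _ _)
      hφc.aestronglyMeasurable.stronglyMeasurableAtFilter hφc.continuousAt).const_add _
  have hzd : ∀ x : ℝ, HasDerivAt (fun x : ℝ => riemannZeta (x + T * I))
      (deriv riemannZeta (x + T * I)) x := by
    intro x
    have h1 := (differentiableAt_riemannZeta (hne x)).hasDerivAt
    have h2 : HasDerivAt (fun x : ℝ => (x : ℂ) + T * I) 1 x := by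
      have := (Complex.ofRealCLM.hasDerivAt (x := x)).add_const ((T : ℂ) * I)
      simpa using this
    have h3 := HasDerivAt.comp x h1 h2
    rw [mul_one] at h3
    exact h3
  set H : ℝ → ℂ := fun x => riemannZeta (x + T * I) * cexp (-F x) with hH
  have hHd : ∀ x : ℝ, HasDerivAt H 0 x := by
    intro x
    have h1 : HasDerivAt H (deriv riemannZeta (x + T * I) * cexp (-F x) +
        riemannZeta (x + T * I) * (cexp (-F x) * -φ x)) x := (hzd x).mul ((hF' x).neg.cexp)
    refine h1.congr_deriv ?_
    have h2 := hn x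
    have h3 : riemannZeta (x + T * I) * φ x = deriv riemannZeta (x + T * I) := by
      show riemannZeta (x + T * I) * (deriv riemannZeta (x + T * I) / riemannZeta (x + T * I)) = _
      field_simp
    calc deriv riemannZeta (x + T * I) * cexp (-F x) +
        riemannZeta (x + T * I) * (cexp (-F x) * -φ x)
        = cexp (-F x) * (deriv riemannZeta (x + T * I) - riemannZeta (x + T * I) * φ x) := by ring
      _ = 0 := by rw [h3, sub_self, mul_zero]
  have hHc : ∀ x : ℝ, H x = H 2 :=
    fun x => is_const_of_deriv_eq_zero (fun x => (hHd x).differentiableAt)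
      (fun x => (hHd x).deriv) x 2
  have hH2 : H 2 = 1 := by
    rw [hH, hF]
    simp only [intervalIntegral.integral_same, add_zero]
    have h1 : riemannZeta (((2 : ℝ) : ℂ) + T * I) = cexp (lz (2 + T * I)) := by
      rw [exp_lz (by simp)]
      norm_num
    rw [h1, ← Complex.exp_add]
    simp
  have hexp : ∀ x : ℝ, riemannZeta (x + T * I) = cexp (F x) := by
    intro x
    have h1 : riemannZeta (x + T * I) * cexp (-F x) = 1 := (hHc x).trans hH2
    have h2 : cexp (-F x) * cexp (F x) = 1 := by
      rw [← Complex.exp_add]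
      simp
    calc riemannZeta (x + T * I) = riemannZeta (x + T * I) * (cexp (-F x) * cexp (F x)) := by
          rw [h2, mul_one]
      _ = (riemannZeta (x + T * I) * cexp (-F x)) * cexp (F x) := by ring
      _ = cexp (F x) := by rw [h1, one_mul]
  have hFc : Continuous F := continuous_iff_continuousAt.2 fun x => (hF' x).continuousAt
  refine ⟨(F (1 / 2)).im, fun y => (lz (2 + y * I)).im, fun x => (F x).im, ?_, ?_, ?_, ?_, rfl,
    ?_, ?_⟩
  · refine Continuous.continuousOn ?_
    refine Complex.continuous_im.comp ?_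
    refine continuous_iff_continuousAt.2 fun y => ?_
    have h1 : ContinuousAt lz (2 + y * I) := (lz_differentiableAt (by simp)).continuousAt
    exact ContinuousAt.comp (f := fun y : ℝ => (2 : ℂ) + y * I) h1 (by fun_prop)
  · exact (Complex.continuous_im.comp hFc).continuousOn
  · simpa using lz_two_im
  · simp [hF]
  · intro y _
    exact ArgU_exp (exp_lz (by simp)).symm
  · intro x _
    exact ArgU_exp (hexp x)

end Pool.Agent.H62.ST
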