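import Pool.Agent.H62.ST.LossCalc

/-!
# Module AwBase: the local mass `Aw μ y = ∫ exp(-|y-t|) μ(t) dt` for bounded or integrable `μ`

For `μ = ‖dp N r ·‖^2` (bounded, continuous): `Aw` is continuous, nonnegative, `Aw(y+h) ≤ exp(|h|) Aw(y)`, and
`∫_{y0}^{y1} g(y) Aw μ y dy = ∫ exp(-|v|) ∫_{y0}^{y1} g(y) μ(y+v) dy dv` (Fubini; substitution `t = y + v`).
-/

set_option autoImplicit false

open Complex Filter Topology MeasureTheory Set Metric
open scoped ArithmeticFunction.vonMangoldt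

namespace Pool.Agent.H62.ST

open Pool.Agent.H6 Pool.Agent.H6.Win

private lemma aw_int0 : Integrable fun t : ℝ ↦ Real.exp (-|t|) := by
  rw [← integrableOn_univ, ← Iic_union_Ioi (a := (0 : ℝ))]
  refine IntegrableOn.union ?_ ?_
  · refine (integrableOn_exp_Iic 0).congr_fun ?_ measurableSet_Iic
    intro x hx
    have hx' : x ≤ 0 := hx
    simp only
    rw [abs_of_nonpos hx', neg_neg]
  · refine (integrableOn_exp_neg_Ioi 0).congr_fun ?_ measurableSet_Ioi
    intro x hx
    have hx' : 0 < x := hx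
    simp only
    rw [abs_of_pos hx']

private lemma aw_sub (μ : ℝ → ℝ) (y : ℝ) : Aw μ y = ∫ v : ℝ, Real.exp (-|v|) * μ (y + v) := by
  unfold Aw
  rw [← integral_add_left_eq_self _ y]
  refine integral_congr_ae (Eventually.of_forall fun v ↦ ?_)
  simp only
  rw [show y - (y + v) = -v by ring, abs_neg]

lemma Aw_nonneg {μ : ℝ → ℝ} (h0 : ∀ t, 0 ≤ μ t) (y : ℝ) : 0 ≤ Aw μ y := by
  unfold Aw
  exact integral_nonneg fun t ↦ mul_nonneg (Real.exp_pos _).le (h0 t)

lemma Aw_integrand {μ : ℝ → ℝ} {B : ℝ} (hc : Continuous μ) (hB : ∀ t, |μ t| ≤ B) (y : ℝ) :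
    Integrable fun t ↦ Real.exp (-|y - t|) * μ t := by
  have h1 : Integrable fun t : ℝ ↦ Real.exp (-|y - t|) := by
    have h := aw_int0.comp_sub_left y
    exact h
  refine h1.mul_bdd (c := B) ?_ ?_
  · exact hc.aestronglyMeasurable
  · exact Eventually.of_forall fun t ↦ by
      rw [Real.norm_eq_abs]
      exact hB t

lemma Aw_continuous {μ : ℝ → ℝ} {B : ℝ} (hc : Continuous μ) (hB : ∀ t, |μ t| ≤ B) :
    Continuous (Aw μ) := by
  have h : Aw μ = fun y ↦ ∫ v : ℝ, Real.exp (-|v|) * μ (y + v) := funext fun y ↦ aw_sub μ y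
  rw [h]
  refine continuous_of_dominated (bound := fun v ↦ Real.exp (-|v|) * B) ?_ ?_ ?_ ?_
  · intro y
    exact Continuous.aestronglyMeasurable (by fun_prop)
  · intro y
    refine Eventually.of_forall fun v ↦ ?_
    rw [norm_mul, Real.norm_eq_abs, Real.norm_eq_abs, abs_of_pos (Real.exp_pos _)]
    exact mul_le_mul_of_nonneg_left (hB _) (Real.exp_pos _).le
  · exact aw_int0.mul_const B
  · exact Eventually.of_forall fun v ↦ by fun_prop

lemma Aw_add_le {μ : ℝ → ℝ} {B : ℝ} (hc : Continuous μ) (hB : ∀ t, |μ t| ≤ B)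
    (h0 : ∀ t, 0 ≤ μ t) (y h : ℝ) : Aw μ (y + h) ≤ Real.exp |h| * Aw μ y := by
  unfold Aw
  rw [← integral_const_mul]
  refine integral_mono (Aw_integrand hc hB (y + h)) ((Aw_integrand hc hB y).const_mul _) ?_
  intro t
  simp only
  rw [← mul_assoc, ← Real.exp_add]
  refine mul_le_mul_of_nonneg_right (Real.exp_le_exp.2 ?_) (h0 t)
  have : |y - t| ≤ |y + h - t| + |h| := by
    have h1 : y - t = (y + h - t) + (-h) := by ring
    rw [h1]
    refine (abs_add_le _ _).trans ?_
    rw [abs_neg]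
  linarith

lemma Aw_mono {μ ν : ℝ → ℝ} (hμ : ∀ t, 0 ≤ μ t) (h : ∀ t, μ t ≤ ν t) (y : ℝ)
    (hi : Integrable fun t ↦ Real.exp (-|y - t|) * ν t) (hi' : AEStronglyMeasurable μ) :
    Aw μ y ≤ Aw ν y := by
  unfold Aw
  refine integral_mono_of_nonneg ?_ hi ?_
  · exact Eventually.of_forall fun t ↦ mul_nonneg (Real.exp_pos _).le (hμ t)
  · exact Eventually.of_forall fun t ↦ mul_le_mul_of_nonneg_left (h t) (Real.exp_pos _).le

theorem integral_mul_Aw {μ g : ℝ → ℝ} {B y0 y1 : ℝ} (hy : y0 ≤ y1) (hc : Continuous μ)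
    (hB : ∀ t, |μ t| ≤ B) (hg : ContinuousOn g (Icc y0 y1)) :
    ∫ y in y0..y1, g y * Aw μ y =
      ∫ v : ℝ, Real.exp (-|v|) * ∫ y in y0..y1, g y * μ (y + v) := by
  rw [intervalIntegral.integral_of_le hy]
  have e1 : ∀ y, g y * Aw μ y = ∫ v : ℝ, g y * (Real.exp (-|v|) * μ (y + v)) := by
    intro y
    rw [aw_sub, integral_const_mul]
  simp only [e1]
  rw [integral_integral_swap]
  · refine integral_congr_ae (Eventually.of_forall fun v ↦ ?_)
    simp only
    rw [intervalIntegral.integral_of_le hy, ← integral_const_mul]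
    refine integral_congr_ae (Eventually.of_forall fun y ↦ ?_)
    simp only
    ring
  · have hgm : AEStronglyMeasurable g (volume.restrict (Ioc y0 y1)) :=
      (hg.mono Ioc_subset_Icc_self).aestronglyMeasurable measurableSet_Ioc
    have hgi : Integrable g (volume.restrict (Ioc y0 y1)) :=
      (hg.integrableOn_Icc).mono_set Ioc_subset_Icc_self
    have hprod : Integrable (fun p : ℝ × ℝ ↦ g p.1 * Real.exp (-|p.2|))
        ((volume.restrict (Ioc y0 y1)).prod volume) := hgi.mul_prod aw_int0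
    have h2 := hprod.mul_bdd (c := B) (g := fun p : ℝ × ℝ ↦ μ (p.1 + p.2))
      (Continuous.aestronglyMeasurable (by fun_prop))
      (Eventually.of_forall fun p ↦ by
        rw [Real.norm_eq_abs]
        exact hB _)
    refine h2.congr (Eventually.of_forall fun p ↦ ?_)
    simp only [Function.uncurry]
    ring

end Pool.Agent.H62.ST
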