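import Pool.Agent.H62.ST.LogZeta

/-!
# Module BigFactor: factorisation of `ζ` in a large disc

1. `Pool.Agent.H6.exists_factor` (H6/HalfJensen) for `zetaPole` on `closedBall (2+iT) (4/5 T)`: `zetaPole z = ∏_{u ∈ S'} (z-u)^{n u} g z`, `g ≠ 0`. Restrict to the
   open ball: zeros on the sphere go into `g`; for `u` in the open ball `n u = zord u` (`Pool.Agent.H6.order_eq_of_factor`).
2. `g = exp L'` on the ball (see the proof of `Pool.Agent.H6.abs_log_bound` for the primitive of `g'/g` on a ball), `Complex.log (z-1)` is holomorphic on the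
   ball `(2+iT) (7/10 T)` (there `Im z > 0`), `L = L' - log(z-1)`: `ζ(z) = exp(L z) ∏ (z-u)^{zord u}` (`zetaPole_of_ne`).
3. On the segment `2 + iy`, `y ∈ [T/2, 3T/2]`, `ell S L (2+iy) - lz (2+iy)` is continuous (zeros have `Re < 1`, so `2+iy-u ∈ slitPlane`) and has
   exponential `1` (`Complex.exp_log`, `exp_lz`), so it is a constant `2π i k`; subtract it from `L`.
-/

set_option autoImplicit false

open Complex Filter Topology MeasureTheory Set Metric
open scoped ArithmeticFunction.vonMangoldt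

namespace Pool.Agent.H62.ST

open Pool.Agent.H6 Pool.Agent.H6.Win

private lemma bf_im {T : ℝ} (hT : 20 ≤ T) {z : ℂ} (hz : z ∈ ball ((2 : ℂ) + T * I) (7 / 10 * T)) :
    0 < z.im := by
  rw [mem_ball, dist_eq_norm] at hz
  have h1 := (Complex.abs_im_le_norm (z - (2 + T * I))).trans_lt hz
  have h2 : (z - (2 + T * I)).im = z.im - T := by simp
  rw [h2, abs_lt] at h1
  linarith [h1.1]

private lemma bf_seg {T : ℝ} (hT : 20 ≤ T) {y : ℝ} (hy : y ∈ Icc (T / 2) (3 * T / 2)) :
    (2 : ℂ) + y * I ∈ ball ((2 : ℂ) + T * I) (7 / 10 * T) := by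
  rw [mem_ball, dist_eq_norm]
  have h1 : (2 : ℂ) + y * I - (2 + T * I) = ((y - T : ℝ) : ℂ) * I := by push_cast; ring
  rw [h1, norm_mul, norm_I, mul_one, Complex.norm_real, Real.norm_eq_abs]
  have h2 : |y - T| ≤ T / 2 := by
    rw [abs_le]
    constructor <;> linarith [hy.1, hy.2]
  linarith

/-- the raw factorisation -/
private lemma bf_raw {T : ℝ} (hT : 20 ≤ T) : ∃ (S : Finset ℂ) (g : ℂ → ℂ),
    (∀ u ∈ S, zetaPole u = 0) ∧
    DifferentiableOn ℂ g (ball ((2 : ℂ) + T * I) (7 / 10 * T)) ∧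
    (∀ z ∈ ball ((2 : ℂ) + T * I) (7 / 10 * T), g z ≠ 0) ∧
    ∀ z ∈ ball ((2 : ℂ) + T * I) (7 / 10 * T),
      zetaPole z = (∏ u ∈ S, (z - u) ^ (zord u)) * g z := by
  classical
  set c : ℂ := 2 + T * I with hc
  have hr : 0 < 4 / 5 * T := by linarith
  have hcre : 1 ≤ c.re := by simp [hc]
  have hf : AnalyticOnNhd ℂ zetaPole (closedBall c (4 / 5 * T)) :=
    fun z _ ↦ zetaPole_analyticAt z
  obtain ⟨S', n, g, hg, hgne, hS, hfac⟩ := exists_factor hr hf (zetaPole_ne_zero_of_one_le hcre)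
  set S : Finset ℂ := S'.filter (fun u ↦ u ∈ ball c (4 / 5 * T)) with hSd
  have hsub : ball c (7 / 10 * T) ⊆ ball c (4 / 5 * T) := ball_subset_ball (by linarith)
  have hord : ∀ u ∈ S, zord u = n u := by
    intro u hu
    rw [hSd, Finset.mem_filter] at hu
    exact order_eq_of_factor hg hgne hf hfac hu.1 hu.2
  refine ⟨S, fun z ↦ (∏ u ∈ S'.filter (fun u ↦ ¬ u ∈ ball c (4 / 5 * T)), (z - u) ^ (n u)) * g z,
    ?_, ?_, ?_, ?_⟩
  · intro u hu
    rw [hSd, Finset.mem_filter] at hu
    exact (hS u hu.1).2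
  · intro z hz
    have h1 : DifferentiableAt ℂ g z := (hg z (ball_subset_closedBall (hsub hz))).differentiableAt
    have h2 : DifferentiableAt ℂ (fun z : ℂ ↦
        ∏ u ∈ S'.filter (fun u ↦ ¬ u ∈ ball c (4 / 5 * T)), (z - u) ^ (n u)) z := by
      fun_prop
    exact (h2.mul h1).differentiableWithinAt
  · intro z hz
    refine mul_ne_zero ?_ (hgne z (ball_subset_closedBall (hsub hz)))
    rw [Finset.prod_ne_zero_iff]
    intro u hu
    rw [Finset.mem_filter] at hu
    refine pow_ne_zero _ (sub_ne_zero.mpr ?_)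
    rintro rfl
    exact hu.2 (hsub hz)
  · intro z hz
    rw [hfac z (ball_subset_closedBall (hsub hz)), ← mul_assoc]
    congr 1
    rw [← Finset.prod_filter_mul_prod_filter_not S' (fun u ↦ u ∈ ball c (4 / 5 * T))]
    congr 1
    refine Finset.prod_congr rfl fun u hu ↦ ?_
    rw [hord u hu]

private lemma exp_ell {S : Finset ℂ} {L : ℂ → ℂ} {z : ℂ} (hz : ∀ u ∈ S, z ≠ u) :
    cexp (ell S L z) = cexp (L z) * ∏ u ∈ S, (z - u) ^ (zord u) := by
  unfold ell
  rw [Complex.exp_add, Complex.exp_sum]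
  congr 1
  refine Finset.prod_congr rfl fun u hu ↦ ?_
  rw [Complex.exp_nat_mul, Complex.exp_log (sub_ne_zero.mpr (hz u hu))]

theorem exists_ell {T : ℝ} (hT : 20 ≤ T) : ∃ (S : Finset ℂ) (L : ℂ → ℂ), IsEll T S L := by
  obtain ⟨S, g, hS, hgd, hgne, hfac⟩ := bf_raw hT
  set c : ℂ := 2 + T * I with hc
  have hR : 0 < 7 / 10 * T := by linarith
  obtain ⟨L', -, hLd, hLe⟩ := exists_log_on_ball hR hgd hgne
  have hslit : ∀ z ∈ ball c (7 / 10 * T), z - 1 ∈ slitPlane := by
    intro z hz
    rw [Complex.mem_slitPlane_iff]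
    right
    have := bf_im hT hz
    simpa using this.ne'
  have hz1 : ∀ z ∈ ball c (7 / 10 * T), z ≠ 1 := by
    intro z hz h
    have := bf_im hT hz
    rw [h] at this
    simp at this
  set L0 : ℂ → ℂ := fun z ↦ L' z - Complex.log (z - 1) with hL0
  have hL0d : DifferentiableOn ℂ L0 (ball c (7 / 10 * T)) := by
    intro z hz
    have h1 : DifferentiableAt ℂ L' z := (hLd z hz).differentiableAt
    have h2 : DifferentiableAt ℂ (fun z : ℂ ↦ Complex.log (z - 1)) z :=
      DifferentiableAt.clog (by fun_prop) (hslit z hz)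
    exact (h1.sub h2).differentiableWithinAt
  have hL0e : ∀ z ∈ ball c (7 / 10 * T), riemannZeta z = cexp (L0 z) * ∏ u ∈ S, (z - u) ^ (zord u) := by
    intro z hz
    have h1 : z - 1 ≠ 0 := sub_ne_zero.mpr (hz1 z hz)
    have h2 : zetaPole z = (z - 1) * riemannZeta z := zetaPole_of_ne (hz1 z hz)
    have h3 := hfac z hz
    rw [h2] at h3
    simp only [hL0]
    rw [Complex.exp_sub, Complex.exp_log h1, hLe z hz]
    field_simp
    rw [mul_comm, h3]
    ring
  have hre : ∀ u ∈ S, u.re < 1 := by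
    intro u hu
    by_contra h
    exact zetaPole_ne_zero_of_one_le (not_lt.mp h) (hS u hu)
  set h : ℝ → ℂ := fun y ↦ ell S L0 (2 + y * I) - lz (2 + y * I) with hh
  have hexp : ∀ y ∈ Icc (T / 2) (3 * T / 2), cexp (h y) = 1 := by
    intro y hy
    have hb := bf_seg hT hy
    simp only [hh]
    have hlt : 1 < ((2 : ℂ) + y * I).re := by simp
    rw [Complex.exp_sub, exp_lz hlt, exp_ell, ← hL0e _ hb]
    · exact div_self (riemannZeta_ne_zero_of_one_le_re hlt.le)
    · rintro u hu rfl
      have := hre _ hu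
      simp at this
  have hcont : ContinuousOn h (Icc (T / 2) (3 * T / 2)) := by
    intro y hy
    have hb := bf_seg hT hy
    have hlt : 1 < ((2 : ℂ) + y * I).re := by simp
    have hline : ContinuousAt (fun y : ℝ ↦ (2 : ℂ) + y * I) y := by fun_prop
    have c1 : ContinuousAt (fun y : ℝ ↦ L0 (2 + y * I)) y :=
      ContinuousAt.comp (f := fun y : ℝ ↦ (2 : ℂ) + y * I) (g := L0)
        (hL0d.differentiableAt (isOpen_ball.mem_nhds hb)).continuousAt hline
    have c2 : ContinuousAt (fun y : ℝ ↦ lz (2 + y * I)) y :=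
      ContinuousAt.comp (f := fun y : ℝ ↦ (2 : ℂ) + y * I) (g := lz)
        (lz_differentiableAt hlt).continuousAt hline
    have c3 : ContinuousAt (fun y : ℝ ↦
        ∑ u ∈ S, (zord u : ℂ) * Complex.log ((2 : ℂ) + y * I - u)) y := by
      refine tendsto_finsetSum _ fun u hu ↦ ?_
      refine ContinuousAt.mul continuousAt_const ?_
      refine ContinuousAt.clog (by fun_prop) ?_
      rw [Complex.mem_slitPlane_iff]
      left
      have := hre u hu
      simp
      linarith
    have : h = fun y : ℝ ↦ (L0 (2 + y * I) +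
        ∑ u ∈ S, (zord u : ℂ) * Complex.log ((2 : ℂ) + y * I - u)) - lz (2 + y * I) := by
      funext y
      simp [hh, ell]
    rw [this]
    exact ((c1.add c3).sub c2).continuousWithinAt
  -- `h` is constant
  have hpi := Real.pi_pos
  have hint : ∀ y ∈ Icc (T / 2) (3 * T / 2), ∃ k : ℤ, h y = k * (2 * Real.pi * I) :=
    fun y hy ↦ Complex.exp_eq_one_iff.mp (hexp y hy)
  have hTm : T ∈ Icc (T / 2) (3 * T / 2) := ⟨by linarith, by linarith⟩
  obtain ⟨k, hk⟩ := hint T hTm
  have hconst : ∀ y ∈ Icc (T / 2) (3 * T / 2), h y = k * (2 * Real.pi * I) := by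
    intro y hy
    obtain ⟨j, hj⟩ := hint y hy
    by_contra hne
    have hjk : j ≠ k := by
      rintro rfl
      exact hne hj
    have hsub : uIcc y T ⊆ Icc (T / 2) (3 * T / 2) := by
      intro x hx
      rcases le_total y T with hyT | hyT
      · rw [uIcc_of_le hyT] at hx
        exact ⟨hy.1.trans hx.1, hx.2.trans hTm.2⟩
      · rw [uIcc_of_ge hyT] at hx
        exact ⟨hTm.1.trans hx.1, hx.2.trans hy.2⟩
    have hFc : ContinuousOn (fun x ↦ (h x).im / (2 * Real.pi)) (uIcc y T) :=
      ((Complex.continuous_im.comp_continuousOn (hcont.mono hsub))).div_const _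
    have hval : ∀ (x : ℝ) (m : ℤ), h x = m * (2 * Real.pi * I) → (h x).im / (2 * Real.pi) = m := by
      intro x m hm
      rw [hm]
      have : ((m : ℂ) * (2 * Real.pi * I)) = ((m * (2 * Real.pi) : ℝ) : ℂ) * I := by
        push_cast; ring
      rw [this, Complex.im_ofReal_mul, I_im, mul_one]
      field_simp
    have hivt := intermediate_value_uIcc hFc
    simp only [hval y j hj, hval T k hk] at hivt
    obtain ⟨x, hx, hxv⟩ : ∃ x ∈ uIcc y T,
        (h x).im / (2 * Real.pi) = (if j < k then (j : ℝ) + 1 / 2 else (k : ℝ) + 1 / 2) := by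
      have hm : (if j < k then (j : ℝ) + 1 / 2 else (k : ℝ) + 1 / 2) ∈ uIcc (j : ℝ) (k : ℝ) := by
        split_ifs with hlt
        · have h1 : (j : ℝ) + 1 ≤ k := by exact_mod_cast hlt
          rw [uIcc_of_le (by linarith)]
          constructor <;> linarith
        · have h1 : (k : ℝ) + 1 ≤ j := by
            have : k < j := lt_of_le_of_ne (not_lt.mp hlt) (Ne.symm hjk)
            exact_mod_cast this
          rw [uIcc_of_ge (by linarith)]
          constructor <;> linarith
      obtain ⟨x, hx, hxe⟩ := hivt hm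
      exact ⟨x, hx, hxe⟩
    obtain ⟨m, hm⟩ := hint x (hsub hx)
    rw [hval x m hm] at hxv
    split_ifs at hxv with hlt
    · have h2 : (2 * m : ℝ) = 2 * j + 1 := by linarith
      have h3 : (2 * m : ℤ) = 2 * j + 1 := by exact_mod_cast h2
      omega
    · have h2 : (2 * m : ℝ) = 2 * k + 1 := by linarith
      have h3 : (2 * m : ℤ) = 2 * k + 1 := by exact_mod_cast h2
      omega
  refine ⟨S, fun z ↦ L0 z - k * (2 * Real.pi * I), hS, hL0d.sub_const _, ?_, ?_⟩
  · intro z hz
    rw [Complex.exp_sub, Complex.exp_int_mul_two_pi_mul_I, div_one]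
    exact hL0e z hz
  · intro y hy
    have h1 := hconst y hy
    simp only [hh, ell] at h1
    simp only [ell]
    linear_combination h1

end Pool.Agent.H62.ST
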