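import Pool.Agent.H62.ST.LogContour
import Pool.Agent.H62.ST.BigFactor

/-!
# Module ContourId: the contour identity for `ell`

`ell S L = L + ∑ zord u Log(z-u)`: rectangle theorem for `L W` (`L` is holomorphic on the ball, which contains `[1/2,2] × [T/2,3T/2]` for `T ≥ 20`),
and `log_contour` for each `u ∈ S` (`Re u < 1 < 2` by `zetaPole_ne_zero_of_one_le`), summed with weights `zord u`.
-/

set_option autoImplicit false

open Complex Filter Topology MeasureTheory Set Metric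
open scoped ArithmeticFunction.vonMangoldt

namespace Pool.Agent.H62.ST

open Pool.Agent.H6 Pool.Agent.H6.Win

private lemma ci_mem_ball {T x y : ℝ} (hT : 20 ≤ T) (hx : x ∈ Icc (1 / 2 : ℝ) 2)
    (hy0 : T / 2 ≤ y) (hy1 : y ≤ 3 * T / 2) :
    ((x : ℂ) + y * I) ∈ Metric.ball ((2 : ℂ) + T * I) (7 / 10 * T) := by
  rw [Metric.mem_ball, Complex.dist_eq]
  have h : ((x : ℂ) + y * I - (2 + T * I) : ℂ) = ((x - 2 : ℝ) : ℂ) + ((y - T : ℝ) : ℂ) * I := by
    push_cast; ring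
  rw [h, Complex.norm_add_mul_I]
  rw [Real.sqrt_lt' (by positivity)]
  have h1 : (x - 2) ^ 2 ≤ 9 / 4 := by nlinarith [hx.1, hx.2]
  have h2 : (y - T) ^ 2 ≤ T ^ 2 / 4 := by nlinarith
  nlinarith

private lemma ci_int {S : Finset ℂ} {L W : ℂ → ℂ} {γ : ℝ → ℂ} {a b : ℝ}
    (hL : IntervalIntegrable (fun t : ℝ ↦ L (γ t) * W (γ t)) volume a b)
    (hu : ∀ u ∈ S, IntervalIntegrable (fun t : ℝ ↦ Complex.log (γ t - u) * W (γ t)) volume a b) :
    IntervalIntegrable (fun t : ℝ ↦ ell S L (γ t) * W (γ t)) volume a b ∧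
    ∫ t in a..b, ell S L (γ t) * W (γ t) = (∫ t in a..b, L (γ t) * W (γ t)) +
      ∑ u ∈ S, (zord u : ℂ) * ∫ t in a..b, Complex.log (γ t - u) * W (γ t) := by
  have he : (fun t : ℝ ↦ ell S L (γ t) * W (γ t)) = fun t : ℝ ↦ L (γ t) * W (γ t) +
      ∑ u ∈ S, (zord u : ℂ) * (Complex.log (γ t - u) * W (γ t)) := by
    funext t
    unfold ell
    rw [add_mul, Finset.sum_mul]
    congr 1
    exact Finset.sum_congr rfl fun u _ ↦ by ring
  have hs : IntervalIntegrable (fun t : ℝ ↦ ∑ u ∈ S,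
      (zord u : ℂ) * (Complex.log (γ t - u) * W (γ t))) volume a b := by
    have h1 := IntervalIntegrable.sum S (f := fun u (t : ℝ) ↦
      (zord u : ℂ) * (Complex.log (γ t - u) * W (γ t))) (fun u hu' ↦ (hu u hu').const_mul _)
    have h2 : (∑ u ∈ S, fun t : ℝ ↦ (zord u : ℂ) * (Complex.log (γ t - u) * W (γ t))) =
        fun t : ℝ ↦ ∑ u ∈ S, (zord u : ℂ) * (Complex.log (γ t - u) * W (γ t)) := by
      funext t
      rw [Finset.sum_apply]
    rw [h2] at h1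
    exact h1
  rw [he]
  refine ⟨hL.add hs, ?_⟩
  rw [intervalIntegral.integral_add hL hs, intervalIntegral.integral_finsetSum
    (fun u hu' ↦ (hu u hu').const_mul _)]
  congr 1
  exact Finset.sum_congr rfl fun u _ ↦ by rw [intervalIntegral.integral_const_mul]

private lemma ci_L_cont {T : ℝ} {S : Finset ℂ} {L : ℂ → ℂ} (h : IsEll T S L)
    {W : ℂ → ℂ} (hW : Differentiable ℂ W) {γ : ℝ → ℂ} {a b : ℝ} (hγ : Continuous γ)
    (hm : ∀ t ∈ uIcc a b, γ t ∈ Metric.ball ((2 : ℂ) + T * I) (7 / 10 * T)) :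
    IntervalIntegrable (fun t : ℝ ↦ L (γ t) * W (γ t)) volume a b := by
  apply ContinuousOn.intervalIntegrable
  exact (h.diff.continuousOn.comp hγ.continuousOn hm).mul
    (hW.continuous.comp hγ).continuousOn

lemma ell_integrable {T : ℝ} (hT : 20 ≤ T) {S : Finset ℂ} {L : ℂ → ℂ} (h : IsEll T S L)
    {W : ℂ → ℂ} (hW : Differentiable ℂ W) {y0 y1 x0 : ℝ} (hy0 : T / 2 ≤ y0) (hy : y0 ≤ y1)
    (hy1 : y1 ≤ 3 * T / 2) (hx0 : x0 ∈ Icc (1 / 2 : ℝ) 2) :
    IntervalIntegrable (fun y : ℝ ↦ ell S L (x0 + y * I) * W (x0 + y * I)) volume y0 y1 := by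
  refine (ci_int (γ := fun y : ℝ ↦ (x0 : ℂ) + y * I) (ci_L_cont h hW (by fun_prop) ?_)
    (fun u _ ↦ log_contour_integrable hW x0 y0 y1)).1
  intro y hy'
  rw [uIcc_of_le hy] at hy'
  exact ci_mem_ball hT hx0 (hy0.trans hy'.1) (hy'.2.trans hy1)

lemma ell_integrable' {T : ℝ} (hT : 20 ≤ T) {S : Finset ℂ} {L : ℂ → ℂ} (h : IsEll T S L)
    {W : ℂ → ℂ} (hW : Differentiable ℂ W) {y : ℝ} (hy0 : T / 2 ≤ y) (hy1 : y ≤ 3 * T / 2) :
    IntervalIntegrable (fun x : ℝ ↦ ell S L (x + y * I) * W (x + y * I)) volume (1 / 2) 2 := by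
  refine (ci_int (γ := fun x : ℝ ↦ (x : ℂ) + y * I) (ci_L_cont h hW (by fun_prop) ?_)
    (fun u _ ↦ log_contour_integrable' hW (1 / 2) 2 y)).1
  intro x hx'
  rw [uIcc_of_le (by norm_num)] at hx'
  exact ci_mem_ball hT hx' hy0 hy1

theorem contour_id {T : ℝ} (hT : 20 ≤ T) {S : Finset ℂ} {L : ℂ → ℂ} (h : IsEll T S L)
    {W : ℂ → ℂ} (hW : Differentiable ℂ W) {y0 y1 : ℝ} (hy0 : T / 2 ≤ y0) (hy : y0 < y1)
    (hy1 : y1 ≤ 3 * T / 2) (hn : ∀ u ∈ S, u.im ≠ y0 ∧ u.im ≠ y1) :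
    ∫ y in y0..y1, ell S L (1 / 2 + y * I) * W (1 / 2 + y * I) =
      (∫ y in y0..y1, ell S L (2 + y * I) * W (2 + y * I)) +
      2 * Real.pi * (∑ u ∈ S.filter (fun u ↦ 1 / 2 < u.re ∧ y0 < u.im ∧ u.im < y1),
        (zord u : ℂ) * ∫ x in (1 / 2 : ℝ)..u.re, W (x + u.im * I)) -
      I * (∫ x in (1 / 2 : ℝ)..2, ell S L (x + y0 * I) * W (x + y0 * I)) +
      I * (∫ x in (1 / 2 : ℝ)..2, ell S L (x + y1 * I) * W (x + y1 * I)) := by
  have hc : (((1 / 2 : ℝ) : ℂ)) = 1 / 2 := by push_cast; rfl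
  have hc2 : (((2 : ℝ) : ℂ)) = 2 := by push_cast; rfl
  -- vertical lines
  have hv : ∀ x0 ∈ Icc (1 / 2 : ℝ) 2,
      ∫ y in y0..y1, ell S L ((x0 : ℂ) + y * I) * W (x0 + y * I) =
      (∫ y in y0..y1, L ((x0 : ℂ) + y * I) * W (x0 + y * I)) +
      ∑ u ∈ S, (zord u : ℂ) * ∫ y in y0..y1,
        Complex.log ((x0 : ℂ) + y * I - u) * W (x0 + y * I) := by
    intro x0 hx0
    refine (ci_int (γ := fun y : ℝ ↦ (x0 : ℂ) + y * I) (ci_L_cont h hW (by fun_prop) ?_)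
      (fun u _ ↦ log_contour_integrable hW x0 y0 y1)).2
    intro y hy'
    rw [uIcc_of_le hy.le] at hy'
    exact ci_mem_ball hT hx0 (hy0.trans hy'.1) (hy'.2.trans hy1)
  -- horizontal lines
  have hh : ∀ y : ℝ, T / 2 ≤ y → y ≤ 3 * T / 2 →
      ∫ x in (1 / 2 : ℝ)..2, ell S L ((x : ℂ) + y * I) * W (x + y * I) =
      (∫ x in (1 / 2 : ℝ)..2, L ((x : ℂ) + y * I) * W (x + y * I)) +
      ∑ u ∈ S, (zord u : ℂ) * ∫ x in (1 / 2 : ℝ)..2,
        Complex.log ((x : ℂ) + y * I - u) * W (x + y * I) := by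
    intro y h0 h1
    refine (ci_int (γ := fun x : ℝ ↦ (x : ℂ) + y * I) (ci_L_cont h hW (by fun_prop) ?_)
      (fun u _ ↦ log_contour_integrable' hW (1 / 2) 2 y)).2
    intro x hx'
    rw [uIcc_of_le (by norm_num)] at hx'
    exact ci_mem_ball hT hx' h0 h1
  -- the rectangle for `L W`
  have hrect := Complex.integral_boundary_rect_eq_zero_of_differentiableOn
    (fun z ↦ L z * W z) ((1 / 2 : ℝ) + y0 * I) ((2 : ℝ) + y1 * I) (by
      refine DifferentiableOn.mul (h.diff.mono ?_) hW.differentiableOn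
      intro z hz
      rw [mem_reProdIm] at hz
      simp only [add_re, ofReal_re, mul_re, I_re, mul_zero, ofReal_im, I_im, mul_one, sub_self,
        add_zero, add_im, mul_im, zero_add] at hz
      rw [uIcc_of_le (by norm_num), uIcc_of_le hy.le] at hz
      have := ci_mem_ball hT hz.1 (hy0.trans hz.2.1) (hz.2.2.trans hy1)
      rwa [Complex.re_add_im] at this)
  simp only [add_re, ofReal_re, mul_re, I_re, mul_zero, ofReal_im, I_im, mul_one, sub_self,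
    add_zero, add_im, mul_im, zero_add, smul_eq_mul] at hrect
  have hrect' : ∫ y in y0..y1, L (((1 / 2 : ℝ) : ℂ) + y * I) * W ((1 / 2 : ℝ) + y * I) =
      (∫ y in y0..y1, L (((2 : ℝ) : ℂ) + y * I) * W ((2 : ℝ) + y * I)) -
      I * (∫ x in (1 / 2 : ℝ)..2, L ((x : ℂ) + y0 * I) * W (x + y0 * I)) +
      I * (∫ x in (1 / 2 : ℝ)..2, L ((x : ℂ) + y1 * I) * W (x + y1 * I)) := by
    have hI : I * I = -1 := Complex.I_mul_I
    linear_combination I * hrect + ((∫ y in y0..y1, L (((2 : ℝ) : ℂ) + y * I) *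
      W ((2 : ℝ) + y * I)) - (∫ y in y0..y1, L (((1 / 2 : ℝ) : ℂ) + y * I) *
      W ((1 / 2 : ℝ) + y * I))) * (-hI)
  -- the logarithms
  have hlog : ∀ u ∈ S, (zord u : ℂ) * ∫ y in y0..y1,
        Complex.log (((1 / 2 : ℝ) : ℂ) + y * I - u) * W ((1 / 2 : ℝ) + y * I) =
      (zord u : ℂ) * (∫ y in y0..y1, Complex.log (((2 : ℝ) : ℂ) + y * I - u) *
        W ((2 : ℝ) + y * I)) +
      (if 1 / 2 < u.re ∧ y0 < u.im ∧ u.im < y1 then
        2 * Real.pi * ((zord u : ℂ) * ∫ x in (1 / 2 : ℝ)..u.re, W (x + u.im * I)) else 0) -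
      I * ((zord u : ℂ) * ∫ x in (1 / 2 : ℝ)..2,
        Complex.log ((x : ℂ) + y0 * I - u) * W (x + y0 * I)) +
      I * ((zord u : ℂ) * ∫ x in (1 / 2 : ℝ)..2,
        Complex.log ((x : ℂ) + y1 * I - u) * W (x + y1 * I)) := by
    intro u hu
    have hre : u.re < 2 := by
      by_contra hcon
      exact zetaPole_ne_zero_of_one_le (s := u) (by linarith) (h.zero u hu)
    rw [log_contour hW (by norm_num : (1 / 2 : ℝ) < 2) hy hre (hn u hu).1 (hn u hu).2]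
    split_ifs with hif
    · ring
    · ring
  have e0 := hv (1 / 2) (by norm_num)
  have e2 := hv 2 (by norm_num)
  rw [hrect', Finset.sum_congr rfl hlog] at e0
  simp only [Finset.sum_add_distrib, Finset.sum_sub_distrib, ← Finset.mul_sum] at e0
  rw [hh y0 hy0 (by linarith), hh y1 (by linarith) hy1]
  rw [← Finset.sum_filter, ← Finset.mul_sum] at e0
  simp only [hc, hc2] at e0 e2
  rw [e0, e2]
  ring

end Pool.Agent.H62.ST
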