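import Pool.Agent.H62.ST.LocCount

/-!
# Module CountExp: exponentially weighted count of zeros

Split the zeros according to `j = ⌊Im u - t⌋`: `local_count2` at `t + j + 1/2`; only heights `|t + j + 1/2| ≤ 2T+1` occur; `exp(-|Im u - t|) ≤ exp(1 - |j|)`
and `∑_j exp(1-|j|) < ∞` (use finite sums: the set of `j` occurring is finite; `∑_{j ∈ J} exp(-|j|) ≤ 2/(1-e^{-1})`).
-/

set_option autoImplicit false

open Complex Filter Topology MeasureTheory Set Metric
open scoped ArithmeticFunction.vonMangoldt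

namespace Pool.Agent.H62.ST

open Pool.Agent.H6 Pool.Agent.H6.Win

private lemma countExp_summable : Summable fun j : ℤ ↦ Real.exp (1 - |(j : ℝ)|) := by
  have h0 : Summable fun n : ℕ ↦ Real.exp (1 - (n : ℝ)) := by
    have h := Real.summable_exp_neg_nat.mul_left (Real.exp 1)
    refine h.congr fun n ↦ ?_
    rw [← Real.exp_add, sub_eq_add_neg]
  refine Summable.of_nat_of_neg ?_ ?_
  · refine h0.congr fun n ↦ ?_
    simp
  · refine h0.congr fun n ↦ ?_
    simp

theorem count_exp : ∃ C : ℝ, 0 < C ∧ ∀ᶠ T : ℝ in atTop, ∀ (F : Finset ℂ),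
    (∀ u ∈ F, 1 / 2 ≤ u.re ∧ 0 ≤ u.im ∧ u.im ≤ 2 * T ∧ zetaPole u = 0) → ∀ t : ℝ,
    (∑ u ∈ F, (zord u : ℝ) * Real.exp (-|u.im - t|)) ≤ C * Real.log T := by
  classical
  obtain ⟨C0, hC0, hloc⟩ := local_count2
  set K : ℝ := ∑' j : ℤ, Real.exp (1 - |(j : ℝ)|) with hK
  have hK0 : 0 ≤ K := tsum_nonneg fun j ↦ (Real.exp_pos _).le
  refine ⟨2 * C0 * K + 1, by positivity, ?_⟩
  filter_upwards [eventually_ge_atTop (4 : ℝ)] with T hT F hF t
  have hlogT : 0 ≤ Real.log T := Real.log_nonneg (by linarith)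
  set j : ℂ → ℤ := fun u ↦ ⌊u.im - t⌋ with hj
  rw [← Finset.sum_fiberwise_of_maps_to (s := F) (t := F.image j)
    (fun u hu ↦ Finset.mem_image_of_mem j hu)]
  have key : ∀ k ∈ F.image j, (∑ u ∈ F.filter (fun u ↦ j u = k),
      (zord u : ℝ) * Real.exp (-|u.im - t|)) ≤
      Real.exp (1 - |(k : ℝ)|) * (C0 * (2 * Real.log T)) := by
    intro k hk
    obtain ⟨u0, hu0, hu0k⟩ := Finset.mem_image.1 hk
    have hfl : ∀ u : ℂ, j u = k → (k : ℝ) ≤ u.im - t ∧ u.im - t < k + 1 := by
      intro u hu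
      have := (Int.floor_eq_iff (a := u.im - t) (z := k)).1 hu
      exact this
    have h1 : (∑ u ∈ F.filter (fun u ↦ j u = k), (zord u : ℝ)) ≤
        C0 * Real.log (|t + k + 1 / 2| + 2) := by
      apply hloc
      intro u hu
      obtain ⟨hu1, hu2⟩ := Finset.mem_filter.1 hu
      obtain ⟨a1, -, -, a4⟩ := hF u hu1
      obtain ⟨b1, b2⟩ := hfl u hu2
      refine ⟨a1, ?_, a4⟩
      rw [abs_le]
      constructor <;> linarith
    have h2 : Real.log (|t + k + 1 / 2| + 2) ≤ 2 * Real.log T := by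
      obtain ⟨-, c2, c3, -⟩ := hF u0 hu0
      obtain ⟨b1, b2⟩ := hfl u0 hu0k
      have h3 : |t + k + 1 / 2| ≤ 2 * T + 1 := by
        rw [abs_le]
        constructor <;> linarith
      have h4 : |t + k + 1 / 2| + 2 ≤ T ^ 2 := by nlinarith
      calc Real.log (|t + k + 1 / 2| + 2) ≤ Real.log (T ^ 2) :=
            Real.log_le_log (by positivity) h4
        _ = 2 * Real.log T := by
            rw [Real.log_pow]
            norm_num
    calc (∑ u ∈ F.filter (fun u ↦ j u = k), (zord u : ℝ) * Real.exp (-|u.im - t|))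
        ≤ ∑ u ∈ F.filter (fun u ↦ j u = k), (zord u : ℝ) * Real.exp (1 - |(k : ℝ)|) := by
          refine Finset.sum_le_sum fun u hu ↦ ?_
          obtain ⟨-, hu2⟩ := Finset.mem_filter.1 hu
          obtain ⟨b1, b2⟩ := hfl u hu2
          refine mul_le_mul_of_nonneg_left (Real.exp_le_exp.2 ?_) (Nat.cast_nonneg _)
          have h5 : |(k : ℝ)| ≤ |u.im - t| + 1 := by
            rw [abs_le]
            have h6 := le_abs_self (u.im - t)
            have h7 := neg_abs_le (u.im - t)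
            constructor <;> linarith
          linarith
      _ = Real.exp (1 - |(k : ℝ)|) * ∑ u ∈ F.filter (fun u ↦ j u = k), (zord u : ℝ) := by
          rw [Finset.mul_sum]
          exact Finset.sum_congr rfl fun u _ ↦ mul_comm _ _
      _ ≤ Real.exp (1 - |(k : ℝ)|) * (C0 * (2 * Real.log T)) := by
          refine mul_le_mul_of_nonneg_left ?_ (Real.exp_pos _).le
          exact h1.trans (mul_le_mul_of_nonneg_left h2 hC0.le)
  calc (∑ k ∈ F.image j, ∑ u ∈ F.filter (fun u ↦ j u = k),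
        (zord u : ℝ) * Real.exp (-|u.im - t|))
      ≤ ∑ k ∈ F.image j, Real.exp (1 - |(k : ℝ)|) * (C0 * (2 * Real.log T)) :=
        Finset.sum_le_sum key
    _ = (∑ k ∈ F.image j, Real.exp (1 - |(k : ℝ)|)) * (C0 * (2 * Real.log T)) := by
        rw [Finset.sum_mul]
    _ ≤ K * (C0 * (2 * Real.log T)) := by
        refine mul_le_mul_of_nonneg_right ?_ (by positivity)
        exact countExp_summable.sum_le_tsum _ fun _ _ ↦ (Real.exp_pos _).le
    _ ≤ (2 * C0 * K + 1) * Real.log T := by nlinarith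

end Pool.Agent.H62.ST
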