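import Pool.Agent.H6.Win.ZetaLoc
import Pool.Agent.H6.Win.Detect
import Pool.Agent.H6.Win.MVT
import Pool.Agent.H6.FunctionalEq

/-!
# Definitions for the unconditional omega theorem for `S(T)`
-/

set_option autoImplicit false

open Complex Filter Topology MeasureTheory Set
open scoped ArithmeticFunction.vonMangoldt

namespace Pool.Agent.H62.ST

open Pool.Agent.H6 Pool.Agent.H6.Win

/-- A Dirichlet polynomial `∑_{n ≤ N} a_n n^{-it}`. -/
noncomputable def dp (N : ℕ) (a : ℕ → ℂ) (t : ℝ) : ℂ :=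
  ∑ n ∈ Finset.Icc 1 N, a n * (n : ℂ) ^ (-(t * I))

/-- Dirichlet convolution of `a` on `[1, A]` and `r` on `[1, N]`. -/
noncomputable def conv (A N : ℕ) (a r : ℕ → ℂ) (m : ℕ) : ℂ :=
  ∑ p ∈ (Finset.Icc 1 A ×ˢ Finset.Icc 1 N) with p.1 * p.2 = m, a p.1 * r p.2

/-- The square of the `l^2` norm. -/
noncomputable def nsq (N : ℕ) (r : ℕ → ℂ) : ℝ := ∑ n ∈ Finset.Icc 1 N, ‖r n‖ ^ 2

/-- The admissible loss `exp (C √(log T) log log T)`. -/
noncomputable def loss (C T : ℝ) : ℝ :=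
  Real.exp (C * (Real.sqrt (Real.log T) * Real.log (Real.log T)))

/-- The `k`-fold divisor function. -/
def uk (k n : ℕ) : ℕ := ((ArithmeticFunction.zeta : ArithmeticFunction ℕ) ^ k) n

/-- Length of the mollifier. -/
noncomputable def xm (T : ℝ) : ℕ := ⌊T ^ (1 / 8 : ℝ)⌋₊

/-- Length of the partial sums of `ζ`. -/
noncomputable def Zm (T : ℝ) : ℕ := ⌈T ^ (3 / 4 : ℝ)⌉₊

/-- The partial sum of `ζ` at `1/2 + 1/log T`. -/
noncomputable def Pz (T : ℝ) (y : ℝ) : ℂ :=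
  dp (Zm T) (fun n ↦ ((((n : ℝ) ^ (-(1 / 2 + 1 / Real.log T) : ℝ) : ℝ)) : ℂ)) y

/-- `G(s) = ζ(s) M(s) - 1`. -/
noncomputable def Gf (T : ℝ) (s : ℂ) : ℂ := riemannZeta s * mobs s (xm T) - 1

/-- The entire function whose shifts give the approximate functional equation. -/
noncomputable def PhiA (T y : ℝ) (w : ℂ) : ℂ :=
  zetaPole (1 / 2 + y * I + w) * ((Real.sqrt T : ℝ) : ℂ) ^ w * cexp (w ^ 2)

/-- The density `|R(t)|^2 exp (-((t - T)/(T/log T))^2)`. -/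
noncomputable def dens (N : ℕ) (r : ℕ → ℂ) (T t : ℝ) : ℝ :=
  ‖dp N r t‖ ^ 2 * Real.exp (-((t - T) / (T / Real.log T)) ^ 2)

/-- Local mass. -/
noncomputable def Aw (μ : ℝ → ℝ) (y : ℝ) : ℝ := ∫ t : ℝ, Real.exp (-|y - t|) * μ t

/-- The Gaussian kernel, as an entire function. -/
noncomputable def Kc (Δ : ℝ) (z : ℂ) : ℂ := Δ * cexp (-(Real.pi * Δ ^ 2 * z ^ 2))

/-- The smoothed density, as an entire function. -/
noncomputable def Wc (Δ : ℝ) (μ : ℝ → ℝ) (z : ℂ) : ℂ := ∫ t : ℝ, Kc Δ (z - t) * (μ t : ℂ)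

/-- The smoothed density on the real line. -/
noncomputable def Wr (Δ : ℝ) (μ : ℝ → ℝ) (y : ℝ) : ℝ :=
  ∫ t : ℝ, Δ * Real.exp (-(Real.pi * Δ ^ 2 * (y - t) ^ 2)) * μ t

/-- The smoothed density, as a function of `s = 1/2 + i z`. -/
noncomputable def Ws (Δ : ℝ) (μ : ℝ → ℝ) (s : ℂ) : ℂ := Wc Δ μ (-I * (s - 1 / 2))

/-- The transform of the kernel at `log n / 2 π`. -/
noncomputable def kh (Δ : ℝ) (n : ℕ) : ℝ := Real.exp (-(Real.log n ^ 2 / (4 * Real.pi * Δ ^ 2)))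

/-- The logarithm of `ζ` in the half plane of absolute convergence. -/
noncomputable def lz (s : ℂ) : ℂ :=
  ∑' n : ℕ, ((Λ n / Real.log n : ℝ) : ℂ) * (n : ℂ) ^ (-s)

/-- The branch of `log ζ` obtained by continuation along horizontal lines. -/
noncomputable def ell (S : Finset ℂ) (L : ℂ → ℂ) (z : ℂ) : ℂ :=
  L z + ∑ u ∈ S, (zord u : ℂ) * Complex.log (z - u)

/-- `S`, `L` factorise `ζ` in a large disc. -/
structure IsEll (T : ℝ) (S : Finset ℂ) (L : ℂ → ℂ) : Prop where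
  zero : ∀ u ∈ S, zetaPole u = 0
  diff : DifferentiableOn ℂ L (Metric.ball (2 + T * I) (7 / 10 * T))
  fac : ∀ z ∈ Metric.ball ((2 : ℂ) + T * I) (7 / 10 * T),
    riemannZeta z = cexp (L z) * ∏ u ∈ S, (z - u) ^ (zord u)
  right : ∀ y ∈ Icc (T / 2) (3 * T / 2), ell S L (2 + y * I) = lz (2 + y * I)

/-- The diagonal term `∑_a r_a conj(r_{na})`. -/
noncomputable def diag (N : ℕ) (r : ℕ → ℂ) (n : ℕ) : ℂ :=
  ∑ a ∈ (Finset.Icc 1 N).filter (fun a ↦ n * a ≤ N), r a * (starRingEnd ℂ) (r (n * a))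

/-- The primes used by the resonator. -/
noncomputable def Pset (T : ℝ) : Finset ℕ :=
  (Finset.Ioc ⌊Real.log T⌋₊ ⌊Real.log T ^ 3⌋₊).filter Nat.Prime

/-- `T` is not the ordinate of a zero of `ζ`. -/
def NonOrd (T : ℝ) : Prop := ∀ x : ℝ, riemannZeta ((x : ℂ) + T * I) ≠ 0

/-- `θ` is the value at `1/2 + iT` of the argument of `ζ`, obtained by continuous variation along
the segments from `2` to `2 + iT` and from `2 + iT` to `1/2 + iT`, starting with the value `0`. -/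
def IsArg (T θ : ℝ) : Prop :=
  ∃ f g : ℝ → ℝ, ContinuousOn f (Icc 0 T) ∧ ContinuousOn g (Icc (1 / 2) 2) ∧
    f 0 = 0 ∧ g 2 = f T ∧ g (1 / 2) = θ ∧
    (∀ y ∈ Icc (0 : ℝ) T, riemannZeta (2 + y * I) =
      (‖riemannZeta (2 + y * I)‖ : ℂ) * cexp (f y * I)) ∧
    (∀ x ∈ Icc (1 / 2 : ℝ) 2, riemannZeta ((x : ℂ) + T * I) =
      (‖riemannZeta ((x : ℂ) + T * I)‖ : ℂ) * cexp (g x * I))

end Pool.Agent.H62.ST
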