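import Pool.Agent.H62.ST.Defs
import Pool.Agent.H6.ZetaGrowth

/-!
# Module LocCount: zeros near `2 + it`, including the critical line

`zeta_loc2` is `Pool.Agent.H6.zeta_loc` (file H6/Win/ZetaLoc.lean) with larger radii `8/5 < 17/10 < 9/5`: copy its proof; the only change is
the growth bound (`zetaPole_ratio`) on `closedBall (2+it) (9/5)`, where `Re ≥ 1/5`: use `zetaPole_eq` and `norm_frMellin_le` (H6/ZetaGrowth).
`local_count2`: a zero with `Re u ≥ 1/2`, `|Im u - t| ≤ 1/2` has `‖u - (2+it)‖ ≤ √(9/4 + 1/4) < 17/10` (also `Re u < 1`: `zetaPole_ne_zero_of_one_le`).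
-/

set_option autoImplicit false

open Complex Filter Topology MeasureTheory Set Metric
open scoped ArithmeticFunction.vonMangoldt

namespace Pool.Agent.H62.ST

open Pool.Agent.H6 Pool.Agent.H6.Win

private lemma LocCount_growth {s : ℂ} (hs : 1 / 5 ≤ s.re) : ‖zetaPole s‖ ≤ 5 * (1 + ‖s‖) ^ 2 := by
  rw [zetaPole_eq (by linarith)]
  have h1 := norm_frMellin_le (s := s) (by linarith)
  have h2 : ‖frMellin s‖ ≤ 5 := by
    refine h1.trans ?_
    rw [div_le_iff₀ (by linarith)]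
    linarith
  have h3 : ‖s - 1‖ ≤ ‖s‖ + 1 := by
    refine (norm_sub_le _ _).trans ?_
    simp
  have h0 := norm_nonneg s
  calc ‖s - s * (s - 1) * frMellin s‖ ≤ ‖s‖ + ‖s * (s - 1) * frMellin s‖ := norm_sub_le _ _
    _ = ‖s‖ + ‖s‖ * ‖s - 1‖ * ‖frMellin s‖ := by rw [norm_mul, norm_mul]
    _ ≤ ‖s‖ + ‖s‖ * (‖s‖ + 1) * 5 := by gcongr
    _ ≤ 5 * (1 + ‖s‖) ^ 2 := by nlinarith

private lemma LocCount_ratio : ∃ K : ℝ, 1 ≤ K ∧ ∀ t : ℝ, ∀ z ∈ closedBall ((2:ℂ) + t * I) (9 / 5),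
    ‖zetaPole z‖ ≤ K * (|t| + 5) ^ 2 * ‖zetaPole (2 + t * I)‖ := by
  set K0 : ℝ := ∑' n : ℕ, 1 / (n : ℝ) ^ (2:ℝ) with hK0
  refine ⟨max 1 (5 * K0), le_max_left _ _, fun t z hz => ?_⟩
  rw [mem_closedBall, dist_eq_norm] at hz
  have hre : 1 / 5 ≤ z.re := by
    have h1 := (Complex.abs_re_le_norm (z - (2 + t * I))).trans hz
    simp at h1
    rw [abs_le] at h1
    linarith [h1.1]
  have h1 := LocCount_growth hre
  have hz2 : ‖z‖ ≤ |t| + 4 := by
    calc ‖z‖ = ‖(z - (2 + t * I)) + (2 + t * I)‖ := by ring_nf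
      _ ≤ ‖z - (2 + t * I)‖ + (‖(2:ℂ)‖ + ‖(t:ℂ) * I‖) := (norm_add_le _ _).trans (by
          gcongr; exact norm_add_le _ _)
      _ ≤ |t| + 4 := by
          simp
          linarith
  have h2 : ‖zetaPole z‖ ≤ 5 * (|t| + 5) ^ 2 := by
    refine h1.trans ?_
    have := norm_nonneg z
    have h8 : 1 + ‖z‖ ≤ |t| + 5 := by linarith
    gcongr
  set c : ℂ := 2 + t * I with hc
  have hcre : c.re = 2 := by simp [hc]
  have h3 := norm_inv_riemannZeta_le (s := c) (x := 2) (by norm_num) (by rw [hcre])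
  have hcne : c ≠ 1 := by
    intro h; rw [h] at hcre; simp at hcre
  have hζ : riemannZeta c ≠ 0 := riemannZeta_ne_zero_of_one_le_re (by rw [hcre]; norm_num)
  have h4 : zetaPole c = (c - 1) * riemannZeta c := by
    unfold zetaPole
    rw [Function.update_of_ne hcne]
  have h5 : 1 ≤ ‖c - 1‖ := by
    have := Complex.abs_re_le_norm (c - 1)
    rw [Complex.sub_re, hcre, Complex.one_re] at this
    norm_num at this
    exact this
  have h6 : 1 ≤ K0 * ‖zetaPole c‖ := by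
    rw [h4, norm_mul]
    rw [norm_inv] at h3
    have hpos : 0 < ‖riemannZeta c‖ := norm_pos_iff.2 hζ
    have h7 : 1 ≤ K0 * ‖riemannZeta c‖ := by
      rw [inv_le_iff_one_le_mul₀ hpos] at h3
      exact h3
    calc (1:ℝ) ≤ K0 * ‖riemannZeta c‖ := h7
      _ = 1 * (K0 * ‖riemannZeta c‖) := by ring
      _ ≤ ‖c - 1‖ * (K0 * ‖riemannZeta c‖) := by gcongr
      _ = _ := by ring
  calc ‖zetaPole z‖ ≤ 5 * (|t| + 5) ^ 2 := h2
    _ = 5 * (|t| + 5) ^ 2 * 1 := by ring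
    _ ≤ 5 * (|t| + 5) ^ 2 * (K0 * ‖zetaPole c‖) := by gcongr
    _ = 5 * K0 * (|t| + 5) ^ 2 * ‖zetaPole c‖ := by ring
    _ ≤ max 1 (5 * K0) * (|t| + 5) ^ 2 * ‖zetaPole c‖ := by
        gcongr
        exact le_max_right _ _

theorem zeta_loc2 : ∃ C : ℝ, 0 < C ∧ ∀ t : ℝ, ∃ S : Finset ℂ,
    (∀ u, u ∈ S ↔ (u ∈ closedBall ((2 : ℂ) + t * I) (17 / 10) ∧ zetaPole u = 0)) ∧
    (∀ u ∈ S, 1 ≤ zord u) ∧
    (∑ u ∈ S, (zord u : ℝ)) ≤ C * Real.log (|t| + 2) ∧
    ∀ z ∈ closedBall ((2 : ℂ) + t * I) (8 / 5), zetaPole z ≠ 0 →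
      ‖deriv zetaPole z / zetaPole z - ∑ u ∈ S, (zord u : ℂ) / (z - u)‖ ≤
        C * Real.log (|t| + 2) := by
  obtain ⟨C, hC, hmain⟩ := loc_log (R0 := 8 / 5) (R1 := 17 / 10) (R2 := 9 / 5)
    (by norm_num) (by norm_num) (by norm_num)
  obtain ⟨K, hK1, hK⟩ := LocCount_ratio
  have hl2 : 0 < Real.log 2 := Real.log_pos (by norm_num)
  set D : ℝ := Real.log K / Real.log 2 + 6 with hD
  have hDpos : 0 < D := by
    have : 0 ≤ Real.log K := Real.log_nonneg hK1
    positivity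
  refine ⟨C * D, by positivity, fun t => ?_⟩
  have ht := abs_nonneg t
  set x : ℝ := |t| + 2 with hx
  have hx2 : 2 ≤ x := by rw [hx]; linarith
  have hlx : 0 < Real.log x := log_two_add_pos t
  have hbound : K * (|t| + 5) ^ 2 ≤ Real.exp (D * Real.log x) := by
    have e1 : Real.exp (D * Real.log x) = Real.exp (Real.log K / Real.log 2 * Real.log x) *
        x ^ 6 := by
      rw [hD, add_mul, Real.exp_add]
      congr 1
      rw [← Real.exp_log (show (0:ℝ) < x ^ 6 by positivity), Real.log_pow]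
      norm_num
    rw [e1]
    have e2 : K ≤ Real.exp (Real.log K / Real.log 2 * Real.log x) := by
      have : Real.log K ≤ Real.log K / Real.log 2 * Real.log x := by
        rw [div_mul_eq_mul_div, le_div_iff₀ hl2]
        have := Real.log_nonneg hK1
        have := Real.log_le_log (by norm_num) hx2
        gcongr
      calc K = Real.exp (Real.log K) := (Real.exp_log (by linarith)).symm
        _ ≤ _ := Real.exp_le_exp.2 this
    have e3 : (|t| + 5) ^ 2 ≤ x ^ 6 := by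
      have : |t| + 5 ≤ x ^ 3 := by
        rw [hx]
        nlinarith [pow_nonneg ht 2, pow_nonneg ht 3]
      calc (|t| + 5) ^ 2 ≤ (x ^ 3) ^ 2 := by gcongr
        _ = x ^ 6 := by ring
    gcongr
  obtain ⟨S, hS1, hS2, hS3, hS4⟩ := hmain zetaPole (2 + t * I) (D * Real.log x) (by positivity)
    (fun z _ => zetaPole_analyticAt z)
    (zetaPole_ne_zero_of_one_le (by simp)) (fun z hz => (hK t z hz).trans (by gcongr))
  refine ⟨S, hS1, hS2, hS3.trans (le_of_eq (by ring)), fun z hz hne => (hS4 z hz hne).trans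
    (le_of_eq (by ring))⟩

theorem local_count2 : ∃ C : ℝ, 0 < C ∧ ∀ (t : ℝ) (F : Finset ℂ),
    (∀ u ∈ F, 1 / 2 ≤ u.re ∧ |u.im - t| ≤ 1 / 2 ∧ zetaPole u = 0) →
    (∑ u ∈ F, (zord u : ℝ)) ≤ C * Real.log (|t| + 2) := by
  obtain ⟨C, hC, hmain⟩ := zeta_loc2
  refine ⟨C, hC, fun t F hF => ?_⟩
  obtain ⟨S, hS1, -, hS3, -⟩ := hmain t
  refine le_trans ?_ hS3
  apply Finset.sum_le_sum_of_subset_of_nonneg
  · intro u hu
    obtain ⟨a1, a2, a3⟩ := hF u hu
    rw [hS1]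
    refine ⟨?_, a3⟩
    rw [mem_closedBall, dist_eq_norm]
    have hlt : u.re < 1 := by
      by_contra h
      exact zetaPole_ne_zero_of_one_le (not_lt.1 h) a3
    have e1 : (u - (2 + t * I)).re = u.re - 2 := by simp
    have e2 : (u - (2 + t * I)).im = u.im - t := by simp
    have h4 : ‖u - (2 + t * I)‖ ^ 2 ≤ (17 / 10) ^ 2 := by
      rw [Complex.sq_norm, Complex.normSq_apply, e1, e2]
      rw [abs_le] at a2
      nlinarith [a2.1, a2.2]
    exact le_of_sq_le_sq h4 (by norm_num)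
  · intro u _ _
    positivity

end Pool.Agent.H62.ST
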