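import Pool.Agent.H62.ST.MeanG
import Pool.Agent.H62.ST.LocCount
import Pool.Agent.H62.ST.AreaW
import Pool.Agent.H62.ST.AwBase

/-!
# Module Dens: the zero density estimate weighted by `|R|^2`

`ρ = δ/2`, `G = Gf T`, `A = Aw (‖dp N r ·‖^2)`, `m = zord`, `area_weighted` on `[1/2+δ/2, 5/4] × [1, 4T]`: `Gf T u = -1` at zeros; overlap `≤ C log(4T+3)`
(`local_count2` at `t = Im z`). For fixed `σ`: `∫_1^{4T} ‖G(σ+iy)‖^2 A(y) dy = ∫ exp(-|v|) ∫_1^{4T} ‖G‖^2 ‖dp N r (y+v)‖^2 dy dv ≤ 2 T^{1-δ/16} loss nsq`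
(`integral_mul_Aw`, `dp_shift`, `nsq_twist`, `meanG`). `e/(π ρ^2) ≤ 2 (log T)^2`, all powers of `log T` go into the loss (`const_log_le_loss`).
-/

set_option autoImplicit false

open Complex Filter Topology MeasureTheory Set Metric
open scoped ArithmeticFunction.vonMangoldt

namespace Pool.Agent.H62.ST

open Pool.Agent.H6 Pool.Agent.H6.Win

private lemma dens_mu_cont (N : ℕ) (r : ℕ → ℂ) : Continuous (fun t ↦ ‖dp N r t‖ ^ 2) :=
  ((continuous_dp N r).norm).pow 2

private lemma dens_mu_bd (N : ℕ) (r : ℕ → ℂ) (t : ℝ) : |‖dp N r t‖ ^ 2| ≤ N * nsq N r := by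
  rw [abs_of_nonneg (by positivity)]
  exact norm_dp_sq_le N r t

private lemma dens_diff {T : ℝ} {z : ℂ} (hz : z ≠ 1) : DifferentiableAt ℂ (Gf T) z := by
  have h1 : DifferentiableAt ℂ (fun s : ℂ ↦ mobs s (xm T)) z := by
    unfold mobs
    refine DifferentiableAt.fun_sum fun d hd ↦ ?_
    have hd0 : (d : ℂ) ≠ 0 := by
      rw [Finset.mem_Icc] at hd
      exact_mod_cast (by omega : d ≠ 0)
    exact ((differentiableAt_id.neg).const_cpow (Or.inl hd0)).const_mul _
  have h2 : DifferentiableAt ℂ riemannZeta z := differentiableAt_riemannZeta hz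
  exact (h2.mul h1).sub_const 1

private lemma dens_exp_int : Integrable fun v : ℝ ↦ Real.exp (-|v|) := by
  have h := Aw_integrand (μ := fun _ ↦ (1 : ℝ)) (B := 1) continuous_const (fun t ↦ by simp) 0
  simpa using h

/-- for a fixed real part -/
private lemma dens_inner : ∃ C K : ℝ, 0 < C ∧ 0 ≤ K ∧ ∀ᶠ T : ℝ in atTop, ∀ (N : ℕ) (r : ℕ → ℂ)
    (δ σ : ℝ), (N : ℝ) ≤ T ^ (1 / 16 : ℝ) → 2 / Real.log T ≤ δ → 1 / 2 + δ / 2 ≤ σ → σ ≤ 3 / 2 →
    |∫ y in (1 : ℝ)..(4 * T), ‖Gf T (σ + y * I)‖ ^ 2 * Aw (fun t ↦ ‖dp N r t‖ ^ 2) y| ≤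
      K * (T ^ (1 - δ / 16) * loss C T * nsq N r) := by
  obtain ⟨C, hC, hev⟩ := meanG
  refine ⟨C, ∫ v : ℝ, Real.exp (-|v|), hC, integral_nonneg fun v ↦ (Real.exp_pos _).le, ?_⟩
  filter_upwards [hev, eventually_ge_atTop (3 : ℝ)] with T hT hT3 N r δ σ hN hδ hσ hσ2
  have hlog : 0 < Real.log T := Real.log_pos (by linarith)
  have hy : (1 : ℝ) ≤ 4 * T := by linarith
  have hσ1 : 1 / 2 + 1 / Real.log T ≤ σ := by
    have : 1 / Real.log T = (2 / Real.log T) / 2 := by ring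
    rw [this]
    linarith
  set B : ℝ := T ^ (1 - δ / 16) * loss C T * nsq N r with hB
  have hg : ContinuousOn (fun y : ℝ ↦ ‖Gf T (σ + y * I)‖ ^ 2) (Icc 1 (4 * T)) := by
    intro y hy
    have hz : ((σ : ℂ) + y * I) ≠ 1 := by
      intro h
      have := congrArg Complex.im h
      simp at this
      have h1 := hy.1
      linarith
    have h1 : ContinuousAt (Gf T) ((σ : ℂ) + y * I) := (dens_diff hz).continuousAt
    have h2 : ContinuousAt (fun y : ℝ ↦ Gf T ((σ : ℂ) + y * I)) y :=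
      ContinuousAt.comp (f := fun y : ℝ ↦ (σ : ℂ) + y * I) h1 (by fun_prop)
    exact (h2.norm.pow 2).continuousWithinAt
  have hkey := integral_mul_Aw (μ := fun t ↦ ‖dp N r t‖ ^ 2)
    (g := fun y : ℝ ↦ ‖Gf T (σ + y * I)‖ ^ 2) (B := N * nsq N r) hy (dens_mu_cont N r)
    (dens_mu_bd N r) hg
  rw [hkey]
  have hinn : ∀ v : ℝ, 0 ≤ ∫ y in (1 : ℝ)..(4 * T), ‖Gf T (σ + y * I)‖ ^ 2 * ‖dp N r (y + v)‖ ^ 2 :=
    fun v ↦ intervalIntegral.integral_nonneg hy fun y _ ↦ by positivity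
  have hinn2 : ∀ v : ℝ, ∫ y in (1 : ℝ)..(4 * T), ‖Gf T (σ + y * I)‖ ^ 2 * ‖dp N r (y + v)‖ ^ 2 ≤ B := by
    intro v
    have h1 := hT N (fun n ↦ r n * (n : ℂ) ^ (-(v * I))) σ hN hσ1 hσ2
    rw [nsq_twist] at h1
    have h2 : ∫ y in (1 : ℝ)..(4 * T), ‖Gf T (σ + y * I)‖ ^ 2 * ‖dp N r (y + v)‖ ^ 2 =
        ∫ y in (1 : ℝ)..(4 * T), ‖Gf T (σ + y * I)‖ ^ 2 *
          ‖dp N (fun n ↦ r n * (n : ℂ) ^ (-(v * I))) y‖ ^ 2 := by
      refine intervalIntegral.integral_congr fun y _ ↦ ?_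
      rw [dp_shift]
    rw [h2]
    refine h1.trans ?_
    rw [hB]
    have h3 : T ^ (1 - (σ - 1 / 2) / 8) ≤ T ^ (1 - δ / 16) :=
      Real.rpow_le_rpow_of_exponent_le (by linarith) (by linarith)
    have h4 := loss_pos C T
    have h5 := nsq_nonneg N r
    gcongr
  rw [abs_of_nonneg (integral_nonneg fun v ↦ mul_nonneg (Real.exp_pos _).le (hinn v))]
  rw [← integral_mul_const]
  refine integral_mono_of_nonneg (ae_of_all _ fun v ↦ mul_nonneg (Real.exp_pos _).le (hinn v))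
    (dens_exp_int.mul_const _) (ae_of_all _ fun v ↦ ?_)
  exact mul_le_mul_of_nonneg_left (hinn2 v) (Real.exp_pos _).le

theorem dens_weighted : ∃ C : ℝ, 0 < C ∧ ∀ᶠ T : ℝ in atTop, ∀ (N : ℕ) (r : ℕ → ℂ) (δ : ℝ)
    (F : Finset ℂ), (N : ℝ) ≤ T ^ (1 / 16 : ℝ) → 2 / Real.log T ≤ δ → δ ≤ 1 / 2 →
    (∀ u ∈ F, zetaPole u = 0 ∧ 1 / 2 + δ ≤ u.re ∧ T / 4 ≤ u.im ∧ u.im ≤ 2 * T) →
    ∑ u ∈ F, (zord u : ℝ) * Aw (fun t ↦ ‖dp N r t‖ ^ 2) u.im ≤
      T ^ (1 - δ / 16) * loss C T * nsq N r := by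
  obtain ⟨C, K, hC, hK, hin⟩ := dens_inner
  obtain ⟨C1, hC1, hloc⟩ := local_count2
  refine ⟨C + 1, by linarith, ?_⟩
  filter_upwards [hin, eventually_ge_atTop (8 : ℝ),
    const_log_le_loss (Real.exp 1 * (2 * C1) * K / Real.pi) 3] with T hT hT8 hTl N r δ F hN hδ hδ2 hF
  have hlog : 0 < Real.log T := Real.log_pos (by linarith)
  have hδ0 : 0 < δ := lt_of_lt_of_le (by positivity) hδ
  set B : ℝ := T ^ (1 - δ / 16) * loss C T * nsq N r with hB
  have hB0 : 0 ≤ B := by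
    have h4 := loss_pos C T
    have h5 := nsq_nonneg N r
    positivity
  set A : ℝ → ℝ := Aw (fun t ↦ ‖dp N r t‖ ^ 2) with hA
  set M : ℝ := C1 * Real.log (4 * T + 3) with hM
  have hM0 : 0 ≤ M := mul_nonneg hC1.le (Real.log_nonneg (by linarith))
  have harea := area_weighted (G := Gf T) (A := A) (F := F) (m := fun u ↦ (zord u : ℝ))
    (ρ := δ / 2) (x0 := 1 / 2 + δ / 2) (x1 := 5 / 4) (y0 := 1) (y1 := 4 * T) (M := M)
    (by linarith) (by linarith) (by linarith) (by linarith) hM0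
    (by
      intro z _ _ hz _
      refine dens_diff fun h ↦ ?_
      rw [h] at hz
      simp at hz
      linarith)
    (Aw_continuous (dens_mu_cont N r) (dens_mu_bd N r))
    (fun y ↦ Aw_nonneg (fun t ↦ by positivity) y)
    (fun y h ↦ Aw_add_le (dens_mu_cont N r) (dens_mu_bd N r) (fun t ↦ by positivity) y h)
    (fun u _ ↦ by positivity)
    (by
      intro u hu
      obtain ⟨h1, h2, h3, h4⟩ := hF u hu
      have hu1 : u ≠ 1 := by
        intro h
        rw [h] at h3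
        simp at h3
        linarith
      rw [zetaPole_of_ne hu1] at h1
      have h5 : riemannZeta u = 0 := by
        rcases mul_eq_zero.1 h1 with h | h
        · exact absurd (sub_eq_zero.1 h) hu1
        · exact h
      simp [Gf, h5])
    (by
      intro u hu
      obtain ⟨h1, h2, h3, h4⟩ := hF u hu
      have h5 : u.re < 1 := by
        by_contra h
        exact zetaPole_ne_zero_of_one_le (not_lt.1 h) h1
      refine ⟨by linarith, by linarith, by linarith, by linarith⟩)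
    (by
      intro z
      rcases (F.filter (fun u ↦ dist z u < δ / 2)).eq_empty_or_nonempty with he | ⟨u0, hu0⟩
      · rw [he]
        simpa using hM0
      · have h1 := hloc z.im (F.filter (fun u ↦ dist z u < δ / 2)) (by
          intro u hu
          rw [Finset.mem_filter] at hu
          obtain ⟨h1, h2, h3, h4⟩ := hF u hu.1
          refine ⟨by linarith, ?_, h1⟩
          have h6 : |(u - z).im| ≤ ‖u - z‖ := Complex.abs_im_le_norm _
          rw [← dist_eq, dist_comm] at h6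
          rw [Complex.sub_im] at h6
          linarith [hu.2])
        refine h1.trans ?_
        rw [hM]
        refine mul_le_mul_of_nonneg_left ?_ hC1.le
        refine Real.log_le_log (by positivity) ?_
        rw [Finset.mem_filter] at hu0
        obtain ⟨h1, h2, h3, h4⟩ := hF u0 hu0.1
        have h6 : |(u0 - z).im| ≤ ‖u0 - z‖ := Complex.abs_im_le_norm _
        rw [← dist_eq, dist_comm] at h6
        rw [Complex.sub_im] at h6
        have h7 : |z.im| ≤ |u0.im| + |u0.im - z.im| := by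
          have := abs_sub_abs_le_abs_sub z.im u0.im
          rw [abs_sub_comm u0.im z.im]
          linarith
        rw [abs_of_nonneg (by linarith : (0 : ℝ) ≤ u0.im)] at h7
        linarith [hu0.2])
  have hout : |∫ x in (1 / 2 + δ / 2)..(5 / 4 : ℝ), ∫ y in (1 : ℝ)..(4 * T),
      ‖Gf T (x + y * I)‖ ^ 2 * A y| ≤ K * B := by
    have h1 := intervalIntegral.norm_integral_le_of_norm_le_const (a := 1 / 2 + δ / 2) (b := 5 / 4)
      (C := K * B) (f := fun x : ℝ ↦ ∫ y in (1 : ℝ)..(4 * T), ‖Gf T (x + y * I)‖ ^ 2 * A y) (by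
        intro x hx
        rw [uIoc_of_le (by linarith)] at hx
        rw [Real.norm_eq_abs]
        exact hT N r δ x hN hδ hx.1.le (by linarith [hx.2]))
    rw [Real.norm_eq_abs] at h1
    refine h1.trans ?_
    have h2 : |(5 / 4 : ℝ) - (1 / 2 + δ / 2)| ≤ 1 := by
      rw [abs_le]
      constructor <;> linarith
    have h3 : 0 ≤ K * B := mul_nonneg hK hB0
    nlinarith
  have hout2 := (le_abs_self _).trans hout
  have hsum0 : 0 ≤ ∑ u ∈ F, (zord u : ℝ) * A u.im :=
    Finset.sum_nonneg fun u _ ↦ mul_nonneg (by positivity) (Aw_nonneg (fun t ↦ by positivity) _)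
  have hMl : M ≤ 2 * C1 * Real.log T := by
    have h1 : Real.log (4 * T + 3) ≤ 2 * Real.log T := by
      have : 2 * Real.log T = Real.log (T ^ 2) := by
        rw [Real.log_pow]
        norm_num
      rw [this]
      exact Real.log_le_log (by linarith) (by nlinarith)
    rw [hM]
    nlinarith
  -- division by the area
  have hδl : 1 ≤ (δ / 2) ^ 2 * Real.log T ^ 2 := by
    have h1 : 1 ≤ δ / 2 * Real.log T := by
      rw [div_le_iff₀ hlog] at hδ
      linarith
    calc (1 : ℝ) ≤ (δ / 2 * Real.log T) ^ 2 := one_le_pow₀ h1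
      _ = _ := by ring
  have hpi := Real.pi_pos
  set Sm : ℝ := ∑ u ∈ F, (zord u : ℝ) * A u.im with hSm
  have hfin : Sm ≤ Real.exp 1 * (2 * C1) * K / Real.pi * Real.log T ^ (3 : ℝ) * B := by
    have h1 : Real.pi * Sm ≤ Real.exp 1 * M * (K * B) * Real.log T ^ 2 := by
      have h2 : Real.pi * (δ / 2) ^ 2 * Sm ≤ Real.exp 1 * M * (K * B) := by
        refine harea.trans ?_
        exact mul_le_mul_of_nonneg_left hout2 (mul_nonneg (Real.exp_pos _).le hM0)
      calc Real.pi * Sm = Real.pi * Sm * 1 := by ring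
        _ ≤ Real.pi * Sm * ((δ / 2) ^ 2 * Real.log T ^ 2) :=
            mul_le_mul_of_nonneg_left hδl (mul_nonneg hpi.le hsum0)
        _ = Real.pi * (δ / 2) ^ 2 * Sm * Real.log T ^ 2 := by ring
        _ ≤ Real.exp 1 * M * (K * B) * Real.log T ^ 2 :=
            mul_le_mul_of_nonneg_right h2 (by positivity)
    have h3 : Real.exp 1 * M * (K * B) * Real.log T ^ 2 ≤
        Real.exp 1 * (2 * C1 * Real.log T) * (K * B) * Real.log T ^ 2 := by
      have : 0 ≤ K * B := mul_nonneg hK hB0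
      gcongr
    have h4 : Real.log T ^ (3 : ℝ) = Real.log T ^ 3 := by
      exact_mod_cast Real.rpow_natCast (Real.log T) 3
    rw [h4]
    have h5 : Real.pi * Sm ≤ Real.exp 1 * (2 * C1) * K * Real.log T ^ 3 * B := by
      refine (h1.trans h3).trans (le_of_eq ?_)
      ring
    calc Sm = (Real.pi * Sm) / Real.pi := by field_simp
      _ ≤ (Real.exp 1 * (2 * C1) * K * Real.log T ^ 3 * B) / Real.pi := by gcongr
      _ = _ := by ring
  calc Sm ≤ Real.exp 1 * (2 * C1) * K / Real.pi * Real.log T ^ (3 : ℝ) * B := hfin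
    _ ≤ loss 1 T * B := mul_le_mul_of_nonneg_right hTl hB0
    _ = T ^ (1 - δ / 16) * (loss C T * loss 1 T) * nsq N r := by rw [hB]; ring
    _ = T ^ (1 - δ / 16) * loss (C + 1) T * nsq N r := by rw [loss_add]

end Pool.Agent.H62.ST
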