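import Pool.Agent.H62.ST.LossCalc

/-!
# Module DensInt: the density `dens N r T`

`‖dp N r t‖^2 ≤ N nsq N r` (`norm_dp_sq_le`), Gaussian decay. `int_dens_tail`: `∫_{|t-T| ≥ T/5} ≤ N nsq ∫_{|s| ≥ T/5} exp(-(s log T/T)^2) ds`,
`exp(-x^2) ≤ exp(-(log T)^2/50) exp(-x^2/2)` for `|x| ≥ log T/5`, and `∫ exp(-(s log T/T)^2/2) ds = √(2π) T/log T`.
-/

set_option autoImplicit false

open Complex Filter Topology MeasureTheory Set Metric
open scoped ArithmeticFunction.vonMangoldt

namespace Pool.Agent.H62.ST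

open Pool.Agent.H6 Pool.Agent.H6.Win

lemma dens_nonneg (N : ℕ) (r : ℕ → ℂ) (T t : ℝ) : 0 ≤ dens N r T t := by
  unfold dens
  positivity

lemma dens_continuous (N : ℕ) (r : ℕ → ℂ) (T : ℝ) : Continuous (dens N r T) := by
  unfold dens
  have h := continuous_dp N r
  fun_prop

lemma dens_le (N : ℕ) (r : ℕ → ℂ) (T t : ℝ) : dens N r T t ≤ ‖dp N r t‖ ^ 2 := by
  unfold dens
  have h1 : Real.exp (-((t - T) / (T / Real.log T)) ^ 2) ≤ 1 :=
    Real.exp_le_one_iff.2 (by nlinarith [sq_nonneg ((t - T) / (T / Real.log T))])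
  exact mul_le_of_le_one_right (by positivity) h1

lemma dens_le_gauss (N : ℕ) (r : ℕ → ℂ) (T t : ℝ) :
    dens N r T t ≤ N * nsq N r * Real.exp (-((t - T) / (T / Real.log T)) ^ 2) := by
  unfold dens
  exact mul_le_mul_of_nonneg_right (norm_dp_sq_le N r t) (Real.exp_pos _).le

private lemma DensInt_gauss {T : ℝ} (hT : 3 ≤ T) (κ : ℝ) (hκ : 0 < κ) :
    Integrable (fun t : ℝ ↦ Real.exp (-(κ * ((t - T) / (T / Real.log T)) ^ 2))) ∧
      ∫ t : ℝ, Real.exp (-(κ * ((t - T) / (T / Real.log T)) ^ 2)) =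
        Real.sqrt (Real.pi / κ) * (T / Real.log T) := by
  have hL : 0 < Real.log T := Real.log_pos (by linarith)
  obtain ⟨d, hd⟩ : ∃ d : ℝ, d = T / Real.log T := ⟨_, rfl⟩
  have hd0 : 0 < d := by rw [hd]; exact div_pos (by linarith) hL
  rw [← hd]
  have hb : 0 < κ / d ^ 2 := by positivity
  have h : (fun t : ℝ ↦ Real.exp (-(κ * ((t - T) / d) ^ 2))) =
      fun t : ℝ ↦ (fun x : ℝ ↦ Real.exp (-(κ / d ^ 2) * x ^ 2)) (t - T) := by
    funext t
    simp only
    congr 1
    rw [div_pow]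
    ring
  constructor
  · rw [h]
    exact (integrable_exp_neg_mul_sq hb).comp_sub_right T
  · rw [h, integral_sub_right_eq_self (fun x : ℝ ↦ Real.exp (-(κ / d ^ 2) * x ^ 2)) T,
      integral_gaussian]
    rw [show Real.pi / (κ / d ^ 2) = Real.pi / κ * d ^ 2 by field_simp,
      Real.sqrt_mul (by positivity), Real.sqrt_sq hd0.le]

lemma dens_integrable (N : ℕ) (r : ℕ → ℂ) {T : ℝ} (hT : 3 ≤ T) : Integrable (dens N r T) := by
  have h := (DensInt_gauss hT 1 one_pos).1.const_mul ((N : ℝ) * nsq N r)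
  refine h.mono' (dens_continuous N r T).aestronglyMeasurable (Filter.Eventually.of_forall ?_)
  intro t
  rw [Real.norm_of_nonneg (dens_nonneg N r T t)]
  refine (dens_le_gauss N r T t).trans (le_of_eq ?_)
  rw [one_mul]

theorem int_dens_tail : ∀ᶠ T : ℝ in atTop, ∀ (N : ℕ) (r : ℕ → ℂ), (N : ℝ) ≤ T ^ (1 / 16 : ℝ) →
    ∫ t in {t : ℝ | T / 5 ≤ |t - T|}, dens N r T t ≤
      Real.exp (-(Real.log T ^ 2 / 55)) * nsq N r := by
  filter_upwards [eventually_ge_atTop (3 : ℝ), Real.tendsto_log_atTop.eventually_ge_atTop 1000]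
    with T hT hL N r hN
  obtain ⟨L, hLdef⟩ : ∃ L : ℝ, L = Real.log T := ⟨_, rfl⟩
  have hT0 : 0 < T := by linarith
  have hTL : T = Real.exp L := by rw [hLdef, Real.exp_log hT0]
  have hL0 : 0 < Real.log T := by linarith
  have hg := DensInt_gauss hT (1 / 2) (by norm_num)
  have hn := nsq_nonneg N r
  set S : Set ℝ := {t : ℝ | T / 5 ≤ |t - T|} with hS
  have hSm : MeasurableSet S := by
    have : IsClosed S := isClosed_le continuous_const (by fun_prop)
    exact this.measurableSet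
  set H : ℝ → ℝ := fun t ↦ ((N : ℝ) * nsq N r * Real.exp (-(Real.log T ^ 2 / 50))) *
    Real.exp (-(1 / 2 * ((t - T) / (T / Real.log T)) ^ 2)) with hH
  have hHi : Integrable H := hg.1.const_mul _
  have hH0 : ∀ t, 0 ≤ H t := fun t ↦ by
    simp only [hH]
    positivity
  have h1 : ∀ t ∈ S, dens N r T t ≤ H t := by
    intro t ht
    refine (dens_le_gauss N r T t).trans ?_
    simp only [hH]
    rw [mul_assoc ((N : ℝ) * nsq N r)]
    refine mul_le_mul_of_nonneg_left ?_ (by positivity)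
    rw [← Real.exp_add]
    apply Real.exp_le_exp.2
    have h2 : Real.log T / 5 ≤ |(t - T) / (T / Real.log T)| := by
      have h3 : |(t - T) / (T / Real.log T)| = |t - T| * (Real.log T / T) := by
        rw [abs_div, abs_of_pos (div_pos hT0 hL0)]
        field_simp
      rw [h3]
      calc Real.log T / 5 = T / 5 * (Real.log T / T) := by field_simp
        _ ≤ |t - T| * (Real.log T / T) := mul_le_mul_of_nonneg_right ht (by positivity)
    have h4 : (Real.log T / 5) ^ 2 ≤ ((t - T) / (T / Real.log T)) ^ 2 := by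
      rw [← sq_abs ((t - T) / (T / Real.log T))]
      exact pow_le_pow_left₀ (by positivity) h2 2
    nlinarith
  have h2 : ∫ t in S, dens N r T t ≤ ∫ t in S, H t :=
    setIntegral_mono_on (dens_integrable N r hT).integrableOn hHi.integrableOn hSm h1
  have h3 : ∫ t in S, H t ≤ ∫ t, H t :=
    setIntegral_le_integral hHi (Filter.Eventually.of_forall hH0)
  refine (h2.trans h3).trans ?_
  have h4 : ∫ t, H t = ((N : ℝ) * nsq N r * Real.exp (-(Real.log T ^ 2 / 50))) *
      (Real.sqrt (Real.pi / (1 / 2)) * (T / Real.log T)) := by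
    simp only [hH]
    rw [integral_const_mul, hg.2]
  rw [h4]
  have hN' : (N : ℝ) ≤ Real.exp (L / 16) := by
    refine hN.trans (le_of_eq ?_)
    rw [Real.rpow_def_of_pos hT0, ← hLdef]
    congr 1
    ring
  have hpi : Real.sqrt (Real.pi / (1 / 2)) ≤ 3 := by
    rw [show (3 : ℝ) = Real.sqrt (3 ^ 2) by rw [Real.sqrt_sq (by norm_num)]]
    apply Real.sqrt_le_sqrt
    have := Real.pi_lt_four
    linarith
  have h3e : (3 : ℝ) ≤ Real.exp 2 := by
    have := Real.add_one_le_exp (2 : ℝ)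
    linarith
  have hTd : T / Real.log T ≤ Real.exp L := by
    rw [← hTL]
    exact div_le_self hT0.le (by linarith)
  have hsq : 0 ≤ Real.sqrt (Real.pi / (1 / 2)) := Real.sqrt_nonneg _
  have hd0 : 0 ≤ T / Real.log T := by positivity
  have h5 : (N : ℝ) * (Real.exp (-(Real.log T ^ 2 / 50)) *
      (Real.sqrt (Real.pi / (1 / 2)) * (T / Real.log T))) ≤ Real.exp (-(Real.log T ^ 2 / 55)) := by
    calc (N : ℝ) * (Real.exp (-(Real.log T ^ 2 / 50)) *
        (Real.sqrt (Real.pi / (1 / 2)) * (T / Real.log T))) ≤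
        Real.exp (L / 16) * (Real.exp (-(L ^ 2 / 50)) * (Real.exp 2 * Real.exp L)) := by
          rw [← hLdef] at *
          refine mul_le_mul hN' (mul_le_mul_of_nonneg_left (mul_le_mul (hpi.trans h3e) hTd hd0
            (Real.exp_pos _).le) (Real.exp_pos _).le) (by positivity) (Real.exp_pos _).le
      _ = Real.exp (L / 16 + (-(L ^ 2 / 50) + (2 + L))) := by
          rw [← Real.exp_add, ← Real.exp_add, ← Real.exp_add]
      _ ≤ Real.exp (-(Real.log T ^ 2 / 55)) := by
          apply Real.exp_le_exp.2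
          rw [← hLdef] at hL ⊢
          nlinarith
  calc ((N : ℝ) * nsq N r * Real.exp (-(Real.log T ^ 2 / 50))) *
      (Real.sqrt (Real.pi / (1 / 2)) * (T / Real.log T)) =
      ((N : ℝ) * (Real.exp (-(Real.log T ^ 2 / 50)) *
      (Real.sqrt (Real.pi / (1 / 2)) * (T / Real.log T)))) * nsq N r := by ring
    _ ≤ _ := mul_le_mul_of_nonneg_right h5 hn

theorem int_dens_crude : ∀ᶠ T : ℝ in atTop, ∀ (N : ℕ) (r : ℕ → ℂ), (N : ℝ) ≤ T ^ (1 / 16 : ℝ) →
    ∫ t, dens N r T t ≤ T ^ 2 * nsq N r := by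
  filter_upwards [eventually_ge_atTop (3 : ℝ), Real.tendsto_log_atTop.eventually_ge_atTop 2]
    with T hT hL N r hN
  obtain ⟨L, hLdef⟩ : ∃ L : ℝ, L = Real.log T := ⟨_, rfl⟩
  have hT0 : 0 < T := by linarith
  have hTL : T = Real.exp L := by rw [hLdef, Real.exp_log hT0]
  have hg := DensInt_gauss hT 1 one_pos
  have hn := nsq_nonneg N r
  have h1 : ∫ t, dens N r T t ≤
      ∫ t, ((N : ℝ) * nsq N r) * Real.exp (-(1 * ((t - T) / (T / Real.log T)) ^ 2)) := by
    refine integral_mono (dens_integrable N r hT) (hg.1.const_mul _) fun t ↦ ?_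
    refine (dens_le_gauss N r T t).trans (le_of_eq ?_)
    simp only [one_mul]
  rw [integral_const_mul, hg.2] at h1
  refine h1.trans ?_
  have hN' : (N : ℝ) ≤ Real.exp (L / 16) := by
    refine hN.trans (le_of_eq ?_)
    rw [Real.rpow_def_of_pos hT0, ← hLdef]
    congr 1
    ring
  have hpi : Real.sqrt (Real.pi / 1) ≤ 2 := by
    rw [show (2 : ℝ) = Real.sqrt (2 ^ 2) by rw [Real.sqrt_sq (by norm_num)]]
    apply Real.sqrt_le_sqrt
    have := Real.pi_lt_four
    linarith
  have hTd : T / Real.log T ≤ T := div_le_self hT0.le (by linarith)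
  have hd0 : 0 ≤ T / Real.log T := div_nonneg hT0.le (by linarith)
  have h5 : (N : ℝ) * (Real.sqrt (Real.pi / 1) * (T / Real.log T)) ≤ T ^ 2 := by
    have h6 : Real.exp (L / 16) * 2 ≤ T := by
      have h7 : (2 : ℝ) ≤ Real.exp (15 / 16 * L) := by
        have := Real.add_one_le_exp (15 / 16 * L)
        rw [← hLdef] at hL
        linarith
      calc Real.exp (L / 16) * 2 ≤ Real.exp (L / 16) * Real.exp (15 / 16 * L) :=
            mul_le_mul_of_nonneg_left h7 (Real.exp_pos _).le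
        _ = T := by
            rw [← Real.exp_add, hTL]
            congr 1
            ring
    calc (N : ℝ) * (Real.sqrt (Real.pi / 1) * (T / Real.log T)) ≤ Real.exp (L / 16) * (2 * T) := by
          refine mul_le_mul hN' (mul_le_mul hpi hTd hd0 (by norm_num)) ?_ (Real.exp_pos _).le
          exact mul_nonneg (Real.sqrt_nonneg _) hd0
      _ = Real.exp (L / 16) * 2 * T := by ring
      _ ≤ T * T := mul_le_mul_of_nonneg_right h6 hT0.le
      _ = T ^ 2 := by ring
  calc (N : ℝ) * nsq N r * (Real.sqrt (Real.pi / 1) * (T / Real.log T)) =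
      ((N : ℝ) * (Real.sqrt (Real.pi / 1) * (T / Real.log T))) * nsq N r := by ring
    _ ≤ _ := mul_le_mul_of_nonneg_right h5 hn

end Pool.Agent.H62.ST
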