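import Pool.Agent.H62.ST.Defs

/-!
# Module DivA: weights `uk k n = d_k(n)` (k-fold divisor function), upper side

`uk (k+1) n = ∑_{d | n} uk k d` (`pow_succ`, `ArithmeticFunction.coe_mul_zeta_apply` / `mul_zeta_apply`). `uk_pos`: induction from `k = 1` (`n | n`).
`sum_uk_div`: induction on `k`: `∑_{n ≤ A} uk (k+1) n / n = ∑_{n ≤ A} ∑_{d e = n} uk k d / (d e) ≤ (∑_{d ≤ A} uk k d / d) (∑_{e ≤ A} 1/e)`,
harmonic sum `≤ 1 + log A` (`Pool.Agent.H6.Win.harmonic_sum_le` or Mathlib `harmonic_le_one_add_log`).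
-/

set_option autoImplicit false

open Complex Filter Topology MeasureTheory Set Metric
open scoped ArithmeticFunction.vonMangoldt

namespace Pool.Agent.H62.ST

open Pool.Agent.H6 Pool.Agent.H6.Win

lemma uk_succ (k n : ℕ) : uk (k + 1) n = ∑ d ∈ n.divisors, uk k d := by
  unfold uk
  rw [pow_succ, ArithmeticFunction.mul_zeta_apply]

lemma uk_pos {k n : ℕ} (hk : 1 ≤ k) (hn : 1 ≤ n) : 0 < uk k n := by
  induction k, hk using Nat.le_induction generalizing n with
  | base =>
    unfold uk
    rw [pow_one, ArithmeticFunction.zeta_apply, if_neg (by omega)]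
    exact one_pos
  | succ k hk ih =>
    rw [uk_succ]
    refine Finset.sum_pos (fun d hd ↦ ih (Nat.pos_of_mem_divisors hd)) ⟨1, ?_⟩
    exact Nat.one_mem_divisors.mpr (by omega)

lemma sum_uk_div (k A : ℕ) (hA : 1 ≤ A) :
    ∑ n ∈ Finset.Icc 1 A, (uk k n : ℝ) / n ≤ (1 + Real.log A) ^ k := by
  have hlog : 0 ≤ Real.log A := Real.log_natCast_nonneg A
  induction k with
  | zero =>
    rw [pow_zero]
    have h : ∀ n ∈ Finset.Icc 1 A, (uk 0 n : ℝ) / n = if n = 1 then 1 else 0 := by
      intro n hn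
      unfold uk
      rw [pow_zero, ArithmeticFunction.one_apply]
      split_ifs with h
      · subst h; simp
      · simp
    rw [Finset.sum_congr rfl h, Finset.sum_ite_eq']
    split_ifs <;> norm_num
  | succ k ih =>
    have hharm : ∑ e ∈ Finset.Icc 1 A, (1 : ℝ) / e ≤ 1 + Real.log A := by
      have := harmonic_le_one_add_log A
      rw [harmonic_eq_sum_Icc] at this
      push_cast at this
      simpa [one_div] using this
    have h1 : ∑ n ∈ Finset.Icc 1 A, (uk (k + 1) n : ℝ) / n ≤
        (∑ d ∈ Finset.Icc 1 A, (uk k d : ℝ) / d) * ∑ e ∈ Finset.Icc 1 A, (1 : ℝ) / e := by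
      rw [Finset.sum_mul_sum]
      have h2 : ∀ n ∈ Finset.Icc 1 A, (uk (k + 1) n : ℝ) / n =
          ∑ p ∈ n.divisorsAntidiagonal, (uk k p.1 : ℝ) / p.1 * (1 / p.2) := by
        intro n hn
        rw [Finset.mem_Icc] at hn
        rw [uk_succ, Nat.cast_sum, Finset.sum_div]
        rw [← Nat.map_div_right_divisors, Finset.sum_map]
        refine Finset.sum_congr rfl fun d hd ↦ ?_
        have hd' := Nat.mem_divisors.mp hd
        change (uk k d : ℝ) / n = (uk k d : ℝ) / d * (1 / ((n / d : ℕ) : ℝ))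
        obtain ⟨e, he⟩ := hd'.1
        have hd0 : d ≠ 0 := by rintro rfl; simp at he; omega
        have he0 : e ≠ 0 := by rintro rfl; simp at he; omega
        rw [he, Nat.mul_div_cancel_left e (Nat.pos_of_ne_zero hd0)]
        push_cast
        have hd1 : (d : ℝ) ≠ 0 := by exact_mod_cast hd0
        have he1 : (e : ℝ) ≠ 0 := by exact_mod_cast he0
        field_simp
      rw [Finset.sum_congr rfl h2, ← Finset.sum_product', Finset.sum_sigma']
      have hinj : ∀ x ∈ (Finset.Icc 1 A).sigma fun n ↦ n.divisorsAntidiagonal,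
          ∀ y ∈ (Finset.Icc 1 A).sigma fun n ↦ n.divisorsAntidiagonal,
          x.2 = y.2 → x = y := by
        rintro ⟨n, p⟩ hx ⟨m, q⟩ hy h
        rw [Finset.mem_sigma, Nat.mem_divisorsAntidiagonal] at hx hy
        simp only at h hx hy
        subst h
        have : n = m := by rw [← hx.2.1, ← hy.2.1]
        subst this
        rfl
      calc ∑ x ∈ (Finset.Icc 1 A).sigma fun n ↦ n.divisorsAntidiagonal,
            (uk k x.2.1 : ℝ) / x.2.1 * (1 / x.2.2)
          = ∑ p ∈ ((Finset.Icc 1 A).sigma fun n ↦ n.divisorsAntidiagonal).image (fun x ↦ x.2),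
            (uk k p.1 : ℝ) / p.1 * (1 / p.2) := by
            rw [Finset.sum_image]
            exact hinj
        _ ≤ ∑ p ∈ Finset.Icc 1 A ×ˢ Finset.Icc 1 A, (uk k p.1 : ℝ) / p.1 * (1 / p.2) := by
            refine Finset.sum_le_sum_of_subset_of_nonneg ?_ fun _ _ _ ↦ by positivity
            intro p hp
            rw [Finset.mem_image] at hp
            obtain ⟨x, hx, rfl⟩ := hp
            rw [Finset.mem_sigma, Finset.mem_Icc, Nat.mem_divisorsAntidiagonal] at hx
            obtain ⟨⟨h1, h2⟩, h3, h4⟩ := hx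
            have ha : x.2.1 ≠ 0 := by intro h0; rw [h0, zero_mul] at h3; omega
            have hb : x.2.2 ≠ 0 := by intro h0; rw [h0, mul_zero] at h3; omega
            have hc : x.2.1 ≤ x.1 := by
              rw [← h3]; exact Nat.le_mul_of_pos_right _ (Nat.pos_of_ne_zero hb)
            have hd : x.2.2 ≤ x.1 := by
              rw [← h3]; exact Nat.le_mul_of_pos_left _ (Nat.pos_of_ne_zero ha)
            rw [Finset.mem_product, Finset.mem_Icc, Finset.mem_Icc]
            exact ⟨⟨Nat.one_le_iff_ne_zero.mpr ha, hc.trans h2⟩,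
              Nat.one_le_iff_ne_zero.mpr hb, hd.trans h2⟩
    refine h1.trans ?_
    rw [pow_succ]
    exact mul_le_mul ih hharm (Finset.sum_nonneg fun _ _ ↦ by positivity) (by positivity)

end Pool.Agent.H62.ST
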