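import Pool.Agent.H62.ST.Defs

/-!
# Module DivB: weights `uk k n = d_k(n)` (k-fold divisor function), lower side

1. `uk k = ζ^k` is multiplicative (`ArithmeticFunction.isMultiplicative_zeta`, `IsMultiplicative.mul`, induction), `uk (k+1) n = ∑_{d | n} uk k d`.
2. `uk k (p^j) = (k+j-1).choose j` for `k ≥ 1` (induction on `k`, hockey stick), and for `k ≥ 3`
   `∑_{j=0}^{e} 1/(k+j-1).choose j ≤ (k-1)/(k-2) = 1 + 1/(k-2)`: telescoping, `1/C(k+j-1, j) = ((k-1)/(k-2)) (1/C(k+j-2, j) - 1/C(k+j-1, j+1))`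
   (for `j = 0` the bracket is `1 - 1/(k-1)`; any other proof is fine).
3. `n ↦ 1/(uk k n)` is multiplicative, hence so is its Dirichlet convolution with `ζ`; use `IsMultiplicative.multiplicative_factorization`: each
   factor is `≤ 1 + 1/(k-2) ≤ exp (1/(k-2))`, and the number of prime factors is `≤ log m / log 2 ≤ 2 log m` (`2^ω(m) ≤ m`).
-/

set_option autoImplicit false

open Complex Filter Topology MeasureTheory Set Metric
open scoped ArithmeticFunction.vonMangoldt

namespace Pool.Agent.H62.ST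

open Pool.Agent.H6 Pool.Agent.H6.Win

/-- `uk k` is multiplicative. -/
lemma uk_isMult (k : ℕ) :
    ((ArithmeticFunction.zeta : ArithmeticFunction ℕ) ^ k).IsMultiplicative := by
  induction k with
  | zero => rw [pow_zero]; exact ArithmeticFunction.isMultiplicative_one
  | succ k ih => rw [pow_succ]; exact ih.mul ArithmeticFunction.isMultiplicative_zeta

/-- The value of `uk (k+1)` at a prime power. -/
lemma uk_prime_pow {p : ℕ} (hp : p.Prime) (k j : ℕ) : uk (k + 1) (p ^ j) = (j + k).choose k := by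
  induction k generalizing j with
  | zero =>
    unfold uk
    rw [zero_add, pow_one, ArithmeticFunction.zeta_apply, if_neg (pow_ne_zero _ hp.ne_zero)]
    simp
  | succ k ih =>
    have h : uk (k + 1 + 1) (p ^ j) = ∑ i ∈ Finset.range (j + 1), uk (k + 1) (p ^ i) := by
      unfold uk
      rw [pow_succ (ArithmeticFunction.zeta : ArithmeticFunction ℕ) (k + 1),
        ArithmeticFunction.mul_zeta_apply, Nat.sum_divisors_prime_pow hp]
    rw [h, Finset.sum_congr rfl fun i _ ↦ ih i, Nat.sum_range_add_choose, add_assoc]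

/-- The telescoping sum of inverse binomial coefficients. -/
lemma sum_inv_choose (t e : ℕ) :
    ∑ j ∈ Finset.range (e + 1), (1 : ℝ) / ((j + (t + 2)).choose (t + 2) : ℕ) =
      (t + 2 : ℝ) / (t + 1) * (1 - 1 / ((t + 2 + e).choose (t + 1) : ℕ)) := by
  induction e with
  | zero =>
    rw [Finset.sum_range_one]
    have h1 : (0 + (t + 2)).choose (t + 2) = 1 := by rw [zero_add, Nat.choose_self]
    have h2 : (t + 2 + 0).choose (t + 1) = t + 2 := by
      rw [add_zero, Nat.choose_succ_self_right]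
    rw [h1, h2]
    push_cast
    have : (t : ℝ) + 1 ≠ 0 := by positivity
    have : (t : ℝ) + 2 ≠ 0 := by positivity
    field_simp
    ring
  | succ e ih =>
    rw [Finset.sum_range_succ, ih]
    have h1 : (t + 2 + e + 1) * (t + 2 + e).choose (t + 1) =
        (t + 2 + e + 1).choose (t + 1 + 1) * (t + 1 + 1) :=
      Nat.add_one_mul_choose_eq (t + 2 + e) (t + 1)
    have h2 : (t + 2 + e).choose (t + 1) * (t + 2 + e + 1) =
        (t + 2 + e + 1).choose (t + 1) * (t + 2 + e + 1 - (t + 1)) :=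
      Nat.choose_mul_succ_eq (t + 2 + e) (t + 1)
    have h3 : t + 2 + e + 1 - (t + 1) = e + 2 := by omega
    rw [h3] at h2
    have e1 : e + 1 + (t + 2) = t + 2 + e + 1 := by ring
    have e2 : t + 2 + (e + 1) = t + 2 + e + 1 := by ring
    rw [e1, e2]
    have ha : 0 < (t + 2 + e).choose (t + 1) := Nat.choose_pos (by omega)
    have hb : 0 < (t + 2 + e + 1).choose (t + 2) := Nat.choose_pos (by omega)
    have hc : 0 < (t + 2 + e + 1).choose (t + 1) := Nat.choose_pos (by omega)
    set a := (t + 2 + e).choose (t + 1)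
    set b := (t + 2 + e + 1).choose (t + 2)
    set c := (t + 2 + e + 1).choose (t + 1)
    have h1' : ((t : ℝ) + 2 + e + 1) * a = b * (t + 2) := by
      have : (t + 2 + e + 1) * a = b * (t + 2) := h1
      exact_mod_cast this
    have h2' : (a : ℝ) * (t + 2 + e + 1) = c * (e + 2) := by exact_mod_cast h2
    have ha' : (0 : ℝ) < a := by exact_mod_cast ha
    have hb' : (b : ℝ) = (t + 2 + e + 1) * a / (t + 2) := by
      rw [h1']; field_simp
    have hc' : (c : ℝ) = (t + 2 + e + 1) * a / (e + 2) := by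
      rw [mul_comm ((t : ℝ) + 2 + e + 1) a, h2']; field_simp
    rw [hb', hc']
    have k1 : (t : ℝ) + 1 ≠ 0 := by positivity
    have k2 : (t : ℝ) + 2 ≠ 0 := by positivity
    have k3 : (e : ℝ) + 2 ≠ 0 := by positivity
    have k4 : (t : ℝ) + 2 + e + 1 ≠ 0 := by positivity
    field_simp
    ring

lemma sum_inv_uk_prime_pow {k : ℕ} (hk : 3 ≤ k) {p : ℕ} (hp : p.Prime) (e : ℕ) :
    ∑ n ∈ (p ^ e).divisors, (1 : ℝ) / uk k n ≤ Real.exp (1 / (k - 2)) := by
  obtain ⟨t, rfl⟩ : ∃ t, k = t + 2 + 1 := ⟨k - 3, by omega⟩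
  rw [Nat.sum_divisors_prime_pow hp]
  simp_rw [uk_prime_pow hp]
  rw [sum_inv_choose]
  have h1 : (t + 2 : ℝ) / (t + 1) * (1 - 1 / ((t + 2 + e).choose (t + 1) : ℕ)) ≤
      (t + 2 : ℝ) / (t + 1) * 1 := by
    refine mul_le_mul_of_nonneg_left ?_ (by positivity)
    have : (0 : ℝ) ≤ 1 / ((t + 2 + e).choose (t + 1) : ℕ) := by positivity
    linarith
  refine h1.trans ?_
  have h2 : (t + 2 : ℝ) / (t + 1) * 1 = 1 / (t + 1) + 1 := by
    have : (t : ℝ) + 1 ≠ 0 := by positivity
    field_simp
    ring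
  rw [h2]
  have h3 : ((t + 2 + 1 : ℕ) : ℝ) - 2 = t + 1 := by push_cast; ring
  rw [h3]
  exact Real.add_one_le_exp _

lemma sum_inv_uk {k m : ℕ} (hk : 3 ≤ k) (hm : 1 ≤ m) :
    ∑ n ∈ m.divisors, (1 : ℝ) / uk k n ≤ Real.exp (2 * Real.log m / (k - 2)) := by
  have hk2 : (0 : ℝ) < (k : ℝ) - 2 := by
    have : (3 : ℝ) ≤ k := by exact_mod_cast hk
    linarith
  -- the arithmetic function
  let f : ArithmeticFunction ℝ := ⟨fun n ↦ 1 / (uk k n : ℝ), by simp [uk]⟩
  have hf : f.IsMultiplicative := by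
    refine ⟨?_, ?_⟩
    · change 1 / (uk k 1 : ℝ) = 1
      unfold uk
      rw [(uk_isMult k).map_one]
      simp
    · intro a b hab
      change 1 / (uk k (a * b) : ℝ) = 1 / (uk k a : ℝ) * (1 / (uk k b : ℝ))
      unfold uk
      rw [(uk_isMult k).map_mul_of_coprime hab]
      push_cast
      rw [one_div_mul_one_div]
  let F : ArithmeticFunction ℝ := f * ((ArithmeticFunction.zeta : ArithmeticFunction ℕ) : ArithmeticFunction ℝ)
  have hF : F.IsMultiplicative := hf.mul ArithmeticFunction.isMultiplicative_zeta.natCast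
  have hFv : ∀ n, F n = ∑ d ∈ n.divisors, (1 : ℝ) / uk k d := by
    intro n
    change (f * ((ArithmeticFunction.zeta : ArithmeticFunction ℕ) : ArithmeticFunction ℝ)) n = _
    rw [ArithmeticFunction.coe_mul_zeta_apply]
    rfl
  rw [← hFv, hF.multiplicative_factorization F (by omega : m ≠ 0)]
  have h1 : m.factorization.prod (fun p e ↦ F (p ^ e)) ≤
      m.factorization.prod fun _ _ ↦ Real.exp (1 / ((k : ℝ) - 2)) := by
    unfold Finsupp.prod
    refine Finset.prod_le_prod (fun p _ ↦ ?_) fun p hp ↦ ?_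
    · change 0 ≤ F (p ^ m.factorization p)
      rw [hFv]
      exact Finset.sum_nonneg fun _ _ ↦ by positivity
    · change F (p ^ m.factorization p) ≤ Real.exp (1 / ((k : ℝ) - 2))
      rw [hFv]
      rw [Nat.support_factorization] at hp
      exact sum_inv_uk_prime_pow hk (Nat.prime_of_mem_primeFactors hp) _
  refine h1.trans ?_
  unfold Finsupp.prod
  rw [Finset.prod_const, ← Real.exp_nat_mul, Nat.support_factorization]
  refine Real.exp_le_exp.mpr ?_
  have h2 : (2 : ℝ) ^ m.primeFactors.card ≤ m := by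
    have h3 : ∏ p ∈ m.primeFactors, p ≤ m := Nat.le_of_dvd (by omega) (Nat.prod_primeFactors_dvd m)
    have h4 : 2 ^ m.primeFactors.card ≤ ∏ p ∈ m.primeFactors, p := by
      refine Finset.pow_card_le_prod _ _ _ fun p hp ↦ ?_
      exact (Nat.prime_of_mem_primeFactors hp).two_le
    exact_mod_cast h4.trans h3
  have h5 : (m.primeFactors.card : ℝ) * Real.log 2 ≤ Real.log m := by
    rw [← Real.log_pow]
    exact Real.log_le_log (by positivity) h2
  have h6 : (1 / 2 : ℝ) ≤ Real.log 2 := by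
    have := Real.log_two_gt_d9
    linarith
  have h7 : (m.primeFactors.card : ℝ) ≤ 2 * Real.log m := by
    have : (0 : ℝ) ≤ m.primeFactors.card := by positivity
    nlinarith
  rw [mul_one_div]
  exact div_le_div_of_nonneg_right h7 hk2.le

end Pool.Agent.H62.ST
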