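import Pool.Agent.H62.ST.RCoef

/-!
# Module ESymM: elementary symmetric polynomials

`esym_succ`: `∑_{q ∈ P} (λ^2/q) Esym' (k-1) q = k Esym k`: pairs `(q, B)`, `q ∉ B`, `|B| = k-1` ↔ pairs `(q, B')`, `q ∈ B'`, `|B'| = k`.
`esym_lower`: the same double sum is `∑_{|B| = k-1} v_B (∑_{q ∈ P} λ^2/q - ∑_{q ∈ B} λ^2/q) ≥ Esym (k-1) (V - (k-1) m)` if `λ^2/q ≤ m`.
-/

set_option autoImplicit false

open Complex Filter Topology MeasureTheory Set Metric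
open scoped ArithmeticFunction.vonMangoldt

namespace Pool.Agent.H62.ST

open Pool.Agent.H6 Pool.Agent.H6.Win

variable {P : Finset ℕ} {k : ℕ} {lam : ℝ}

private lemma prod_nonneg' (B : Finset ℕ) (lam : ℝ) : 0 ≤ ∏ p ∈ B, lam ^ 2 / (p : ℝ) :=
  Finset.prod_nonneg fun _ _ ↦ by positivity

theorem esym_succ (hk : 1 ≤ k) :
    ∑ q ∈ P, lam ^ 2 / (q : ℝ) * Esym' P lam (k - 1) q = k * Esym P lam k := by
  classical
  unfold Esym' Esym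
  have h1 : (k : ℝ) * ∑ B ∈ P.powersetCard k, ∏ p ∈ B, lam ^ 2 / (p : ℝ) =
      ∑ B ∈ P.powersetCard k, ∑ q ∈ B, lam ^ 2 / (q : ℝ) * ∏ p ∈ B.erase q, lam ^ 2 / (p : ℝ) := by
    rw [Finset.mul_sum]
    refine Finset.sum_congr rfl fun B hB ↦ ?_
    have hc := (Finset.mem_powersetCard.1 hB).2
    have h2 : ∀ q ∈ B, lam ^ 2 / (q : ℝ) * ∏ p ∈ B.erase q, lam ^ 2 / (p : ℝ) =
        ∏ p ∈ B, lam ^ 2 / (p : ℝ) := fun q hq ↦
      Finset.mul_prod_erase B (fun p : ℕ ↦ lam ^ 2 / (p : ℝ)) hq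
    rw [Finset.sum_congr rfl h2, Finset.sum_const, hc, nsmul_eq_mul]
  rw [h1]
  have h3 : ∀ q ∈ P, lam ^ 2 / (q : ℝ) *
      ∑ B ∈ (P.powersetCard (k - 1)).filter (fun B ↦ q ∉ B), ∏ p ∈ B, lam ^ 2 / (p : ℝ) =
      ∑ B ∈ (P.powersetCard (k - 1)).filter (fun B ↦ q ∉ B),
        lam ^ 2 / (q : ℝ) * ∏ p ∈ B, lam ^ 2 / (p : ℝ) := fun q _ ↦ Finset.mul_sum _ _ _
  rw [Finset.sum_congr rfl h3, Finset.sum_sigma', Finset.sum_sigma']
  refine Finset.sum_nbij' (fun x ↦ ⟨insert x.1 x.2, x.1⟩) (fun y ↦ ⟨y.2, y.1.erase y.2⟩)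
    ?_ ?_ ?_ ?_ ?_
  · rintro ⟨q, B⟩ h
    rw [Finset.mem_sigma, Finset.mem_filter, Finset.mem_powersetCard] at h
    obtain ⟨hq, ⟨hB, hc⟩, hqB⟩ := h
    dsimp only at hq hB hc hqB
    rw [Finset.mem_sigma, Finset.mem_powersetCard]
    refine ⟨⟨Finset.insert_subset hq hB, ?_⟩, Finset.mem_insert_self q B⟩
    dsimp only
    rw [Finset.card_insert_of_notMem hqB, hc]
    omega
  · rintro ⟨B, q⟩ h
    rw [Finset.mem_sigma, Finset.mem_powersetCard] at h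
    obtain ⟨⟨hB, hc⟩, hq⟩ := h
    dsimp only at hB hc hq
    rw [Finset.mem_sigma, Finset.mem_filter, Finset.mem_powersetCard]
    refine ⟨hB hq, ⟨(Finset.erase_subset q B).trans hB, ?_⟩, Finset.notMem_erase q B⟩
    dsimp only
    rw [Finset.card_erase_of_mem hq, hc]
  · rintro ⟨q, B⟩ h
    rw [Finset.mem_sigma, Finset.mem_filter, Finset.mem_powersetCard] at h
    dsimp only at h ⊢
    rw [Finset.erase_insert h.2.2]
  · rintro ⟨B, q⟩ h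
    rw [Finset.mem_sigma, Finset.mem_powersetCard] at h
    dsimp only at h ⊢
    rw [Finset.insert_erase h.2]
  · rintro ⟨q, B⟩ h
    rw [Finset.mem_sigma, Finset.mem_filter, Finset.mem_powersetCard] at h
    dsimp only at h ⊢
    rw [Finset.erase_insert h.2.2]

theorem esym_lower (hk : 1 ≤ k) {m : ℝ} (hm : ∀ q ∈ P, lam ^ 2 / (q : ℝ) ≤ m) :
    (∑ q ∈ P, lam ^ 2 / (q : ℝ) - (k - 1) * m) * Esym P lam (k - 1) ≤ k * Esym P lam k := by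
  classical
  rw [← esym_succ hk]
  unfold Esym' Esym
  have h3 : ∀ q ∈ P, lam ^ 2 / (q : ℝ) *
      ∑ B ∈ (P.powersetCard (k - 1)).filter (fun B ↦ q ∉ B), ∏ p ∈ B, lam ^ 2 / (p : ℝ) =
      ∑ B ∈ P.powersetCard (k - 1),
        if q ∈ B then 0 else lam ^ 2 / (q : ℝ) * ∏ p ∈ B, lam ^ 2 / (p : ℝ) := by
    intro q _
    rw [Finset.mul_sum, Finset.sum_filter]
    refine Finset.sum_congr rfl fun B _ ↦ ?_
    by_cases h : q ∈ B <;> simp [h]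
  rw [Finset.sum_congr rfl h3, Finset.sum_comm, Finset.mul_sum]
  refine Finset.sum_le_sum fun B hB ↦ ?_
  obtain ⟨hBP, hc⟩ := Finset.mem_powersetCard.1 hB
  have h4 : ∑ q ∈ P, (if q ∈ B then 0 else lam ^ 2 / (q : ℝ) * ∏ p ∈ B, lam ^ 2 / (p : ℝ)) =
      (∑ q ∈ P, lam ^ 2 / (q : ℝ) - ∑ q ∈ B, lam ^ 2 / (q : ℝ)) *
        ∏ p ∈ B, lam ^ 2 / (p : ℝ) := by
    rw [← Finset.sum_sdiff (f := fun q : ℕ ↦ if q ∈ B then (0 : ℝ) else
        lam ^ 2 / (q : ℝ) * ∏ p ∈ B, lam ^ 2 / (p : ℝ)) hBP,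
      ← Finset.sum_sdiff (f := fun q : ℕ ↦ lam ^ 2 / (q : ℝ)) hBP, add_sub_cancel_right,
      Finset.sum_mul]
    have h5 : ∑ q ∈ B, (if q ∈ B then (0 : ℝ) else
        lam ^ 2 / (q : ℝ) * ∏ p ∈ B, lam ^ 2 / (p : ℝ)) = 0 :=
      Finset.sum_eq_zero fun q hq ↦ by simp [hq]
    rw [h5, add_zero]
    refine Finset.sum_congr rfl fun q hq ↦ ?_
    rw [if_neg (Finset.mem_sdiff.1 hq).2]
  rw [h4]
  refine mul_le_mul_of_nonneg_right ?_ (prod_nonneg' B lam)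
  have h6 : ∑ q ∈ B, lam ^ 2 / (q : ℝ) ≤ B.card • m :=
    Finset.sum_le_card_nsmul _ _ _ fun q hq ↦ hm q (hBP hq)
  rw [hc, nsmul_eq_mul, Nat.cast_sub hk, Nat.cast_one] at h6
  linarith

lemma esym_nonneg (j : ℕ) : 0 ≤ Esym P lam j :=
  Finset.sum_nonneg fun _ _ ↦ Finset.prod_nonneg fun _ _ ↦ by positivity

end Pool.Agent.H62.ST
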