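import Pool.Agent.H62.ST.BigFactor
import Pool.Agent.H62.ST.LocCount

/-!
# Module Edge: `ell` is `O(log T)` in mean on horizontal lines

On a horizontal line `Im z = Y` not meeting `S` (all zeros of `ζ` in the disc are in `S`, by the factorisation) `ell` is differentiable in `x ∈ [1/2, 2]` with derivative
`ζ'/ζ = zetaPole'/zetaPole - 1/(z-1)` (`cexp ∘ ell = ζ`). With `zeta_loc2` at `t = Y`: `ζ'/ζ = ∑_{u ∈ S_Y} zord u/(z-u) + O(log T)` on `[1/2,2] + iY`, and
`∫_x^2 dx'/(x'+iY-u) = Log(2+iY-u) - Log(x+iY-u)` for `Im u ≠ Y` (elements of `S_Y` are zeros in the big disc, so they are in `S`, so `Im u ≠ Y`). So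
`‖ell(x+iY)‖ ≤ ‖lz(2+iY)‖ + ∑ zord u (‖Log(2+iY-u)‖ + ‖Log(x+iY-u)‖) + C log T`, `‖Log(z-u)‖ ≤ π + log 4 + |log|x - Re u||` for `z = x + iY`, `‖z-u‖ ≤ 4`, and
`∫_{1/2}^2 |log|x - β|| dx ≤ 4`.
-/

set_option autoImplicit false

open Complex Filter Topology MeasureTheory Set Metric
open scoped ArithmeticFunction.vonMangoldt

namespace Pool.Agent.H62.ST

open Pool.Agent.H6 Pool.Agent.H6.Win

/-- zeros in the disc are in `S` -/
private lemma edge_zero_mem {T : ℝ} {S : Finset ℂ} {L : ℂ → ℂ} (h : IsEll T S L) {z : ℂ}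
    (hz : z ∈ ball ((2 : ℂ) + T * I) (7 / 10 * T)) (hz1 : z ≠ 1) (h0 : zetaPole z = 0) :
    z ∈ S := by
  rw [zetaPole_of_ne hz1] at h0
  have h1 : riemannZeta z = 0 := (mul_eq_zero.1 h0).resolve_left (sub_ne_zero.2 hz1)
  rw [h.fac z hz] at h1
  have h2 := (mul_eq_zero.1 h1).resolve_left (Complex.exp_ne_zero _)
  obtain ⟨u, hu, hu2⟩ := Finset.prod_eq_zero_iff.1 h2
  have h3 : z - u = 0 := eq_zero_of_pow_eq_zero hu2
  rw [sub_eq_zero] at h3
  rwa [h3]

private lemma edge_exp {T : ℝ} {S : Finset ℂ} {L : ℂ → ℂ} (h : IsEll T S L) {z : ℂ}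
    (hz : z ∈ ball ((2 : ℂ) + T * I) (7 / 10 * T)) (hS : ∀ u ∈ S, u.im ≠ z.im) :
    cexp (ell S L z) = riemannZeta z := by
  rw [ell, Complex.exp_add, Complex.exp_sum, h.fac z hz]
  congr 1
  refine Finset.prod_congr rfl fun u hu ↦ ?_
  have hne : z - u ≠ 0 := by
    intro h0
    apply hS u hu
    rw [sub_eq_zero] at h0
    rw [h0]
  rw [Complex.exp_nat_mul, Complex.exp_log hne]

private lemma edge_slit {z u : ℂ} (h : u.im ≠ z.im) : z - u ∈ slitPlane := by
  rw [Complex.mem_slitPlane_iff]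
  right
  rw [Complex.sub_im]
  intro h0
  apply h
  linarith

private lemma edge_deriv {T : ℝ} {S : Finset ℂ} {L : ℂ → ℂ} (h : IsEll T S L) {z : ℂ}
    (hz : z ∈ ball ((2 : ℂ) + T * I) (7 / 10 * T)) (hz1 : z ≠ 1) (hS : ∀ u ∈ S, u.im ≠ z.im) :
    zetaPole z ≠ 0 ∧
      HasDerivAt (ell S L) (deriv zetaPole z / zetaPole z - 1 / (z - 1)) z := by
  have hz1' : z - 1 ≠ 0 := sub_ne_zero.2 hz1
  have hne : riemannZeta z ≠ 0 := by
    rw [← edge_exp h hz hS]
    exact Complex.exp_ne_zero _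
  have hzp : zetaPole z ≠ 0 := by
    rw [zetaPole_of_ne hz1]
    exact mul_ne_zero hz1' hne
  refine ⟨hzp, ?_⟩
  have hd : DifferentiableAt ℂ (ell S L) z := by
    unfold ell
    refine ((h.diff z hz).differentiableAt (isOpen_ball.mem_nhds hz)).add ?_
    refine DifferentiableAt.fun_sum fun u hu ↦ ?_
    exact ((differentiableAt_id.sub_const u).clog (edge_slit (hS u hu))).const_mul _
  have hev : (fun w ↦ cexp (ell S L w)) =ᶠ[𝓝 z] riemannZeta := by
    have h1 : ∀ᶠ w in 𝓝 z, w ∈ ball ((2 : ℂ) + T * I) (7 / 10 * T) := isOpen_ball.mem_nhds hz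
    have h2 : ∀ᶠ w in 𝓝 z, ∀ u ∈ S, u.im ≠ w.im := by
      rw [Filter.eventually_all_finset]
      intro u hu
      have : {w : ℂ | u.im ≠ w.im} ∈ 𝓝 z :=
        (isOpen_ne_fun continuous_const Complex.continuous_im).mem_nhds (hS u hu)
      exact this
    filter_upwards [h1, h2] with w hw1 hw2
    exact edge_exp h hw1 hw2
  have hexp := hd.hasDerivAt.cexp
  have hzd : HasDerivAt riemannZeta (cexp (ell S L z) * deriv (ell S L) z) z :=
    hexp.congr_of_eventuallyEq hev.symm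
  rw [edge_exp h hz hS] at hzd
  have hpe : zetaPole =ᶠ[𝓝 z] fun w ↦ (w - 1) * riemannZeta w := by
    filter_upwards [isOpen_ne.mem_nhds hz1] with w hw
    exact zetaPole_of_ne hw
  have hpd : HasDerivAt zetaPole (1 * riemannZeta z +
      (z - 1) * (riemannZeta z * deriv (ell S L) z)) z :=
    (((hasDerivAt_id z).sub_const 1).mul hzd).congr_of_eventuallyEq hpe
  rw [hpd.deriv, zetaPole_of_ne hz1]
  have h5 : (1 * riemannZeta z + (z - 1) * (riemannZeta z * deriv (ell S L) z)) /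
      ((z - 1) * riemannZeta z) - 1 / (z - 1) = deriv (ell S L) z := by
    field_simp
    ring
  rw [h5]
  exact hd.hasDerivAt

private lemma edge_norm_log (w : ℂ) : ‖Complex.log w‖ ≤ |Real.log ‖w‖| + 4 := by
  have h1 := Complex.norm_le_abs_re_add_abs_im (Complex.log w)
  rw [Complex.log_re, Complex.log_im] at h1
  have h2 := Complex.abs_arg_le_pi w
  have h3 := Real.pi_lt_four
  linarith

private lemma edge_norm_log_far {w : ℂ} (h1 : 1 ≤ ‖w‖) (h2 : ‖w‖ ≤ 4) :
    ‖Complex.log w‖ ≤ 7 := by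
  have h3 := edge_norm_log w
  have h4 : Real.log ‖w‖ ≤ ‖w‖ - 1 := Real.log_le_sub_one_of_pos (by linarith)
  rw [abs_of_nonneg (Real.log_nonneg h1)] at h3
  linarith

private lemma edge_norm_log_near {w : ℂ} (h0 : w.re ≠ 0) (h2 : ‖w‖ ≤ 4) :
    ‖Complex.log w‖ ≤ |Real.log w.re| + 7 := by
  rcases le_total 1 ‖w‖ with h1 | h1
  · have := edge_norm_log_far h1 h2
    have h3 := abs_nonneg (Real.log w.re)
    linarith
  · have h3 := edge_norm_log w
    have h4 : 0 < |w.re| := abs_pos.2 h0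
    have h5 : |w.re| ≤ ‖w‖ := Complex.abs_re_le_norm w
    have h6 : |Real.log ‖w‖| ≤ |Real.log w.re| := by
      rw [abs_of_nonpos (Real.log_nonpos (by linarith) h1), ← Real.log_abs w.re,
        abs_of_nonpos (Real.log_nonpos h4.le (by linarith))]
      have := Real.log_le_log h4 h5
      linarith
    linarith

private lemma edge_int_log : ∃ C : ℝ, 0 ≤ C ∧ ∀ β : ℝ, 0 ≤ β → β ≤ 1 →
    ∫ x in (1 / 2 : ℝ)..2, |Real.log (x - β)| ≤ C := by
  refine ⟨∫ x in (-2 : ℝ)..2, |Real.log x|, ?_, fun β h0 h1 ↦ ?_⟩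
  · apply intervalIntegral.integral_nonneg (by norm_num)
    intro x _
    positivity
  · have h := intervalIntegral.integral_comp_sub_right (fun x ↦ |Real.log x|) β
      (a := 1 / 2) (b := 2)
    rw [h]
    apply intervalIntegral.integral_mono_interval (by linarith) (by linarith) (by linarith)
    · exact Eventually.of_forall fun x ↦ abs_nonneg _
    · exact intervalIntegral.intervalIntegrable_log'.abs

/-- the pointwise bound -/
private lemma edge_pointwise {T : ℝ} (hT : 20 ≤ T) {S : Finset ℂ} {L : ℂ → ℂ} (h : IsEll T S L)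
    {Y : ℝ} (hY : Y ∈ Icc (T / 2) (3 * T / 2)) (hS : ∀ u ∈ S, u.im ≠ Y) {SY : Finset ℂ} {B : ℝ}
    (hB : 0 ≤ B)
    (hSY : ∀ u, u ∈ SY ↔ (u ∈ closedBall ((2 : ℂ) + Y * I) (17 / 10) ∧ zetaPole u = 0))
    (hm : ∀ z ∈ closedBall ((2 : ℂ) + Y * I) (8 / 5), zetaPole z ≠ 0 →
      ‖deriv zetaPole z / zetaPole z - ∑ u ∈ SY, (zord u : ℂ) / (z - u)‖ ≤ B) :
    (∀ x ∈ Icc (1 / 2 : ℝ) 2, ContinuousAt (fun x : ℝ ↦ ell S L (x + Y * I)) x) ∧
    ∀ x ∈ Icc (1 / 2 : ℝ) 2, (∀ u ∈ SY, x ≠ u.re) →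
      ‖ell S L (x + Y * I)‖ ≤ 1 + 3 / 2 * (B + 1) +
        ∑ u ∈ SY, (zord u : ℝ) * (14 + |Real.log (x - u.re)|) := by
  obtain ⟨hY1, hY2⟩ := hY
  have hball : ∀ z : ℂ, ‖z - (2 + Y * I)‖ ≤ 17 / 10 → z ∈ ball ((2 : ℂ) + T * I) (7 / 10 * T) := by
    intro z hz
    rw [mem_ball, dist_eq_norm]
    have h1 : z - (2 + T * I) = (z - (2 + Y * I)) + ((Y - T : ℝ) : ℂ) * I := by
      push_cast; ring
    have h2 : ‖((Y - T : ℝ) : ℂ) * I‖ ≤ T / 2 := by
      rw [norm_mul, Complex.norm_I, mul_one, Complex.norm_real, Real.norm_eq_abs, abs_le]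
      constructor <;> linarith
    rw [h1]
    have h3 := norm_add_le (z - (2 + Y * I)) (((Y - T : ℝ) : ℂ) * I)
    linarith
  have him : ∀ x : ℝ, ((x : ℂ) + Y * I).im = Y := by intro x; simp
  have hre : ∀ x : ℝ, ((x : ℂ) + Y * I).re = x := by intro x; simp
  have hline : ∀ x ∈ Icc (1 / 2 : ℝ) 2, ‖((x : ℂ) + Y * I) - (2 + Y * I)‖ ≤ 3 / 2 := by
    intro x hx
    have h1 : ((x : ℂ) + Y * I) - (2 + Y * I) = ((x - 2 : ℝ) : ℂ) := by push_cast; ring
    rw [h1, Complex.norm_real, Real.norm_eq_abs, abs_le]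
    constructor <;> linarith [hx.1, hx.2]
  have hne1 : ∀ z : ℂ, ‖z - (2 + Y * I)‖ ≤ 17 / 10 → z ≠ 1 := by
    rintro z hz rfl
    have h1 := Complex.abs_im_le_norm (1 - (2 + Y * I) : ℂ)
    have h2 : (1 - (2 + Y * I) : ℂ).im = -Y := by simp
    rw [h2, abs_neg, abs_of_nonneg (by linarith)] at h1
    linarith
  have hd : ∀ x ∈ Icc (1 / 2 : ℝ) 2, zetaPole ((x : ℂ) + Y * I) ≠ 0 ∧
      HasDerivAt (ell S L) (deriv zetaPole ((x : ℂ) + Y * I) / zetaPole ((x : ℂ) + Y * I) -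
        1 / (((x : ℂ) + Y * I) - 1)) ((x : ℂ) + Y * I) := by
    intro x hx
    have h1 := hline x hx
    exact edge_deriv h (hball _ (by linarith)) (hne1 _ (by linarith)) (by rw [him]; exact hS)
  have hpath : ∀ x : ℝ, HasDerivAt (fun x : ℝ ↦ (x : ℂ) + Y * I) 1 x := by
    intro x
    exact (Complex.ofRealCLM.hasDerivAt (x := x)).add_const _
  refine ⟨fun x hx ↦ ContinuousAt.comp (f := fun x : ℝ ↦ (x : ℂ) + Y * I)
    (hd x hx).2.continuousAt (hpath x).continuousAt, fun x hx hxu ↦ ?_⟩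
  have hSYim : ∀ u ∈ SY, u.im ≠ Y := by
    intro u hu
    obtain ⟨h1, h2⟩ := (hSY u).1 hu
    rw [mem_closedBall, dist_eq_norm] at h1
    exact hS u (edge_zero_mem h (hball u h1) (hne1 u h1) h2)
  -- the auxiliary function
  set k : ℝ → ℂ := fun x ↦ ell S L (x + Y * I) - ∑ u ∈ SY, (zord u : ℂ) *
    Complex.log ((x : ℂ) + Y * I - u) with hk
  set k' : ℝ → ℂ := fun x ↦ (deriv zetaPole ((x : ℂ) + Y * I) / zetaPole ((x : ℂ) + Y * I) -
        1 / (((x : ℂ) + Y * I) - 1)) - ∑ u ∈ SY, (zord u : ℂ) / ((x : ℂ) + Y * I - u) with hk'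
  have hkd : ∀ x ∈ Icc (1 / 2 : ℝ) 2, HasDerivAt k (k' x) x := by
    intro x hx
    have h1 := (hd x hx).2.scomp x (hpath x)
    rw [one_smul] at h1
    refine h1.sub ?_
    refine HasDerivAt.fun_sum fun u hu ↦ ?_
    have h2 : HasDerivAt (fun x : ℝ ↦ Complex.log ((x : ℂ) + Y * I - u))
        (1 / ((x : ℂ) + Y * I - u)) x :=
      ((hpath x).sub_const u).clog_real (edge_slit (by rw [him]; exact hSYim u hu))
    have h3 := h2.const_mul (zord u : ℂ)
    rwa [mul_one_div] at h3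
  have hkb : ∀ x ∈ Icc (1 / 2 : ℝ) 2, ‖k' x‖ ≤ B + 1 := by
    intro x hx
    have h1 := hline x hx
    have h2 := hm ((x : ℂ) + Y * I) (by
      rw [mem_closedBall, dist_eq_norm]; linarith) (hd x hx).1
    have h3 : ‖1 / (((x : ℂ) + Y * I) - 1)‖ ≤ 1 := by
      rw [norm_div, norm_one, div_le_one (norm_pos_iff.2 (sub_ne_zero.2 (hne1 _ (by linarith))))]
      have h4 := Complex.abs_im_le_norm (((x : ℂ) + Y * I) - 1)
      rw [Complex.sub_im, him, Complex.one_im, sub_zero, abs_of_nonneg (by linarith)] at h4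
      linarith
    have h4 : k' x = (deriv zetaPole ((x : ℂ) + Y * I) / zetaPole ((x : ℂ) + Y * I) -
        ∑ u ∈ SY, (zord u : ℂ) / ((x : ℂ) + Y * I - u)) - 1 / (((x : ℂ) + Y * I) - 1) := by
      rw [hk']
      ring
    rw [h4]
    exact (norm_sub_le _ _).trans (by linarith)
  have hmv := Convex.norm_image_sub_le_of_norm_hasDerivWithin_le (𝕜 := ℝ) (f := k) (f' := k')
    (s := Icc (1 / 2 : ℝ) 2) (x := 2) (y := x) (C := B + 1)
    (fun x hx ↦ (hkd x hx).hasDerivWithinAt) hkb (convex_Icc _ _) (by norm_num) hx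
  have hx2 : ‖x - 2‖ ≤ 3 / 2 := by
    rw [Real.norm_eq_abs, abs_le]
    constructor <;> linarith [hx.1, hx.2]
  have hmv' : ‖k x - k 2‖ ≤ 3 / 2 * (B + 1) := by
    refine hmv.trans ?_
    nlinarith
  have hell : ell S L (x + Y * I) = (k x - k 2) + ell S L ((2 : ℝ) + Y * I) +
      ∑ u ∈ SY, (zord u : ℂ) * (Complex.log ((x : ℂ) + Y * I - u) -
        Complex.log (((2 : ℝ) : ℂ) + Y * I - u)) := by
    rw [hk]
    simp only [mul_sub, Finset.sum_sub_distrib]
    ring
  have hell2 : ‖ell S L ((2 : ℝ) + Y * I)‖ ≤ 1 := by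
    have h1 := h.right Y ⟨hY1, hY2⟩
    push_cast
    rw [h1]
    exact norm_lz_le (by simp)
  rw [hell]
  refine (norm_add₃_le).trans ?_
  have hsum : ‖∑ u ∈ SY, (zord u : ℂ) * (Complex.log ((x : ℂ) + Y * I - u) -
        Complex.log (((2 : ℝ) : ℂ) + Y * I - u))‖ ≤
        ∑ u ∈ SY, (zord u : ℝ) * (14 + |Real.log (x - u.re)|) := by
    refine (norm_sum_le _ _).trans (Finset.sum_le_sum fun u hu ↦ ?_)
    rw [norm_mul, Complex.norm_natCast]
    refine mul_le_mul_of_nonneg_left ?_ (Nat.cast_nonneg _)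
    obtain ⟨h1, h2⟩ := (hSY u).1 hu
    rw [mem_closedBall, dist_eq_norm] at h1
    have hur : u.re < 1 := by
      by_contra hc
      exact zetaPole_ne_zero_of_one_le (not_lt.1 hc) h2
    have h3 : ‖((2 : ℝ) : ℂ) + Y * I - u‖ ≤ 17 / 10 := by
      rw [norm_sub_rev] at h1
      push_cast
      exact h1
    have h4 : 1 ≤ ‖((2 : ℝ) : ℂ) + Y * I - u‖ := by
      have h5 := Complex.abs_re_le_norm (((2 : ℝ) : ℂ) + Y * I - u)
      rw [Complex.sub_re, hre, abs_of_nonneg (by linarith)] at h5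
      linarith
    have h5 : ‖(x : ℂ) + Y * I - u‖ ≤ 4 := by
      have h6 : (x : ℂ) + Y * I - u = ((x : ℂ) + Y * I - (2 + Y * I)) +
          (((2 : ℝ) : ℂ) + Y * I - u) := by push_cast; ring
      rw [h6]
      have h7 := hline x hx
      have h8 := norm_add_le ((x : ℂ) + Y * I - (2 + Y * I)) (((2 : ℝ) : ℂ) + Y * I - u)
      linarith
    have h6 := edge_norm_log_far h4 (by linarith)
    have h7 := edge_norm_log_near (w := (x : ℂ) + Y * I - u) (by
      rw [Complex.sub_re, hre]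
      exact sub_ne_zero.2 (hxu u hu)) h5
    rw [Complex.sub_re, hre] at h7
    have h8 := norm_sub_le (Complex.log ((x : ℂ) + Y * I - u))
      (Complex.log (((2 : ℝ) : ℂ) + Y * I - u))
    linarith
  linarith

theorem edge_bound : ∃ C : ℝ, 0 < C ∧ ∀ᶠ T : ℝ in atTop, ∀ (S : Finset ℂ) (L : ℂ → ℂ),
    IsEll T S L → ∀ Y ∈ Icc (T / 2) (3 * T / 2), (∀ u ∈ S, u.im ≠ Y) →
    ∫ x in (1 / 2 : ℝ)..2, ‖ell S L (x + Y * I)‖ ≤ C * Real.log T := by
  obtain ⟨C1, hC1, hloc⟩ := zeta_loc2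
  obtain ⟨C2, hC2, hlog⟩ := edge_int_log
  refine ⟨10 + 6 * C1 + 2 * C1 * (21 + C2), by positivity, ?_⟩
  filter_upwards [eventually_ge_atTop (20 : ℝ)] with T hT S L h Y hY hS
  obtain ⟨SY, hSY1, -, hSY3, hSY4⟩ := hloc Y
  have hY0 : 0 < Y := by linarith [hY.1]
  have hlT : 1 ≤ Real.log T := by
    rw [Real.le_log_iff_exp_le (by linarith)]
    have := Real.exp_one_lt_d9
    linarith
  have hlY : Real.log (|Y| + 2) ≤ 2 * Real.log T := by
    rw [abs_of_pos hY0]
    have h1 : Y + 2 ≤ T ^ 2 := by nlinarith [hY.2]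
    have h2 := Real.log_le_log (by linarith) h1
    rw [Real.log_pow] at h2
    push_cast at h2
    exact h2
  have hlY0 : 0 ≤ Real.log (|Y| + 2) := Real.log_nonneg (by linarith [abs_nonneg Y])
  obtain ⟨hcont, hpt⟩ := edge_pointwise hT h hY hS (B := C1 * Real.log (|Y| + 2)) (by positivity)
    hSY1 hSY4
  have hint1 : IntervalIntegrable (fun x : ℝ ↦ ‖ell S L (x + Y * I)‖) volume (1 / 2) 2 := by
    refine ContinuousOn.intervalIntegrable_of_Icc (by norm_num) fun x hx ↦ ?_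
    exact ((hcont x hx).norm).continuousWithinAt
  have hlogi : ∀ β : ℝ, IntervalIntegrable (fun x : ℝ ↦ |Real.log (x - β)|) volume (1 / 2) 2 := by
    intro β
    have h1 : IntervalIntegrable (fun x : ℝ ↦ |Real.log x|) volume (1 / 2 - β) (2 - β) :=
      intervalIntegral.intervalIntegrable_log'.abs
    have h2 := h1.comp_sub_right β
    simpa using h2
  have hint2 : IntervalIntegrable (fun x : ℝ ↦ 1 + 3 / 2 * (C1 * Real.log (|Y| + 2) + 1) +
      ∑ u ∈ SY, (zord u : ℝ) * (14 + |Real.log (x - u.re)|)) volume (1 / 2) 2 := by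
    refine intervalIntegrable_const.add ?_
    have := IntervalIntegrable.sum (μ := volume) (a := 1 / 2) (b := 2) SY
      (f := fun u (x : ℝ) ↦ (zord u : ℝ) * (14 + |Real.log (x - u.re)|)) (fun u _ ↦
        (intervalIntegrable_const.add (hlogi u.re)).const_mul _)
    simpa [Finset.sum_fn] using this
  have hae : ∀ᵐ x : ℝ, ∀ u ∈ SY, x ≠ u.re := by
    have h1 : ((SY.image Complex.re : Finset ℝ) : Set ℝ).Countable :=
      (SY.image Complex.re).countable_toSet
    filter_upwards [h1.ae_notMem volume] with x hx u hu hxu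
    exact hx (Finset.mem_coe.2 (Finset.mem_image.2 ⟨u, hu, hxu.symm⟩))
  have hmono : ∫ x in (1 / 2 : ℝ)..2, ‖ell S L (x + Y * I)‖ ≤
      ∫ x in (1 / 2 : ℝ)..2, (1 + 3 / 2 * (C1 * Real.log (|Y| + 2) + 1) +
      ∑ u ∈ SY, (zord u : ℝ) * (14 + |Real.log (x - u.re)|)) := by
    refine intervalIntegral.integral_mono_ae_restrict (by norm_num) hint1 hint2 ?_
    rw [Filter.EventuallyLE, ae_restrict_iff' measurableSet_Icc]
    filter_upwards [hae] with x hx hx2
    exact hpt x hx2 hx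
  have hsumint : ∫ x in (1 / 2 : ℝ)..2, (∑ u ∈ SY, (zord u : ℝ) * (14 + |Real.log (x - u.re)|)) ≤
      (C1 * Real.log (|Y| + 2)) * (21 + C2) := by
    rw [intervalIntegral.integral_finsetSum (fun u _ ↦
        (intervalIntegrable_const.add (hlogi u.re)).const_mul _)]
    calc _ ≤ ∑ u ∈ SY, (zord u : ℝ) * (21 + C2) := by
          refine Finset.sum_le_sum fun u hu ↦ ?_
          rw [intervalIntegral.integral_const_mul, intervalIntegral.integral_add
            intervalIntegrable_const (hlogi u.re), intervalIntegral.integral_const]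
          refine mul_le_mul_of_nonneg_left ?_ (Nat.cast_nonneg _)
          obtain ⟨h1, h2⟩ := (hSY1 u).1 hu
          rw [mem_closedBall, dist_eq_norm] at h1
          have hur : u.re < 1 := by
            by_contra hc
            exact zetaPole_ne_zero_of_one_le (not_lt.1 hc) h2
          have hur0 : 0 ≤ u.re := by
            have h3 := Complex.abs_re_le_norm (u - (2 + Y * I))
            have h4 : (u - (2 + Y * I)).re = u.re - 2 := by simp
            rw [h4] at h3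
            have h5 := neg_abs_le (u.re - 2)
            linarith
          have h3 := hlog u.re hur0 hur.le
          rw [smul_eq_mul]
          linarith
      _ = (∑ u ∈ SY, (zord u : ℝ)) * (21 + C2) := by rw [Finset.sum_mul]
      _ ≤ _ := mul_le_mul_of_nonneg_right hSY3 (by linarith)
  have hsi : IntervalIntegrable (fun x : ℝ ↦
      ∑ u ∈ SY, (zord u : ℝ) * (14 + |Real.log (x - u.re)|)) volume (1 / 2) 2 := by
    have := IntervalIntegrable.sum (μ := volume) (a := 1 / 2) (b := 2) SY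
      (f := fun u (x : ℝ) ↦ (zord u : ℝ) * (14 + |Real.log (x - u.re)|)) (fun u _ ↦
        (intervalIntegrable_const.add (hlogi u.re)).const_mul _)
    simpa [Finset.sum_fn] using this
  rw [intervalIntegral.integral_add intervalIntegrable_const hsi, intervalIntegral.integral_const,
    smul_eq_mul] at hmono
  have h1 : (C1 * Real.log (|Y| + 2)) * (21 + C2) ≤ (C1 * (2 * Real.log T)) * (21 + C2) := by
    gcongr
  have h2 : C1 * Real.log (|Y| + 2) ≤ C1 * (2 * Real.log T) := by gcongr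
  have h3 : 0 ≤ C1 * Real.log T := by positivity
  nlinarith

end Pool.Agent.H62.ST
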