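import Pool.Agent.H62.ST.Defs

/-!
# Module NonOrdAe: almost every height is not an ordinate
-/

set_option autoImplicit false

open Complex Filter Topology MeasureTheory Set Metric
open scoped ArithmeticFunction.vonMangoldt

namespace Pool.Agent.H62.ST

open Pool.Agent.H6 Pool.Agent.H6.Win

private lemma NonOrdAe_countable : {u : ℂ | zetaPole u = 0}.Countable := by
  have h : {u : ℂ | zetaPole u = 0} ⊆ ⋃ k : ℕ, {u : ℂ | -(k : ℝ) < u.re ∧ |u.im| ≤ k ∧ zetaPole u = 0} := by
    intro u hu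
    obtain ⟨k, hk⟩ := exists_nat_gt (max (-u.re) |u.im|)
    rw [mem_iUnion]
    refine ⟨k, ?_, ?_, hu⟩
    · have := (le_max_left (-u.re) |u.im|).trans_lt hk
      linarith
    · exact ((le_max_right (-u.re) |u.im|).trans_lt hk).le
  refine Countable.mono h ?_
  exact countable_iUnion fun k ↦ (zset_finite (-(k : ℝ)) k).countable

theorem nonOrd_ae : ∀ᵐ y : ℝ, NonOrd y := by
  have h1 : (Complex.im '' {u : ℂ | zetaPole u = 0}).Countable := NonOrdAe_countable.image _
  filter_upwards [h1.ae_notMem volume] with y hy x hx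
  apply hy
  refine ⟨(x : ℂ) + y * I, ?_, by simp⟩
  have hne : ((x : ℂ) + y * I) ≠ 1 := by
    intro h
    rw [h] at hx
    exact riemannZeta_one_ne_zero hx
  rw [mem_setOf_eq, zetaPole_of_ne hne, hx, mul_zero]

lemma exists_good (S : Finset ℂ) {a b : ℝ} (hab : a < b) :
    ∃ Y ∈ Icc a b, ∀ u ∈ S, u.im ≠ Y := by
  have h1 : (Icc a b).Infinite := Icc_infinite hab
  obtain ⟨Y, hY, hYS⟩ := h1.exists_notMem_finset (S.image Complex.im)
  refine ⟨Y, hY, fun u hu h ↦ hYS ?_⟩
  rw [Finset.mem_image]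
  exact ⟨u, hu, h⟩

end Pool.Agent.H62.ST
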