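import Pool.Agent.H62.ST.ESymM

/-!
# Module Reson: the resonator

`X = log T`, `P = Pset T`, `k = ⌊log T/(48 log log T)⌋₊`, `λ = √(8k)`, `N = ⌊T^{1/16}⌋₊`, `r = rcoef P k λ ε`.
`hN`: `∏_{p ∈ B} p ≤ X^{3k} = exp(3 k log log T) ≤ T^{1/16}`. `esym_lower` with `m = λ^2/X`: `V ≥ λ^2/2 = 4k` (`prime_sum`), `(k-1) λ^2/X ≤ 8k^2/log T ≤ k`, so
`k Esym k ≥ 3k Esym (k-1)`, so `Esym (k-1) ≤ Esym k`, `0 < nsq ≤ 2 Esym k` (`Esym k > 0`: `P` has at least `k` elements because `Esym (k-1) > 0` inductively, or: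
`esym_lower` for all `j ≤ k` and `Esym 0 = 1`). `diag_rcoef`, `esym_succ`:
`ε Im ∑_p kh(p)/√p diag N r p = ∑_p kh(p) (λ/p) Esym' (k-1) p ≥ e^{-1} (1/λ) k Esym k ≥ (e^{-1}/2) (k/λ) nsq`, `k/λ = √(k/8)`,
`kh(p) = exp(-(log p)^2/(4π (log log T)^2)) ≥ exp(-9/(4π)) ≥ e^{-1}` since `1 < p ≤ X^3`. `k ≥ log T/(50 log log T)` for large `T`.
-/

set_option autoImplicit false

open Complex Filter Topology MeasureTheory Set Metric
open scoped ArithmeticFunction.vonMangoldt

namespace Pool.Agent.H62.ST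

open Pool.Agent.H6 Pool.Agent.H6.Win

private lemma Reson_esym'_nonneg (P : Finset ℕ) (lam : ℝ) (j q : ℕ) : 0 ≤ Esym' P lam j q :=
  Finset.sum_nonneg fun _ _ ↦ Finset.prod_nonneg fun _ _ ↦ by positivity

/-- the finite statement, with all numerical input as hypotheses -/
private lemma Reson_core {T ε : ℝ} (hε : ε = 1 ∨ ε = -1) (hX : 1 < Real.log T)
    (hLL : 1 ≤ Real.log (Real.log T))
    (hk : 1 ≤ Real.log T / (48 * Real.log (Real.log T)))
    (hsum : 1 / 2 ≤ ∑ p ∈ Pset T, (1 : ℝ) / p) (hT : 0 < T) :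
    ∃ (N : ℕ) (r : ℕ → ℂ), (N : ℝ) ≤ T ^ (1 / 16 : ℝ) ∧ 0 < nsq N r ∧
      (∀ n : ℕ, IsPrimePow n → n ∉ Pset T → diag N r n = 0) ∧
      Real.exp (-1) / (2 * Real.sqrt 768) *
        Real.sqrt (Real.log T / Real.log (Real.log T)) * nsq N r ≤
        ε * (∑ p ∈ Pset T, ((kh (Real.log (Real.log T)) p / Real.sqrt p : ℝ) : ℂ) *
          diag N r p).im := by
  set X := Real.log T with hXdef
  set D := Real.log X with hDdef
  set k : ℕ := ⌊X / (48 * D)⌋₊ with hkdef
  have hD0 : 0 < D := by linarith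
  have hX0 : 0 < X := by linarith
  have hk1 : 1 ≤ k := Nat.le_floor (by simpa using hk)
  have hk1' : (1 : ℝ) ≤ k := by exact_mod_cast hk1
  have hkle : (k : ℝ) ≤ X / (48 * D) := Nat.floor_le (by positivity)
  have hkge : X / (96 * D) ≤ k := by
    have h1 : X / (48 * D) < k + 1 := Nat.lt_floor_add_one _
    have h2 : X / (48 * D) = 2 * (X / (96 * D)) := by field_simp; ring
    have : X / (48 * D) < 2 * k := by linarith
    linarith
  set lam : ℝ := Real.sqrt (8 * k) with hlam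
  have hlam2 : lam ^ 2 = 8 * k := Real.sq_sqrt (by positivity)
  have hlam0 : 0 < lam := Real.sqrt_pos.2 (by positivity)
  have hP : ∀ p ∈ Pset T, p.Prime := fun p hp ↦ (mem_Pset hp).1
  -- sizes
  have hkD : 3 * (k : ℝ) * D ≤ X / 16 := by
    have := mul_le_mul_of_nonneg_right hkle hD0.le
    have h3 : X / (48 * D) * D = X / 48 := by field_simp
    nlinarith
  have hN : ∀ B ⊆ Pset T, B.card ≤ k → ∏ p ∈ B, p ≤ ⌊T ^ (1 / 16 : ℝ)⌋₊ := by
    intro B hB hcard
    apply Nat.le_floor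
    push_cast
    have h1 : ∏ p ∈ B, (p : ℝ) ≤ ∏ p ∈ B, X ^ 3 :=
      Finset.prod_le_prod (fun _ _ ↦ by positivity) fun p hp ↦ (mem_Pset (hB hp)).2.2
    rw [Finset.prod_const] at h1
    have h2 : (X ^ 3) ^ B.card ≤ (X ^ 3) ^ k :=
      pow_le_pow_right₀ (one_le_pow₀ hX.le) hcard
    have h3 : (X ^ 3) ^ k = Real.exp (3 * k * D) := by
      rw [← pow_mul, ← Real.exp_log hX0, ← Real.exp_nat_mul]
      congr 1
      rw [hDdef]
      push_cast
      ring
    have h4 : T ^ (1 / 16 : ℝ) = Real.exp (X / 16) := by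
      rw [Real.rpow_def_of_pos hT]
      congr 1
      ring
    rw [h4]
    calc ∏ p ∈ B, (p : ℝ) ≤ (X ^ 3) ^ k := h1.trans h2
      _ = Real.exp (3 * k * D) := h3
      _ ≤ Real.exp (X / 16) := Real.exp_le_exp.2 hkD
  -- elementary symmetric polynomials
  have hV : 4 * (k : ℝ) ≤ ∑ q ∈ Pset T, lam ^ 2 / (q : ℝ) := by
    have : ∑ q ∈ Pset T, lam ^ 2 / (q : ℝ) = 8 * k * ∑ q ∈ Pset T, (1 : ℝ) / q := by
      rw [Finset.mul_sum]
      exact Finset.sum_congr rfl fun q _ ↦ by rw [hlam2]; ring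
    rw [this]
    nlinarith
  have hm : ∀ q ∈ Pset T, lam ^ 2 / (q : ℝ) ≤ lam ^ 2 / X := by
    intro q hq
    exact div_le_div_of_nonneg_left (by positivity) hX0 (mem_Pset hq).2.1.le
  have h8 : 8 * (k : ℝ) ≤ X := by
    have h1 : X / (48 * D) ≤ X / 48 :=
      div_le_div_of_nonneg_left hX0.le (by norm_num) (by linarith)
    linarith
  have hstep : ∀ j : ℕ, 1 ≤ j → j ≤ k →
      3 * Esym (Pset T) lam (j - 1) ≤ Esym (Pset T) lam j := by
    intro j hj hjk
    have h1 := esym_lower (P := Pset T) (lam := lam) hj hm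
    have hj' : (1 : ℝ) ≤ j := by exact_mod_cast hj
    have hjk' : (j : ℝ) ≤ k := by exact_mod_cast hjk
    have h2 : ((j : ℝ) - 1) * (lam ^ 2 / X) ≤ k := by
      rw [hlam2, ← mul_div_assoc, div_le_iff₀ hX0]
      have h5 : ((j : ℝ) - 1) * (8 * k) ≤ k * (8 * k) :=
        mul_le_mul_of_nonneg_right (by linarith) (by positivity)
      nlinarith
    have h3 : 3 * (k : ℝ) ≤
        ∑ q ∈ Pset T, lam ^ 2 / (q : ℝ) - (j - 1) * (lam ^ 2 / X) := by linarith
    have h4 : 3 * (k : ℝ) * Esym (Pset T) lam (j - 1) ≤ k * Esym (Pset T) lam j := by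
      calc 3 * (k : ℝ) * Esym (Pset T) lam (j - 1)
          ≤ (∑ q ∈ Pset T, lam ^ 2 / (q : ℝ) - (j - 1) * (lam ^ 2 / X)) *
              Esym (Pset T) lam (j - 1) :=
            mul_le_mul_of_nonneg_right h3 (esym_nonneg _)
        _ ≤ j * Esym (Pset T) lam j := h1
        _ ≤ k * Esym (Pset T) lam j := mul_le_mul_of_nonneg_right hjk' (esym_nonneg _)
    have hk0 : (0 : ℝ) < k := by linarith
    have h6 : (k : ℝ) * (3 * Esym (Pset T) lam (j - 1)) ≤ k * Esym (Pset T) lam j := by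
      linarith
    exact le_of_mul_le_mul_left h6 hk0
  have hpos : ∀ j : ℕ, j ≤ k → 0 < Esym (Pset T) lam j := by
    intro j
    induction j with
    | zero =>
      intro _
      simp [Esym]
    | succ j ih =>
      intro hj
      have := hstep (j + 1) (by omega) hj
      have h2 := ih (by omega)
      simp only [Nat.add_sub_cancel] at this
      linarith
  have hnsq := nsq_rcoef (P := Pset T) (k := k) (N := ⌊T ^ (1 / 16 : ℝ)⌋₊) (lam := lam)
    (ε := ε) hP hk1 hε hN
  have hEk : Esym (Pset T) lam (k - 1) ≤ Esym (Pset T) lam k := by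
    have := hstep k hk1 le_rfl
    have h2 := esym_nonneg (P := Pset T) (lam := lam) (k - 1)
    linarith
  refine ⟨⌊T ^ (1 / 16 : ℝ)⌋₊, rcoef (Pset T) k lam ε, Nat.floor_le (by positivity), ?_, ?_, ?_⟩
  · rw [hnsq]
    have := hpos k le_rfl
    have h2 := esym_nonneg (P := Pset T) (lam := lam) (k - 1)
    linarith
  · intro n hn hnP
    exact diag_rcoef_eq_zero hP hn hnP
  · have him : (∑ p ∈ Pset T, ((kh D p / Real.sqrt p : ℝ) : ℂ) *
        diag ⌊T ^ (1 / 16 : ℝ)⌋₊ (rcoef (Pset T) k lam ε) p).im =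
        ∑ p ∈ Pset T, kh D p / Real.sqrt p *
          (ε * (lam / Real.sqrt p) * Esym' (Pset T) lam (k - 1) p) := by
      rw [Complex.im_sum]
      refine Finset.sum_congr rfl fun p hp ↦ ?_
      rw [diag_rcoef hP hk1 hε hN hp, Complex.im_ofReal_mul]
      congr 1
      rw [Complex.im_ofReal_mul, Complex.I_im, mul_one]
    have hε2 : ε * ε = 1 := by rcases hε with h | h <;> rw [h] <;> norm_num
    have hkey : ε * (∑ p ∈ Pset T, ((kh D p / Real.sqrt p : ℝ) : ℂ) *
        diag ⌊T ^ (1 / 16 : ℝ)⌋₊ (rcoef (Pset T) k lam ε) p).im =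
        ∑ p ∈ Pset T, kh D p * (lam / p * Esym' (Pset T) lam (k - 1) p) := by
      rw [him, Finset.mul_sum]
      refine Finset.sum_congr rfl fun p hp ↦ ?_
      have hp0 : (0 : ℝ) < p := by exact_mod_cast (hP p hp).pos
      have hs : Real.sqrt p * Real.sqrt p = p := Real.mul_self_sqrt hp0.le
      have hs0 : Real.sqrt p ≠ 0 := (Real.sqrt_pos.2 hp0).ne'
      have : ε * (kh D p / Real.sqrt p *
          (ε * (lam / Real.sqrt p) * Esym' (Pset T) lam (k - 1) p)) =
          (ε * ε) * (kh D p * (lam / (Real.sqrt p * Real.sqrt p) *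
            Esym' (Pset T) lam (k - 1) p)) := by
        field_simp
      rw [this, hε2, hs, one_mul]
    have hkh : ∀ p ∈ Pset T, Real.exp (-1) ≤ kh D p := by
      intro p hp
      unfold kh
      apply Real.exp_le_exp.2
      have hp1 : (1 : ℝ) ≤ p := by exact_mod_cast (hP p hp).one_le
      have hlog0 : 0 ≤ Real.log p := Real.log_nonneg hp1
      have hlog : Real.log p ≤ 3 * D := by
        have h1 := Real.log_le_log (by linarith) (mem_Pset hp).2.2
        rw [Real.log_pow] at h1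
        exact_mod_cast h1
      have h2 : Real.log p ^ 2 ≤ 9 * D ^ 2 := by
        have := mul_self_le_mul_self hlog0 hlog
        nlinarith
      have hpi : 3 < Real.pi := Real.pi_gt_three
      have h3 : Real.log p ^ 2 / (4 * Real.pi * D ^ 2) ≤ 1 := by
        rw [div_le_one (by positivity)]
        have hD2 : 0 < D ^ 2 := by positivity
        nlinarith
      linarith
    have hsum2 : Real.exp (-1) * (k * Esym (Pset T) lam k / lam) ≤
        ∑ p ∈ Pset T, kh D p * (lam / p * Esym' (Pset T) lam (k - 1) p) := by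
      rw [← esym_succ (P := Pset T) (lam := lam) hk1, Finset.sum_div, Finset.mul_sum]
      refine Finset.sum_le_sum fun p hp ↦ ?_
      have hp0 : (0 : ℝ) < p := by exact_mod_cast (hP p hp).pos
      have h1 : lam ^ 2 / (p : ℝ) * Esym' (Pset T) lam (k - 1) p / lam =
          lam / p * Esym' (Pset T) lam (k - 1) p := by
        field_simp
      rw [h1]
      exact mul_le_mul_of_nonneg_right (hkh p hp)
        (mul_nonneg (by positivity) (Reson_esym'_nonneg _ _ _ _))
    rw [hkey, hnsq]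
    refine le_trans ?_ hsum2
    have hEk0 : 0 < Esym (Pset T) lam k := hpos k le_rfl
    have hs1 : Real.sqrt (X / D) / Real.sqrt 768 ≤ k / lam := by
      have e1 : (k : ℝ) / lam = Real.sqrt (k / 8) := by
        rw [eq_comm, Real.sqrt_eq_iff_mul_self_eq (by positivity) (by positivity)]
        rw [div_mul_div_comm, ← sq lam, hlam2]
        field_simp
      rw [e1, ← Real.sqrt_div' _ (by norm_num)]
      apply Real.sqrt_le_sqrt
      have : X / D / 768 = X / (96 * D) / 8 := by field_simp; ring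
      rw [this]
      linarith
    have hs768 : 0 < Real.sqrt 768 := Real.sqrt_pos.2 (by norm_num)
    calc Real.exp (-1) / (2 * Real.sqrt 768) * Real.sqrt (X / D) *
          (Esym (Pset T) lam (k - 1) + Esym (Pset T) lam k)
        = Real.exp (-1) * ((Real.sqrt (X / D) / Real.sqrt 768) *
          ((Esym (Pset T) lam (k - 1) + Esym (Pset T) lam k) / 2)) := by
          field_simp
      _ ≤ Real.exp (-1) * ((k / lam) * Esym (Pset T) lam k) := by
          apply mul_le_mul_of_nonneg_left _ (Real.exp_pos _).le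
          apply mul_le_mul hs1 (by linarith) _ (by positivity)
          have := esym_nonneg (P := Pset T) (lam := lam) (k - 1)
          linarith
      _ = Real.exp (-1) * (k * Esym (Pset T) lam k / lam) := by ring

theorem resonator : ∃ c : ℝ, 0 < c ∧ ∀ᶠ T : ℝ in atTop, ∀ ε : ℝ, (ε = 1 ∨ ε = -1) →
    ∃ (N : ℕ) (r : ℕ → ℂ), (N : ℝ) ≤ T ^ (1 / 16 : ℝ) ∧ 0 < nsq N r ∧
      (∀ n : ℕ, IsPrimePow n → n ∉ Pset T → diag N r n = 0) ∧
      c * Real.sqrt (Real.log T / Real.log (Real.log T)) * nsq N r ≤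
        ε * (∑ p ∈ Pset T, ((kh (Real.log (Real.log T)) p / Real.sqrt p : ℝ) : ℂ) *
          diag N r p).im := by
  refine ⟨Real.exp (-1) / (2 * Real.sqrt 768), by positivity, ?_⟩
  have h1 : ∀ᶠ T : ℝ in atTop, 1 < Real.log T :=
    Real.tendsto_log_atTop.eventually (eventually_gt_atTop 1)
  have h2 : ∀ᶠ T : ℝ in atTop, 1 ≤ Real.log (Real.log T) :=
    (Real.tendsto_log_atTop.comp Real.tendsto_log_atTop).eventually (eventually_ge_atTop 1)
  have h3 : ∀ᶠ T : ℝ in atTop, 1 ≤ Real.log T / (48 * Real.log (Real.log T)) := by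
    have hlo : ∀ᶠ X : ℝ in atTop, 48 * Real.log X ≤ X := by
      have h := Real.isLittleO_log_id_atTop.def (show (0 : ℝ) < 1 / 48 by norm_num)
      filter_upwards [h, eventually_gt_atTop 0] with X hX hX0
      have h1 : Real.log X ≤ ‖Real.log X‖ := le_abs_self _
      simp only [id, Real.norm_eq_abs] at hX h1
      rw [abs_of_pos hX0] at hX
      linarith
    have := Real.tendsto_log_atTop.eventually hlo
    filter_upwards [this, h1, h2] with T h h1 h2
    rw [le_div_iff₀ (by positivity), one_mul]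
    exact h
  filter_upwards [h1, h2, h3, prime_sum, eventually_gt_atTop 0] with T h1 h2 h3 h4 h5 ε hε
  exact Reson_core hε h1 h2 h3 h4 h5

end Pool.Agent.H62.ST
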