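import Pool.Agent.H62.ST.GaussDiag
import Pool.Agent.H62.ST.Reson

/-!
# Module MainTerm: the prime sum against the resonator

`Δ = log log T`. The coefficients `Λ n/(log n √n) kh Δ n` are `≤ n^{-1/2} kh Δ n` (`Λ n ≤ log n`), supported on prime powers; summable, and
`∑_{n > T^{1/4}} kh Δ n ≤ T^{-1}` for large `T` (`kh Δ n = n^{-log n/(4π Δ^2)} ≤ n^{-6}` for `n > T^{1/4}`, as `log T/(16 π Δ^2) ≥ 6`, and `∑_{n>y} n^{-6} ≤ y^{-4}`).
For `n > T^{1/4}` use `|∫ n^{-it} μ| ≤ ∫ μ`; for `n ≤ T^{1/4}` use `gauss_diag`; the primes of `Pset T` are `≤ (log T)^3 ≤ T^{1/4}`. For a prime `p`,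
`Λ p/log p = 1`. So `ε Im(..) ≥ H √π c √(..) nsq - T^{1/4} exp(-T/2) nsq - T^{-1} ∫ μ`, and `∫ μ ≤ 2 H nsq` (`int_dens`).
(In the proof below the crude bound `∑_{n > T^{1/4}} ≤ ∑ n^{-2}` is used.)
-/

set_option autoImplicit false

open Complex Filter Topology MeasureTheory Set Metric
open scoped ArithmeticFunction.vonMangoldt

namespace Pool.Agent.H62.ST

open Pool.Agent.H6 Pool.Agent.H6.Win

private lemma MainTerm_kh_le {Δ : ℝ} (hΔ : 0 < Δ) {n : ℕ} (hn : 1 ≤ n)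
    (h : 8 * Real.pi * Δ ^ 2 ≤ Real.log n) : kh Δ n ≤ 1 / (n : ℝ) ^ 2 := by
  have hn0 : (0 : ℝ) < n := by exact_mod_cast hn
  have hD : 0 < 4 * Real.pi * Δ ^ 2 := by positivity
  have hl : 0 ≤ Real.log n := Real.log_nonneg (by exact_mod_cast hn)
  have h1 : 2 * Real.log n ≤ Real.log n ^ 2 / (4 * Real.pi * Δ ^ 2) := by
    rw [le_div_iff₀ hD]
    nlinarith
  unfold kh
  calc Real.exp (-(Real.log n ^ 2 / (4 * Real.pi * Δ ^ 2))) ≤ Real.exp (-(2 * Real.log n)) := by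
        rw [Real.exp_le_exp]; linarith
    _ = 1 / (n : ℝ) ^ 2 := by
        rw [Real.exp_neg, mul_comm, Real.exp_mul, Real.exp_log hn0]
        norm_num

private lemma MainTerm_kh_nonneg (Δ : ℝ) (n : ℕ) : 0 ≤ kh Δ n := (Real.exp_pos _).le

private lemma MainTerm_kh_le_one (Δ : ℝ) (n : ℕ) : kh Δ n ≤ 1 := by
  unfold kh
  rw [Real.exp_le_one_iff]
  have : 0 ≤ Real.log n ^ 2 / (4 * Real.pi * Δ ^ 2) := by positivity
  linarith

private lemma MainTerm_rpow_le_one (n : ℕ) : (n : ℝ) ^ (-(1 / 2) : ℝ) ≤ 1 := by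
  rcases Nat.eq_zero_or_pos n with h | h
  · subst h
    rw [Nat.cast_zero, Real.zero_rpow (by norm_num)]
    norm_num
  · exact Real.rpow_le_one_of_one_le_of_nonpos (by exact_mod_cast h) (by norm_num)

lemma prime_side_summable {Δ : ℝ} (hΔ : 0 < Δ) :
    Summable fun n : ℕ ↦ (n : ℝ) ^ (-(1 / 2) : ℝ) * kh Δ n := by
  refine Summable.of_norm_bounded_eventually_nat (g := fun n : ℕ ↦ 1 / (n : ℝ) ^ 2)
    (Real.summable_one_div_nat_pow.mpr (by norm_num)) ?_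
  have h1 : Tendsto (fun n : ℕ ↦ Real.log n) atTop atTop :=
    Real.tendsto_log_atTop.comp tendsto_natCast_atTop_atTop
  filter_upwards [h1.eventually_ge_atTop (8 * Real.pi * Δ ^ 2), eventually_ge_atTop 1]
    with n hn hn1
  rw [Real.norm_of_nonneg (mul_nonneg (by positivity) (MainTerm_kh_nonneg _ _))]
  calc (n : ℝ) ^ (-(1 / 2) : ℝ) * kh Δ n ≤ 1 * (1 / (n : ℝ) ^ 2) :=
        mul_le_mul (MainTerm_rpow_le_one n) (MainTerm_kh_le hΔ hn1 hn) (MainTerm_kh_nonneg _ _)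
          zero_le_one
    _ = _ := one_mul _

private lemma MainTerm_coef_nonneg (Δ : ℝ) (n : ℕ) :
    0 ≤ Λ n / Real.log n / Real.sqrt n * kh Δ n := by
  have h1 := ArithmeticFunction.vonMangoldt_nonneg (n := n)
  have h2 := Real.log_natCast_nonneg n
  have h3 := MainTerm_kh_nonneg Δ n
  positivity

private lemma MainTerm_coef_le (Δ : ℝ) (n : ℕ) :
    Λ n / Real.log n / Real.sqrt n * kh Δ n ≤ (n : ℝ) ^ (-(1 / 2) : ℝ) * kh Δ n := by
  refine mul_le_mul_of_nonneg_right ?_ (MainTerm_kh_nonneg _ _)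
  rw [Real.rpow_neg (Nat.cast_nonneg n), ← Real.sqrt_eq_rpow, ← one_div]
  refine div_le_div_of_nonneg_right ?_ (Real.sqrt_nonneg _)
  exact div_le_one_of_le₀ ArithmeticFunction.vonMangoldt_le_log (Real.log_natCast_nonneg n)

private lemma MainTerm_coef_le_one (Δ : ℝ) (n : ℕ) :
    Λ n / Real.log n / Real.sqrt n * kh Δ n ≤ 1 := by
  refine (MainTerm_coef_le Δ n).trans ?_
  calc (n : ℝ) ^ (-(1 / 2) : ℝ) * kh Δ n ≤ 1 * 1 :=
        mul_le_mul (MainTerm_rpow_le_one n) (MainTerm_kh_le_one _ _) (MainTerm_kh_nonneg _ _)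
          zero_le_one
    _ = 1 := one_mul _

private lemma MainTerm_norm_J_le (N : ℕ) (r : ℕ → ℂ) (T : ℝ) {n : ℕ} (hn : 1 ≤ n) :
    ‖∫ t : ℝ, (n : ℂ) ^ (-(t * I)) * (dens N r T t : ℂ)‖ ≤ ∫ t, dens N r T t := by
  refine (norm_integral_le_integral_norm _).trans (le_of_eq ?_)
  refine integral_congr_ae (Filter.Eventually.of_forall fun t ↦ ?_)
  simp only [norm_mul, Complex.norm_real, Real.norm_of_nonneg (dens_nonneg N r T t)]
  rw [Complex.norm_natCast_cpow_of_pos (by omega)]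
  simp

private lemma MainTerm_summable (N : ℕ) (r : ℕ → ℂ) (T : ℝ) {Δ : ℝ} (hΔ : 0 < Δ) :
    Summable fun n : ℕ ↦ ((Λ n / Real.log n / Real.sqrt n * kh Δ n : ℝ) : ℂ) *
          ∫ t : ℝ, (n : ℂ) ^ (-(t * I)) * (dens N r T t : ℂ) := by
  refine Summable.of_norm_bounded_eventually_nat
    (g := fun n : ℕ ↦ (n : ℝ) ^ (-(1 / 2) : ℝ) * kh Δ n * ∫ t, dens N r T t)
    ((prime_side_summable hΔ).mul_right _) ?_
  filter_upwards [eventually_ge_atTop 1] with n hn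
  rw [norm_mul, Complex.norm_real, Real.norm_of_nonneg (MainTerm_coef_nonneg _ _)]
  refine mul_le_mul (MainTerm_coef_le _ _) (MainTerm_norm_J_le N r T hn) (norm_nonneg _) ?_
  exact mul_nonneg (by positivity) (MainTerm_kh_nonneg _ _)

/-- the tail of the prime sum -/
private lemma MainTerm_tail (N : ℕ) (r : ℕ → ℂ) (T : ℝ) {Δ : ℝ} (hΔ : 0 < Δ) {M : ℕ}
    (hM : ∀ n : ℕ, M < n → 8 * Real.pi * Δ ^ 2 ≤ Real.log n) :
    ‖∑' n : ℕ, ((Λ (n + (M + 1)) / Real.log ((n + (M + 1) : ℕ) : ℝ) /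
        Real.sqrt ((n + (M + 1) : ℕ) : ℝ) * kh Δ (n + (M + 1)) : ℝ) : ℂ) *
          ∫ t : ℝ, ((n + (M + 1) : ℕ) : ℂ) ^ (-(t * I)) * (dens N r T t : ℂ)‖ ≤
      (∑' n : ℕ, 1 / (n : ℝ) ^ 2) * ∫ t, dens N r T t := by
  have hsum : Summable fun n : ℕ ↦ 1 / (n : ℝ) ^ 2 := Real.summable_one_div_nat_pow.mpr (by norm_num)
  have hsum' : Summable fun n : ℕ ↦ 1 / ((n + (M + 1) : ℕ) : ℝ) ^ 2 :=
    (summable_nat_add_iff (f := fun n : ℕ ↦ 1 / (n : ℝ) ^ 2) (M + 1)).mpr hsum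
  have hI : 0 ≤ ∫ t, dens N r T t := integral_nonneg (dens_nonneg N r T)
  have h1 : ∀ n : ℕ, ‖((Λ (n + (M + 1)) / Real.log ((n + (M + 1) : ℕ) : ℝ) /
        Real.sqrt ((n + (M + 1) : ℕ) : ℝ) * kh Δ (n + (M + 1)) : ℝ) : ℂ) *
          ∫ t : ℝ, ((n + (M + 1) : ℕ) : ℂ) ^ (-(t * I)) * (dens N r T t : ℂ)‖ ≤
      1 / ((n + (M + 1) : ℕ) : ℝ) ^ 2 * ∫ t, dens N r T t := by
    intro n
    rw [norm_mul, Complex.norm_real, Real.norm_of_nonneg (MainTerm_coef_nonneg _ _)]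
    refine mul_le_mul ?_ (MainTerm_norm_J_le N r T (by omega)) (norm_nonneg _) (by positivity)
    refine (MainTerm_coef_le _ _).trans ?_
    calc ((n + (M + 1) : ℕ) : ℝ) ^ (-(1 / 2) : ℝ) * kh Δ (n + (M + 1))
        ≤ 1 * (1 / ((n + (M + 1) : ℕ) : ℝ) ^ 2) :=
        mul_le_mul (MainTerm_rpow_le_one _) (MainTerm_kh_le hΔ (by omega) (hM _ (by omega)))
          (MainTerm_kh_nonneg _ _) zero_le_one
      _ = _ := one_mul _
  have h2 := tsum_of_norm_bounded (hsum'.mul_right (∫ t, dens N r T t)).hasSum h1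
  refine h2.trans ?_
  rw [tsum_mul_right]
  refine mul_le_mul_of_nonneg_right ?_ hI
  have h3 := hsum.sum_add_tsum_nat_add (M + 1)
  have h4 : 0 ≤ ∑ i ∈ Finset.range (M + 1), 1 / (i : ℝ) ^ 2 :=
    Finset.sum_nonneg fun _ _ ↦ by positivity
  have h5 : ∑' n : ℕ, 1 / ((n + (M + 1) : ℕ) : ℝ) ^ 2 =
      ∑' i : ℕ, 1 / ((i + (M + 1) : ℕ) : ℝ) ^ 2 := rfl
  linarith

private lemma MainTerm_growth (K : ℝ) : ∀ᶠ T : ℝ in atTop,
    K ≤ Real.sqrt (Real.log T / Real.log (Real.log T)) := by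
  have h1 : Tendsto (fun T : ℝ ↦ Real.log (Real.log T)) atTop atTop :=
    Real.tendsto_log_atTop.comp Real.tendsto_log_atTop
  have h2 : ∀ᶠ X : ℝ in atTop, Real.log X ^ 2 ≤ X := by
    have := (Real.isLittleO_pow_log_id_atTop (n := 2)).bound (c := 1) one_pos
    filter_upwards [this, eventually_ge_atTop 1] with X hX hX1
    rw [Real.norm_of_nonneg (by positivity), id, Real.norm_of_nonneg (by linarith), one_mul] at hX
    exact hX
  have h3 := Real.tendsto_log_atTop.eventually h2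
  filter_upwards [h3, h1.eventually_ge_atTop 1, h1.eventually_ge_atTop (K ^ 2)] with T h3 h4 h5
  have h6 : K ^ 2 ≤ Real.log T / Real.log (Real.log T) := by
    rw [le_div_iff₀ (by linarith)]
    nlinarith
  calc K ≤ |K| := le_abs_self K
    _ = Real.sqrt (K ^ 2) := (Real.sqrt_sq_eq_abs K).symm
    _ ≤ _ := Real.sqrt_le_sqrt h6

private lemma MainTerm_kernel : ∀ᶠ T : ℝ in atTop,
    8 * Real.pi * Real.log (Real.log T) ^ 2 ≤ Real.log T / 4 := by
  have h2 : ∀ᶠ X : ℝ in atTop, 8 * Real.pi * Real.log X ^ 2 ≤ X / 4 := by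
    have hc : (0 : ℝ) < 1 / (32 * Real.pi) := by positivity
    have := (Real.isLittleO_pow_log_id_atTop (n := 2)).bound (c := 1 / (32 * Real.pi)) hc
    filter_upwards [this, eventually_ge_atTop 1] with X hX hX1
    rw [Real.norm_of_nonneg (by positivity), id, Real.norm_of_nonneg (by linarith)] at hX
    have h3 : 8 * Real.pi * Real.log X ^ 2 ≤ 8 * Real.pi * (1 / (32 * Real.pi) * X) := by gcongr
    refine h3.trans (le_of_eq ?_)
    field_simp
    norm_num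
  exact Real.tendsto_log_atTop.eventually h2

private lemma MainTerm_cube : ∀ᶠ T : ℝ in atTop, Real.log T ^ 3 ≤ T ^ (1 / 4 : ℝ) := by
  have := (Real.isLittleO_pow_log_id_atTop (n := 12)).bound (c := 1) one_pos
  filter_upwards [this, eventually_ge_atTop 1] with T hT hT1
  have hl : 0 ≤ Real.log T := Real.log_nonneg hT1
  rw [Real.norm_of_nonneg (by positivity), id, Real.norm_of_nonneg (by linarith), one_mul] at hT
  calc Real.log T ^ 3 = (Real.log T ^ 12) ^ (1 / 4 : ℝ) := by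
        rw [← Real.rpow_natCast, ← Real.rpow_natCast, ← Real.rpow_mul hl]
        norm_num
    _ ≤ _ := Real.rpow_le_rpow (by positivity) hT (by norm_num)

private lemma MainTerm_exp {T : ℝ} (hT : 0 ≤ T) : T * Real.exp (-(T / 2)) ≤ 1 := by
  have h1 : T ≤ Real.exp (T / 2) := by
    have h2 := Real.add_one_le_exp (T / 4)
    have h3 : Real.exp (T / 2) = Real.exp (T / 4) * Real.exp (T / 4) := by
      rw [← Real.exp_add]; ring_nf
    rw [h3]
    nlinarith [sq_nonneg (T / 4 - 1)]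
  rw [Real.exp_neg]
  exact mul_inv_le_one_of_le₀ h1 (Real.exp_pos _).le

theorem main_term : ∃ c : ℝ, 0 < c ∧ ∀ᶠ T : ℝ in atTop, ∀ ε : ℝ, (ε = 1 ∨ ε = -1) →
    ∃ (N : ℕ) (r : ℕ → ℂ), (N : ℝ) ≤ T ^ (1 / 16 : ℝ) ∧ 0 < nsq N r ∧
      c * Real.sqrt (Real.log T / Real.log (Real.log T)) * ∫ t, dens N r T t ≤
        ε * (∑' n : ℕ, ((Λ n / Real.log n / Real.sqrt n * kh (Real.log (Real.log T)) n : ℝ) : ℂ) *
          ∫ t : ℝ, (n : ℂ) ^ (-(t * I)) * (dens N r T t : ℂ)).im := by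
  obtain ⟨c, hc, hres⟩ := resonator
  obtain ⟨K, hK⟩ : ∃ K : ℝ, K = ∑' n : ℕ, 1 / (n : ℝ) ^ 2 := ⟨_, rfl⟩
  have hK0 : 0 ≤ K := by rw [hK]; exact tsum_nonneg fun _ ↦ by positivity
  refine ⟨c / 4, by positivity, ?_⟩
  have hLL : Tendsto (fun T : ℝ ↦ Real.log (Real.log T)) atTop atTop :=
    Real.tendsto_log_atTop.comp Real.tendsto_log_atTop
  filter_upwards [hres, gauss_diag, int_dens, MainTerm_growth ((1 + 2 * K) * 2 / c),
    MainTerm_kernel, MainTerm_cube, hLL.eventually_ge_atTop 1, eventually_ge_atTop 3,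
    Real.tendsto_log_atTop.eventually_ge_atTop 1]
    with T hres hgd hid hS hker hcube hLL hT3 hL1 ε hε
  obtain ⟨N, r, hN, hnsq, hdiag, hmain⟩ := hres ε hε
  refine ⟨N, r, hN, hnsq, ?_⟩
  have hgd := hgd N r hN
  obtain ⟨-, hI2⟩ := hid N r hN
  have hI0 : 0 ≤ ∫ t, dens N r T t := integral_nonneg (dens_nonneg N r T)
  obtain ⟨Δ, hΔ⟩ : ∃ Δ : ℝ, Δ = Real.log (Real.log T) := ⟨_, rfl⟩
  have hΔ0 : 0 < Δ := by rw [hΔ]; linarith
  obtain ⟨S, hSd⟩ : ∃ S : ℝ, S = Real.sqrt (Real.log T / Real.log (Real.log T)) := ⟨_, rfl⟩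
  obtain ⟨H, hH⟩ : ∃ H : ℝ, H = T / Real.log T := ⟨_, rfl⟩
  obtain ⟨V, hV⟩ : ∃ V : ℝ, V = nsq N r := ⟨_, rfl⟩
  obtain ⟨I', hI'⟩ : ∃ I' : ℝ, I' = ∫ t, dens N r T t := ⟨_, rfl⟩
  obtain ⟨M, hM⟩ : ∃ M : ℕ, M = ⌊T ^ (1 / 4 : ℝ)⌋₊ := ⟨_, rfl⟩
  rw [← hSd] at hS hmain ⊢
  rw [← hΔ] at hmain hker ⊢
  rw [← hH, ← hV, ← hI'] at hI2
  rw [← hV] at hmain hnsq
  rw [← hI'] at hI0 ⊢
  have hT0 : 0 < T := by linarith
  have hH1 : 1 ≤ H := by
    rw [hH, le_div_iff₀ (by linarith), one_mul]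
    linarith [Real.add_one_le_exp (Real.log T), Real.exp_log hT0]
  -- the split of the series
  have hMn : ∀ n : ℕ, M < n → 8 * Real.pi * Δ ^ 2 ≤ Real.log n := by
    intro n hn
    refine hker.trans ?_
    have h1 : T ^ (1 / 4 : ℝ) ≤ n := by
      have h2 : T ^ (1 / 4 : ℝ) < M + 1 := by rw [hM]; exact Nat.lt_floor_add_one _
      have h3 : (M : ℝ) + 1 ≤ n := by exact_mod_cast hn
      linarith
    have h4 := Real.log_le_log (by positivity) h1
    rw [Real.log_rpow hT0] at h4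
    linarith
  obtain ⟨J, hJ⟩ : ∃ J : ℕ → ℂ, J = fun n : ℕ ↦
      ∫ t : ℝ, (n : ℂ) ^ (-(t * I)) * (dens N r T t : ℂ) := ⟨_, rfl⟩
  obtain ⟨α, hα⟩ : ∃ α : ℕ → ℝ, α = fun n : ℕ ↦
      Λ n / Real.log n / Real.sqrt n * kh Δ n := ⟨_, rfl⟩
  have hsumm := MainTerm_summable N r T hΔ0
  have htail := MainTerm_tail N r T hΔ0 hMn
  have hsplit := hsumm.sum_add_tsum_nat_add (M + 1)
  rw [← hsplit]
  rw [← hK, ← hI'] at htail
  obtain ⟨R, hR⟩ : ∃ R : ℂ, R = ∑' n : ℕ, ((Λ (n + (M + 1)) / Real.log ((n + (M + 1) : ℕ) : ℝ) /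
        Real.sqrt ((n + (M + 1) : ℕ) : ℝ) * kh Δ (n + (M + 1)) : ℝ) : ℂ) *
          ∫ t : ℝ, ((n + (M + 1) : ℕ) : ℂ) ^ (-(t * I)) * (dens N r T t : ℂ) := ⟨_, rfl⟩
  rw [← hR] at htail ⊢
  -- the main sum
  have hP : Pset T ⊆ Finset.range (M + 1) := by
    intro p hp
    have hp3 := (mem_Pset hp).2.2
    rw [Finset.mem_range, Nat.lt_succ_iff, hM]
    exact Nat.le_floor (hp3.trans hcube)
  have hα0 : ∀ n, 0 ≤ α n := fun n ↦ by rw [hα]; exact MainTerm_coef_nonneg _ _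
  have hα1 : ∀ n, α n ≤ 1 := fun n ↦ by rw [hα]; exact MainTerm_coef_le_one _ _
  have hαpp : ∀ n, ¬ IsPrimePow n → α n = 0 := fun n hn ↦ by
    rw [hα]
    simp only
    rw [ArithmeticFunction.vonMangoldt_eq_zero_iff.mpr hn]
    simp
  have hαp : ∀ p ∈ Pset T, α p = kh Δ p / Real.sqrt p := fun p hp ↦ by
    have hpp := (mem_Pset hp).1
    rw [hα]
    simp only
    rw [ArithmeticFunction.vonMangoldt_apply_prime hpp, div_self]
    · ring
    · exact (Real.log_pos (by exact_mod_cast hpp.one_lt)).ne'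
  have hdiagsum : ∑ n ∈ Finset.range (M + 1), (α n : ℂ) * diag N r n =
      ∑ p ∈ Pset T, ((kh Δ p / Real.sqrt p : ℝ) : ℂ) * diag N r p := by
    rw [← Finset.sum_subset hP]
    · exact Finset.sum_congr rfl fun p hp ↦ by rw [hαp p hp]
    · intro n _ hn
      by_cases hpp : IsPrimePow n
      · rw [hdiag n hpp hn, mul_zero]
      · rw [hαpp n hpp, Complex.ofReal_zero, zero_mul]
  have herr : ‖∑ n ∈ Finset.range (M + 1), (α n : ℂ) *
      (J n - ((T / Real.log T * Real.sqrt Real.pi : ℝ) : ℂ) * diag N r n)‖ ≤ V := by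
    have h1 : ∀ n ∈ Finset.range (M + 1), ‖(α n : ℂ) *
        (J n - ((T / Real.log T * Real.sqrt Real.pi : ℝ) : ℂ) * diag N r n)‖ ≤
        (if n = 0 then 0 else Real.exp (-(T / 2)) * V) := by
      intro n hn
      rw [Finset.mem_range, Nat.lt_succ_iff] at hn
      by_cases h0 : n = 0
      · rw [if_pos h0, h0, hαpp 0 (by simp [not_isPrimePow_zero]), Complex.ofReal_zero, zero_mul,
          norm_zero]
      · rw [if_neg h0, norm_mul, Complex.norm_real, Real.norm_of_nonneg (hα0 n)]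
        have h2 : (n : ℝ) ≤ T ^ (1 / 4 : ℝ) := by
          rw [hM] at hn
          exact (Nat.le_floor_iff (by positivity)).mp hn
        have h3 := hgd n (by omega) h2
        rw [hJ, hV]
        calc α n * _ ≤ 1 * (Real.exp (-(T / 2)) * nsq N r) :=
              mul_le_mul (hα1 n) h3 (norm_nonneg _) zero_le_one
          _ = _ := one_mul _
    refine (norm_sum_le_of_le _ h1).trans ?_
    rw [Finset.sum_ite, Finset.sum_const_zero, zero_add, Finset.sum_const, nsmul_eq_mul]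
    have h4 : (((Finset.range (M + 1)).filter (fun n ↦ ¬ n = 0)).card : ℝ) ≤ T := by
      have h5 : ((Finset.range (M + 1)).filter (fun n ↦ ¬ n = 0)).card ≤ M := by
        have h6 : (Finset.range (M + 1)).filter (fun n ↦ ¬ n = 0) ⊆ Finset.Icc 1 M := by
          intro n hn
          rw [Finset.mem_filter, Finset.mem_range] at hn
          rw [Finset.mem_Icc]
          omega
        simpa using Finset.card_le_card h6
      have h7 : (M : ℝ) ≤ T ^ (1 / 4 : ℝ) := by rw [hM]; exact Nat.floor_le (by positivity)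
      have h8 : T ^ (1 / 4 : ℝ) ≤ T ^ (1 : ℝ) :=
        Real.rpow_le_rpow_of_exponent_le (by linarith) (by norm_num)
      rw [Real.rpow_one] at h8
      have h9 : (((Finset.range (M + 1)).filter (fun n ↦ ¬ n = 0)).card : ℝ) ≤ M := by
        exact_mod_cast h5
      linarith
    calc _ ≤ T * (Real.exp (-(T / 2)) * V) := by gcongr
      _ = T * Real.exp (-(T / 2)) * V := by ring
      _ ≤ 1 * V := mul_le_mul_of_nonneg_right (MainTerm_exp hT0.le) hnsq.le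
      _ = V := one_mul _
  obtain ⟨D, hD⟩ : ∃ D : ℂ, D = ∑ p ∈ Pset T, ((kh Δ p / Real.sqrt p : ℝ) : ℂ) * diag N r p :=
    ⟨_, rfl⟩
  obtain ⟨Er, hEr⟩ : ∃ Er : ℂ, Er = ∑ n ∈ Finset.range (M + 1), (α n : ℂ) *
      (J n - ((T / Real.log T * Real.sqrt Real.pi : ℝ) : ℂ) * diag N r n) := ⟨_, rfl⟩
  rw [← hEr] at herr
  rw [← hD] at hmain hdiagsum
  have hsumid : ∑ n ∈ Finset.range (M + 1),
      ((Λ n / Real.log n / Real.sqrt n * kh Δ n : ℝ) : ℂ) *
          (∫ t : ℝ, (n : ℂ) ^ (-(t * I)) * (dens N r T t : ℂ)) =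
      ((H * Real.sqrt Real.pi : ℝ) : ℂ) * D + Er := by
    rw [hEr, ← hdiagsum, Finset.mul_sum, ← Finset.sum_add_distrib]
    refine Finset.sum_congr rfl fun n _ ↦ ?_
    rw [hα, hJ, hH]
    ring
  rw [hsumid]
  have him : ((((H * Real.sqrt Real.pi : ℝ) : ℂ) * D + Er) + R).im =
      H * Real.sqrt Real.pi * D.im + Er.im + R.im := by
    rw [Complex.add_im, Complex.add_im, Complex.im_ofReal_mul]
  rw [him]
  have hEim : |Er.im| ≤ V := (Complex.abs_im_le_norm Er).trans herr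
  have hRim : |R.im| ≤ K * I' := (Complex.abs_im_le_norm R).trans htail
  have hεE : -V ≤ ε * Er.im := by
    have := abs_le.mp hEim
    rcases hε with rfl | rfl <;> linarith
  have hεR : -(K * I') ≤ ε * R.im := by
    have := abs_le.mp hRim
    rcases hε with rfl | rfl <;> linarith
  have hpi : 1 ≤ Real.sqrt Real.pi := by
    rw [Real.one_le_sqrt]
    linarith [Real.pi_gt_three]
  have hS0 : 0 ≤ S := by rw [hSd]; exact Real.sqrt_nonneg _
  have hmain2 : H * (c * S * V) ≤ H * Real.sqrt Real.pi * (ε * D.im) := by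
    have h1 : 0 ≤ c * S * V := by positivity
    have h2 : c * S * V ≤ Real.sqrt Real.pi * (ε * D.im) := by nlinarith
    calc H * (c * S * V) ≤ H * (Real.sqrt Real.pi * (ε * D.im)) := by gcongr
      _ = _ := by ring
  have hS2 : 1 + 2 * K ≤ c * S / 2 := by
    rw [div_le_iff₀ hc] at hS
    linarith
  have h3 : c / 4 * S * I' ≤ c / 4 * S * (2 * H * V) := by gcongr
  have h4 : K * I' ≤ K * (2 * H * V) := by gcongr
  have h5 : (1 + 2 * K) * (H * V) ≤ c * S / 2 * (H * V) := by gcongr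
  have h6 : V ≤ H * V := by nlinarith
  calc c / 4 * S * I' ≤ c / 4 * S * (2 * H * V) := h3
    _ ≤ H * (c * S * V) - V - K * (2 * H * V) := by nlinarith
    _ ≤ ε * (H * Real.sqrt Real.pi * D.im + Er.im + R.im) := by nlinarith

end Pool.Agent.H62.ST
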