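import Pool.Agent.H62.ST.WBase

/-!
# Module WFour: Fourier transform of `W` on horizontal lines

`∫ n^{-iy} Wc(y - ia) dy = ∫∫ n^{-iy} K(y - t - ia) μ(t) dt dy`; Fubini (`|K(y-t-ia)| ≤ C Δ exp(-π Δ^2 (y-t)^2)`); the inner integral, `v = y - t`:
`n^{-it} ∫ n^{-iv} Δ exp(-π Δ^2 (v-ia)^2) dv = n^{-it} n^a exp(-(log n)^2/(4π Δ^2))` (`integral_cexp_quadratic` / `fourierIntegral_gaussian`:
exponent `-π Δ^2 v^2 + (2π Δ^2 a i - i log n) v + π Δ^2 a^2`, and `(2πΔ^2 a - log n)^2/(4π Δ^2) = π Δ^2 a^2 - a log n + (log n)^2/(4πΔ^2)`).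
-/

set_option autoImplicit false

open Complex Filter Topology MeasureTheory Set Metric
open scoped ArithmeticFunction.vonMangoldt

namespace Pool.Agent.H62.ST

open Pool.Agent.H6 Pool.Agent.H6.Win

lemma cpow_neg_mul_I {n : ℕ} (hn : 1 ≤ n) (y : ℝ) :
    (n : ℂ) ^ (-(y * I)) = cexp (-(Real.log n * y * I)) := by
  have hn0 : (n : ℂ) ≠ 0 := by exact_mod_cast (by omega : n ≠ 0)
  rw [Complex.cpow_def_of_ne_zero hn0, Complex.natCast_log]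
  congr 1
  ring

/-- The shifted kernel as the exponential of a quadratic polynomial. -/
lemma Kc_shift (Δ a : ℝ) {n : ℕ} (hn : 1 ≤ n) (v : ℝ) :
    (n : ℂ) ^ (-(v * I)) * Kc Δ (v - a * I) = (Δ : ℂ) * cexp (-(Real.pi * Δ ^ 2 : ℂ) * (v : ℂ) ^ 2 +
      ((2 * Real.pi * Δ ^ 2 * a - Real.log n) * I) * (v : ℂ) + (Real.pi * Δ ^ 2 * a ^ 2 : ℂ)) := by
  rw [cpow_neg_mul_I hn]
  unfold Kc
  rw [mul_left_comm, ← Complex.exp_add]
  congr 2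
  have : (a : ℂ) * I * (a * I) = - a ^ 2 := by
    rw [show (a : ℂ) * I * (a * I) = a ^ 2 * (I * I) by ring, Complex.I_mul_I]; ring
  linear_combination (-(Real.pi * Δ ^ 2 : ℂ)) * this

lemma g1_integrable {Δ : ℝ} (hΔ : 0 < Δ) (a : ℝ) {n : ℕ} (hn : 1 ≤ n) :
    Integrable fun v : ℝ ↦ (n : ℂ) ^ (-(v * I)) * Kc Δ (v - a * I) := by
  have hb : 0 < ((Real.pi * Δ ^ 2 : ℂ)).re := by
    have : ((Real.pi * Δ ^ 2 : ℂ)) = ((Real.pi * Δ ^ 2 : ℝ) : ℂ) := by push_cast; ring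
    rw [this, Complex.ofReal_re]; positivity
  have h := (integrable_cexp_quadratic hb ((2 * Real.pi * Δ ^ 2 * a - Real.log n) * I)
    (Real.pi * Δ ^ 2 * a ^ 2 : ℂ)).const_mul (Δ : ℂ)
  refine h.congr (Eventually.of_forall fun v ↦ ?_)
  simp only
  rw [Kc_shift Δ a hn v]

lemma integral_g1 {Δ : ℝ} (hΔ : 0 < Δ) (a : ℝ) {n : ℕ} (hn : 1 ≤ n) :
    ∫ v : ℝ, (n : ℂ) ^ (-(v * I)) * Kc Δ (v - a * I) = ((n : ℝ) ^ a : ℝ) * (kh Δ n : ℂ) := by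
  have hb : (-(Real.pi * Δ ^ 2 : ℂ)).re < 0 := by
    have : (-(Real.pi * Δ ^ 2 : ℂ)) = ((-(Real.pi * Δ ^ 2) : ℝ) : ℂ) := by push_cast; ring
    rw [this, Complex.ofReal_re]
    have : 0 < Real.pi * Δ ^ 2 := by positivity
    linarith
  simp_rw [Kc_shift Δ a hn]
  rw [integral_const_mul, integral_cexp_quadratic hb]
  have h1 : ((Real.pi : ℂ) / - -(Real.pi * Δ ^ 2 : ℂ)) ^ (1 / 2 : ℂ) = ((1 / Δ : ℝ) : ℂ) := by
    have h2 : ((Real.pi : ℂ) / - -(Real.pi * Δ ^ 2 : ℂ)) = (((1 / Δ) ^ 2 : ℝ) : ℂ) := by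
      have hπ : (Real.pi : ℂ) ≠ 0 := by exact_mod_cast Real.pi_ne_zero
      have hD : (Δ : ℂ) ≠ 0 := by exact_mod_cast hΔ.ne'
      push_cast
      field_simp
    rw [h2]
    rw [show (1 / 2 : ℂ) = ((1 / 2 : ℝ) : ℂ) by push_cast; ring, ← Complex.ofReal_cpow (by positivity)]
    congr 1
    rw [← Real.sqrt_eq_rpow]
    exact Real.sqrt_sq (by positivity)
  rw [h1]
  have hnpos : (0 : ℝ) < n := by exact_mod_cast (by omega : 0 < n)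
  rw [Real.rpow_def_of_pos hnpos, kh]
  have hD : (Δ : ℂ) ≠ 0 := by exact_mod_cast hΔ.ne'
  rw [← mul_assoc, Complex.ofReal_exp, Complex.ofReal_exp, ← Complex.exp_add,
    show (Δ : ℂ) * ((1 / Δ : ℝ) : ℂ) = 1 by push_cast; field_simp, one_mul]
  congr 1
  push_cast
  have hπ : (Real.pi : ℂ) ≠ 0 := by exact_mod_cast Real.pi_ne_zero
  rw [mul_pow, Complex.I_sq]
  field_simp
  ring

lemma conv_eq {Δ : ℝ} {μ : ℝ → ℝ} (a : ℝ) {n : ℕ} (hn : 1 ≤ n) (y : ℝ) :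
    (n : ℂ) ^ (-(y * I)) * Wc Δ μ (y - a * I) =
    (convolution (fun t : ℝ ↦ (n : ℂ) ^ (-(t * I)) * (μ t : ℂ))
      (fun v : ℝ ↦ (n : ℂ) ^ (-(v * I)) * Kc Δ (v - a * I))
      (ContinuousLinearMap.mul ℝ ℂ) volume) y := by
  unfold Wc
  rw [convolution_def, ← integral_const_mul]
  refine integral_congr_ae (Eventually.of_forall fun t ↦ ?_)
  simp only [ContinuousLinearMap.mul_apply']
  have h1 : (n : ℂ) ^ (-(y * I)) = (n : ℂ) ^ (-(t * I)) * (n : ℂ) ^ (-((y - t : ℝ) * I)) := by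
    rw [cpow_neg_mul_I hn, cpow_neg_mul_I hn, cpow_neg_mul_I hn, ← Complex.exp_add]
    congr 1
    push_cast
    ring
  have h2 : ((y : ℂ) - a * I - t) = ((y - t : ℝ) : ℂ) - a * I := by push_cast; ring
  rw [h1, h2]
  ring

lemma f1_integrable {μ : ℝ → ℝ} (hμ : Integrable μ) {n : ℕ} (hn : 1 ≤ n) :
    Integrable fun t : ℝ ↦ (n : ℂ) ^ (-(t * I)) * (μ t : ℂ) := by
  have hμc : Integrable (fun t ↦ (μ t : ℂ)) := hμ.ofReal
  have hcont : Continuous fun t : ℝ ↦ (n : ℂ) ^ (-(t * I)) := by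
    have : (fun t : ℝ ↦ (n : ℂ) ^ (-(t * I))) = fun t : ℝ ↦ cexp (-(Real.log n * t * I)) := by
      ext t; exact cpow_neg_mul_I hn t
    rw [this]; fun_prop
  refine hμc.norm.mono' (hcont.aestronglyMeasurable.mul hμc.1) (Eventually.of_forall fun t ↦ ?_)
  rw [norm_mul, cpow_neg_mul_I hn]
  have : ‖cexp (-(Real.log n * t * I))‖ = 1 := by
    have h : (-(Real.log n * t * I) : ℂ) = ((-(Real.log n * t) : ℝ) : ℂ) * I := by push_cast; ring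
    rw [h, Complex.norm_exp_ofReal_mul_I]
  rw [this, one_mul]

theorem Wc_fourier {Δ : ℝ} {μ : ℝ → ℝ} (hΔ : 0 < Δ) (hμ : Integrable μ) (a : ℝ) {n : ℕ}
    (hn : 1 ≤ n) :
    ∫ y : ℝ, (n : ℂ) ^ (-(y * I)) * Wc Δ μ (y - a * I) =
      ((n : ℝ) ^ a : ℝ) * (kh Δ n : ℂ) * ∫ t : ℝ, (n : ℂ) ^ (-(t * I)) * (μ t : ℂ) := by
  simp_rw [conv_eq a hn]
  rw [integral_convolution (ContinuousLinearMap.mul ℝ ℂ) (f1_integrable hμ hn) (g1_integrable hΔ a hn)]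
  simp only [ContinuousLinearMap.mul_apply']
  rw [integral_g1 hΔ a hn, mul_comm]

lemma Wc_fourier_integrable {Δ : ℝ} {μ : ℝ → ℝ} (hΔ : 0 < Δ) (hμ : Integrable μ) (a : ℝ) :
    Integrable fun y : ℝ ↦ Wc Δ μ (y - a * I) := by
  have h := Integrable.integrable_convolution (ContinuousLinearMap.mul ℝ ℂ)
    (f1_integrable hμ le_rfl) (g1_integrable hΔ a (n := 1) le_rfl)
  refine h.congr (Eventually.of_forall fun y ↦ ?_)
  simp only
  rw [← conv_eq a le_rfl]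
  simp

end Pool.Agent.H62.ST
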