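import Pool.Agent.H62.ST.WBase
import Pool.Agent.H62.ST.DensInt

/-!
# Module WTailInt: `W` is tiny away from `T` (in mean)

For `y ∉ (Y0, Y1]`: `|y - T| ≥ T/2 - 1`. `∫_{y ∉ (Y0,Y1]} Wr = ∫∫ K(y-t) μ(t)`; the part `|t-T| ≥ T/5` is `≤ ∫_{|t-T| ≥ T/5} μ` (Fubini, `∫ K = 1`, `int_dens_tail`); for
`|t-T| < T/5` and such `y`, `|y-t| ≥ T/5`: `≤ ∫ μ * ∫_{|v| ≥ T/5} Δ exp(-πΔ^2v^2) dv ≤ T^2 nsq exp(-T)` (`int_dens_crude`).
-/

set_option autoImplicit false

open Complex Filter Topology MeasureTheory Set Metric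
open scoped ArithmeticFunction.vonMangoldt

namespace Pool.Agent.H62.ST

open Pool.Agent.H6 Pool.Agent.H6.Win

private lemma WTailInt_num : ∀ᶠ T : ℝ in atTop, 10 ≤ T ∧ 1 ≤ Real.log (Real.log T) ∧
    Real.exp (-(Real.log T ^ 2 / 55)) +
      2 * Real.exp (-(Real.pi * Real.log (Real.log T) ^ 2 * (T / 5) ^ 2 / 2)) * T ^ 2
      ≤ Real.exp (-(Real.log T ^ 2 / 60)) := by
  have hlog := Real.tendsto_log_atTop
  have hloglog := hlog.comp hlog
  have h1 : ∀ᶠ T : ℝ in atTop, 1 ≤ Real.log (Real.log T) := hloglog.eventually_ge_atTop 1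
  have h2 : ∀ᶠ T : ℝ in atTop, 100 ≤ Real.log T := hlog.eventually_ge_atTop 100
  have h3 : ∀ᶠ T : ℝ in atTop, (1000 : ℝ) ≤ T := eventually_ge_atTop 1000
  filter_upwards [h1, h2, h3] with T hΔ hL hT
  refine ⟨by linarith, hΔ, ?_⟩
  have hT0 : 0 < T := by linarith
  set L := Real.log T with hLdef
  set D := Real.log L with hDdef
  have hLT : L ≤ T := (Real.log_le_sub_one_of_pos hT0).trans (by linarith)
  have ha : Real.exp (-(L ^ 2 / 55)) ≤ (1 / 2) * Real.exp (-(L ^ 2 / 60)) := by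
    have h2 : Real.exp (-(L ^ 2 / 55)) ≤ Real.exp (-1 + -(L ^ 2 / 60)) := by
      apply Real.exp_le_exp.2
      nlinarith
    refine h2.trans ?_
    rw [Real.exp_add]
    have : Real.exp (-1) ≤ 1 / 2 := by
      have := Real.exp_one_gt_d9
      rw [Real.exp_neg, ← one_div]
      apply one_div_le_one_div_of_le (by norm_num)
      linarith
    gcongr
  have hb : 2 * Real.exp (-(Real.pi * D ^ 2 * (T / 5) ^ 2 / 2)) * T ^ 2 ≤
      (1 / 2) * Real.exp (-(L ^ 2 / 60)) := by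
    have hpi := Real.pi_gt_three
    have h5 : Real.exp (-(Real.pi * D ^ 2 * (T / 5) ^ 2 / 2)) ≤ Real.exp (-((T / 5) ^ 2)) := by
      apply Real.exp_le_exp.2
      have h7 : (T / 5) ^ 2 ≤ D ^ 2 * (T / 5) ^ 2 := by
        have : 1 ≤ D ^ 2 := by nlinarith
        nlinarith [sq_nonneg (T / 5)]
      have h6 : 0 ≤ D ^ 2 * (T / 5) ^ 2 := by positivity
      nlinarith
    have h8 : 4 * T ^ 2 ≤ Real.exp (T ^ 2 * (1 / 50)) := by
      have h9 : T ^ 2 * (1 / 100) + 1 ≤ Real.exp (T ^ 2 * (1 / 100)) := Real.add_one_le_exp _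
      have h10 : Real.exp (T ^ 2 * (1 / 50)) = Real.exp (T ^ 2 * (1 / 100)) ^ 2 := by
        rw [← Real.exp_nat_mul]
        norm_num
        ring
      rw [h10]
      have hx : 1000000 ≤ T ^ 2 := by nlinarith
      have h11 : (T ^ 2 * (1 / 100) + 1) ^ 2 ≤ Real.exp (T ^ 2 * (1 / 100)) ^ 2 :=
        pow_le_pow_left₀ (by positivity) h9 2
      nlinarith
    calc 2 * Real.exp (-(Real.pi * D ^ 2 * (T / 5) ^ 2 / 2)) * T ^ 2
        ≤ 2 * Real.exp (-((T / 5) ^ 2)) * T ^ 2 := by gcongr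
      _ = (1 / 2) * Real.exp (-((T / 5) ^ 2)) * (4 * T ^ 2) := by ring
      _ ≤ (1 / 2) * Real.exp (-((T / 5) ^ 2)) * Real.exp (T ^ 2 * (1 / 50)) := by
          gcongr
      _ = (1 / 2) * Real.exp (-((T / 5) ^ 2) + T ^ 2 * (1 / 50)) := by
          rw [Real.exp_add]; ring
      _ ≤ (1 / 2) * Real.exp (-(L ^ 2 / 60)) := by
          gcongr
          nlinarith
  linarith

theorem W_tail_int : ∀ᶠ T : ℝ in atTop, ∀ (N : ℕ) (r : ℕ → ℂ), (N : ℝ) ≤ T ^ (1 / 16 : ℝ) →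
    ∀ Y0 Y1 : ℝ, Y0 ≤ T / 2 + 1 → 3 * T / 2 - 1 ≤ Y1 →
    ∫ y in (Ioc Y0 Y1)ᶜ, Wr (Real.log (Real.log T)) (dens N r T) y ≤
      Real.exp (-(Real.log T ^ 2 / 60)) * nsq N r := by
  filter_upwards [WTailInt_num, int_dens_crude, int_dens_tail] with T ⟨hT, hΔ, hnum⟩ hcr htl
    N r hN Y0 Y1 hY0 hY1
  have hT0 : 0 < T := by linarith
  have hΔ0 : 0 < Real.log (Real.log T) := by linarith
  have hns := nsq_nonneg N r
  set Δ := Real.log (Real.log T) with hΔdef
  set μ := dens N r T with hμdef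
  have hint : Integrable μ := dens_integrable N r (T := T) (by linarith)
  have hμ0 : ∀ t, 0 ≤ μ t := dens_nonneg N r T
  set S : Set ℝ := {t : ℝ | T / 5 ≤ |t - T|} with hS
  have hSm : MeasurableSet S := by
    apply (isClosed_le continuous_const _).measurableSet
    fun_prop
  set f : ℝ → ℝ := S.indicator μ with hf
  have hfint : Integrable f := hint.indicator hSm
  have hf0 : ∀ t, 0 ≤ f t := fun t ↦ indicator_nonneg (fun t _ ↦ hμ0 t) t
  have hs2 : 0 < Real.sqrt 2 := by positivity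
  have hsq : Real.sqrt 2 ^ 2 = 2 := Real.sq_sqrt (by norm_num)
  have hD2 : 0 < Δ / Real.sqrt 2 := by positivity
  set E : ℝ := Real.exp (-(Real.pi * Δ ^ 2 * (T / 5) ^ 2 / 2)) with hE
  have hE0 : 0 < E := Real.exp_pos _
  -- pointwise bound of the integrand
  have hpt : ∀ y ∈ (Ioc Y0 Y1)ᶜ, ∀ t : ℝ,
      Δ * Real.exp (-(Real.pi * Δ ^ 2 * (y - t) ^ 2)) * μ t ≤
      Δ * Real.exp (-(Real.pi * Δ ^ 2 * (y - t) ^ 2)) * f t +
      (Real.sqrt 2 * E) * (Δ / Real.sqrt 2 *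
        Real.exp (-(Real.pi * (Δ / Real.sqrt 2) ^ 2 * (y - t) ^ 2)) * μ t) := by
    intro y hy t
    have hμt := hμ0 t
    by_cases h : t ∈ S
    · have h1 : f t = μ t := indicator_of_mem h μ
      rw [h1]
      have : 0 ≤ (Real.sqrt 2 * E) * (Δ / Real.sqrt 2 *
        Real.exp (-(Real.pi * (Δ / Real.sqrt 2) ^ 2 * (y - t) ^ 2)) * μ t) := by positivity
      linarith
    · have h1 : f t = 0 := indicator_of_notMem h μ
      rw [h1, mul_zero, zero_add]
      have h2 : |t - T| < T / 5 := not_le.1 h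
      have h3 : T / 2 - 1 ≤ |y - T| := by
        by_cases hy2 : Y0 < y
        · have : Y1 < y := by
            by_contra hc
            exact hy ⟨hy2, not_lt.1 hc⟩
          exact le_abs.2 (Or.inl (by linarith))
        · exact le_abs.2 (Or.inr (by linarith [not_lt.1 hy2]))
      have h4 : T / 5 ≤ |y - t| := by
        have h2 : |y - T| ≤ |y - t| + |t - T| := by
          have := abs_add_le (y - t) (t - T)
          simpa using this
        linarith
      have h5 : (T / 5) ^ 2 ≤ (y - t) ^ 2 := by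
        rw [← sq_abs (y - t)]
        exact pow_le_pow_left₀ (by positivity) h4 2
      have h6 : Real.exp (-(Real.pi * Δ ^ 2 * (y - t) ^ 2)) ≤
          E * Real.exp (-(Real.pi * (Δ / Real.sqrt 2) ^ 2 * (y - t) ^ 2)) := by
        rw [hE, ← Real.exp_add]
        apply Real.exp_le_exp.2
        have hdiv : (Δ / Real.sqrt 2) ^ 2 = Δ ^ 2 / 2 := by
          rw [div_pow, hsq]
        rw [hdiv]
        have h7 : Real.pi * Δ ^ 2 * (T / 5) ^ 2 ≤ Real.pi * Δ ^ 2 * (y - t) ^ 2 := by gcongr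
        linarith
      calc Δ * Real.exp (-(Real.pi * Δ ^ 2 * (y - t) ^ 2)) * μ t
          ≤ Δ * (E * Real.exp (-(Real.pi * (Δ / Real.sqrt 2) ^ 2 * (y - t) ^ 2))) * μ t := by
            gcongr
        _ = (Real.sqrt 2 * E) * (Δ / Real.sqrt 2 *
            Real.exp (-(Real.pi * (Δ / Real.sqrt 2) ^ 2 * (y - t) ^ 2)) * μ t) := by
            field_simp
  have hki : ∀ (D : ℝ), 0 < D → ∀ (g : ℝ → ℝ), Integrable g → ∀ y : ℝ,
      Integrable (fun t : ℝ ↦ D * Real.exp (-(Real.pi * D ^ 2 * (y - t) ^ 2)) * g t) := by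
    intro D hD g hg y
    refine hg.bdd_mul (c := D) ?_ ?_
    · apply Continuous.aestronglyMeasurable
      fun_prop
    · refine Eventually.of_forall fun t ↦ ?_
      rw [Real.norm_eq_abs, abs_of_pos (by positivity)]
      have : Real.exp (-(Real.pi * D ^ 2 * (y - t) ^ 2)) ≤ 1 := by
        apply Real.exp_le_one_iff.2
        have : 0 ≤ Real.pi * D ^ 2 * (y - t) ^ 2 := by positivity
        linarith
      nlinarith
  have hWpt : ∀ y ∈ (Ioc Y0 Y1)ᶜ, Wr Δ μ y ≤
      Wr Δ f y + (Real.sqrt 2 * E) * Wr (Δ / Real.sqrt 2) μ y := by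
    intro y hy
    unfold Wr
    rw [← integral_const_mul, ← integral_add (hki Δ hΔ0 f hfint y)
      ((hki _ hD2 μ hint y).const_mul _)]
    exact integral_mono (hki Δ hΔ0 μ hint y)
      ((hki Δ hΔ0 f hfint y).add ((hki _ hD2 μ hint y).const_mul _)) (hpt y hy)
  have hg : Integrable (fun y ↦ Wr Δ f y + (Real.sqrt 2 * E) * Wr (Δ / Real.sqrt 2) μ y) :=
    (Wr_integrable hΔ0 hfint).add ((Wr_integrable hD2 hint).const_mul _)
  calc ∫ y in (Ioc Y0 Y1)ᶜ, Wr Δ μ y
      ≤ ∫ y in (Ioc Y0 Y1)ᶜ, (Wr Δ f y + (Real.sqrt 2 * E) * Wr (Δ / Real.sqrt 2) μ y) :=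
        setIntegral_mono_on (Wr_integrable hΔ0 hint).integrableOn hg.integrableOn
          measurableSet_Ioc.compl hWpt
    _ ≤ ∫ y, (Wr Δ f y + (Real.sqrt 2 * E) * Wr (Δ / Real.sqrt 2) μ y) := by
        apply setIntegral_le_integral hg
        refine Eventually.of_forall fun y ↦ ?_
        have h1 := Wr_nonneg hΔ0 hf0 y
        have h2 := Wr_nonneg hD2 hμ0 y
        simp only [Pi.zero_apply]
        positivity
    _ = (∫ t, f t) + (Real.sqrt 2 * E) * ∫ t, μ t := by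
        rw [integral_add (Wr_integrable hΔ0 hfint) ((Wr_integrable hD2 hint).const_mul _),
          integral_const_mul, integral_Wr hΔ0 hfint, integral_Wr hD2 hint]
    _ ≤ Real.exp (-(Real.log T ^ 2 / 55)) * nsq N r + (Real.sqrt 2 * E) * (T ^ 2 * nsq N r) := by
        have h1 : ∫ t, f t = ∫ t in S, μ t := integral_indicator hSm
        rw [h1]
        gcongr
        · exact htl N r hN
        · exact hcr N r hN
    _ ≤ (Real.exp (-(Real.log T ^ 2 / 55)) + 2 * E * T ^ 2) * nsq N r := by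
        have h1 : Real.sqrt 2 ≤ 2 := by
          rw [Real.sqrt_le_left (by norm_num)]
          norm_num
        have h2 : (Real.sqrt 2 * E) * (T ^ 2 * nsq N r) ≤ (2 * E) * (T ^ 2 * nsq N r) := by
          gcongr
        nlinarith
    _ ≤ Real.exp (-(Real.log T ^ 2 / 60)) * nsq N r := by gcongr

end Pool.Agent.H62.ST
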