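import Pool.Agent.H62.ST.LogZeta
import Pool.Agent.H62.ST.WFour
import Pool.Agent.H62.ST.WTailInt
import Pool.Agent.H62.ST.MainTerm

/-!
# Module PrimeSide: the integral over `Re s = 2`
-/

set_option autoImplicit false

open Complex Filter Topology MeasureTheory Set Metric
open scoped ArithmeticFunction.vonMangoldt

namespace Pool.Agent.H62.ST

open Pool.Agent.H6 Pool.Agent.H6.Win

private lemma PrimeSide_numeric : ∀ᶠ T : ℝ in atTop,
    Real.exp (Real.pi * Real.log (Real.log T) ^ 2 * (3 / 2) ^ 2) *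
      Real.exp (-(Real.log T ^ 2 / 60)) ≤ 1 := by
  have h1 : ∀ᶠ x : ℝ in atTop, Real.pi * Real.log x ^ 2 * (3 / 2) ^ 2 ≤ x ^ 2 / 60 := by
    have h := (Real.isLittleO_log_id_atTop).bound (show (0:ℝ) < 1 / 50 by norm_num)
    filter_upwards [h, eventually_ge_atTop (1:ℝ)] with x hx hx1
    simp only [id, Real.norm_eq_abs] at hx
    have hx0 : 0 ≤ Real.log x := Real.log_nonneg hx1
    rw [abs_of_nonneg hx0, abs_of_nonneg (by linarith : (0:ℝ) ≤ x)] at hx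
    have hpi : Real.pi ≤ 4 := Real.pi_le_four
    have h2 : Real.log x ^ 2 ≤ (1 / 50 * x) ^ 2 := by gcongr
    have hpi0 := Real.pi_pos
    calc Real.pi * Real.log x ^ 2 * (3 / 2) ^ 2 ≤ 4 * (1 / 50 * x) ^ 2 * (3 / 2) ^ 2 := by gcongr
      _ ≤ x ^ 2 / 60 := by nlinarith [sq_nonneg x]
  filter_upwards [Real.tendsto_log_atTop.eventually h1] with T a1
  rw [← Real.exp_add, ← Real.exp_zero]
  apply Real.exp_le_exp.2
  linarith

private lemma PrimeSide_Ws (Δ : ℝ) (μ : ℝ → ℝ) (y : ℝ) :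
    Ws Δ μ (2 + y * I) = Wc Δ μ (y - ((3 / 2 : ℝ) : ℂ) * I) := by
  unfold Ws
  congr 1
  push_cast
  linear_combination (-(y : ℂ)) * I_mul_I

private lemma PrimeSide_cpow_cont (n : ℕ) (hn : 1 ≤ n) :
    Continuous fun t : ℝ ↦ (n : ℂ) ^ (-(2 + t * I)) := by
  have hn0 : (n : ℂ) ≠ 0 := by
    have : n ≠ 0 := by omega
    exact_mod_cast this
  have h : (fun t : ℝ ↦ (n : ℂ) ^ (-(2 + t * I))) =
      fun t : ℝ ↦ cexp (Complex.log n * (-(2 + t * I))) := by
    funext t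
    rw [cpow_def_of_ne_zero hn0]
  rw [h]
  fun_prop

private lemma PrimeSide_norm_cpow {n : ℕ} (hn : 1 ≤ n) (y : ℝ) :
    ‖(n : ℂ) ^ (-(2 + y * I))‖ = (n : ℝ) ^ (-2 : ℝ) := by
  rw [norm_natCast_cpow_of_pos (by omega)]
  simp

private lemma PrimeSide_coef (n : ℕ) : 0 ≤ Λ n / Real.log n ∧ Λ n / Real.log n ≤ 1 := by
  have h0 : 0 ≤ Real.log n := Real.log_natCast_nonneg n
  refine ⟨div_nonneg ArithmeticFunction.vonMangoldt_nonneg h0, ?_⟩
  exact div_le_one_of_le₀ ArithmeticFunction.vonMangoldt_le_log h0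

private lemma PrimeSide_full {Δ : ℝ} {μ : ℝ → ℝ} (hΔ : 0 < Δ) (hμ : Integrable μ) :
    ∫ y : ℝ, lz (2 + y * I) * Wc Δ μ (y - ((3 / 2 : ℝ) : ℂ) * I) =
      ∑' n : ℕ, ((Λ n / Real.log n / Real.sqrt n * kh Δ n : ℝ) : ℂ) *
          ∫ t : ℝ, (n : ℂ) ^ (-(t * I)) * (μ t : ℂ) := by
  set V : ℝ → ℂ := fun y ↦ Wc Δ μ (y - ((3 / 2 : ℝ) : ℂ) * I) with hV
  have hVi : Integrable V := Wc_fourier_integrable hΔ hμ (3 / 2)
  set F : ℕ → ℝ → ℂ := fun n y ↦ ((Λ n / Real.log n : ℝ) : ℂ) * (n : ℂ) ^ (-(2 + y * I)) * V y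
    with hF
  have hF0 : ∀ y, F 0 y = 0 := by intro y; simp [hF]
  have hFint : ∀ n, Integrable (F n) := by
    intro n
    rcases Nat.eq_zero_or_pos n with rfl | hn
    · simp only [hF, CharP.cast_eq_zero]
      simp
    · refine Integrable.bdd_mul (c := (n : ℝ) ^ (-2 : ℝ)) hVi ?_ ?_
      · exact (continuous_const.mul (PrimeSide_cpow_cont n hn)).aestronglyMeasurable
      · refine Eventually.of_forall fun y ↦ ?_
        rw [norm_mul, PrimeSide_norm_cpow hn, Complex.norm_real, Real.norm_eq_abs,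
          abs_of_nonneg (PrimeSide_coef n).1]
        have := (PrimeSide_coef n).2
        have h2 : 0 ≤ (n : ℝ) ^ (-2 : ℝ) := by positivity
        nlinarith
  have hFnorm : ∀ n, ∫ y, ‖F n y‖ ≤ (n : ℝ) ^ (-2 : ℝ) * ∫ y, ‖V y‖ := by
    intro n
    rcases Nat.eq_zero_or_pos n with rfl | hn
    · simp only [hF0, norm_zero, integral_zero]
      exact mul_nonneg (by positivity) (integral_nonneg fun _ ↦ norm_nonneg _)
    · rw [← integral_const_mul]
      refine integral_mono (hFint n).norm (hVi.norm.const_mul _) fun y ↦ ?_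
      simp only [hF]
      rw [norm_mul, norm_mul, PrimeSide_norm_cpow hn, Complex.norm_real, Real.norm_eq_abs,
          abs_of_nonneg (PrimeSide_coef n).1]
      have := (PrimeSide_coef n).2
      have h2 : 0 ≤ (n : ℝ) ^ (-2 : ℝ) := by positivity
      have h3 : 0 ≤ ‖V y‖ := norm_nonneg _
      have h4 : Λ n / Real.log n * (n : ℝ) ^ (-2 : ℝ) ≤ (n : ℝ) ^ (-2 : ℝ) := by nlinarith
      exact mul_le_mul_of_nonneg_right h4 h3
  have hsum : Summable fun n ↦ ∫ y, ‖F n y‖ := by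
    refine Summable.of_nonneg_of_le (fun n ↦ integral_nonneg fun _ ↦ norm_nonneg _) hFnorm ?_
    exact (Real.summable_nat_rpow.2 (by norm_num)).mul_right _
  have h1 := integral_tsum_of_summable_integral_norm hFint hsum
  have h2 : ∀ y : ℝ, ∑' n, F n y = lz (2 + y * I) * V y := by
    intro y
    simp only [hF]
    rw [tsum_mul_right]
    rfl
  simp only [h2] at h1
  rw [← h1]
  refine tsum_congr fun n ↦ ?_
  rcases Nat.eq_zero_or_pos n with rfl | hn
  · simp [hF0]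
  · have h3 := Wc_fourier hΔ hμ (3 / 2) hn
    have hn0 : (n : ℂ) ≠ 0 := by
      have : n ≠ 0 := by omega
      exact_mod_cast this
    have hnr : (0:ℝ) < n := by exact_mod_cast hn
    have h4 : ∀ y : ℝ, F n y = (((Λ n / Real.log n : ℝ) : ℂ) * (n : ℂ) ^ (-2 : ℂ)) *
        ((n : ℂ) ^ (-(y * I)) * V y) := by
      intro y
      simp only [hF]
      rw [show (-(2 + (y : ℂ) * I)) = (-2) + (-(y * I)) by ring, cpow_add _ _ hn0]
      ring
    simp only [h4]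
    rw [integral_const_mul, h3]
    have h5 : ((n : ℂ) ^ (-2 : ℂ)) = (((n : ℝ) ^ (-2 : ℝ) : ℝ) : ℂ) := by
      rw [Complex.ofReal_cpow hnr.le]
      push_cast
      rfl
    rw [h5]
    have h6 : (n : ℝ) ^ (-2 : ℝ) * (n : ℝ) ^ (3 / 2 : ℝ) = (Real.sqrt n)⁻¹ := by
      rw [← Real.rpow_add hnr, Real.sqrt_eq_rpow, ← Real.rpow_neg hnr.le]
      norm_num
    have h7 : (((Λ n / Real.log n / Real.sqrt n * kh Δ n : ℝ)) : ℂ) =
        ((Λ n / Real.log n : ℝ) : ℂ) * (((n : ℝ) ^ (-2 : ℝ) : ℝ) : ℂ) *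
          ((((n : ℝ) ^ (3 / 2 : ℝ) : ℝ) : ℂ) * (kh Δ n : ℂ)) := by
      rw [← Complex.ofReal_mul, ← Complex.ofReal_mul, ← Complex.ofReal_mul]
      congr 1
      calc Λ n / Real.log n / Real.sqrt n * kh Δ n = Λ n / Real.log n * (Real.sqrt n)⁻¹ * kh Δ n := by
            rw [div_eq_mul_inv (Λ n / Real.log n) (Real.sqrt n)]
        _ = _ := by rw [← h6]; ring
    rw [h7]
    ring

theorem prime_side : ∀ᶠ T : ℝ in atTop, ∀ (N : ℕ) (r : ℕ → ℂ), (N : ℝ) ≤ T ^ (1 / 16 : ℝ) →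
    ∀ Y0 Y1 : ℝ, Y0 ≤ T / 2 + 1 → 3 * T / 2 - 1 ≤ Y1 →
    ‖(∫ y in Y0..Y1, lz (2 + y * I) * Ws (Real.log (Real.log T)) (dens N r T) (2 + y * I)) -
      ∑' n : ℕ, ((Λ n / Real.log n / Real.sqrt n * kh (Real.log (Real.log T)) n : ℝ) : ℂ) *
          ∫ t : ℝ, (n : ℂ) ^ (-(t * I)) * (dens N r T t : ℂ)‖ ≤ nsq N r := by
  have hll : Tendsto (fun T : ℝ ↦ Real.log (Real.log T)) atTop atTop :=
    Real.tendsto_log_atTop.comp Real.tendsto_log_atTop
  filter_upwards [W_tail_int, PrimeSide_numeric, eventually_ge_atTop (20:ℝ),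
    hll.eventually_ge_atTop 1] with T htail hnum hT hΔ N r hN Y0 Y1 hY0 hY1
  have hY01 : Y0 ≤ Y1 := by linarith
  set Δ : ℝ := Real.log (Real.log T) with hΔdef
  set μ : ℝ → ℝ := dens N r T with hμdef
  have hΔ0 : 0 < Δ := by linarith
  have hμi : Integrable μ := dens_integrable N r (by linarith)
  have hμ0 : ∀ t, 0 ≤ μ t := dens_nonneg N r T
  rw [← PrimeSide_full hΔ0 hμi]
  set V : ℝ → ℂ := fun y ↦ Wc Δ μ (y - ((3 / 2 : ℝ) : ℂ) * I) with hV
  have hVi : Integrable V := Wc_fourier_integrable hΔ0 hμi (3 / 2)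
  have hlzc : Continuous fun y : ℝ ↦ lz (2 + y * I) := by
    rw [continuous_iff_continuousAt]
    intro y
    have h1 : ContinuousAt lz (2 + y * I) := (lz_differentiableAt (by simp)).continuousAt
    exact h1.comp (f := fun y : ℝ ↦ (2 : ℂ) + y * I) (by fun_prop)
  have hlzb : ∀ y : ℝ, ‖lz (2 + y * I)‖ ≤ 1 := fun y ↦ norm_lz_le (by simp)
  have hgi : Integrable fun y : ℝ ↦ lz (2 + y * I) * V y :=
    Integrable.bdd_mul (c := 1) hVi hlzc.aestronglyMeasurable (Eventually.of_forall hlzb)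
  have e1 : ∫ y in Y0..Y1, lz (2 + y * I) * Ws Δ μ (2 + y * I) =
      ∫ y in Ioc Y0 Y1, lz (2 + y * I) * V y := by
    rw [intervalIntegral.integral_of_le hY01]
    refine integral_congr_ae (Eventually.of_forall fun y ↦ ?_)
    simp only [PrimeSide_Ws, hV]
  have e2 := integral_add_compl (s := Ioc Y0 Y1) measurableSet_Ioc hgi
  rw [e1, ← e2, sub_add_cancel_left, norm_neg]
  calc ‖∫ y in (Ioc Y0 Y1)ᶜ, lz (2 + y * I) * V y‖
      ≤ ∫ y in (Ioc Y0 Y1)ᶜ, Real.exp (Real.pi * Δ ^ 2 * (3 / 2) ^ 2) * Wr Δ μ y := by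
        refine norm_integral_le_of_norm_le (((Wr_integrable hΔ0 hμi).const_mul _).integrableOn)
          (Eventually.of_forall fun y ↦ ?_)
        rw [norm_mul]
        have h1 := norm_Wc_le hΔ0 hμi hμ0 y (3 / 2)
        calc ‖lz (2 + y * I)‖ * ‖V y‖ ≤ 1 * ‖V y‖ := by gcongr; exact hlzb y
          _ = ‖V y‖ := one_mul _
          _ ≤ _ := h1
    _ = Real.exp (Real.pi * Δ ^ 2 * (3 / 2) ^ 2) * ∫ y in (Ioc Y0 Y1)ᶜ, Wr Δ μ y := by
        rw [integral_const_mul]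
    _ ≤ Real.exp (Real.pi * Δ ^ 2 * (3 / 2) ^ 2) * (Real.exp (-(Real.log T ^ 2 / 60)) * nsq N r) := by
        gcongr
        exact htail N r hN Y0 Y1 hY0 hY1
    _ = (Real.exp (Real.pi * Δ ^ 2 * (3 / 2) ^ 2) * Real.exp (-(Real.log T ^ 2 / 60))) * nsq N r := by
        ring
    _ ≤ 1 * nsq N r := by
        have := nsq_nonneg N r
        gcongr
    _ = nsq N r := one_mul _

end Pool.Agent.H62.ST
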