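import Pool.Agent.H62.ST.WBase
import Pool.Agent.H62.ST.DensInt

/-!
# Module WTail: `W` is tiny away from `T` (pointwise)

`Δ = log log T`, `μ = dens N r T`. `|y - T| ≥ T/2 - 1`: if `|t - T| ≥ T/5` then `μ t ≤ N nsq exp(-(log T)^2/25)` (`dens_le_gauss`), `∫ Δ exp(-πΔ^2 v^2) dv = 1`;
if `|t-T| < T/5` then `|y-t| ≥ T/5` and the kernel is `≤ Δ exp(-π Δ^2 T^2/25)`, `∫ μ ≤ T^2 nsq` (`int_dens_crude`). Sum `≤ exp(-(log T)^2/60) nsq` for large `T`.
-/

set_option autoImplicit false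

open Complex Filter Topology MeasureTheory Set Metric
open scoped ArithmeticFunction.vonMangoldt

namespace Pool.Agent.H62.ST

open Pool.Agent.H6 Pool.Agent.H6.Win

private lemma WTail_kernel_integrable {Δ : ℝ} (hΔ : 0 < Δ) (y : ℝ) :
    Integrable (fun t : ℝ ↦ Δ * Real.exp (-(Real.pi * Δ ^ 2 * (y - t) ^ 2))) := by
  have h : Integrable (fun v : ℝ ↦ Δ * Real.exp (-(Real.pi * Δ ^ 2) * v ^ 2)) :=
    (integrable_exp_neg_mul_sq (by positivity)).const_mul _
  have h2 := h.comp_sub_left y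
  refine h2.congr (Eventually.of_forall fun t ↦ ?_)
  simp only [neg_mul]

private lemma WTail_kernel_integral {Δ : ℝ} (hΔ : 0 < Δ) (y : ℝ) :
    ∫ t : ℝ, Δ * Real.exp (-(Real.pi * Δ ^ 2 * (y - t) ^ 2)) = 1 := by
  have h1 := integral_sub_left_eq_self
    (fun v : ℝ ↦ Δ * Real.exp (-(Real.pi * Δ ^ 2) * v ^ 2)) volume y
  have h2 : ∫ v : ℝ, Δ * Real.exp (-(Real.pi * Δ ^ 2) * v ^ 2) = 1 := by
    rw [integral_const_mul, integral_gaussian]
    have : Real.pi / (Real.pi * Δ ^ 2) = (1 / Δ) ^ 2 := by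
      field_simp
    rw [this, Real.sqrt_sq (by positivity)]
    field_simp
  rw [← h2, ← h1]
  refine integral_congr_ae (Eventually.of_forall fun t ↦ ?_)
  simp only [neg_mul]

private lemma WTail_num : ∀ᶠ T : ℝ in atTop, 10 ≤ T ∧ 1 ≤ Real.log (Real.log T) ∧
    T ^ (1 / 16 : ℝ) * Real.exp (-(Real.log T ^ 2 / 25)) +
      Real.log (Real.log T) * Real.exp (-(Real.pi * Real.log (Real.log T) ^ 2 * (T / 5) ^ 2)) * T ^ 2
      ≤ Real.exp (-(Real.log T ^ 2 / 60)) := by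
  have hlog := Real.tendsto_log_atTop
  have hloglog := hlog.comp hlog
  have h1 : ∀ᶠ T : ℝ in atTop, 1 ≤ Real.log (Real.log T) := hloglog.eventually_ge_atTop 1
  have h2 : ∀ᶠ T : ℝ in atTop, 100 ≤ Real.log T := hlog.eventually_ge_atTop 100
  have h3 : ∀ᶠ T : ℝ in atTop, (100 : ℝ) ≤ T := eventually_ge_atTop 100
  filter_upwards [h1, h2, h3] with T hΔ hL hT
  refine ⟨by linarith, hΔ, ?_⟩
  have hT0 : 0 < T := by linarith
  set L := Real.log T with hLdef
  set D := Real.log L with hDdef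
  have hLT : L ≤ T := (Real.log_le_sub_one_of_pos hT0).trans (by linarith)
  -- first term
  have ha : T ^ (1 / 16 : ℝ) * Real.exp (-(L ^ 2 / 25)) ≤
      (1 / 2) * Real.exp (-(L ^ 2 / 60)) := by
    rw [Real.rpow_def_of_pos hT0, ← hLdef, ← Real.exp_add]
    have h2 : Real.exp (L * (1 / 16) + -(L ^ 2 / 25)) ≤ Real.exp (-1 + -(L ^ 2 / 60)) := by
      apply Real.exp_le_exp.2
      nlinarith
    refine h2.trans ?_
    rw [Real.exp_add]
    have : Real.exp (-1) ≤ 1 / 2 := by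
      have := Real.exp_one_gt_d9
      rw [Real.exp_neg, ← one_div]
      apply one_div_le_one_div_of_le (by norm_num)
      linarith
    gcongr
  have hb : D * Real.exp (-(Real.pi * D ^ 2 * (T / 5) ^ 2)) * T ^ 2 ≤
      (1 / 2) * Real.exp (-(L ^ 2 / 60)) := by
    have hD : D ≤ Real.exp (D ^ 2 * (T / 5) ^ 2) := by
      have h1 : D ≤ D ^ 2 * (T / 5) ^ 2 := by
        have h4 : 1 ≤ (T / 5) ^ 2 := by nlinarith
        nlinarith [mul_nonneg (sq_nonneg D) (sub_nonneg.2 h4)]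
      exact h1.trans ((Real.add_one_le_exp _).trans' (by linarith))
    have hpi := Real.pi_gt_three
    have h5 : D * Real.exp (-(Real.pi * D ^ 2 * (T / 5) ^ 2)) ≤ Real.exp (-(2 * (T / 5) ^ 2)) := by
      calc D * Real.exp (-(Real.pi * D ^ 2 * (T / 5) ^ 2))
          ≤ Real.exp (D ^ 2 * (T / 5) ^ 2) * Real.exp (-(Real.pi * D ^ 2 * (T / 5) ^ 2)) := by
            gcongr
        _ = Real.exp (D ^ 2 * (T / 5) ^ 2 + -(Real.pi * D ^ 2 * (T / 5) ^ 2)) := by
            rw [Real.exp_add]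
        _ ≤ Real.exp (-(2 * (T / 5) ^ 2)) := by
            apply Real.exp_le_exp.2
            have h6 : 0 ≤ D ^ 2 * (T / 5) ^ 2 := by positivity
            have h7 : (T / 5) ^ 2 ≤ D ^ 2 * (T / 5) ^ 2 := by
              have : 1 ≤ D ^ 2 := by nlinarith
              nlinarith [sq_nonneg (T / 5)]
            nlinarith
    have h8 : 2 * T ^ 2 ≤ Real.exp (T ^ 2 * (1 / 20)) := by
      have h9 : T ^ 2 * (1 / 40) + 1 ≤ Real.exp (T ^ 2 * (1 / 40)) := Real.add_one_le_exp _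
      have h10 : Real.exp (T ^ 2 * (1 / 20)) = Real.exp (T ^ 2 * (1 / 40)) ^ 2 := by
        rw [← Real.exp_nat_mul]
        norm_num
        ring
      rw [h10]
      have hx : 10000 ≤ T ^ 2 := by nlinarith
      have h11 : (T ^ 2 * (1 / 40) + 1) ^ 2 ≤ Real.exp (T ^ 2 * (1 / 40)) ^ 2 :=
        pow_le_pow_left₀ (by positivity) h9 2
      nlinarith
    calc D * Real.exp (-(Real.pi * D ^ 2 * (T / 5) ^ 2)) * T ^ 2
        ≤ Real.exp (-(2 * (T / 5) ^ 2)) * T ^ 2 := by gcongr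
      _ ≤ Real.exp (-(2 * (T / 5) ^ 2)) * ((1 / 2) * Real.exp (T ^ 2 * (1 / 20))) := by
          gcongr
          linarith
      _ = (1 / 2) * Real.exp (-(2 * (T / 5) ^ 2) + T ^ 2 * (1 / 20)) := by
          rw [Real.exp_add]; ring
      _ ≤ (1 / 2) * Real.exp (-(L ^ 2 / 60)) := by
          gcongr
          nlinarith
  linarith

theorem W_tail : ∀ᶠ T : ℝ in atTop, ∀ (N : ℕ) (r : ℕ → ℂ), (N : ℝ) ≤ T ^ (1 / 16 : ℝ) →
    ∀ y : ℝ, T / 2 - 1 ≤ |y - T| →
    Wr (Real.log (Real.log T)) (dens N r T) y ≤ Real.exp (-(Real.log T ^ 2 / 60)) * nsq N r := by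
  filter_upwards [WTail_num, int_dens_crude] with T ⟨hT, hΔ, hnum⟩ hcr N r hN y hy
  have hT0 : 0 < T := by linarith
  have hΔ0 : 0 < Real.log (Real.log T) := by linarith
  have hns := nsq_nonneg N r
  set Δ := Real.log (Real.log T) with hΔdef
  set L := Real.log T with hLdef
  have hL0 : 0 < L := Real.log_pos (by linarith)
  have hint := dens_integrable N r (T := T) (by linarith)
  have hpt : ∀ t : ℝ, Δ * Real.exp (-(Real.pi * Δ ^ 2 * (y - t) ^ 2)) * dens N r T t ≤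
      (N * nsq N r * Real.exp (-(L ^ 2 / 25))) *
        (Δ * Real.exp (-(Real.pi * Δ ^ 2 * (y - t) ^ 2))) +
      (Δ * Real.exp (-(Real.pi * Δ ^ 2 * (T / 5) ^ 2))) * dens N r T t := by
    intro t
    have hd0 := dens_nonneg N r T t
    rcases le_or_gt (T / 5) |t - T| with h | h
    · have h1 : dens N r T t ≤ N * nsq N r * Real.exp (-(L ^ 2 / 25)) := by
        refine (dens_le_gauss N r T t).trans ?_
        apply mul_le_mul_of_nonneg_left _ (by positivity)
        apply Real.exp_le_exp.2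
        have h2 : (T / 5) ^ 2 ≤ (t - T) ^ 2 := by
          rw [← sq_abs (t - T)]
          exact pow_le_pow_left₀ (by positivity) h 2
        have h3 : ((t - T) / (T / L)) ^ 2 = (t - T) ^ 2 * (L ^ 2 / T ^ 2) := by
          field_simp
        have h4 : L ^ 2 / 25 = (T / 5) ^ 2 * (L ^ 2 / T ^ 2) := by
          field_simp
          norm_num
        rw [← hLdef, h3, h4]
        apply neg_le_neg
        gcongr
      have h5 : 0 ≤ (Δ * Real.exp (-(Real.pi * Δ ^ 2 * (T / 5) ^ 2))) * dens N r T t := by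
        positivity
      have h6 : 0 ≤ Δ * Real.exp (-(Real.pi * Δ ^ 2 * (y - t) ^ 2)) := by positivity
      nlinarith [mul_le_mul_of_nonneg_left h1 h6]
    · have h1 : T / 5 ≤ |y - t| := by
        have h2 : |y - T| ≤ |y - t| + |t - T| := by
          have := abs_add_le (y - t) (t - T)
          simpa using this
        linarith
      have h2 : (T / 5) ^ 2 ≤ (y - t) ^ 2 := by
        rw [← sq_abs (y - t)]
        exact pow_le_pow_left₀ (by positivity) h1 2
      have h3 : Δ * Real.exp (-(Real.pi * Δ ^ 2 * (y - t) ^ 2)) ≤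
          Δ * Real.exp (-(Real.pi * Δ ^ 2 * (T / 5) ^ 2)) := by
        gcongr
      have h5 : 0 ≤ (N * nsq N r * Real.exp (-(L ^ 2 / 25))) *
          (Δ * Real.exp (-(Real.pi * Δ ^ 2 * (y - t) ^ 2))) := by
        positivity
      nlinarith [mul_le_mul_of_nonneg_right h3 hd0]
  have hk := WTail_kernel_integrable hΔ0 y
  have hI : Wr Δ (dens N r T) y ≤ ∫ t : ℝ, ((N * nsq N r * Real.exp (-(L ^ 2 / 25))) *
        (Δ * Real.exp (-(Real.pi * Δ ^ 2 * (y - t) ^ 2))) +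
      (Δ * Real.exp (-(Real.pi * Δ ^ 2 * (T / 5) ^ 2))) * dens N r T t) := by
    unfold Wr
    refine integral_mono_of_nonneg (Eventually.of_forall fun t ↦ ?_)
      ((hk.const_mul _).add (hint.const_mul _)) (Eventually.of_forall hpt)
    have := dens_nonneg N r T t
    simp only [Pi.zero_apply]
    positivity
  have hI2 : ∫ t : ℝ, ((N * nsq N r * Real.exp (-(L ^ 2 / 25))) *
        (Δ * Real.exp (-(Real.pi * Δ ^ 2 * (y - t) ^ 2))) +
      (Δ * Real.exp (-(Real.pi * Δ ^ 2 * (T / 5) ^ 2))) * dens N r T t) =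
      (N * nsq N r * Real.exp (-(L ^ 2 / 25))) * 1 +
        (Δ * Real.exp (-(Real.pi * Δ ^ 2 * (T / 5) ^ 2))) * ∫ t, dens N r T t := by
    rw [integral_add (hk.const_mul _) (hint.const_mul _)]
    congr 1
    · rw [← WTail_kernel_integral hΔ0 y]
      exact integral_const_mul _ _
    · exact integral_const_mul _ _
  refine (hI.trans_eq hI2).trans ?_
  have h1 := hcr N r hN
  have h2 : (0 : ℝ) ≤ Δ * Real.exp (-(Real.pi * Δ ^ 2 * (T / 5) ^ 2)) := by positivity
  calc (N * nsq N r * Real.exp (-(L ^ 2 / 25))) * 1 +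
        (Δ * Real.exp (-(Real.pi * Δ ^ 2 * (T / 5) ^ 2))) * ∫ t, dens N r T t
      ≤ (T ^ (1 / 16 : ℝ) * nsq N r * Real.exp (-(L ^ 2 / 25))) * 1 +
        (Δ * Real.exp (-(Real.pi * Δ ^ 2 * (T / 5) ^ 2))) * (T ^ 2 * nsq N r) := by
        gcongr
    _ = (T ^ (1 / 16 : ℝ) * Real.exp (-(L ^ 2 / 25)) +
        Δ * Real.exp (-(Real.pi * Δ ^ 2 * (T / 5) ^ 2)) * T ^ 2) * nsq N r := by ring
    _ ≤ Real.exp (-(L ^ 2 / 60)) * nsq N r := by gcongr

end Pool.Agent.H62.ST
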