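import Pool.Agent.H62.ST.DensInt

/-!
# Module GaussDiag: Gaussian averages of `n^{-it} |R(t)|^2`

`H = T/log T`. `n^{-it} ‖dp N r t‖^2 = ∑_{a,b} r_a conj(r_b) (b/(n a))^{it}`, `∫ exp(iωt) exp(-((t-T)/H)^2) dt = H √π exp(iωT) exp(-H^2 ω^2/4)`
(`integral_cexp_quadratic`). `ω = log(b/(na)) = 0` iff `b = n a`: these terms give `H √π diag N r n`. Otherwise `|ω| ≥ 1/(2 max(b, n a)) ≥ T^{-5/16}/2`
(`n ≤ T^{1/4}`, `a, b ≤ T^{1/16}`), so each term is `≤ H √π |r_a||r_b| exp(-T)` for large `T`, and `(∑|r_a|)^2 ≤ N nsq`.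
`int_dens`: the case `n = 1` (`diag N r 1 = nsq N r`).
-/

set_option autoImplicit false

open Complex Filter Topology MeasureTheory Set Metric
open scoped ArithmeticFunction.vonMangoldt

namespace Pool.Agent.H62.ST

open Pool.Agent.H6 Pool.Agent.H6.Win

private lemma gd_exponent {H : ℝ} (hH : 0 < H) (T ω t : ℝ) :
    cexp (I * ω * t) * ((Real.exp (-((t - T) / H) ^ 2) : ℝ) : ℂ) =
      cexp ((-(1 / (H : ℂ) ^ 2)) * (t : ℂ) ^ 2 + (2 * T / (H : ℂ) ^ 2 + I * ω) * t +
        (-(T : ℂ) ^ 2 / (H : ℂ) ^ 2)) := by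
  rw [Complex.ofReal_exp, ← Complex.exp_add]
  congr 1
  have hH' : (H : ℂ) ≠ 0 := by exact_mod_cast hH.ne'
  push_cast
  field_simp
  ring

private lemma gd_re {H : ℝ} (hH : 0 < H) : (-(1 / (H : ℂ) ^ 2)).re < 0 := by
  have h : (-(1 / (H : ℂ) ^ 2)) = ((-(1 / H ^ 2) : ℝ) : ℂ) := by push_cast; rfl
  rw [h, Complex.ofReal_re]
  have : 0 < 1 / H ^ 2 := by positivity
  linarith

private lemma gd_integrable {H : ℝ} (hH : 0 < H) (T ω : ℝ) :
    Integrable fun t : ℝ ↦ cexp (I * ω * t) * ((Real.exp (-((t - T) / H) ^ 2) : ℝ) : ℂ) := by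
  simp_rw [gd_exponent hH T ω]
  exact integrable_cexp_quadratic' (gd_re hH) _ _

private lemma gd_int {H : ℝ} (hH : 0 < H) (T ω : ℝ) :
    ∫ t : ℝ, cexp (I * ω * t) * ((Real.exp (-((t - T) / H) ^ 2) : ℝ) : ℂ) =
      ((H * Real.sqrt Real.pi : ℝ) : ℂ) * cexp (I * ω * T) *
        ((Real.exp (-(H ^ 2 * ω ^ 2 / 4)) : ℝ) : ℂ) := by
  simp_rw [gd_exponent hH T ω]
  rw [integral_cexp_quadratic (gd_re hH)]
  have hH' : (H : ℂ) ≠ 0 := by exact_mod_cast hH.ne'
  have h1 : ((Real.pi : ℂ) / -(-(1 / (H : ℂ) ^ 2))) ^ (1 / 2 : ℂ) =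
      ((H * Real.sqrt Real.pi : ℝ) : ℂ) := by
    have h2 : ((Real.pi : ℂ) / -(-(1 / (H : ℂ) ^ 2))) = ((Real.pi * H ^ 2 : ℝ) : ℂ) := by
      push_cast
      field_simp
    rw [h2]
    have h3 : (1 / 2 : ℂ) = ((1 / 2 : ℝ) : ℂ) := by norm_num
    rw [h3, ← Complex.ofReal_cpow (by positivity), ← Real.sqrt_eq_rpow,
      Real.sqrt_mul Real.pi_pos.le, Real.sqrt_sq hH.le, mul_comm]
  rw [h1, mul_assoc, Complex.ofReal_exp, ← Complex.exp_add]
  congr 2
  push_cast
  have hI : (I : ℂ) ^ 2 = -1 := I_sq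
  field_simp
  linear_combination ((H : ℂ) ^ 4 * (ω : ℂ) ^ 2) * hI

private lemma gd_cpow {n : ℕ} (hn : 1 ≤ n) (t : ℝ) :
    (n : ℂ) ^ (-(t * I)) = cexp (I * ((-Real.log n : ℝ) : ℂ) * t) := by
  have hn' : (n : ℂ) ≠ 0 := by exact_mod_cast (by omega : n ≠ 0)
  rw [Complex.cpow_def_of_ne_zero hn', ← Complex.natCast_log]
  congr 1
  push_cast
  ring

private lemma gd_term {a b n : ℕ} (ha : 1 ≤ a) (hb : 1 ≤ b) (hn : 1 ≤ n) (t : ℝ) :
    (n : ℂ) ^ (-(t * I)) * ((a : ℂ) ^ (-(t * I)) * (starRingEnd ℂ) ((b : ℂ) ^ (-(t * I)))) =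
      cexp (I * ((Real.log b - Real.log (n * a) : ℝ) : ℂ) * t) := by
  rw [gd_cpow ha, gd_cpow hb, gd_cpow hn, ← Complex.exp_conj, ← Complex.exp_add,
    ← Complex.exp_add]
  congr 1
  have ha' : (a : ℝ) ≠ 0 := by exact_mod_cast (by omega : a ≠ 0)
  have hn' : (n : ℝ) ≠ 0 := by exact_mod_cast (by omega : n ≠ 0)
  rw [Real.log_mul hn' ha']
  simp only [map_mul, Complex.conj_ofReal, Complex.conj_I]
  push_cast
  ring

private lemma gd_expand (N n : ℕ) (r : ℕ → ℂ) (T t : ℝ) (hn : 1 ≤ n) :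
    (n : ℂ) ^ (-(t * I)) * (dens N r T t : ℂ) =
      ∑ a ∈ Finset.Icc 1 N, ∑ b ∈ Finset.Icc 1 N, r a * (starRingEnd ℂ) (r b) *
        (cexp (I * ((Real.log b - Real.log (n * a) : ℝ) : ℂ) * t) *
          ((Real.exp (-((t - T) / (T / Real.log T)) ^ 2) : ℝ) : ℂ)) := by
  unfold dens
  push_cast
  rw [← Complex.mul_conj', dp, map_sum, Finset.sum_mul_sum, ← mul_assoc, Finset.mul_sum,
    Finset.sum_mul]
  refine Finset.sum_congr rfl fun a ha ↦ ?_
  rw [Finset.mul_sum, Finset.sum_mul]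
  refine Finset.sum_congr rfl fun b hb ↦ ?_
  rw [Finset.mem_Icc] at ha hb
  have h := gd_term ha.1 hb.1 hn t
  push_cast at h
  rw [← h, map_mul]
  ring

private lemma gd_integral (N n : ℕ) (r : ℕ → ℂ) {T : ℝ} (hn : 1 ≤ n)
    (hH : 0 < T / Real.log T) :
    ∫ t : ℝ, (n : ℂ) ^ (-(t * I)) * (dens N r T t : ℂ) =
      ∑ a ∈ Finset.Icc 1 N, ∑ b ∈ Finset.Icc 1 N, r a * (starRingEnd ℂ) (r b) *
        (((T / Real.log T * Real.sqrt Real.pi : ℝ) : ℂ) *
          cexp (I * ((Real.log b - Real.log (n * a) : ℝ) : ℂ) * T) *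
          ((Real.exp (-((T / Real.log T) ^ 2 * (Real.log b - Real.log (n * a)) ^ 2 / 4)) : ℝ) :
            ℂ)) := by
  simp_rw [gd_expand N n r T _ hn]
  rw [integral_finsetSum]
  · refine Finset.sum_congr rfl fun a _ ↦ ?_
    rw [integral_finsetSum]
    · refine Finset.sum_congr rfl fun b _ ↦ ?_
      rw [integral_const_mul, gd_int hH]
    · intro b _
      exact (gd_integrable hH T _).const_mul _
  · intro a _
    refine integrable_finsetSum _ fun b _ ↦ ?_
    exact (gd_integrable hH T _).const_mul _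

private lemma gd_diag (N n : ℕ) (r : ℕ → ℂ) (hn : 1 ≤ n) :
    diag N r n = ∑ a ∈ Finset.Icc 1 N, ∑ b ∈ Finset.Icc 1 N, r a * (starRingEnd ℂ) (r b) *
      (if b = n * a then 1 else 0) := by
  unfold diag
  rw [Finset.sum_filter]
  refine Finset.sum_congr rfl fun a ha ↦ ?_
  rw [Finset.mem_Icc] at ha
  simp only [mul_ite, mul_one, mul_zero]
  rw [Finset.sum_ite_eq']
  have h1 : 1 ≤ n * a := Nat.mul_pos hn ha.1
  simp [Finset.mem_Icc, h1]

private lemma gd_log_gap {x y : ℕ} (hx : 1 ≤ x) (hxy : x < y) :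
    1 / (y : ℝ) ≤ Real.log y - Real.log x := by
  have hx' : (0 : ℝ) < x := by exact_mod_cast hx
  have hy' : (0 : ℝ) < y := by exact_mod_cast (by omega : 0 < y)
  have h1 := Real.add_one_le_exp (Real.log x - Real.log y)
  have h2 : Real.exp (Real.log x - Real.log y) = x / y := by
    rw [Real.exp_sub, Real.exp_log hx', Real.exp_log hy']
  rw [h2] at h1
  have h3 : (x : ℝ) / y ≤ 1 - 1 / y := by
    rw [div_le_iff₀ hy']
    field_simp
    have : (x : ℝ) + 1 ≤ y := by exact_mod_cast hxy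
    linarith
  linarith

private lemma gd_log_gap_sq {x y : ℕ} {M : ℝ} (hx : 1 ≤ x) (hy : 1 ≤ y) (hxy : x ≠ y)
    (hxM : (x : ℝ) ≤ M) (hyM : (y : ℝ) ≤ M) :
    1 / M ^ 2 ≤ (Real.log x - Real.log y) ^ 2 := by
  wlog h : x < y generalizing x y
  · have := this hy hx (Ne.symm hxy) hyM hxM (by omega)
    calc 1 / M ^ 2 ≤ (Real.log y - Real.log x) ^ 2 := this
      _ = _ := by ring
  have h1 := gd_log_gap hx h
  have hy' : (0 : ℝ) < y := by exact_mod_cast hy
  have h2 : 1 / M ≤ 1 / (y : ℝ) := one_div_le_one_div_of_le hy' hyM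
  have h3 : 0 < 1 / M := by
    have : 0 < M := by linarith
    positivity
  have h4 : 1 / M ≤ Real.log y - Real.log x := h2.trans h1
  calc 1 / M ^ 2 = (1 / M) ^ 2 := by rw [div_pow, one_pow]
    _ ≤ (Real.log y - Real.log x) ^ 2 := by gcongr
    _ = _ := by ring

theorem gauss_diag : ∀ᶠ T : ℝ in atTop, ∀ (N : ℕ) (r : ℕ → ℂ), (N : ℝ) ≤ T ^ (1 / 16 : ℝ) →
    ∀ n : ℕ, 1 ≤ n → (n : ℝ) ≤ T ^ (1 / 4 : ℝ) →
    ‖(∫ t : ℝ, (n : ℂ) ^ (-(t * I)) * (dens N r T t : ℂ)) -
      ((T / Real.log T * Real.sqrt Real.pi : ℝ) : ℂ) * diag N r n‖ ≤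
      Real.exp (-(T / 2)) * nsq N r := by
  have hlog : ∀ᶠ T : ℝ in atTop, Real.log T ≤ 1 / 2 * T ^ (1 / 8 : ℝ) := by
    have h := (isLittleO_log_rpow_atTop (r := 1 / 8) (by norm_num)).bound (c := 1 / 2)
      (by norm_num)
    filter_upwards [h, eventually_ge_atTop (1 : ℝ)] with T hT h1
    rw [Real.norm_of_nonneg (Real.log_nonneg h1),
      Real.norm_of_nonneg (Real.rpow_nonneg (by linarith) _)] at hT
    exact hT
  filter_upwards [hlog, eventually_ge_atTop (200 : ℝ)] with T hlT hT N r hN n hn hnT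
  have hT0 : 0 < T := by linarith
  have hT1 : 1 ≤ T := by linarith
  have hl1 : 1 ≤ Real.log T := by
    rw [Real.le_log_iff_exp_le hT0]
    have := Real.exp_one_lt_d9
    linarith
  have hH : 0 < T / Real.log T := by positivity
  have hHT : T / Real.log T ≤ T := div_le_self hT0.le hl1
  set H := T / Real.log T with hHdef
  rw [gd_integral N n r hn hH, gd_diag N n r hn, Finset.mul_sum, ← Finset.sum_sub_distrib]
  -- the bound for the brackets
  have hbr : ∀ a ∈ Finset.Icc 1 N, ∀ b ∈ Finset.Icc 1 N,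
      ‖((H * Real.sqrt Real.pi : ℝ) : ℂ) *
          cexp (I * ((Real.log b - Real.log (n * a) : ℝ) : ℂ) * T) *
          ((Real.exp (-(H ^ 2 * (Real.log b - Real.log (n * a)) ^ 2 / 4)) : ℝ) : ℂ) -
        ((H * Real.sqrt Real.pi : ℝ) : ℂ) * (if b = n * a then 1 else 0)‖ ≤
        2 * T * Real.exp (-T) := by
    intro a ha b hb
    rw [Finset.mem_Icc] at ha hb
    by_cases hba : b = n * a
    · subst hba
      push_cast
      simp only [sub_self, if_true]
      simp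
      positivity
    · rw [if_neg hba, mul_zero, sub_zero]
      have hM1 : (b : ℝ) ≤ T ^ (5 / 16 : ℝ) := by
        calc (b : ℝ) ≤ N := by exact_mod_cast hb.2
          _ ≤ T ^ (1 / 16 : ℝ) := hN
          _ ≤ _ := Real.rpow_le_rpow_of_exponent_le hT1 (by norm_num)
      have hM2 : ((n * a : ℕ) : ℝ) ≤ T ^ (5 / 16 : ℝ) := by
        push_cast
        calc (n : ℝ) * a ≤ T ^ (1 / 4 : ℝ) * T ^ (1 / 16 : ℝ) := by
              have : (a : ℝ) ≤ T ^ (1 / 16 : ℝ) := le_trans (by exact_mod_cast ha.2) hN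
              gcongr
          _ = _ := by rw [← Real.rpow_add hT0]; norm_num
      have hgap := gd_log_gap_sq hb.1 (Nat.mul_pos hn ha.1) hba hM1 hM2
      push_cast at hgap
      have hbig : T ≤ H ^ 2 * (Real.log b - Real.log (n * a)) ^ 2 / 4 := by
        have h1 : T ≤ H ^ 2 * (1 / (T ^ (5 / 16 : ℝ)) ^ 2) / 4 := by
          have h2 : (T ^ (5 / 16 : ℝ)) ^ 2 = T ^ (5 / 8 : ℝ) := by
            rw [← Real.rpow_natCast, ← Real.rpow_mul hT0.le]; norm_num
          rw [h2, hHdef, div_pow]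
          have h3 : Real.log T ^ 2 ≤ (1 / 2 * T ^ (1 / 8 : ℝ)) ^ 2 := by gcongr
          have h4 : (1 / 2 * T ^ (1 / 8 : ℝ)) ^ 2 = 1 / 4 * T ^ (1 / 4 : ℝ) := by
            rw [mul_pow, ← Real.rpow_natCast (T ^ (1 / 8 : ℝ)), ← Real.rpow_mul hT0.le]
            norm_num
          rw [h4] at h3
          have h5 : T ^ (1 / 4 : ℝ) * T ^ (5 / 8 : ℝ) ≤ T := by
            rw [← Real.rpow_add hT0]
            calc T ^ (1 / 4 + 5 / 8 : ℝ) ≤ T ^ (1 : ℝ) :=
                  Real.rpow_le_rpow_of_exponent_le hT1 (by norm_num)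
              _ = T := Real.rpow_one T
          have h6 : 0 < T ^ (5 / 8 : ℝ) := Real.rpow_pos_of_pos hT0 _
          have h7 : T ^ 2 / Real.log T ^ 2 * (1 / T ^ (5 / 8 : ℝ)) / 4 =
              T ^ 2 / (4 * (Real.log T ^ 2 * T ^ (5 / 8 : ℝ))) := by
            field_simp
          rw [h7, le_div_iff₀ (by positivity)]
          have h8 : 4 * (Real.log T ^ 2 * T ^ (5 / 8 : ℝ)) ≤ T := by
            calc 4 * (Real.log T ^ 2 * T ^ (5 / 8 : ℝ))
                ≤ 4 * ((1 / 4 * T ^ (1 / 4 : ℝ)) * T ^ (5 / 8 : ℝ)) := by gcongr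
              _ = T ^ (1 / 4 : ℝ) * T ^ (5 / 8 : ℝ) := by ring
              _ ≤ T := h5
          nlinarith
        refine h1.trans ?_
        gcongr
      rw [norm_mul, norm_mul, Complex.norm_real, Complex.norm_real,
        Real.norm_of_nonneg (by positivity), Real.norm_of_nonneg (Real.exp_pos _).le]
      have h8 : ‖cexp (I * ((Real.log b - Real.log (n * a) : ℝ) : ℂ) * T)‖ = 1 := by
        rw [Complex.norm_exp]
        have : (I * ((Real.log b - Real.log (n * a) : ℝ) : ℂ) * T).re = 0 := by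
          rw [mul_assoc, ← Complex.ofReal_mul, mul_comm, Complex.re_ofReal_mul]
          simp
        rw [this, Real.exp_zero]
      rw [h8, mul_one]
      have h9 : Real.sqrt Real.pi ≤ 2 := by
        rw [Real.sqrt_le_left (by norm_num)]
        linarith [Real.pi_lt_four]
      calc H * Real.sqrt Real.pi * Real.exp (-(H ^ 2 * (Real.log b - Real.log (n * a)) ^ 2 / 4))
          ≤ T * 2 * Real.exp (-T) := by
            gcongr
        _ = 2 * T * Real.exp (-T) := by ring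
  calc _ ≤ ∑ a ∈ Finset.Icc 1 N, ∑ b ∈ Finset.Icc 1 N, ‖r a‖ * ‖r b‖ * (2 * T * Real.exp (-T)) := by
        refine (norm_sum_le _ _).trans (Finset.sum_le_sum fun a ha ↦ ?_)
        rw [Finset.mul_sum, ← Finset.sum_sub_distrib]
        refine (norm_sum_le _ _).trans (Finset.sum_le_sum fun b hb ↦ ?_)
        have h9 := mul_le_mul_of_nonneg_left (hbr a ha b hb)
          (show 0 ≤ ‖r a * (starRingEnd ℂ) (r b)‖ by positivity)
        rw [← norm_mul, mul_sub] at h9
        rw [norm_mul, RCLike.norm_conj] at h9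
        refine le_trans (le_of_eq ?_) h9
        congr 1
        ring
    _ = (∑ a ∈ Finset.Icc 1 N, ‖r a‖) ^ 2 * (2 * T * Real.exp (-T)) := by
        rw [pow_two, Finset.sum_mul_sum, Finset.sum_mul]
        refine Finset.sum_congr rfl fun a _ ↦ ?_
        rw [Finset.sum_mul]
    _ ≤ (N * nsq N r) * (2 * T * Real.exp (-T)) := by
        have h := sq_sum_le_card_mul_sum_sq (s := Finset.Icc 1 N) (f := fun a ↦ ‖r a‖)
        rw [Nat.card_Icc, Nat.add_sub_cancel] at h
        exact mul_le_mul_of_nonneg_right h (by positivity)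
    _ ≤ Real.exp (-(T / 2)) * nsq N r := by
        have hns : 0 ≤ nsq N r := nsq_nonneg N r
        have h1 : (N : ℝ) ≤ T := hN.trans (by
          calc T ^ (1 / 16 : ℝ) ≤ T ^ (1 : ℝ) :=
                Real.rpow_le_rpow_of_exponent_le hT1 (by norm_num)
            _ = T := Real.rpow_one T)
        have h2 : 2 * T ^ 2 ≤ Real.exp (T / 2) := by
          have h3 := Real.pow_div_factorial_le_exp (T / 2) (by linarith) 3
          have h4 : ((Nat.factorial 3 : ℕ) : ℝ) = 6 := by norm_num [Nat.factorial]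
          rw [h4] at h3
          nlinarith [sq_nonneg T]
        have h5 : Real.exp (-T) = Real.exp (-(T / 2)) * Real.exp (-(T / 2)) := by
          rw [← Real.exp_add]; ring_nf
        have h6 : Real.exp (T / 2) * Real.exp (-(T / 2)) = 1 := by
          rw [← Real.exp_add]; simp
        calc (N * nsq N r) * (2 * T * Real.exp (-T))
            ≤ (T * nsq N r) * (2 * T * Real.exp (-T)) := by gcongr
          _ = (2 * T ^ 2) * Real.exp (-(T / 2)) * (Real.exp (-(T / 2)) * nsq N r) := by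
              rw [h5]; ring
          _ ≤ Real.exp (T / 2) * Real.exp (-(T / 2)) * (Real.exp (-(T / 2)) * nsq N r) := by
              gcongr
          _ = _ := by rw [h6, one_mul]

theorem int_dens : ∀ᶠ T : ℝ in atTop, ∀ (N : ℕ) (r : ℕ → ℂ), (N : ℝ) ≤ T ^ (1 / 16 : ℝ) →
    T / Real.log T * nsq N r ≤ ∫ t, dens N r T t ∧
      ∫ t, dens N r T t ≤ 2 * (T / Real.log T) * nsq N r := by
  filter_upwards [gauss_diag, eventually_ge_atTop (200 : ℝ)] with T hgd hT N r hN
  have hT0 : 0 < T := by linarith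
  have hT1 : 1 ≤ T := by linarith
  have hl1 : 1 ≤ Real.log T := by
    rw [Real.le_log_iff_exp_le hT0]
    have := Real.exp_one_lt_d9
    linarith
  have hlT : Real.log T ≤ T := (Real.log_le_sub_one_of_pos hT0).trans (by linarith)
  have hH1 : 1 ≤ T / Real.log T := by
    rw [le_div_iff₀ (by linarith), one_mul]
    exact hlT
  have h := hgd N r hN 1 le_rfl (by
    rw [Nat.cast_one]
    exact Real.one_le_rpow hT1 (by norm_num))
  have hd : diag N r 1 = ((nsq N r : ℝ) : ℂ) := by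
    rw [gd_diag N 1 r le_rfl, nsq]
    push_cast
    refine Finset.sum_congr rfl fun a ha ↦ ?_
    simp only [one_mul, mul_ite, mul_one, mul_zero]
    rw [Finset.sum_ite_eq' , if_pos ha, Complex.mul_conj']
  rw [hd] at h
  have hint : (∫ t : ℝ, ((1 : ℕ) : ℂ) ^ (-(t * I)) * (dens N r T t : ℂ)) =
      ((∫ t, dens N r T t : ℝ) : ℂ) := by
    rw [← integral_complex_ofReal]
    refine integral_congr_ae (Eventually.of_forall fun t ↦ ?_)
    simp
  rw [hint, ← Complex.ofReal_mul, ← Complex.ofReal_sub, Complex.norm_real, Real.norm_eq_abs,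
    abs_le] at h
  have hns : 0 ≤ nsq N r := nsq_nonneg N r
  set H := T / Real.log T with hHdef
  have he : Real.exp (-(T / 2)) ≤ 1 / 10 := by
    rw [Real.exp_neg, inv_eq_one_div]
    apply one_div_le_one_div_of_le (by norm_num)
    have := Real.add_one_le_exp (T / 2)
    linarith
  have hs1 : 1.7 ≤ Real.sqrt Real.pi := by
    apply Real.le_sqrt_of_sq_le
    have := Real.pi_gt_three
    norm_num
    linarith
  have hs2 : Real.sqrt Real.pi ≤ 1.9 := by
    rw [Real.sqrt_le_left (by norm_num)]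
    have := Real.pi_lt_d2
    norm_num
    linarith
  have hHn : nsq N r ≤ H * nsq N r := by nlinarith
  have hHn0 : 0 ≤ H * nsq N r := by positivity
  have h1 : Real.exp (-(T / 2)) * nsq N r ≤ 1 / 10 * (H * nsq N r) := by
    calc Real.exp (-(T / 2)) * nsq N r ≤ 1 / 10 * nsq N r := by gcongr
      _ ≤ _ := by gcongr
  have h2 : 1.7 * (H * nsq N r) ≤ Real.sqrt Real.pi * (H * nsq N r) := by gcongr
  have h3 : Real.sqrt Real.pi * (H * nsq N r) ≤ 1.9 * (H * nsq N r) := by gcongr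
  constructor
  · nlinarith [h.1]
  · nlinarith [h.2]

end Pool.Agent.H62.ST
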