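import Pool.Agent.H62.ST.WBase
import Pool.Agent.H62.ST.AwBase

/-!
# Module WBound: comparison with the local mass `A(y) = ∫ exp(-|y-t|) μ(t) dt`

* `Δ exp(-π Δ^2 v^2) ≤ 2 Δ exp(-|v|)` for `Δ ≥ 1` (`π v^2 ≥ |v| - 1/(4π)`).
* `Im Kc Δ (v - ia) = Δ exp(-π Δ^2 (v^2-a^2)) sin(2π Δ^2 v a)`, `|sin x| ≤ |x|`, and with `x = Δ|v| ≥ |v|`: `2π x exp(-π x^2 + x) ≤ 10`.
-/

set_option autoImplicit false

open Complex Filter Topology MeasureTheory Set Metric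
open scoped ArithmeticFunction.vonMangoldt

namespace Pool.Agent.H62.ST

open Pool.Agent.H6 Pool.Agent.H6.Win

variable {Δ : ℝ} {μ : ℝ → ℝ}

private lemma wBound_int (hμ : Integrable μ) (y : ℝ) :
    Integrable fun t ↦ Real.exp (-|y - t|) * μ t := by
  refine Integrable.mono hμ ?_ (Filter.Eventually.of_forall fun t ↦ ?_)
  · exact (by fun_prop : Continuous fun t : ℝ ↦ Real.exp (-|y - t|)).aestronglyMeasurable.mul hμ.1
  · rw [norm_mul]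
    have h : ‖Real.exp (-|y - t|)‖ ≤ 1 := by
      rw [Real.norm_eq_abs, abs_of_pos (Real.exp_pos _)]
      exact Real.exp_le_one_iff.mpr (by linarith [abs_nonneg (y - t)])
    calc ‖Real.exp (-|y - t|)‖ * ‖μ t‖ ≤ 1 * ‖μ t‖ := mul_le_mul_of_nonneg_right h (norm_nonneg _)
      _ = ‖μ t‖ := one_mul _

private lemma wBound_gauss (hΔ : 1 ≤ Δ) (v : ℝ) :
    Real.exp (-(Real.pi * Δ ^ 2 * v ^ 2)) ≤ 2 * Real.exp (-|v|) := by
  have hpi := Real.pi_gt_three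
  have hlog := Real.log_two_gt_d9
  have h1 : (2 : ℝ) = Real.exp (Real.log 2) := (Real.exp_log (by norm_num)).symm
  rw [h1, ← Real.exp_add]
  apply Real.exp_le_exp.mpr
  have h2 : v ^ 2 = |v| ^ 2 := (sq_abs v).symm
  rw [h2]
  have h3 : 0 ≤ |v| := abs_nonneg v
  have h4 : (1 : ℝ) ≤ Δ ^ 2 := one_le_pow₀ hΔ
  have h5 : 3 * |v| ^ 2 ≤ Real.pi * Δ ^ 2 * |v| ^ 2 := by
    refine mul_le_mul_of_nonneg_right ?_ (sq_nonneg _)
    nlinarith
  nlinarith [sq_nonneg (|v| - 1 / 3)]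

lemma Wr_le_Aw (hΔ : 1 ≤ Δ) (hμ : Integrable μ) (h0 : ∀ t, 0 ≤ μ t) (y : ℝ) :
    Wr Δ μ y ≤ 2 * Δ * Aw μ y := by
  unfold Wr Aw
  rw [← integral_const_mul]
  refine integral_mono_of_nonneg (Filter.Eventually.of_forall fun t ↦ ?_)
    ((wBound_int hμ y).const_mul _) (Filter.Eventually.of_forall fun t ↦ ?_)
  · exact mul_nonneg (mul_nonneg (by linarith) (Real.exp_pos _).le) (h0 t)
  · have h1 := wBound_gauss hΔ (y - t)
    have h2 : Δ * Real.exp (-(Real.pi * Δ ^ 2 * (y - t) ^ 2)) ≤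
        2 * Δ * Real.exp (-|y - t|) := by nlinarith
    calc Δ * Real.exp (-(Real.pi * Δ ^ 2 * (y - t) ^ 2)) * μ t ≤
        2 * Δ * Real.exp (-|y - t|) * μ t := mul_le_mul_of_nonneg_right h2 (h0 t)
      _ = _ := by ring

private lemma wBound_im (hΔ : 1 ≤ Δ) (v : ℝ) {a : ℝ} (ha : 0 ≤ a) :
    |(Kc Δ ((v : ℂ) - a * I)).im| ≤
      10 * a * Δ ^ 2 * Real.exp (Real.pi * Δ ^ 2 * a ^ 2) * Real.exp (-|v|) := by
  have hΔ0 : 0 < Δ := by linarith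
  have h1 : -(((Real.pi : ℝ) : ℂ) * (Δ : ℂ) ^ 2 * ((v : ℂ) - a * I) ^ 2) =
      ((-(Real.pi * Δ ^ 2 * v ^ 2) + Real.pi * Δ ^ 2 * a ^ 2 : ℝ) : ℂ) +
        ((2 * Real.pi * Δ ^ 2 * v * a : ℝ) : ℂ) * I := by
    push_cast
    linear_combination (-(Real.pi : ℂ) * (Δ : ℂ) ^ 2 * (a : ℂ) ^ 2) * I_sq
  have h2 : (Kc Δ ((v : ℂ) - a * I)).im = Δ * (Real.exp (-(Real.pi * Δ ^ 2 * v ^ 2) +
      Real.pi * Δ ^ 2 * a ^ 2) * Real.sin (2 * Real.pi * Δ ^ 2 * v * a)) := by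
    unfold Kc
    have h0 : ∀ r θ : ℝ, (cexp ((r : ℂ) + (θ : ℂ) * I)).im = Real.exp r * Real.sin θ := by
      intro r θ
      rw [Complex.exp_im]
      simp
    rw [h1, im_ofReal_mul, h0]
  rw [h2, abs_mul, abs_mul, abs_of_pos hΔ0, abs_of_pos (Real.exp_pos _)]
  have h3 : |Real.sin (2 * Real.pi * Δ ^ 2 * v * a)| ≤ 2 * Real.pi * Δ ^ 2 * |v| * a := by
    refine (Real.abs_sin_le_abs).trans (le_of_eq ?_)
    rw [abs_mul, abs_mul, abs_mul, abs_mul, abs_of_pos (by norm_num : (0 : ℝ) < 2),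
      abs_of_pos Real.pi_pos, abs_of_nonneg (sq_nonneg Δ), abs_of_nonneg ha]
  rw [Real.exp_add]
  set x : ℝ := Δ * |v| with hx
  have hv : 0 ≤ |v| := abs_nonneg v
  have hxv : |v| ≤ x := by rw [hx]; nlinarith
  have hx0 : 0 ≤ x := hv.trans hxv
  have h4 : 2 * Real.pi * x * Real.exp (-(Real.pi * x ^ 2)) ≤ 10 * Real.exp (-|v|) := by
    have h5 : Real.exp (-x) ≤ Real.exp (-|v|) := Real.exp_le_exp.mpr (by linarith)
    have h6 : 2 * Real.pi * x ≤ 10 * Real.exp (Real.pi * x ^ 2 - x) := by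
      have h7 := Real.add_one_le_exp (Real.pi * x ^ 2 - x)
      have h8 := Real.pi_gt_d2
      have h9 := Real.pi_lt_d2
      have h10 : 2 * Real.pi * x ≤ 10 * (Real.pi * x ^ 2 - x + 1) := by
        have h13 : 0 ≤ (Real.pi - 3.14) * x ^ 2 := mul_nonneg (by linarith) (sq_nonneg _)
        have h14 : 0 ≤ (3.15 - Real.pi) * x := mul_nonneg (by linarith) hx0
        nlinarith [sq_nonneg (31.4 * x - 8.15)]
      linarith
    have h11 : Real.exp (Real.pi * x ^ 2 - x) * Real.exp (-(Real.pi * x ^ 2)) = Real.exp (-x) := by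
      rw [← Real.exp_add]
      congr 1
      ring
    calc 2 * Real.pi * x * Real.exp (-(Real.pi * x ^ 2)) ≤
        10 * Real.exp (Real.pi * x ^ 2 - x) * Real.exp (-(Real.pi * x ^ 2)) :=
          mul_le_mul_of_nonneg_right h6 (Real.exp_pos _).le
      _ = 10 * Real.exp (-x) := by rw [mul_assoc, h11]
      _ ≤ _ := by linarith
  have h12 : Real.pi * Δ ^ 2 * v ^ 2 = Real.pi * x ^ 2 := by
    rw [hx, mul_pow, sq_abs]
    ring
  rw [h12]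
  calc Δ * (Real.exp (-(Real.pi * x ^ 2)) * Real.exp (Real.pi * Δ ^ 2 * a ^ 2) *
        |Real.sin (2 * Real.pi * Δ ^ 2 * v * a)|) ≤
      Δ * (Real.exp (-(Real.pi * x ^ 2)) * Real.exp (Real.pi * Δ ^ 2 * a ^ 2) *
        (2 * Real.pi * Δ ^ 2 * |v| * a)) := by gcongr
    _ = (2 * Real.pi * x * Real.exp (-(Real.pi * x ^ 2))) *
        (a * Δ ^ 2 * Real.exp (Real.pi * Δ ^ 2 * a ^ 2)) := by rw [hx]; ring
    _ ≤ (10 * Real.exp (-|v|)) * (a * Δ ^ 2 * Real.exp (Real.pi * Δ ^ 2 * a ^ 2)) :=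
        mul_le_mul_of_nonneg_right h4 (by positivity)
    _ = _ := by ring

lemma im_Wc_le (hΔ : 1 ≤ Δ) (hμ : Integrable μ) (h0 : ∀ t, 0 ≤ μ t) (y : ℝ) {a : ℝ} (ha : 0 ≤ a) :
    |(Wc Δ μ (y - a * I)).im| ≤ 10 * a * Δ ^ 2 * Real.exp (Real.pi * Δ ^ 2 * a ^ 2) * Aw μ y := by
  have hA : 0 ≤ Aw μ y := Aw_nonneg h0 y
  have hR : 0 ≤ 10 * a * Δ ^ 2 * Real.exp (Real.pi * Δ ^ 2 * a ^ 2) := by positivity
  by_cases hf : Integrable fun t : ℝ ↦ Kc Δ ((y : ℂ) - a * I - t) * (μ t : ℂ)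
  swap
  · unfold Wc
    rw [integral_undef hf]
    simpa using mul_nonneg hR hA
  have h1 : (Wc Δ μ (y - a * I)).im =
      ∫ t : ℝ, (Kc Δ ((y : ℂ) - a * I - t) * (μ t : ℂ)).im := by
    unfold Wc
    exact (integral_im hf).symm
  rw [h1, ← Real.norm_eq_abs]
  refine (norm_integral_le_integral_norm _).trans ?_
  unfold Aw
  rw [← integral_const_mul]
  refine integral_mono_of_nonneg (Filter.Eventually.of_forall fun t ↦ norm_nonneg _)
    ((wBound_int hμ y).const_mul _) (Filter.Eventually.of_forall fun t ↦ ?_)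
  have h2 : (y : ℂ) - a * I - t = ((y - t : ℝ) : ℂ) - a * I := by push_cast; ring
  have h3 := wBound_im hΔ (y - t) ha
  simp only [h2, im_mul_ofReal]
  rw [Real.norm_eq_abs, abs_mul, abs_of_nonneg (h0 t)]
  calc |(Kc Δ (((y - t : ℝ) : ℂ) - a * I)).im| * μ t ≤
      10 * a * Δ ^ 2 * Real.exp (Real.pi * Δ ^ 2 * a ^ 2) * Real.exp (-|y - t|) * μ t :=
        mul_le_mul_of_nonneg_right h3 (h0 t)
    _ = _ := by ring

end Pool.Agent.H62.ST
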