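import Pool.Agent.H62.ST.Dens
import Pool.Agent.H62.ST.WBound
import Pool.Agent.H62.ST.CountExp
import Pool.Agent.H62.ST.GaussDiag

/-!
# Module ZeroSide: the contribution of the zeros off the line

`Δ = log log T =: L2`, `μ = dens N r T ≤ ‖dp N r ·‖^2`, `Ws Δ μ (x + iγ) = Wc Δ μ (γ - i(x-1/2))`. `δ0 = C0 L2/√(log T)`.
(a) `Re u - 1/2 < δ0`: `|Im ∫_{1/2}^{Re u} Ws(x+iγ) dx| ≤ 10 δ0^2 Δ^2 exp(π Δ^2 δ0^2) Aw μ γ ≤ 20 δ0^2 Δ^2 Aw μ γ` (`im_Wc_le`), and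
`∑_u zord u Aw μ (Im u) = ∫ μ(t) ∑_u zord u exp(-|Im u - t|) dt ≤ C log T ∫ μ` (`count_exp`): total `≤ C' L2^4 ∫ μ`.
(b) `Re u - 1/2 ≥ δ0` (and `Re u < 1`): `|∫| ≤ (1/2) exp(π Δ^2/4) Wr(γ) ≤ Δ exp(πΔ^2/4) Aw μ γ` (`norm_Wc_le`, `Wr_le_Aw`), `Aw μ ≤ Aw ‖dp‖^2` (`Aw_mono`), `dens_weighted` with
`δ = δ0`: `≤ Δ exp(πΔ^2/4) T exp(-(C0/16) √(log T) L2) loss C T nsq ≤ T/log T nsq ≤ ∫ μ` (`int_dens`) for large `T` if `C0 = 16 (C + 2)`.
-/

set_option autoImplicit false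

open Complex Filter Topology MeasureTheory Set Metric
open scoped ArithmeticFunction.vonMangoldt

namespace Pool.Agent.H62.ST

open Pool.Agent.H6 Pool.Agent.H6.Win

private lemma ZeroSide_Ws (Δ : ℝ) (μ : ℝ → ℝ) (x y : ℝ) :
    Ws Δ μ (x + y * I) = Wc Δ μ (y - ((x - 1 / 2 : ℝ) : ℂ) * I) := by
  unfold Ws
  congr 1
  push_cast
  ring_nf
  rw [Complex.I_sq]
  ring

/-- the contribution of a zero close to the line -/
private lemma ZeroSide_near {Δ δ : ℝ} {μ : ℝ → ℝ} (hΔ : 1 ≤ Δ) (hμ : Integrable μ)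
    (h0 : ∀ t, 0 ≤ μ t) {x : ℝ} (y : ℝ) (hx : 1 / 2 ≤ x) (hxδ : x - 1 / 2 ≤ δ)
    (hδ : Real.pi * Δ ^ 2 * δ ^ 2 ≤ 1) :
    |(∫ v in (1 / 2 : ℝ)..x, Ws Δ μ (v + y * I)).im| ≤ 30 * δ ^ 2 * Δ ^ 2 * Aw μ y := by
  have hA : 0 ≤ Aw μ y := Aw_nonneg h0 y
  have hδ0 : 0 ≤ δ := by linarith
  have hcont : Continuous fun v : ℝ ↦ Ws Δ μ (v + y * I) :=
    (Ws_differentiable (by linarith) hμ).continuous.comp (by fun_prop)
  have him : (∫ v in (1 / 2 : ℝ)..x, Ws Δ μ (v + y * I)).im =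
      ∫ v in (1 / 2 : ℝ)..x, (Ws Δ μ (v + y * I)).im := by
    have h1 := Complex.imCLM.intervalIntegral_comp_comm (hcont.intervalIntegrable (1 / 2) x)
      (μ := volume)
    simpa using h1.symm
  rw [him]
  have h2 : ∀ v ∈ Set.uIoc (1 / 2 : ℝ) x,
      ‖(Ws Δ μ (v + y * I)).im‖ ≤ 30 * δ * Δ ^ 2 * Aw μ y := by
    intro v hv
    rw [Set.uIoc_of_le hx] at hv
    have ha0 : 0 ≤ v - 1 / 2 := by linarith [hv.1]
    have haδ : v - 1 / 2 ≤ δ := by linarith [hv.2]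
    rw [ZeroSide_Ws, Real.norm_eq_abs]
    refine (im_Wc_le hΔ hμ h0 y ha0).trans ?_
    have h3 : Real.exp (Real.pi * Δ ^ 2 * (v - 1 / 2) ^ 2) ≤ 3 := by
      calc Real.exp (Real.pi * Δ ^ 2 * (v - 1 / 2) ^ 2)
          ≤ Real.exp (Real.pi * Δ ^ 2 * δ ^ 2) := by gcongr
        _ ≤ Real.exp 1 := by gcongr
        _ ≤ 3 := by linarith [Real.exp_one_lt_d9]
    calc 10 * (v - 1 / 2) * Δ ^ 2 * Real.exp (Real.pi * Δ ^ 2 * (v - 1 / 2) ^ 2) * Aw μ y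
        ≤ 10 * δ * Δ ^ 2 * 3 * Aw μ y := by gcongr
      _ = _ := by ring
  have h4 := intervalIntegral.norm_integral_le_of_norm_le_const h2
  rw [Real.norm_eq_abs] at h4
  refine h4.trans ?_
  rw [abs_of_nonneg (by linarith)]
  have h5 : 0 ≤ 30 * δ * Δ ^ 2 * Aw μ y := by positivity
  calc 30 * δ * Δ ^ 2 * Aw μ y * (x - 1 / 2) ≤ 30 * δ * Δ ^ 2 * Aw μ y * δ := by gcongr
    _ = _ := by ring

/-- the contribution of a zero far from the line -/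
private lemma ZeroSide_far {Δ : ℝ} {μ : ℝ → ℝ} (hΔ : 1 ≤ Δ) (hμ : Integrable μ)
    (h0 : ∀ t, 0 ≤ μ t) {x : ℝ} (y : ℝ) (hx : 1 / 2 ≤ x) (hx1 : x ≤ 1) :
    |(∫ v in (1 / 2 : ℝ)..x, Ws Δ μ (v + y * I)).im| ≤
      Δ * Real.exp (Real.pi * Δ ^ 2 / 4) * Aw μ y := by
  have hA : 0 ≤ Aw μ y := Aw_nonneg h0 y
  refine (Complex.abs_im_le_norm _).trans ?_
  have h2 : ∀ v ∈ Set.uIoc (1 / 2 : ℝ) x,
      ‖Ws Δ μ (v + y * I)‖ ≤ Real.exp (Real.pi * Δ ^ 2 / 4) * (2 * Δ * Aw μ y) := by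
    intro v hv
    rw [Set.uIoc_of_le hx] at hv
    have ha0 : 0 ≤ v - 1 / 2 := by linarith [hv.1]
    have ha1 : v - 1 / 2 ≤ 1 / 2 := by linarith [hv.2]
    rw [ZeroSide_Ws]
    refine (norm_Wc_le (by linarith) hμ h0 y _).trans ?_
    have h3 := Wr_le_Aw hΔ hμ h0 y
    have h4 : Real.exp (Real.pi * Δ ^ 2 * (v - 1 / 2) ^ 2) ≤ Real.exp (Real.pi * Δ ^ 2 / 4) := by
      rw [Real.exp_le_exp]
      have h5 : (v - 1 / 2) ^ 2 ≤ 1 / 4 := by nlinarith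
      calc Real.pi * Δ ^ 2 * (v - 1 / 2) ^ 2 ≤ Real.pi * Δ ^ 2 * (1 / 4) := by gcongr
        _ = _ := by ring
    exact mul_le_mul h4 h3 (Wr_nonneg (by linarith) h0 y) (Real.exp_pos _).le
  have h4 := intervalIntegral.norm_integral_le_of_norm_le_const h2
  refine h4.trans ?_
  rw [abs_of_nonneg (by linarith)]
  calc Real.exp (Real.pi * Δ ^ 2 / 4) * (2 * Δ * Aw μ y) * (x - 1 / 2)
      ≤ Real.exp (Real.pi * Δ ^ 2 / 4) * (2 * Δ * Aw μ y) * (1 / 2) := by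
        gcongr
        linarith
    _ = _ := by ring

/-- the local masses at the zeros -/
private lemma ZeroSide_sum {μ : ℝ → ℝ} (hμ : Integrable μ) (h0 : ∀ t, 0 ≤ μ t) {K : ℝ}
    (F : Finset ℂ) (hK : ∀ t : ℝ, (∑ u ∈ F, (zord u : ℝ) * Real.exp (-|u.im - t|)) ≤ K) :
    ∑ u ∈ F, (zord u : ℝ) * Aw μ u.im ≤ K * ∫ t, μ t := by
  have hint : ∀ y : ℝ, Integrable fun t ↦ Real.exp (-|y - t|) * μ t := by
    intro y
    refine hμ.bdd_mul (c := 1) (by fun_prop) (Filter.Eventually.of_forall fun t ↦ ?_)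
    rw [Real.norm_of_nonneg (Real.exp_pos _).le, Real.exp_le_one_iff]
    linarith [abs_nonneg (y - t)]
  have h1 : ∑ u ∈ F, (zord u : ℝ) * Aw μ u.im =
      ∫ t, (∑ u ∈ F, (zord u : ℝ) * Real.exp (-|u.im - t|)) * μ t := by
    unfold Aw
    simp_rw [Finset.sum_mul, ← integral_const_mul]
    rw [integral_finsetSum]
    · simp_rw [mul_assoc]
    · intro u _
      simp_rw [mul_assoc]
      exact (hint u.im).const_mul _
  rw [h1, ← integral_const_mul]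
  refine integral_mono_of_nonneg (Filter.Eventually.of_forall fun t ↦ ?_) (hμ.const_mul K)
    (Filter.Eventually.of_forall fun t ↦ ?_)
  · exact mul_nonneg (Finset.sum_nonneg fun _ _ ↦ by positivity) (h0 t)
  · exact mul_le_mul_of_nonneg_right (hK t) (h0 t)

private lemma ZeroSide_loglog_sq (K : ℝ) (hK : 0 < K) : ∀ᶠ T : ℝ in atTop,
    Real.log (Real.log T) ^ 4 ≤ K * Real.log T := by
  have h2 : ∀ᶠ X : ℝ in atTop, Real.log X ^ 4 ≤ K * X := by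
    have := (Real.isLittleO_pow_log_id_atTop (n := 4)).bound (c := K) hK
    filter_upwards [this, eventually_ge_atTop 1] with X hX hX1
    rw [Real.norm_of_nonneg (by positivity), id, Real.norm_of_nonneg (by linarith)] at hX
    exact hX
  exact Real.tendsto_log_atTop.eventually h2

theorem zero_side : ∃ C : ℝ, 0 < C ∧ ∀ᶠ T : ℝ in atTop, ∀ (N : ℕ) (r : ℕ → ℂ) (F : Finset ℂ),
    (N : ℝ) ≤ T ^ (1 / 16 : ℝ) →
    (∀ u ∈ F, zetaPole u = 0 ∧ 1 / 2 < u.re ∧ T / 2 ≤ u.im ∧ u.im ≤ 3 * T / 2) →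
    |(∑ u ∈ F, (zord u : ℂ) * ∫ x in (1 / 2 : ℝ)..u.re,
      Ws (Real.log (Real.log T)) (dens N r T) (x + u.im * I)).im| ≤
      C * Real.log (Real.log T) ^ 4 * ∫ t, dens N r T t := by
  obtain ⟨Cd, hCd, hdw⟩ := dens_weighted
  obtain ⟨C1, hC1, hce⟩ := count_exp
  obtain ⟨C0, hC0⟩ : ∃ C0 : ℝ, C0 = 16 * (Cd + 2) := ⟨_, rfl⟩
  have hC0pos : 32 ≤ C0 := by rw [hC0]; linarith
  refine ⟨30 * C1 * C0 ^ 2 + 1, by positivity, ?_⟩
  have hLLt : Tendsto (fun T : ℝ ↦ Real.log (Real.log T)) atTop atTop :=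
    Real.tendsto_log_atTop.comp Real.tendsto_log_atTop
  have hpi := Real.pi_pos
  filter_upwards [hdw, hce, int_dens, loss_mul_rpow_le (C := Cd) (C0 := C0) 2 (by rw [hC0]; linarith),
    const_log_le_loss 1 2, hLLt.eventually_ge_atTop 1, eventually_ge_atTop 3,
    Real.tendsto_log_atTop.eventually_ge_atTop 1,
    ZeroSide_loglog_sq (1 / (Real.pi * C0 ^ 2)) (by positivity),
    ZeroSide_loglog_sq (1 / (4 * C0 ^ 2)) (by positivity)]
    with T hdw hce hid hlr hcl hLL hT3 hL1 hq1 hq2 N r F hN hF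
  obtain ⟨hI1, -⟩ := hid N r hN
  have hT0 : 0 < T := by linarith
  have hI0 : 0 ≤ ∫ t, dens N r T t := integral_nonneg (dens_nonneg N r T)
  have hμ := dens_integrable N r hT3
  have hμ0 := dens_nonneg N r T
  have hV0 := nsq_nonneg N r
  obtain ⟨X, hX⟩ : ∃ X : ℝ, X = Real.log T := ⟨_, rfl⟩
  obtain ⟨Δ, hΔ⟩ : ∃ Δ : ℝ, Δ = Real.log (Real.log T) := ⟨_, rfl⟩
  obtain ⟨s, hs⟩ : ∃ s : ℝ, s = Real.sqrt (Real.log T) := ⟨_, rfl⟩
  have hss : s * s = X := by rw [hs, hX]; exact Real.mul_self_sqrt (by linarith)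
  have hs1 : 1 ≤ s := by rw [hs]; exact Real.one_le_sqrt.mpr hL1
  have hΔ1 : 1 ≤ Δ := by rw [hΔ]; exact hLL
  have hΔp : 0 < Δ := by linarith
  have hX1 : 1 ≤ X := by rw [hX]; exact hL1
  have hΔX : Δ ≤ X := by
    rw [hΔ, hX]
    linarith [Real.log_le_sub_one_of_pos (show 0 < Real.log T by linarith)]
  rw [← hΔ, ← hX] at hq1 hq2
  obtain ⟨δ, hδ⟩ : ∃ δ : ℝ, δ = C0 * Δ / s := ⟨_, rfl⟩
  have hs0 : 0 < s := by linarith
  have hδ0 : 0 < δ := by rw [hδ]; positivity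
  have hδsq : δ ^ 2 * X = C0 ^ 2 * Δ ^ 2 := by
    rw [hδ, ← hss]; field_simp
  have hC0sq : 0 < C0 ^ 2 := by positivity
  -- `π Δ² δ² ≤ 1`
  have hA1 : Real.pi * Δ ^ 2 * δ ^ 2 ≤ 1 := by
    have h1 : Real.pi * Δ ^ 2 * δ ^ 2 * X = Real.pi * C0 ^ 2 * Δ ^ 4 := by
      calc Real.pi * Δ ^ 2 * δ ^ 2 * X = Real.pi * Δ ^ 2 * (δ ^ 2 * X) := by ring
        _ = _ := by rw [hδsq]; ring
    have h2 : Real.pi * C0 ^ 2 * Δ ^ 4 ≤ X := by
      have h3 : 1 / (Real.pi * C0 ^ 2) * X = X / (Real.pi * C0 ^ 2) := by ring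
      rw [h3, le_div_iff₀ (by positivity)] at hq1
      linarith
    nlinarith
  -- `δ ≤ 1/2`
  have hA2 : δ ≤ 1 / 2 := by
    have h2 : 4 * C0 ^ 2 * Δ ^ 4 ≤ X := by
      have h3 : 1 / (4 * C0 ^ 2) * X = X / (4 * C0 ^ 2) := by ring
      rw [h3, le_div_iff₀ (by positivity)] at hq2
      linarith
    have h4 : Δ ^ 2 ≤ Δ ^ 4 := pow_le_pow_right₀ hΔ1 (by norm_num)
    have h5 : 4 * δ ^ 2 ≤ 1 := by nlinarith
    nlinarith
  -- `2/log T ≤ δ`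
  have hA3 : 2 / Real.log T ≤ δ := by
    rw [← hX, div_le_iff₀ (by linarith), hδ, ← hss]
    have : C0 * Δ / s * (s * s) = C0 * Δ * s := by field_simp
    rw [this]
    nlinarith [mul_le_mul hΔ1 hs1 zero_le_one (by linarith)]
  classical
  -- reduction to the two kinds of zeros
  have hre : ∀ u ∈ F, u.re < 1 := by
    intro u hu
    by_contra h
    exact zetaPole_ne_zero_of_one_le (not_lt.1 h) (hF u hu).1
  rw [← hΔ]
  have hstep : |(∑ u ∈ F, (zord u : ℂ) * ∫ x in (1 / 2 : ℝ)..u.re,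
      Ws Δ (dens N r T) (x + u.im * I)).im| ≤
      ∑ u ∈ F, (zord u : ℝ) * |(∫ x in (1 / 2 : ℝ)..u.re,
        Ws Δ (dens N r T) (x + u.im * I)).im| := by
    rw [Complex.im_sum]
    refine (Finset.abs_sum_le_sum_abs _ _).trans (le_of_eq ?_)
    refine Finset.sum_congr rfl fun u _ ↦ ?_
    have hz : (zord u : ℂ) = ((zord u : ℝ) : ℂ) := by push_cast; rfl
    rw [hz, Complex.im_ofReal_mul, abs_mul, Nat.abs_cast]
  refine hstep.trans ?_
  rw [← Finset.sum_filter_add_sum_filter_not F (fun u ↦ u.re - 1 / 2 ≤ δ)]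
  -- zeros near the line
  have hnear : ∑ u ∈ F.filter (fun u ↦ u.re - 1 / 2 ≤ δ), (zord u : ℝ) *
      |(∫ x in (1 / 2 : ℝ)..u.re, Ws Δ (dens N r T) (x + u.im * I)).im| ≤
      30 * C1 * C0 ^ 2 * Δ ^ 4 * ∫ t, dens N r T t := by
    have h1 : ∑ u ∈ F.filter (fun u ↦ u.re - 1 / 2 ≤ δ), (zord u : ℝ) *
        |(∫ x in (1 / 2 : ℝ)..u.re, Ws Δ (dens N r T) (x + u.im * I)).im| ≤
        ∑ u ∈ F.filter (fun u ↦ u.re - 1 / 2 ≤ δ), (zord u : ℝ) *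
          (30 * δ ^ 2 * Δ ^ 2 * Aw (dens N r T) u.im) := by
      refine Finset.sum_le_sum fun u hu ↦ ?_
      rw [Finset.mem_filter] at hu
      exact mul_le_mul_of_nonneg_left
        (ZeroSide_near hΔ1 hμ hμ0 u.im (hF u hu.1).2.1.le hu.2 hA1) (Nat.cast_nonneg _)
    have h2 : ∑ u ∈ F.filter (fun u ↦ u.re - 1 / 2 ≤ δ), (zord u : ℝ) *
          (30 * δ ^ 2 * Δ ^ 2 * Aw (dens N r T) u.im) =
        30 * δ ^ 2 * Δ ^ 2 * ∑ u ∈ F.filter (fun u ↦ u.re - 1 / 2 ≤ δ), (zord u : ℝ) *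
          Aw (dens N r T) u.im := by
      rw [Finset.mul_sum]
      exact Finset.sum_congr rfl fun u _ ↦ by ring
    have h3 := ZeroSide_sum hμ hμ0 (F.filter (fun u ↦ u.re - 1 / 2 ≤ δ))
      (hce (F.filter (fun u ↦ u.re - 1 / 2 ≤ δ)) (by
        intro u hu
        rw [Finset.mem_filter] at hu
        obtain ⟨ha, hb, hc, hd⟩ := hF u hu.1
        exact ⟨hb.le, by linarith, by linarith, ha⟩))
    rw [← hX] at h3
    refine h1.trans ?_
    rw [h2]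
    calc 30 * δ ^ 2 * Δ ^ 2 * _ ≤ 30 * δ ^ 2 * Δ ^ 2 * (C1 * X * ∫ t, dens N r T t) := by
          gcongr
      _ = 30 * C1 * Δ ^ 2 * (δ ^ 2 * X) * ∫ t, dens N r T t := by ring
      _ = _ := by rw [hδsq]; ring
  -- zeros far from the line
  have hfar : ∑ u ∈ F.filter (fun u ↦ ¬ (u.re - 1 / 2 ≤ δ)), (zord u : ℝ) *
      |(∫ x in (1 / 2 : ℝ)..u.re, Ws Δ (dens N r T) (x + u.im * I)).im| ≤
      ∫ t, dens N r T t := by
    have h1 : ∑ u ∈ F.filter (fun u ↦ ¬ (u.re - 1 / 2 ≤ δ)), (zord u : ℝ) *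
        |(∫ x in (1 / 2 : ℝ)..u.re, Ws Δ (dens N r T) (x + u.im * I)).im| ≤
        ∑ u ∈ F.filter (fun u ↦ ¬ (u.re - 1 / 2 ≤ δ)), (zord u : ℝ) *
          (Δ * Real.exp (Real.pi * Δ ^ 2 / 4) * Aw (fun t ↦ ‖dp N r t‖ ^ 2) u.im) := by
      refine Finset.sum_le_sum fun u hu ↦ ?_
      rw [Finset.mem_filter] at hu
      refine mul_le_mul_of_nonneg_left ?_ (Nat.cast_nonneg _)
      refine (ZeroSide_far hΔ1 hμ hμ0 u.im (hF u hu.1).2.1.le (hre u hu.1).le).trans ?_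
      refine mul_le_mul_of_nonneg_left ?_ (by positivity)
      refine Aw_mono hμ0 (dens_le N r T) u.im ?_ hμ.aestronglyMeasurable
      refine Aw_integrand (B := N * nsq N r) ((continuous_dp N r).norm.pow 2) (fun t ↦ ?_) _
      rw [abs_of_nonneg (sq_nonneg _)]
      exact norm_dp_sq_le N r t
    have h2 : ∑ u ∈ F.filter (fun u ↦ ¬ (u.re - 1 / 2 ≤ δ)), (zord u : ℝ) *
          (Δ * Real.exp (Real.pi * Δ ^ 2 / 4) * Aw (fun t ↦ ‖dp N r t‖ ^ 2) u.im) =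
        Δ * Real.exp (Real.pi * Δ ^ 2 / 4) *
          ∑ u ∈ F.filter (fun u ↦ ¬ (u.re - 1 / 2 ≤ δ)), (zord u : ℝ) *
            Aw (fun t ↦ ‖dp N r t‖ ^ 2) u.im := by
      rw [Finset.mul_sum]
      exact Finset.sum_congr rfl fun u _ ↦ by ring
    have h3 := hdw N r δ (F.filter (fun u ↦ ¬ (u.re - 1 / 2 ≤ δ))) hN hA3 hA2 (by
      intro u hu
      rw [Finset.mem_filter] at hu
      obtain ⟨ha, hb, hc, hd⟩ := hF u hu.1
      exact ⟨ha, by linarith [hu.2], by linarith, by linarith⟩)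
    have h4 : T ^ (1 - δ / 16) * loss Cd T ≤ T * loss (-2) T := by
      have h5 : δ / 16 = C0 * Real.log (Real.log T) / Real.sqrt (Real.log T) / 16 := by
        rw [hδ, hΔ, hs]
      rw [sub_eq_add_neg, Real.rpow_add hT0, Real.rpow_one, h5, mul_assoc]
      exact mul_le_mul_of_nonneg_left hlr hT0.le
    have h6 : Δ * Real.exp (Real.pi * Δ ^ 2 / 4) * X ≤ loss 2 T := by
      have h7 : Δ * X ≤ loss 1 T := by
        rw [one_mul, Real.rpow_two, ← hX] at hcl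
        nlinarith
      have h8 : Real.exp (Real.pi * Δ ^ 2 / 4) ≤ loss 1 T := by
        unfold loss
        rw [Real.exp_le_exp, one_mul, ← hΔ, ← hs]
        -- `π Δ / 4 ≤ s`
        have h9 : Real.pi * Δ / 4 ≤ s := by
          have h10 : Δ ^ 2 ≤ X := by
            have h11 : Δ ^ 2 ≤ Δ ^ 4 := pow_le_pow_right₀ hΔ1 (by norm_num)
            have h12 : 4 * C0 ^ 2 * Δ ^ 4 ≤ X := by
              have h3 : 1 / (4 * C0 ^ 2) * X = X / (4 * C0 ^ 2) := by ring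
              rw [h3, le_div_iff₀ (by positivity)] at hq2
              linarith
            have h13 : (1 : ℝ) ≤ 4 * C0 ^ 2 := by nlinarith
            have h14 : 0 ≤ Δ ^ 4 := by positivity
            nlinarith
          have h15 : Δ ≤ s := by nlinarith
          have h16 := Real.pi_le_four
          nlinarith
        nlinarith
      have h9 := loss_add 1 1 T
      have h10 := loss_pos 1 T
      calc Δ * Real.exp (Real.pi * Δ ^ 2 / 4) * X = (Δ * X) * Real.exp (Real.pi * Δ ^ 2 / 4) := by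
            ring
        _ ≤ loss 1 T * loss 1 T := mul_le_mul h7 h8 (Real.exp_pos _).le h10.le
        _ = loss 2 T := by rw [h9]; norm_num
    have h7 : Δ * Real.exp (Real.pi * Δ ^ 2 / 4) * loss (-2) T ≤ 1 / X := by
      rw [le_div_iff₀ (by linarith)]
      have h8 := loss_pos (-2) T
      have h9 : loss 2 T * loss (-2) T = 1 := by
        rw [loss_add]
        unfold loss
        norm_num
      calc Δ * Real.exp (Real.pi * Δ ^ 2 / 4) * loss (-2) T * X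
          = (Δ * Real.exp (Real.pi * Δ ^ 2 / 4) * X) * loss (-2) T := by ring
        _ ≤ loss 2 T * loss (-2) T := by gcongr
        _ = 1 := h9
    refine h1.trans ?_
    rw [h2]
    calc Δ * Real.exp (Real.pi * Δ ^ 2 / 4) * _
        ≤ Δ * Real.exp (Real.pi * Δ ^ 2 / 4) * (T ^ (1 - δ / 16) * loss Cd T * nsq N r) := by
          gcongr
      _ ≤ Δ * Real.exp (Real.pi * Δ ^ 2 / 4) * (T * loss (-2) T * nsq N r) := by gcongr
      _ = (Δ * Real.exp (Real.pi * Δ ^ 2 / 4) * loss (-2) T) * (T * nsq N r) := by ring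
      _ ≤ 1 / X * (T * nsq N r) := by gcongr
      _ = T / Real.log T * nsq N r := by rw [← hX]; ring
      _ ≤ _ := hI1
  have hfin : (1 : ℝ) ≤ Δ ^ 4 := one_le_pow₀ hΔ1
  calc _ ≤ 30 * C1 * C0 ^ 2 * Δ ^ 4 * (∫ t, dens N r T t) + ∫ t, dens N r T t :=
        add_le_add hnear hfar
    _ ≤ _ := by nlinarith

end Pool.Agent.H62.ST
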