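import Pool.Agent.H62.ST.ContourId
import Pool.Agent.H62.ST.Edge
import Pool.Agent.H62.ST.Arg
import Pool.Agent.H62.ST.PrimeSide
import Pool.Agent.H62.ST.ZeroSide
import Pool.Agent.H62.ST.WTail
import Pool.Agent.H62.ST.NonOrdAe

/-!
# Module Final: the localised omega theorem
-/

set_option autoImplicit false

open Complex Filter Topology MeasureTheory Set Metric
open scoped ArithmeticFunction.vonMangoldt

namespace Pool.Agent.H62.ST

open Pool.Agent.H6 Pool.Agent.H6.Win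

private lemma final_loglog_tendsto : Tendsto (fun T : ℝ ↦ Real.log (Real.log T)) atTop atTop :=
  Real.tendsto_log_atTop.comp Real.tendsto_log_atTop

private lemma final_numeric1 {C : ℝ} (hC : 0 ≤ C) : ∀ᶠ T : ℝ in atTop,
    Real.exp (Real.pi * Real.log (Real.log T) ^ 2 * (3 / 2) ^ 2) *
      Real.exp (-(Real.log T ^ 2 / 60)) * (C * Real.log T) ≤ 1 := by
  have h1 : ∀ᶠ x : ℝ in atTop, Real.pi * Real.log x ^ 2 * (3 / 2) ^ 2 ≤ x ^ 2 / 120 := by
    have h := (Real.isLittleO_log_id_atTop).bound (show (0:ℝ) < 1 / 50 by norm_num)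
    filter_upwards [h, eventually_ge_atTop (1:ℝ)] with x hx hx1
    simp only [id, Real.norm_eq_abs] at hx
    have hx0 : 0 ≤ Real.log x := Real.log_nonneg hx1
    rw [abs_of_nonneg hx0, abs_of_nonneg (by linarith : (0:ℝ) ≤ x)] at hx
    have hpi : Real.pi ≤ 4 := Real.pi_le_four
    have h2 : Real.log x ^ 2 ≤ (1 / 50 * x) ^ 2 := by gcongr
    have hpi0 := Real.pi_pos
    calc Real.pi * Real.log x ^ 2 * (3 / 2) ^ 2 ≤ 4 * (1 / 50 * x) ^ 2 * (3 / 2) ^ 2 := by gcongr
      _ ≤ x ^ 2 / 120 := by nlinarith [sq_nonneg x]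
  have h2 : ∀ᶠ x : ℝ in atTop, |C| * x ≤ Real.exp (x ^ 2 / 120) := by
    have h := Real.tendsto_exp_div_pow_atTop 1
    filter_upwards [eventually_ge_atTop (120 : ℝ), h.eventually (eventually_ge_atTop |C|)] with x hx hx2
    have hx0 : 0 < x := by linarith
    have h3 : |C| * x ≤ Real.exp x := by
      rw [le_div_iff₀ (by positivity)] at hx2
      simpa using hx2
    refine h3.trans (Real.exp_le_exp.2 ?_)
    nlinarith
  filter_upwards [Real.tendsto_log_atTop.eventually h1, Real.tendsto_log_atTop.eventually h2,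
    eventually_ge_atTop (1:ℝ)] with T a1 a2 hT
  have hL : 0 ≤ Real.log T := Real.log_nonneg hT
  have a3 : C * Real.log T ≤ Real.exp (Real.log T ^ 2 / 120) :=
    (mul_le_mul_of_nonneg_right (le_abs_self C) hL).trans a2
  calc Real.exp (Real.pi * Real.log (Real.log T) ^ 2 * (3 / 2) ^ 2) *
      Real.exp (-(Real.log T ^ 2 / 60)) * (C * Real.log T)
      ≤ Real.exp (Real.log T ^ 2 / 120) * Real.exp (-(Real.log T ^ 2 / 60)) *
        Real.exp (Real.log T ^ 2 / 120) := by gcongr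
    _ = 1 := by
      rw [← Real.exp_add, ← Real.exp_add, ← Real.exp_zero]
      congr 1
      ring

private lemma final_numeric2 {c : ℝ} (hc : 0 < c) (K : ℝ) : ∀ᶠ T : ℝ in atTop,
    3 + K * Real.log (Real.log T) ^ 4 < c * Real.sqrt (Real.log T / Real.log (Real.log T)) := by
  have h1 : ∀ᶠ x : ℝ in atTop, 3 + K * x ^ 4 < c * Real.sqrt (Real.exp x / x) := by
    have h := Real.tendsto_exp_div_pow_atTop 9
    have h' := h.eventually (eventually_gt_atTop (((3 + |K|) / c) ^ 2))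
    filter_upwards [h', eventually_ge_atTop (1:ℝ)] with x hx hx1
    have hx0 : 0 < x := by linarith
    have hx9 : (0:ℝ) < x ^ 9 := by positivity
    rw [lt_div_iff₀ hx9] at hx
    have h3 : (((3 + |K|) / c) * x ^ 4) ^ 2 < Real.exp x / x := by
      rw [lt_div_iff₀ hx0]
      calc (((3 + |K|) / c) * x ^ 4) ^ 2 * x = ((3 + |K|) / c) ^ 2 * x ^ 9 := by ring
        _ < _ := hx
    have h4 : ((3 + |K|) / c) * x ^ 4 < Real.sqrt (Real.exp x / x) := by
      apply Real.lt_sqrt_of_sq_lt h3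
    have h5 : 3 + K * x ^ 4 ≤ (3 + |K|) * x ^ 4 := by
      have : 1 ≤ x ^ 4 := one_le_pow₀ hx1
      have hK := le_abs_self K
      nlinarith
    calc 3 + K * x ^ 4 ≤ (3 + |K|) * x ^ 4 := h5
      _ = c * (((3 + |K|) / c) * x ^ 4) := by field_simp
      _ < _ := by gcongr
  filter_upwards [final_loglog_tendsto.eventually h1, Real.tendsto_log_atTop.eventually_gt_atTop 0]
    with T a1 a2
  rwa [Real.exp_log a2] at a1

private lemma final_Ws (Δ : ℝ) (μ : ℝ → ℝ) (x y : ℝ) :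
    Ws Δ μ (x + y * I) = Wc Δ μ (y - ((x - 1 / 2 : ℝ) : ℂ) * I) := by
  unfold Ws
  congr 1
  push_cast
  linear_combination (-(y : ℂ)) * I_mul_I

theorem omega_local : ∃ c : ℝ, 0 < c ∧ ∀ᶠ T : ℝ in atTop, ∀ ε : ℝ, (ε = 1 ∨ ε = -1) →
    ∃ y θ : ℝ, y ∈ Icc (T / 2) (3 * T / 2) ∧ NonOrd y ∧ IsArg y θ ∧
      c * Real.sqrt (Real.log T / Real.log (Real.log T)) ≤ ε * θ := by
  obtain ⟨c1, hc1, hmain⟩ := main_term
  obtain ⟨C2, hC2, hzero⟩ := zero_side
  obtain ⟨C3, hC3, hedge⟩ := edge_bound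
  refine ⟨c1 / 2, by positivity, ?_⟩
  filter_upwards [hmain, hzero, hedge, prime_side, W_tail, int_dens, final_numeric1 hC3.le,
    final_numeric2 (show 0 < c1 / 2 by positivity) (2 * Real.pi * C2), eventually_ge_atTop (20:ℝ),
    final_loglog_tendsto.eventually_ge_atTop 1,
    Real.tendsto_log_atTop.eventually_ge_atTop 1] with T hmain hzero hedge hprime htail hint
    hnum1 hnum2 hT hΔ hL ε hε
  by_contra hcon
  push Not at hcon
  obtain ⟨N, r, hN, hnsq, hM⟩ := hmain ε hε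
  set Δ : ℝ := Real.log (Real.log T) with hΔdef
  set μ : ℝ → ℝ := dens N r T with hμdef
  set s0 : ℝ := Real.sqrt (Real.log T / Δ) with hs0
  have hΔ0 : 0 < Δ := by linarith
  have hs00 : 0 ≤ s0 := Real.sqrt_nonneg _
  have hμi : Integrable μ := dens_integrable N r (by linarith)
  have hμ0 : ∀ t, 0 ≤ μ t := dens_nonneg N r T
  have hε1 : |ε| = 1 := by rcases hε with rfl | rfl <;> simp
  obtain ⟨hint1, -⟩ := hint N r hN
  have hLT : Real.log T ≤ T := (Real.log_le_sub_one_of_pos (by linarith)).trans (by linarith)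
  have hnsq1 : nsq N r ≤ ∫ t, μ t := by
    refine le_trans ?_ hint1
    have : 1 ≤ T / Real.log T := by rwa [one_le_div (by linarith)]
    nlinarith
  have hint0 : 0 < ∫ t, μ t := lt_of_lt_of_le hnsq hnsq1
  obtain ⟨S, L, hE⟩ := exists_ell hT
  obtain ⟨Y0, hY0, hY0S⟩ := exists_good S (show T / 2 < T / 2 + 1 by linarith)
  obtain ⟨Y1, hY1, hY1S⟩ := exists_good S (show 3 * T / 2 - 1 < 3 * T / 2 by linarith)
  have hY01 : Y0 < Y1 := by have := hY0.2; have := hY1.1; linarith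
  set W : ℂ → ℂ := Ws Δ μ with hW
  have hWd : Differentiable ℂ W := Ws_differentiable hΔ0 hμi
  have hW12 : ∀ y : ℝ, W (1 / 2 + y * I) = (Wr Δ μ y : ℂ) := by
    intro y
    have h := final_Ws Δ μ (1 / 2) y
    push_cast at h
    rw [hW, h, ← Wc_ofReal hΔ0]
    congr 1
    ring
  have hid := contour_id hT hE hWd hY0.1 hY01 hY1.2 (fun u hu ↦ ⟨hY0S u hu, hY1S u hu⟩)
  set E0 : ℂ := ∫ x in (1 / 2 : ℝ)..2, ell S L (x + Y0 * I) * W (x + Y0 * I) with hE0
  set E1 : ℂ := ∫ x in (1 / 2 : ℝ)..2, ell S L (x + Y1 * I) * W (x + Y1 * I) with hE1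
  -- the edges
  have hedge' : ∀ Y ∈ Icc (T / 2) (3 * T / 2), (∀ u ∈ S, u.im ≠ Y) → T / 2 - 1 ≤ |Y - T| →
      ‖∫ x in (1 / 2 : ℝ)..2, ell S L (x + Y * I) * W (x + Y * I)‖ ≤ nsq N r := by
    intro Y hY hYS hYT
    have h1 := hedge S L hE Y hY hYS
    have h2 := htail N r hN Y hYT
    set B : ℝ := Real.exp (Real.pi * Δ ^ 2 * (3 / 2) ^ 2) *
      (Real.exp (-(Real.log T ^ 2 / 60)) * nsq N r) with hB
    have hB0 : 0 ≤ B := by positivity
    have h3 : ∀ x ∈ Icc (1 / 2 : ℝ) 2, ‖W (x + Y * I)‖ ≤ B := by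
      intro x hx
      rw [hW, final_Ws]
      refine (norm_Wc_le hΔ0 hμi hμ0 Y (x - 1 / 2)).trans ?_
      have hx1 : 0 ≤ x - 1 / 2 := by linarith [hx.1]
      have hx2 : x - 1 / 2 ≤ 3 / 2 := by linarith [hx.2]
      have hw := Wr_nonneg (μ := μ) hΔ0 hμ0 Y
      rw [hB]
      gcongr
    have hi1 : IntervalIntegrable (fun x : ℝ ↦ ell S L (x + Y * I)) volume (1 / 2) 2 := by
      have := ell_integrable' hT hE (W := fun _ ↦ 1) (differentiable_const _) hY.1 hY.2
      simpa using this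
    have hi2 := ell_integrable' hT hE hWd hY.1 hY.2
    calc ‖∫ x in (1 / 2 : ℝ)..2, ell S L (x + Y * I) * W (x + Y * I)‖
        ≤ ∫ x in (1 / 2 : ℝ)..2, ‖ell S L (x + Y * I) * W (x + Y * I)‖ :=
          intervalIntegral.norm_integral_le_integral_norm (by norm_num)
      _ ≤ ∫ x in (1 / 2 : ℝ)..2, ‖ell S L (x + Y * I)‖ * B := by
          refine intervalIntegral.integral_mono_on (by norm_num) hi2.norm (hi1.norm.mul_const B) ?_
          intro x hx
          rw [norm_mul]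
          exact mul_le_mul_of_nonneg_left (h3 x hx) (norm_nonneg _)
      _ = (∫ x in (1 / 2 : ℝ)..2, ‖ell S L (x + Y * I)‖) * B := by
          rw [intervalIntegral.integral_mul_const]
      _ ≤ (C3 * Real.log T) * B := by gcongr
      _ = (Real.exp (Real.pi * Δ ^ 2 * (3 / 2) ^ 2) * Real.exp (-(Real.log T ^ 2 / 60)) *
            (C3 * Real.log T)) * nsq N r := by rw [hB]; ring
      _ ≤ 1 * nsq N r := by gcongr
      _ = nsq N r := one_mul _
  have hE0b : ‖E0‖ ≤ nsq N r := by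
    refine hedge' Y0 ⟨hY0.1, by linarith [hY0.2]⟩ hY0S ?_
    rw [abs_of_nonpos (by linarith [hY0.2])]
    linarith [hY0.2]
  have hE1b : ‖E1‖ ≤ nsq N r := by
    refine hedge' Y1 ⟨by linarith [hY1.1], hY1.2⟩ hY1S ?_
    rw [abs_of_nonneg (by linarith [hY1.1])]
    linarith [hY1.1]
  -- the prime side
  have hright : ∫ y in Y0..Y1, ell S L (2 + y * I) * W (2 + y * I) =
      ∫ y in Y0..Y1, lz (2 + y * I) * W (2 + y * I) := by
    refine intervalIntegral.integral_congr fun y hy ↦ ?_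
    rw [uIcc_of_le hY01.le] at hy
    have := hE.right y ⟨hY0.1.trans hy.1, hy.2.trans hY1.2⟩
    simp only [this]
  have hp := hprime N r hN Y0 Y1 hY0.2 hY1.1
  set PS : ℂ := ∑' n : ℕ, ((Λ n / Real.log n / Real.sqrt n * kh Δ n : ℝ) : ℂ) *
          ∫ t : ℝ, (n : ℂ) ^ (-(t * I)) * (μ t : ℂ) with hPS
  set RI : ℂ := ∫ y in Y0..Y1, lz (2 + y * I) * W (2 + y * I) with hRI
  -- the zeros
  set F : Finset ℂ := S.filter (fun u ↦ 1 / 2 < u.re ∧ Y0 < u.im ∧ u.im < Y1) with hF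
  have hz := hzero N r F hN (by
    intro u hu
    rw [hF, Finset.mem_filter] at hu
    exact ⟨hE.zero u hu.1, hu.2.1, by linarith [hY0.1, hu.2.2.1], by linarith [hY1.2, hu.2.2.2]⟩)
  set ZS : ℂ := ∑ u ∈ F, (zord u : ℂ) * ∫ x in (1 / 2 : ℝ)..u.re, W (x + u.im * I) with hZS
  set LI : ℂ := ∫ y in Y0..Y1, ell S L (1 / 2 + y * I) * W (1 / 2 + y * I) with hLI
  rw [hright] at hid
  -- imaginary parts
  have him : LI.im = RI.im + 2 * Real.pi * ZS.im - (I * E0).im + (I * E1).im := by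
    rw [hid]
    have : (2 * (Real.pi : ℂ) * ZS).im = 2 * Real.pi * ZS.im := by
      rw [show (2 * (Real.pi : ℂ) * ZS) = ((2 * Real.pi : ℝ) : ℂ) * ZS by push_cast; ring,
        Complex.im_ofReal_mul]
    simp only [add_im, sub_im]
    rw [this]
  have hb0 : |(I * E0).im| ≤ nsq N r := by
    refine (Complex.abs_im_le_norm _).trans ?_
    rw [norm_mul, norm_I, one_mul]; exact hE0b
  have hb1 : |(I * E1).im| ≤ nsq N r := by
    refine (Complex.abs_im_le_norm _).trans ?_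
    rw [norm_mul, norm_I, one_mul]; exact hE1b
  have hb2 : |RI.im - PS.im| ≤ nsq N r := by
    rw [← Complex.sub_im]
    exact (Complex.abs_im_le_norm _).trans hp
  -- lower bound
  have hlow : c1 * s0 * (∫ t, μ t) - 3 * nsq N r - 2 * Real.pi * C2 * Δ ^ 4 * (∫ t, μ t) ≤
      ε * LI.im := by
    have e1 : ε * LI.im = ε * PS.im + ε * (RI.im - PS.im) + 2 * Real.pi * (ε * ZS.im) -
        ε * (I * E0).im + ε * (I * E1).im := by rw [him]; ring
    have f : ∀ a b : ℝ, |a| ≤ b → -b ≤ ε * a := by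
      intro a b hab
      have : |ε * a| ≤ b := by rw [abs_mul, hε1, one_mul]; exact hab
      exact (abs_le.1 this).1
    have f' : ∀ a b : ℝ, |a| ≤ b → ε * a ≤ b := by
      intro a b hab
      have : |ε * a| ≤ b := by rw [abs_mul, hε1, one_mul]; exact hab
      exact (abs_le.1 this).2
    have g1 := f _ _ hb2
    have g2 := f _ _ hz
    have g3 := f' _ _ hb0
    have g4 := f _ _ hb1
    have hpi := Real.pi_pos
    have g5 : 2 * Real.pi * -(C2 * Δ ^ 4 * ∫ t, μ t) ≤ 2 * Real.pi * (ε * ZS.im) :=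
      mul_le_mul_of_nonneg_left g2 (by positivity)
    rw [e1]
    linarith
  -- upper bound
  have hup : ε * LI.im ≤ c1 / 2 * s0 * ∫ t, μ t := by
    have hfi : IntervalIntegrable (fun y : ℝ ↦ ell S L (1 / 2 + y * I) * W (1 / 2 + y * I))
        volume Y0 Y1 := by
      have := ell_integrable hT hE hWd hY0.1 hY01.le hY1.2 (x0 := 1 / 2) ⟨le_refl _, by norm_num⟩
      push_cast at this
      exact this
    have hgi : IntervalIntegrable (Wr Δ μ) volume Y0 Y1 :=
      (Wr_integrable hΔ0 hμi).intervalIntegrable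
    have hfi' : IntervalIntegrable
        (fun y : ℝ ↦ (ell S L (1 / 2 + y * I) * W (1 / 2 + y * I)).im) volume Y0 Y1 := by
      constructor
      · exact hfi.1.im
      · exact hfi.2.im
    have e1 : LI.im = ∫ y in Y0..Y1, (ell S L (1 / 2 + y * I) * W (1 / 2 + y * I)).im := by
      rw [hLI]
      exact (Complex.imCLM.intervalIntegral_comp_comm hfi).symm
    rw [e1, ← intervalIntegral.integral_const_mul]
    calc ∫ y in Y0..Y1, ε * (ell S L (1 / 2 + y * I) * W (1 / 2 + y * I)).im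
        ≤ ∫ y in Y0..Y1, c1 / 2 * s0 * Wr Δ μ y := by
          refine intervalIntegral.integral_mono_ae_restrict hY01.le (hfi'.const_mul ε)
            (hgi.const_mul _) ?_
          rw [EventuallyLE, ae_restrict_iff' measurableSet_Icc]
          filter_upwards [nonOrd_ae] with y hy hyI
          have hyT : y ∈ Icc (T / 2) (3 * T / 2) := ⟨hY0.1.trans hyI.1, hyI.2.trans hY1.2⟩
          have h1 := hcon y _ hyT hy (arg_of_ell hT hE hyT hy)
          have h2 := Wr_nonneg (μ := μ) hΔ0 hμ0 y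
          rw [hW12, Complex.im_mul_ofReal, ← mul_assoc]
          exact mul_le_mul_of_nonneg_right h1.le h2
      _ = c1 / 2 * s0 * ∫ y in Y0..Y1, Wr Δ μ y := by rw [intervalIntegral.integral_const_mul]
      _ ≤ c1 / 2 * s0 * ∫ t, μ t := by
          have h1 : ∫ y in Y0..Y1, Wr Δ μ y ≤ ∫ y, Wr Δ μ y := by
            rw [intervalIntegral.integral_of_le hY01.le]
            exact setIntegral_le_integral (Wr_integrable hΔ0 hμi)
              (Eventually.of_forall fun y ↦ Wr_nonneg hΔ0 hμ0 y)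
          rw [integral_Wr hΔ0 hμi] at h1
          gcongr
  have hfin : c1 * s0 * (∫ t, μ t) - 3 * (∫ t, μ t) - 2 * Real.pi * C2 * Δ ^ 4 * (∫ t, μ t) ≤
      c1 / 2 * s0 * ∫ t, μ t := by
    refine le_trans ?_ (hlow.trans hup)
    linarith
  have hfin2 : c1 * s0 - 3 - 2 * Real.pi * C2 * Δ ^ 4 ≤ c1 / 2 * s0 := by
    have : (c1 * s0 - 3 - 2 * Real.pi * C2 * Δ ^ 4) * (∫ t, μ t) ≤ (c1 / 2 * s0) * ∫ t, μ t := by
      linarith
    exact le_of_mul_le_mul_right this hint0
  linarith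

end Pool.Agent.H62.ST
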