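import Pool.Agent.H62.ST.Defs
import Pool.Agent.H6.Growth
import Pool.Agent.H6.ZetaGrowth

/-!
# Module ZpGrowth: crude bounds for `ζ`

* `zetaPole_growth`: `|Im s| ≥ 1`: `Pool.Agent.H6.zeta_growth` (with `c = 1/2`) and `zetaPole_of_ne`; `|Im s| ≤ 1`: compactness
  (`zetaPole_differentiable.continuous`).
* `zeta_tail`: `ζ(s) = ∑ n^{-s}` (`zeta_eq_tsum_one_div_nat_cpow`), `∑_{n > Z} n^{-2} ≤ 1/Z`.
* `zeta_two_bound`: `‖ζ(s)‖ ≤ 2` for `Re s = 2` (`π^2/6 ≤ 2`).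
-/

set_option autoImplicit false

open Complex Filter Topology MeasureTheory Set Metric
open scoped ArithmeticFunction.vonMangoldt

namespace Pool.Agent.H62.ST

open Pool.Agent.H6 Pool.Agent.H6.Win

theorem zetaPole_growth : ∃ C : ℝ, 0 < C ∧ ∀ s : ℂ, -1 ≤ s.re → s.re ≤ 2 →
    ‖zetaPole s‖ ≤ C * (1 + |s.im|) ^ (4 : ℕ) := by
  obtain ⟨C, hC, hg⟩ := zeta_growth (c := 1 / 2) (by norm_num) le_rfl
  have hcompact : IsCompact (Icc (-1 : ℝ) 2 ×ℂ Icc (-1 : ℝ) 1) := isCompact_Icc.reProdIm isCompact_Icc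
  obtain ⟨M, hM⟩ := hcompact.exists_bound_of_continuousOn
    zetaPole_differentiable.continuous.continuousOn
  have hM0 : 0 ≤ M := (norm_nonneg _).trans
    (hM 0 (mem_reProdIm.mpr ⟨by simp, by simp⟩))
  refine ⟨M + 3 * C, by linarith, fun s h1 h2 ↦ ?_⟩
  have ha : 0 ≤ |s.im| := abs_nonneg _
  have hb : (1 : ℝ) ≤ (1 + |s.im|) ^ (4 : ℕ) := one_le_pow₀ (by linarith)
  rcases le_or_gt |s.im| 1 with hs | hs
  · have h3 := hM s (mem_reProdIm.mpr ⟨⟨h1, h2⟩, abs_le.mp hs⟩)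
    calc ‖zetaPole s‖ ≤ M := h3
      _ ≤ (M + 3 * C) * 1 := by linarith
      _ ≤ _ := mul_le_mul_of_nonneg_left hb (by linarith)
  · have hs1 : s ≠ 1 := by
      rintro rfl
      simp at hs
      linarith
    rw [zetaPole_of_ne hs1, norm_mul]
    have h4 := hg s h1 hs.le
    have h5 : |s.im| ^ (3 / 2 + 1 / 2 : ℝ) = |s.im| ^ (2 : ℕ) := by
      rw [show (3 / 2 + 1 / 2 : ℝ) = ((2 : ℕ) : ℝ) by norm_num, Real.rpow_natCast]
    rw [h5] at h4
    have h6 : ‖s - 1‖ ≤ 3 * (1 + |s.im|) := by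
      have h7 := norm_le_abs_re_add_abs_im (s - 1)
      have h8 : |(s - 1).re| ≤ 2 := by
        rw [sub_re, one_re, abs_le]
        constructor <;> linarith
      have h9 : (s - 1).im = s.im := by simp
      rw [h9] at h7
      linarith
    have h10 : |s.im| ^ 2 ≤ (1 + |s.im|) ^ 2 := by gcongr; linarith
    calc ‖s - 1‖ * ‖riemannZeta s‖ ≤ (3 * (1 + |s.im|)) * (C * (1 + |s.im|) ^ 2) := by
          refine mul_le_mul h6 (h4.trans (mul_le_mul_of_nonneg_left h10 (by linarith)))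
            (norm_nonneg _) (by positivity)
      _ = 3 * C * (1 + |s.im|) ^ 3 := by ring
      _ ≤ 3 * C * (1 + |s.im|) ^ 4 := by
          refine mul_le_mul_of_nonneg_left ?_ (by linarith)
          exact pow_le_pow_right₀ (by linarith) (by norm_num)
      _ ≤ _ := mul_le_mul_of_nonneg_right (by linarith) (by positivity)

theorem zeta_tail {s : ℂ} (hs : s.re = 2) {Z : ℕ} (hZ : 1 ≤ Z) :
    ‖riemannZeta s - ∑ n ∈ Finset.Icc 1 Z, (n : ℂ) ^ (-s)‖ ≤ 1 / Z := by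
  have hs1 : 1 < s.re := by rw [hs]; norm_num
  have hs0 : s ≠ 0 := by
    rintro rfl
    simp at hs
  have hsum : Summable fun n : ℕ ↦ 1 / (n : ℂ) ^ s := Complex.summable_one_div_nat_cpow.mpr hs1
  rw [zeta_eq_tsum_one_div_nat_cpow hs1, ← hsum.sum_add_tsum_nat_add (Z + 1)]
  have h1 : ∑ i ∈ Finset.range (Z + 1), 1 / (i : ℂ) ^ s = ∑ n ∈ Finset.Icc 1 Z, (n : ℂ) ^ (-s) := by
    rw [Finset.range_eq_Ico, Finset.sum_eq_sum_Ico_succ_bot (by omega)]
    rw [show (1 : ℂ) / ((0 : ℕ) : ℂ) ^ s = 0 by simp [Complex.zero_cpow hs0], zero_add]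
    refine Finset.sum_congr (by ext n; simp) fun n _ ↦ ?_
    rw [Complex.cpow_neg, one_div]
  rw [h1, add_sub_cancel_left]
  have hnorm : ∀ i : ℕ, ‖1 / ((i + (Z + 1) : ℕ) : ℂ) ^ s‖ = 1 / ((i : ℝ) + Z + 1) ^ 2 := by
    intro i
    rw [norm_div, norm_one, Complex.norm_natCast_cpow_of_pos (by omega), hs]
    rw [show (2 : ℝ) = ((2 : ℕ) : ℝ) by norm_num, Real.rpow_natCast]
    push_cast
    ring
  have hZ0 : (0 : ℝ) < Z := by exact_mod_cast hZ
  have hle : ∀ n : ℕ, ∑ i ∈ Finset.range n, ‖1 / ((i + (Z + 1) : ℕ) : ℂ) ^ s‖ ≤ 1 / Z := by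
    intro n
    have h2 : ∀ m : ℕ, ∑ i ∈ Finset.range m, ‖1 / ((i + (Z + 1) : ℕ) : ℂ) ^ s‖ ≤
        1 / Z - 1 / ((m : ℝ) + Z) := by
      intro m
      induction m with
      | zero => simp
      | succ m ih =>
        rw [Finset.sum_range_succ, hnorm]
        have h3 : 1 / ((m : ℝ) + Z + 1) ^ 2 ≤ 1 / ((m : ℝ) + Z) - 1 / ((m + 1 : ℕ) + (Z : ℝ)) := by
          have h4 : (0 : ℝ) < (m : ℝ) + Z := by positivity
          push_cast
          rw [show (m : ℝ) + 1 + Z = (m : ℝ) + Z + 1 by ring, div_sub_div _ _ h4.ne' (by positivity)]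
          rw [div_le_div_iff₀ (by positivity) (by positivity)]
          nlinarith
        linarith
    have h5 : (0 : ℝ) ≤ 1 / ((n : ℝ) + Z) := by positivity
    linarith [h2 n]
  have hsn : Summable fun i : ℕ ↦ ‖1 / ((i + (Z + 1) : ℕ) : ℂ) ^ s‖ := by
    exact summable_of_sum_range_le (fun _ ↦ norm_nonneg _) hle
  exact (norm_tsum_le_tsum_norm hsn).trans
    (Real.tsum_le_of_sum_range_le (fun _ ↦ norm_nonneg _) hle)

lemma zeta_two_bound {s : ℂ} (hs : s.re = 2) : ‖riemannZeta s‖ ≤ 2 := by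
  have h := zeta_tail hs (Z := 1) le_rfl
  simp only [Finset.Icc_self, Finset.sum_singleton, Nat.cast_one, Complex.one_cpow] at h
  have h2 : ‖riemannZeta s‖ ≤ ‖riemannZeta s - 1‖ + ‖(1 : ℂ)‖ := by
    simpa using norm_add_le (riemannZeta s - 1) 1
  rw [norm_one] at h2
  linarith

end Pool.Agent.H62.ST
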