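import Pool.Agent.H62.ST.Res
import Pool.Agent.H62.ST.ZpGrowth

/-!
# Module Interp: interpolation between `Re s = 1/2` and `Re s = 2`

`G_right`: `ζ(s) ∑_d μ(d) d^{-s} = 1` for `Re s = 2`, so `G = -ζ(s) ∑_{d > xm T} μ(d) d^{-s}`, `≤ 2/(xm T) ≤ 4 T^{-1/8}`.
`interp`: `s = σ + iy`, `Φ(w) = (zetaPole(s+w) mobs (s+w) (xm T) - (s+w-1)) X0^w exp(w^2)`, `X0 = T^{1/16}` (entire, `Φ(w) = (s+w-1) G(s+w) X0^w exp(w^2)`),
`res_shift` with `l = 1/2 - σ`, `u = 2 - σ`: `2π (s-1) G(s) = ∫_right - ∫_left`. Right: `‖G‖ ≤ 4 T^{-1/8}`, `X0^{2-σ} T^{-1/8} = X0^{-σ}`.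
Left: `|w| ≥ σ - 1/2 ≥ 1/log T`, `|X0^w| = T^{-(σ-1/2)/16}`, `s + w = 1/2 + i(y+v)`. Both: `‖s+w-1‖ ≤ ‖s-1‖ (1+‖w‖)` because `‖s-1‖ ≥ |y| ≥ 1`,
`(1+‖w‖) |exp(w^2)| ≤ C exp(-v^2/2)` for `|Re w| ≤ 3/2`.
-/

set_option autoImplicit false

open Complex Filter Topology MeasureTheory Set Metric
open scoped ArithmeticFunction.vonMangoldt

namespace Pool.Agent.H62.ST

open Pool.Agent.H6 Pool.Agent.H6.Win

/-! ### The right line -/

private lemma Interp_tail (X : ℕ) (hX : 1 ≤ X) :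
    Summable (fun n : ℕ ↦ 1 / ((n + X + 1 : ℕ) : ℝ) ^ 2) ∧
      ∑' n : ℕ, 1 / ((n + X + 1 : ℕ) : ℝ) ^ 2 ≤ 1 / (X : ℝ) := by
  have hs : Summable (fun n : ℕ ↦ 1 / ((n + X + 1 : ℕ) : ℝ) ^ 2) := by
    have h := (summable_nat_add_iff (f := fun n : ℕ ↦ 1 / (n : ℝ) ^ 2) (X + 1)).2
      (Real.summable_one_div_nat_pow.2 (by norm_num))
    simpa [add_assoc] using h
  refine ⟨hs, ?_⟩
  refine hs.tsum_le_of_sum_range_le fun n ↦ ?_
  have hX0 : (0 : ℝ) < X := by exact_mod_cast hX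
  have key : ∀ n : ℕ, ∑ i ∈ Finset.range n, 1 / ((i + X + 1 : ℕ) : ℝ) ^ 2 ≤
      1 / (X : ℝ) - 1 / ((n + X : ℕ) : ℝ) := by
    intro n
    induction n with
    | zero => simp
    | succ n ih =>
      rw [Finset.sum_range_succ]
      have h1 : (0 : ℝ) < ((n + X : ℕ) : ℝ) := by exact_mod_cast (by omega : 0 < n + X)
      have h2 : 1 / ((n + X + 1 : ℕ) : ℝ) ^ 2 ≤
          1 / ((n + X : ℕ) : ℝ) - 1 / ((n + 1 + X : ℕ) : ℝ) := by
        have h3 : ((n + X + 1 : ℕ) : ℝ) = ((n + X : ℕ) : ℝ) + 1 := by push_cast; ring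
        have h4 : ((n + 1 + X : ℕ) : ℝ) = ((n + X : ℕ) : ℝ) + 1 := by push_cast; ring
        rw [h3, h4, div_sub_div _ _ h1.ne' (by positivity), div_le_div_iff₀ (by positivity)
          (by positivity)]
        nlinarith
      linarith
  refine (key n).trans ?_
  have : (0 : ℝ) ≤ 1 / ((n + X : ℕ) : ℝ) := by positivity
  linarith

private lemma Interp_mob_term {s : ℂ} (hs : s.re = 2) (n : ℕ) :
    ‖((ArithmeticFunction.moebius n : ℤ) : ℂ) * (n : ℂ) ^ (-s)‖ ≤ 1 / (n : ℝ) ^ 2 := by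
  rcases Nat.eq_zero_or_pos n with rfl | hn
  · simp
  rw [norm_mul, norm_natCast_cpow_of_pos hn, neg_re, hs, Complex.norm_intCast]
  have h1 : |((ArithmeticFunction.moebius n : ℤ) : ℝ)| ≤ 1 := by
    have := ArithmeticFunction.abs_moebius_le_one (n := n)
    exact_mod_cast this
  have h2 : (n : ℝ) ^ (-2 : ℝ) = 1 / (n : ℝ) ^ 2 := by
    rw [Real.rpow_neg (Nat.cast_nonneg n)]
    simp
  rw [h2]
  have h3 : (0 : ℝ) ≤ 1 / (n : ℝ) ^ 2 := by positivity
  nlinarith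

private lemma Interp_right {s : ℂ} (hs : s.re = 2) {X : ℕ} (hX : 1 ≤ X) :
    ‖riemannZeta s * mobs s X - 1‖ ≤ 2 / X := by
  have hs1 : 1 < s.re := by rw [hs]; norm_num
  set f : ℕ → ℂ := fun n ↦ ((ArithmeticFunction.moebius n : ℤ) : ℂ) * (n : ℂ) ^ (-s) with hf
  have hsum : Summable f := by
    refine Summable.of_norm_bounded (g := fun n : ℕ ↦ 1 / (n : ℝ) ^ 2)
      (Real.summable_one_div_nat_pow.2 (by norm_num)) fun n ↦ Interp_mob_term hs n
  have h1 : riemannZeta s * ∑' n, f n = 1 := by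
    have h2 := ArithmeticFunction.LSeries_zeta_mul_Lseries_moebius hs1
    rw [ArithmeticFunction.LSeries_zeta_eq_riemannZeta hs1] at h2
    rw [← h2]
    congr 1
    unfold LSeries
    refine tsum_congr fun n ↦ ?_
    rcases Nat.eq_zero_or_pos n with rfl | hn
    · simp [hf]
    · rw [LSeries.term_of_ne_zero hn.ne', hf]
      simp only
      rw [cpow_neg, div_eq_mul_inv]
  have h3 : ∑' n, f n = mobs s X + ∑' n, f (n + (X + 1)) := by
    rw [← hsum.sum_add_tsum_nat_add (X + 1)]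
    congr 1
    unfold mobs
    rw [Finset.range_eq_Ico, Finset.sum_eq_sum_Ico_succ_bot (by omega)]
    simp only [hf, ArithmeticFunction.map_zero, Int.cast_zero, zero_mul, zero_add]
    rfl
  have h4 : riemannZeta s * mobs s X - 1 = -(riemannZeta s * ∑' n, f (n + (X + 1))) := by
    rw [← h1, h3]; ring
  rw [h4, norm_neg, norm_mul]
  have h5 : ‖∑' n, f (n + (X + 1))‖ ≤ 1 / X := by
    obtain ⟨h6, h7⟩ := Interp_tail X hX
    refine le_trans ?_ h7
    refine tsum_of_norm_bounded h6.hasSum fun n ↦ ?_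
    exact Interp_mob_term hs _
  have h6 := zeta_two_bound hs
  calc ‖riemannZeta s‖ * ‖∑' n, f (n + (X + 1))‖ ≤ 2 * (1 / X) := by gcongr
    _ = 2 / X := by ring

private lemma Interp_xm {T : ℝ} (hT : 1 ≤ T) : 1 ≤ xm T ∧ (xm T : ℝ) ≤ T ^ (1 / 8 : ℝ) ∧
    T ^ (1 / 8 : ℝ) ≤ 2 * xm T := by
  have h1 : (1 : ℝ) ≤ T ^ (1 / 8 : ℝ) := Real.one_le_rpow hT (by norm_num)
  have h2 : 1 ≤ xm T := by
    unfold xm
    exact Nat.one_le_floor_iff _ |>.2 h1
  have h3 : (xm T : ℝ) ≤ T ^ (1 / 8 : ℝ) := Nat.floor_le (by positivity)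
  have h4 : T ^ (1 / 8 : ℝ) < xm T + 1 := Nat.lt_floor_add_one _
  have h5 : (1 : ℝ) ≤ xm T := by exact_mod_cast h2
  exact ⟨h2, h3, by linarith⟩

private lemma Interp_G_right {T : ℝ} (hT : 1 ≤ T) {s : ℂ} (hs : s.re = 2) :
    ‖Gf T s‖ ≤ 4 * T ^ (-(1 / 8) : ℝ) := by
  obtain ⟨h1, h2, h3⟩ := Interp_xm hT
  have hT0 : 0 < T := by linarith
  have h4 := Interp_right hs h1
  have h5 : (0 : ℝ) < T ^ (1 / 8 : ℝ) := by positivity
  have h6 : (0 : ℝ) < xm T := by exact_mod_cast h1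
  have h7 : (2 : ℝ) / xm T ≤ 4 * T ^ (-(1 / 8) : ℝ) := by
    rw [Real.rpow_neg hT0.le, div_le_iff₀ h6, mul_assoc, inv_mul_eq_div]
    rw [← mul_div_assoc, le_div_iff₀ h5]
    linarith
  exact h4.trans h7

theorem G_right : ∃ C : ℝ, 0 < C ∧ ∀ᶠ T : ℝ in atTop, ∀ s : ℂ, s.re = 2 →
    ‖Gf T s‖ ≤ C * T ^ (-(1 / 8) : ℝ) := by
  refine ⟨4, by norm_num, ?_⟩
  filter_upwards [eventually_ge_atTop 1] with T hT s hs
  exact Interp_G_right hT hs

/-! ### Elementary bounds -/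

private lemma Interp_pow_exp (v : ℝ) : (1 + |v|) ^ 8 * Real.exp (-(v ^ 2 / 4)) ≤
    40320 * Real.exp 5 := by
  have h0 : 0 ≤ |v| := abs_nonneg v
  have h1 : (1 + |v|) ^ 8 ≤ 40320 * Real.exp (1 + |v|) := by
    have h := Real.pow_div_factorial_le_exp (1 + |v|) (by linarith) 8
    have h8 : ((Nat.factorial 8 : ℕ) : ℝ) = 40320 := by norm_num [Nat.factorial]
    rw [h8, div_le_iff₀ (by norm_num)] at h
    linarith
  calc (1 + |v|) ^ 8 * Real.exp (-(v ^ 2 / 4))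
      ≤ (40320 * Real.exp (1 + |v|)) * Real.exp (-(v ^ 2 / 4)) := by gcongr
    _ = 40320 * Real.exp (1 + |v| - v ^ 2 / 4) := by rw [mul_assoc, ← Real.exp_add]; ring_nf
    _ ≤ 40320 * Real.exp 5 := by
        gcongr
        have : |v| ^ 2 = v ^ 2 := sq_abs v
        nlinarith [sq_nonneg (|v| - 2)]

/-- `|exp (w^2)|` -/
private lemma Interp_norm_exp (a v : ℝ) :
    ‖cexp (((a : ℂ) + v * I) ^ 2)‖ = Real.exp (a ^ 2 - v ^ 2) := by
  rw [Complex.norm_exp]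
  congr 1
  simp [sq, Complex.mul_re]

private lemma Interp_one_add_norm (a v : ℝ) (ha : |a| ≤ 3 / 2) :
    (1 + ‖(a : ℂ) + v * I‖) * Real.exp (a ^ 2 - v ^ 2) ≤ 4 * Real.exp 3 * Real.exp (-(v ^ 2 / 2)) := by
  have h1 : ‖(a : ℂ) + v * I‖ ≤ 3 / 2 + |v| := by
    refine (norm_add_le _ _).trans ?_
    rw [norm_mul, Complex.norm_I, mul_one, Complex.norm_real, Complex.norm_real,
      Real.norm_eq_abs, Real.norm_eq_abs]
    linarith
  have h2 : a ^ 2 ≤ 3 := by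
    have := abs_le.1 ha
    nlinarith
  have h3 : 1 + |v| ≤ 2 * Real.exp (v ^ 2 / 2) := by
    have h4 := Real.add_one_le_exp (v ^ 2 / 2)
    have h5 : |v| ^ 2 = v ^ 2 := sq_abs v
    nlinarith [sq_nonneg (|v| - 1)]
  have h4 : Real.exp (a ^ 2 - v ^ 2) ≤ Real.exp 3 * Real.exp (-(v ^ 2)) := by
    rw [← Real.exp_add]
    refine Real.exp_le_exp.2 ?_
    linarith
  have h5 : 1 + ‖(a : ℂ) + v * I‖ ≤ 4 * Real.exp (v ^ 2 / 2) := by
    have h6 := Real.add_one_le_exp (v ^ 2 / 2)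
    have h7 : |v| ^ 2 = v ^ 2 := sq_abs v
    nlinarith [sq_nonneg (|v| - 1)]
  calc (1 + ‖(a : ℂ) + v * I‖) * Real.exp (a ^ 2 - v ^ 2)
      ≤ (4 * Real.exp (v ^ 2 / 2)) * (Real.exp 3 * Real.exp (-(v ^ 2))) := by gcongr
    _ = 4 * Real.exp 3 * (Real.exp (v ^ 2 / 2) * Real.exp (-(v ^ 2))) := by ring
    _ = 4 * Real.exp 3 * Real.exp (-(v ^ 2 / 2)) := by
        rw [← Real.exp_add]; ring_nf

/-- crude bound for the mollifier -/
private lemma Interp_mobs {s : ℂ} (hs : 0 ≤ s.re) (X : ℕ) : ‖mobs s X‖ ≤ X := by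
  unfold mobs
  refine (norm_sum_le _ _).trans ?_
  calc ∑ d ∈ Finset.Icc 1 X, ‖((ArithmeticFunction.moebius d : ℤ) : ℂ) * (d : ℂ) ^ (-s)‖
      ≤ ∑ d ∈ Finset.Icc 1 X, (1 : ℝ) := by
        refine Finset.sum_le_sum fun d hd ↦ ?_
        rw [Finset.mem_Icc] at hd
        rw [norm_mul, norm_natCast_cpow_of_pos (by omega), neg_re, Complex.norm_intCast]
        have h1 : |((ArithmeticFunction.moebius d : ℤ) : ℝ)| ≤ 1 := by
          have := ArithmeticFunction.abs_moebius_le_one (n := d)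
          exact_mod_cast this
        have h2 : (d : ℝ) ^ (-s.re) ≤ 1 :=
          Real.rpow_le_one_of_one_le_of_nonpos (by exact_mod_cast hd.1) (by linarith)
        have h3 : (0 : ℝ) ≤ (d : ℝ) ^ (-s.re) := by positivity
        nlinarith [abs_nonneg ((ArithmeticFunction.moebius d : ℤ) : ℝ)]
    _ = X := by simp

private lemma Interp_mobs_diff (X : ℕ) : Differentiable ℂ fun s ↦ mobs s X := by
  unfold mobs
  refine Differentiable.fun_sum fun d hd ↦ ?_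
  rw [Finset.mem_Icc] at hd
  have hd0 : (d : ℂ) ≠ 0 := by
    have : d ≠ 0 := by omega
    exact_mod_cast this
  exact (differentiable_id.neg.const_cpow (Or.inl hd0)).const_mul _

/-! ### Interpolation -/

/-- the entire function `(s - 1) G(s)` -/
private noncomputable def InterpH (T : ℝ) (s : ℂ) : ℂ := zetaPole s * mobs s (xm T) - (s - 1)

private lemma InterpH_eq {T : ℝ} {s : ℂ} (hs : s ≠ 1) : InterpH T s = (s - 1) * Gf T s := by
  unfold InterpH Gf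
  rw [zetaPole_of_ne hs]; ring

private lemma InterpH_diff (T : ℝ) : Differentiable ℂ (InterpH T) := by
  unfold InterpH
  exact (zetaPole_differentiable.mul (Interp_mobs_diff _)).sub (differentiable_id.sub_const 1)

private lemma InterpH_bound {T C : ℝ} (hC : 0 < C)
    (h : ∀ s : ℂ, -1 ≤ s.re → s.re ≤ 2 → ‖zetaPole s‖ ≤ C * (1 + |s.im|) ^ (4 : ℕ))
    {s : ℂ} (h0 : 0 ≤ s.re) (h2 : s.re ≤ 2) :
    ‖InterpH T s‖ ≤ (C * xm T + 2) * (1 + |s.im|) ^ (4 : ℕ) := by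
  have hi : 0 ≤ |s.im| := abs_nonneg _
  have h3 := h s (by linarith) h2
  have h4 := Interp_mobs h0 (xm T)
  have h5 : ‖s - 1‖ ≤ 2 * (1 + |s.im|) ^ (4 : ℕ) := by
    have h6 : ‖s - 1‖ ≤ |(s - 1).re| + |(s - 1).im| := Complex.norm_le_abs_re_add_abs_im _
    have h7 : |(s - 1).re| ≤ 1 := by
      rw [sub_re, one_re, abs_le]
      constructor <;> linarith
    have h8 : (s - 1).im = s.im := by simp
    rw [h8] at h6
    have h9 : 1 + |s.im| ≤ (1 + |s.im|) ^ (4 : ℕ) := by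
      have : (1 : ℝ) ≤ 1 + |s.im| := by linarith
      exact le_self_pow₀ this (by norm_num)
    have h10 : (0 : ℝ) ≤ (1 + |s.im|) ^ (4 : ℕ) := by positivity
    linarith
  unfold InterpH
  calc ‖zetaPole s * mobs s (xm T) - (s - 1)‖
      ≤ ‖zetaPole s‖ * ‖mobs s (xm T)‖ + ‖s - 1‖ := by
        refine (norm_sub_le _ _).trans ?_
        rw [norm_mul]
    _ ≤ (C * (1 + |s.im|) ^ (4 : ℕ)) * xm T + 2 * (1 + |s.im|) ^ (4 : ℕ) := by gcongr
    _ = _ := by ring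

private lemma Interp_cpow {X0 : ℝ} (hX0 : 0 < X0) (w : ℂ) : ‖(X0 : ℂ) ^ w‖ = X0 ^ w.re :=
  Complex.norm_cpow_eq_rpow_re_of_pos hX0 w

private lemma Interp_integrable {T : ℝ} (hT : 1 ≤ T) (y : ℝ) :
    Integrable fun v : ℝ ↦ Real.exp (-(v ^ 2 / 2)) * ‖Gf T (1 / 2 + (y + v : ℝ) * I)‖ := by
  obtain ⟨C, hC, hz⟩ := zetaPole_growth
  have hne : ∀ v : ℝ, (1 / 2 + (y + v : ℝ) * I : ℂ) ≠ 1 := by
    intro v h
    have := congrArg Complex.re h
    simp at this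
  have hG : ∀ v : ℝ, Gf T (1 / 2 + (y + v : ℝ) * I) =
      InterpH T (1 / 2 + (y + v : ℝ) * I) / ((1 / 2 + (y + v : ℝ) * I) - 1) := by
    intro v
    rw [InterpH_eq (hne v), mul_div_cancel_left₀ _ (sub_ne_zero.2 (hne v))]
  have hcont : Continuous fun v : ℝ ↦ Gf T (1 / 2 + (y + v : ℝ) * I) := by
    simp_rw [hG]
    refine Continuous.div ?_ (by fun_prop) fun v ↦ sub_ne_zero.2 (hne v)
    exact (InterpH_diff T).continuous.comp (by fun_prop)
  have hK : 0 ≤ (C * xm T + 2) := by positivity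
  have hbound : ∀ v : ℝ, ‖Gf T (1 / 2 + (y + v : ℝ) * I)‖ ≤
      2 * ((C * xm T + 2) * ((1 + |y|) ^ 4 * (1 + |v|) ^ 8)) := by
    intro v
    have him : (1 / 2 + (y + v : ℝ) * I : ℂ).im = y + v := by simp
    have hre : (1 / 2 + (y + v : ℝ) * I : ℂ).re = 1 / 2 := by simp
    rw [hG v, norm_div]
    have h1 := InterpH_bound (T := T) hC hz (s := 1 / 2 + (y + v : ℝ) * I)
      (by rw [hre]; norm_num) (by rw [hre]; norm_num)
    rw [him] at h1
    have h2 : (1 / 2 : ℝ) ≤ ‖(1 / 2 + (y + v : ℝ) * I : ℂ) - 1‖ := by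
      have h3 := Complex.abs_re_le_norm ((1 / 2 + (y + v : ℝ) * I : ℂ) - 1)
      rw [sub_re, hre, one_re] at h3
      norm_num [abs_of_neg, abs_of_pos] at h3 ⊢
      try linarith
    rw [div_le_iff₀ (by linarith)]
    have h4 : 1 + |y + v| ≤ (1 + |y|) * (1 + |v|) := by
      have := abs_add_le y v
      nlinarith [abs_nonneg y, abs_nonneg v]
    have h5 : (1 + |y + v|) ^ 4 ≤ (1 + |y|) ^ 4 * (1 + |v|) ^ 8 := by
      have h6 : (1 + |y + v|) ^ 4 ≤ ((1 + |y|) * (1 + |v|)) ^ 4 := by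
        have : 0 ≤ |y + v| := abs_nonneg _
        gcongr
      refine h6.trans ?_
      rw [mul_pow]
      have : (1 + |v|) ^ 4 ≤ (1 + |v|) ^ 8 :=
        pow_le_pow_right₀ (by linarith [abs_nonneg v]) (by norm_num)
      gcongr
    have h7 : 0 ≤ (C * xm T + 2) * ((1 + |y|) ^ 4 * (1 + |v|) ^ 8) := by positivity
    calc ‖InterpH T (1 / 2 + (y + v : ℝ) * I)‖
        ≤ (C * xm T + 2) * (1 + |y + v|) ^ 4 := h1
      _ ≤ (C * xm T + 2) * ((1 + |y|) ^ 4 * (1 + |v|) ^ 8) := by gcongr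
      _ ≤ 2 * ((C * xm T + 2) * ((1 + |y|) ^ 4 * (1 + |v|) ^ 8)) *
          ‖(1 / 2 + (y + v : ℝ) * I : ℂ) - 1‖ := by nlinarith
  have hint : Integrable fun v : ℝ ↦ (2 * (C * xm T + 2) * (1 + |y|) ^ 4 * (40320 * Real.exp 5)) *
      Real.exp (-(1 / 4) * v ^ 2) :=
    (integrable_exp_neg_mul_sq (by norm_num)).const_mul _
  refine hint.mono' ?_ (ae_of_all _ fun v ↦ ?_)
  · exact ((Continuous.rexp (by fun_prop)).mul hcont.norm).aestronglyMeasurable
  · have he : Real.exp (-(v ^ 2 / 2)) = Real.exp (-(v ^ 2 / 4)) * Real.exp (-(1 / 4) * v ^ 2) := by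
      rw [← Real.exp_add]; ring_nf
    rw [Real.norm_of_nonneg (by positivity), he]
    have h1 := Interp_pow_exp v
    have h2 := hbound v
    calc Real.exp (-(v ^ 2 / 4)) * Real.exp (-(1 / 4) * v ^ 2) *
          ‖Gf T (1 / 2 + (y + v : ℝ) * I)‖
        ≤ Real.exp (-(v ^ 2 / 4)) * Real.exp (-(1 / 4) * v ^ 2) *
          (2 * ((C * xm T + 2) * ((1 + |y|) ^ 4 * (1 + |v|) ^ 8))) := by gcongr
      _ = (2 * (C * xm T + 2) * (1 + |y|) ^ 4 * ((1 + |v|) ^ 8 * Real.exp (-(v ^ 2 / 4)))) *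
          Real.exp (-(1 / 4) * v ^ 2) := by ring
      _ ≤ (2 * (C * xm T + 2) * (1 + |y|) ^ 4 * (40320 * Real.exp 5)) *
          Real.exp (-(1 / 4) * v ^ 2) := by gcongr

theorem interp : ∃ C : ℝ, 0 < C ∧ ∀ᶠ T : ℝ in atTop, ∀ σ y : ℝ,
    1 / 2 + 1 / Real.log T ≤ σ → σ ≤ 3 / 2 → 1 ≤ |y| →
    ‖Gf T (σ + y * I)‖ ≤ C * Real.log T * T ^ (-((σ - 1 / 2) / 16)) *
      (1 + ∫ v : ℝ, Real.exp (-(v ^ 2 / 2)) * ‖Gf T (1 / 2 + (y + v : ℝ) * I)‖) := by
  obtain ⟨C0, hC0, hz⟩ := zetaPole_growth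
  set J : ℝ := ∫ v : ℝ, Real.exp (-(v ^ 2 / 2)) with hJ
  have hJ0 : 0 ≤ J := integral_nonneg fun v ↦ (Real.exp_pos _).le
  set E : ℝ := 4 * Real.exp 3 with hE
  have hE0 : 0 < E := by positivity
  refine ⟨8 * E * J + E + 1, by positivity, ?_⟩
  filter_upwards [eventually_ge_atTop 3] with T hT σ y hσ1 hσ2 hy
  have hT0 : 0 < T := by linarith
  have hlog1 : 1 ≤ Real.log T := by
    rw [Real.le_log_iff_exp_le hT0]
    have := Real.exp_one_lt_d9
    linarith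
  have hlog0 : 0 < Real.log T := by linarith
  set s : ℂ := (σ : ℂ) + y * I with hs
  have hsre : s.re = σ := by simp [hs]
  have hsim : s.im = y := by simp [hs]
  set X0 : ℝ := T ^ (1 / 16 : ℝ) with hX0d
  have hX0 : 0 < X0 := by positivity
  have hX01 : 1 ≤ X0 := Real.one_le_rpow (by linarith) (by norm_num)
  set Φ : ℂ → ℂ := fun w ↦ InterpH T (s + w) * (X0 : ℂ) ^ w * cexp (w ^ 2) with hΦ
  have hX0c : (X0 : ℂ) ≠ 0 := by exact_mod_cast hX0.ne'
  have hl : 1 / 2 - σ < 0 := by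
    have : 0 < 1 / Real.log T := by positivity
    linarith
  have hu : 0 < 2 - σ := by linarith
  have hσpos : 1 / Real.log T ≤ σ - 1 / 2 := by linarith
  -- differentiability
  have hΦd : Differentiable ℂ Φ := by
    have h1 : Differentiable ℂ fun w : ℂ ↦ InterpH T (s + w) :=
      (InterpH_diff T).comp (differentiable_id.const_add s)
    have h2 : Differentiable ℂ fun w : ℂ ↦ (X0 : ℂ) ^ w :=
      differentiable_id.const_cpow (Or.inl hX0c)
    have h3 : Differentiable ℂ fun w : ℂ ↦ cexp (w ^ 2) := by fun_prop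
    exact (h1.mul h2).mul h3
  -- growth
  have hb : ∀ w : ℂ, 1 / 2 - σ ≤ w.re → w.re ≤ 2 - σ → ‖Φ w‖ ≤
      ((C0 * xm T + 2) * (1 + |y|) ^ 4 * X0 ^ (2 : ℝ) * Real.exp 3 * (40320 * Real.exp 5)) *
        (1 + |w.im|) ^ (-(2 : ℝ)) := by
    intro w hw1 hw2
    have hre : (s + w).re = σ + w.re := by rw [add_re, hsre]
    have him : (s + w).im = y + w.im := by rw [add_im, hsim]
    have h1 := InterpH_bound (T := T) hC0 hz (s := s + w) (by rw [hre]; linarith)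
      (by rw [hre]; linarith)
    rw [him] at h1
    have h2 : ‖(X0 : ℂ) ^ w‖ ≤ X0 ^ (2 : ℝ) := by
      rw [Interp_cpow hX0]
      have : 1 / 2 ≤ σ := by
        have : 0 < 1 / Real.log T := by positivity
        linarith
      exact Real.rpow_le_rpow_of_exponent_le hX01 (by linarith)
    have h3 : ‖cexp (w ^ 2)‖ ≤ Real.exp 3 * Real.exp (-(w.im ^ 2 / 4)) := by
      have h4 : w = (w.re : ℂ) + w.im * I := (Complex.re_add_im w).symm
      rw [h4, Interp_norm_exp, ← Real.exp_add]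
      refine Real.exp_le_exp.2 ?_
      simp only [ofReal_re, I_re, mul_zero, ofReal_im, I_im, mul_one,
        add_zero, add_im, mul_im, zero_add]
      have h5 : w.re ^ 2 ≤ 9 / 4 := by
        have : 1 / 2 ≤ σ := by
          have : 0 < 1 / Real.log T := by positivity
          linarith
        nlinarith
      nlinarith [sq_nonneg w.im]
    have h4 : 1 + |y + w.im| ≤ (1 + |y|) * (1 + |w.im|) := by
      have := abs_add_le y w.im
      nlinarith [abs_nonneg y, abs_nonneg w.im]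
    have h5 : (1 + |y + w.im|) ^ 4 ≤ (1 + |y|) ^ 4 * (1 + |w.im|) ^ 4 := by
      rw [← mul_pow]
      have : 0 ≤ |y + w.im| := abs_nonneg _
      gcongr
    have h6 : 0 < 1 + |w.im| := by linarith [abs_nonneg w.im]
    have h7 : (1 + |w.im|) ^ 4 * Real.exp (-(w.im ^ 2 / 4)) ≤
        (40320 * Real.exp 5) * (1 + |w.im|) ^ (-(2 : ℝ)) := by
      have h8 := Interp_pow_exp w.im
      have h9 : (1 + |w.im|) ^ (-(2 : ℝ)) = ((1 + |w.im|) ^ 2)⁻¹ := by
        rw [Real.rpow_neg h6.le]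
        simp
      rw [h9, ← div_eq_mul_inv, le_div_iff₀ (by positivity)]
      refine le_trans ?_ h8
      have h10 : (1 + |w.im|) ^ 4 * Real.exp (-(w.im ^ 2 / 4)) * (1 + |w.im|) ^ 2 =
        (1 + |w.im|) ^ 6 * Real.exp (-(w.im ^ 2 / 4)) := by ring
      rw [h10]
      have h11 : (1 + |w.im|) ^ 6 ≤ (1 + |w.im|) ^ 8 :=
        pow_le_pow_right₀ (by linarith [abs_nonneg w.im]) (by norm_num)
      gcongr
    have hK : 0 ≤ C0 * xm T + 2 := by positivity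
    calc ‖Φ w‖ = ‖InterpH T (s + w)‖ * ‖(X0 : ℂ) ^ w‖ * ‖cexp (w ^ 2)‖ := by
          rw [hΦ]; simp only [norm_mul]
      _ ≤ ((C0 * xm T + 2) * ((1 + |y|) ^ 4 * (1 + |w.im|) ^ 4)) * X0 ^ (2 : ℝ) *
          (Real.exp 3 * Real.exp (-(w.im ^ 2 / 4))) := by
          have h12 : ‖InterpH T (s + w)‖ ≤
              (C0 * xm T + 2) * ((1 + |y|) ^ 4 * (1 + |w.im|) ^ 4) :=
            h1.trans (by gcongr)
          gcongr
      _ = (C0 * xm T + 2) * (1 + |y|) ^ 4 * X0 ^ (2 : ℝ) * Real.exp 3 *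
          ((1 + |w.im|) ^ 4 * Real.exp (-(w.im ^ 2 / 4))) := by ring
      _ ≤ (C0 * xm T + 2) * (1 + |y|) ^ 4 * X0 ^ (2 : ℝ) * Real.exp 3 *
          ((40320 * Real.exp 5) * (1 + |w.im|) ^ (-(2 : ℝ))) := by gcongr
      _ = _ := by ring
  have hres := res_shift (Φ := Φ) hl hu (by norm_num : (1 : ℝ) < 2)
    (fun w _ _ ↦ hΦd w) hb
  have hs1 : s ≠ 1 := by
    intro h
    have h1 : s.im = 0 := by rw [h]; simp
    rw [hsim] at h1
    rw [h1] at hy
    simp at hy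
    linarith
  have hs1n : 1 ≤ ‖s - 1‖ := by
    have h1 := Complex.abs_im_le_norm (s - 1)
    rw [sub_im, hsim, one_im, sub_zero] at h1
    linarith
  have hΦ0 : Φ 0 = (s - 1) * Gf T s := by
    rw [hΦ]
    simp only [add_zero, cpow_zero, mul_one]
    rw [InterpH_eq hs1]
    simp
  set P : ℝ := T ^ (-((σ - 1 / 2) / 16)) with hP
  have hP0 : 0 < P := by positivity
  -- the common bound
  have hcommon : ∀ w : ℂ, ‖s + w - 1‖ ≤ ‖s - 1‖ * (1 + ‖w‖) := by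
    intro w
    have h1 : ‖s + w - 1‖ ≤ ‖s - 1‖ + ‖w‖ := by
      have : s + w - 1 = (s - 1) + w := by ring
      rw [this]; exact norm_add_le _ _
    nlinarith [norm_nonneg w]
  -- right line
  have hright : ‖∫ v : ℝ, Φ (((2 - σ : ℝ) : ℂ) + v * I) / (((2 - σ : ℝ) : ℂ) + v * I)‖ ≤
      ‖s - 1‖ * P * (8 * E * J) := by
    have hi : Integrable fun v : ℝ ↦ (‖s - 1‖ * P * (8 * E)) * Real.exp (-(v ^ 2 / 2)) := by
      have h : Integrable fun v : ℝ ↦ Real.exp (-(1 / 2) * v ^ 2) :=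
        integrable_exp_neg_mul_sq (by norm_num)
      have h' : (fun v : ℝ ↦ Real.exp (-(v ^ 2 / 2))) = fun v : ℝ ↦ Real.exp (-(1 / 2) * v ^ 2) := by
        funext v; ring_nf
      exact (h' ▸ h).const_mul _
    have h1 := norm_integral_le_of_norm_le (f := fun v : ℝ ↦
      Φ (((2 - σ : ℝ) : ℂ) + v * I) / (((2 - σ : ℝ) : ℂ) + v * I)) hi (ae_of_all _ fun v ↦ ?_)
    · refine h1.trans (le_of_eq ?_)
      rw [integral_const_mul, hJ]; ring
    · set w : ℂ := ((2 - σ : ℝ) : ℂ) + v * I with hw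
      have hwre : w.re = 2 - σ := by simp [hw]
      have h2 : s + w = 2 + ((y + v : ℝ) : ℂ) * I := by
        rw [hs, hw]; push_cast; ring
      have h3 : (s + w).re = 2 := by rw [add_re, hsre, hwre]; ring
      have h4 : s + w ≠ 1 := by
        intro h
        rw [h] at h3
        norm_num at h3
      have h5 := Interp_G_right (T := T) (by linarith) h3
      have h6 : (1 / 2 : ℝ) ≤ ‖w‖ := by
        have := Complex.abs_re_le_norm w
        rw [hwre, abs_of_pos hu] at this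
        linarith
      have h7 : ‖Φ w‖ = ‖s + w - 1‖ * ‖Gf T (s + w)‖ * X0 ^ (2 - σ) *
          Real.exp ((2 - σ) ^ 2 - v ^ 2) := by
        rw [hΦ]
        simp only [norm_mul]
        rw [InterpH_eq h4, norm_mul, Interp_cpow hX0, hwre, hw, Interp_norm_exp]
      have h8 := hcommon w
      have h9 := Interp_one_add_norm (2 - σ) v (by rw [abs_of_pos hu]; linarith [hσ1, hl])
      rw [← hw] at h9
      have h10 : T ^ (-(1 / 8) : ℝ) * X0 ^ (2 - σ) ≤ P := by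
        rw [hX0d, ← Real.rpow_mul hT0.le, ← Real.rpow_add hT0, hP]
        refine Real.rpow_le_rpow_of_exponent_le (by linarith) ?_
        linarith
      rw [norm_div, div_le_iff₀ (by linarith), h7]
      calc ‖s + w - 1‖ * ‖Gf T (s + w)‖ * X0 ^ (2 - σ) * Real.exp ((2 - σ) ^ 2 - v ^ 2)
          ≤ (‖s - 1‖ * (1 + ‖w‖)) * (4 * T ^ (-(1 / 8) : ℝ)) * X0 ^ (2 - σ) *
            Real.exp ((2 - σ) ^ 2 - v ^ 2) := by gcongr
        _ = 4 * ‖s - 1‖ * (T ^ (-(1 / 8) : ℝ) * X0 ^ (2 - σ)) *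
            ((1 + ‖w‖) * Real.exp ((2 - σ) ^ 2 - v ^ 2)) := by ring
        _ ≤ 4 * ‖s - 1‖ * P * (4 * Real.exp 3 * Real.exp (-(v ^ 2 / 2))) := by gcongr
        _ = (‖s - 1‖ * P * (8 * E) * Real.exp (-(v ^ 2 / 2))) * (1 / 2) := by rw [hE]; ring
        _ ≤ (‖s - 1‖ * P * (8 * E) * Real.exp (-(v ^ 2 / 2))) * ‖w‖ := by gcongr
  -- left line
  set K : ℝ := ∫ v : ℝ, Real.exp (-(v ^ 2 / 2)) * ‖Gf T (1 / 2 + (y + v : ℝ) * I)‖ with hK
  have hK0 : 0 ≤ K := integral_nonneg fun v ↦ by positivity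
  have hleft : ‖∫ v : ℝ, Φ (((1 / 2 - σ : ℝ) : ℂ) + v * I) / (((1 / 2 - σ : ℝ) : ℂ) + v * I)‖ ≤
      ‖s - 1‖ * P * Real.log T * (E * K) := by
    have hi : Integrable fun v : ℝ ↦ (‖s - 1‖ * P * Real.log T * E) *
        (Real.exp (-(v ^ 2 / 2)) * ‖Gf T (1 / 2 + (y + v : ℝ) * I)‖) :=
      (Interp_integrable (by linarith) y).const_mul _
    have h1 := norm_integral_le_of_norm_le (f := fun v : ℝ ↦
      Φ (((1 / 2 - σ : ℝ) : ℂ) + v * I) / (((1 / 2 - σ : ℝ) : ℂ) + v * I)) hi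
      (ae_of_all _ fun v ↦ ?_)
    · refine h1.trans (le_of_eq ?_)
      rw [integral_const_mul, hK]; ring
    · set w : ℂ := ((1 / 2 - σ : ℝ) : ℂ) + v * I with hw
      have hwre : w.re = 1 / 2 - σ := by simp [hw]
      have h2 : s + w = 1 / 2 + ((y + v : ℝ) : ℂ) * I := by
        rw [hs, hw]; push_cast; ring
      have h3 : (s + w).re = 1 / 2 := by rw [add_re, hsre, hwre]; ring
      have h4 : s + w ≠ 1 := by
        intro h
        rw [h] at h3
        norm_num at h3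
      have h6 : 1 / Real.log T ≤ ‖w‖ := by
        have := Complex.abs_re_le_norm w
        rw [hwre, abs_of_neg hl] at this
        linarith
      have hw0 : 0 < ‖w‖ := lt_of_lt_of_le (by positivity) h6
      have h7 : ‖Φ w‖ = ‖s + w - 1‖ * ‖Gf T (s + w)‖ * X0 ^ (1 / 2 - σ) *
          Real.exp ((1 / 2 - σ) ^ 2 - v ^ 2) := by
        rw [hΦ]
        simp only [norm_mul]
        rw [InterpH_eq h4, norm_mul, Interp_cpow hX0, hwre, hw, Interp_norm_exp]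
      have h8 := hcommon w
      have h9 := Interp_one_add_norm (1 / 2 - σ) v (by rw [abs_of_neg hl]; linarith)
      rw [← hw] at h9
      have h10 : X0 ^ (1 / 2 - σ) = P := by
        rw [hX0d, ← Real.rpow_mul hT0.le, hP]
        congr 1; ring
      have h11 : 1 ≤ Real.log T * ‖w‖ := by
        rw [div_le_iff₀ hlog0] at h6
        linarith
      rw [norm_div, div_le_iff₀ hw0, h7, h10, h2]
      rw [h2] at h8
      calc ‖(1 / 2 + ((y + v : ℝ) : ℂ) * I) - 1‖ * ‖Gf T (1 / 2 + ((y + v : ℝ) : ℂ) * I)‖ * P *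
            Real.exp ((1 / 2 - σ) ^ 2 - v ^ 2)
          ≤ (‖s - 1‖ * (1 + ‖w‖)) * ‖Gf T (1 / 2 + ((y + v : ℝ) : ℂ) * I)‖ * P *
            Real.exp ((1 / 2 - σ) ^ 2 - v ^ 2) := by gcongr
        _ = ‖s - 1‖ * ‖Gf T (1 / 2 + ((y + v : ℝ) : ℂ) * I)‖ * P *
            ((1 + ‖w‖) * Real.exp ((1 / 2 - σ) ^ 2 - v ^ 2)) := by ring
        _ ≤ ‖s - 1‖ * ‖Gf T (1 / 2 + ((y + v : ℝ) : ℂ) * I)‖ * P *
            (4 * Real.exp 3 * Real.exp (-(v ^ 2 / 2))) := by gcongr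
        _ = (‖s - 1‖ * P * E * (Real.exp (-(v ^ 2 / 2)) *
            ‖Gf T (1 / 2 + ((y + v : ℝ) : ℂ) * I)‖)) * 1 := by rw [hE]; ring
        _ ≤ (‖s - 1‖ * P * E * (Real.exp (-(v ^ 2 / 2)) *
            ‖Gf T (1 / 2 + ((y + v : ℝ) : ℂ) * I)‖)) * (Real.log T * ‖w‖) := by gcongr
        _ = _ := by ring
  -- conclusion
  have hfin : 2 * Real.pi * (‖s - 1‖ * ‖Gf T s‖) ≤
      ‖s - 1‖ * P * (8 * E * J) + ‖s - 1‖ * P * Real.log T * (E * K) := by
    have h1 : ‖(2 * Real.pi * Φ 0 : ℂ)‖ = 2 * Real.pi * (‖s - 1‖ * ‖Gf T s‖) := by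
      rw [hΦ0, norm_mul, norm_mul, norm_mul, Complex.norm_real, Real.norm_of_nonneg Real.pi_pos.le]
      simp
    rw [← h1, ← hres]
    exact (norm_sub_le _ _).trans (add_le_add hright hleft)
  have h1 : 2 * Real.pi * ‖Gf T s‖ ≤ P * (8 * E * J) + P * Real.log T * (E * K) := by
    have h2 : 0 < ‖s - 1‖ := by linarith
    refine le_of_mul_le_mul_left ?_ h2
    calc ‖s - 1‖ * (2 * Real.pi * ‖Gf T s‖) = 2 * Real.pi * (‖s - 1‖ * ‖Gf T s‖) := by ring
      _ ≤ _ := hfin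
      _ = ‖s - 1‖ * (P * (8 * E * J) + P * Real.log T * (E * K)) := by ring
  have h2 : ‖Gf T s‖ ≤ 2 * Real.pi * ‖Gf T s‖ := by
    have := Real.pi_gt_three
    nlinarith [norm_nonneg (Gf T s)]
  have h3 : P * (8 * E * J) ≤ P * Real.log T * (8 * E * J) := by
    have : 0 ≤ P * (8 * E * J) := by positivity
    nlinarith
  calc ‖Gf T s‖ ≤ P * (8 * E * J) + P * Real.log T * (E * K) := h2.trans h1
    _ ≤ P * Real.log T * (8 * E * J) + P * Real.log T * (E * K) := by linarith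
    _ = Real.log T * P * (8 * E * J + E * K) := by ring
    _ ≤ Real.log T * P * ((8 * E * J + E + 1) * (1 + K)) := by
        gcongr
        have : 0 ≤ 8 * E * J := by positivity
        nlinarith
    _ = (8 * E * J + E + 1) * Real.log T * P * (1 + K) := by ring

end Pool.Agent.H62.ST
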