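import Pool.Agent.H62.ST.LogLow

/-!
# Module LogContour: contour shift for `Log (z - u) W(z)`

If `Im u < y0`: `log_up`. If `Im u > y1`: `log_low`. If `y0 < Im u < y1`: split at `Im u`, `log_up` on `[Im u, y1]`, `log_low` on `[y0, Im u]`: the horizontal integrals along
`Im z = Im u` combine to `I * (-2π I) ∫_{x0}^{max(x0, Re u)} W = 2π ∫ W` (`Re u < x1`).
-/

set_option autoImplicit false

open Complex Filter Topology MeasureTheory Set Metric
open scoped ArithmeticFunction.vonMangoldt

namespace Pool.Agent.H62.ST

open Pool.Agent.H6 Pool.Agent.H6.Win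

theorem log_contour {u : ℂ} {W : ℂ → ℂ} (hW : Differentiable ℂ W) {x0 x1 y0 y1 : ℝ}
    (hx : x0 < x1) (hy : y0 < y1) (hux : u.re < x1) (h0 : u.im ≠ y0) (h1 : u.im ≠ y1) :
    ∫ y in y0..y1, Complex.log ((x0 : ℂ) + y * I - u) * W (x0 + y * I) =
      (∫ y in y0..y1, Complex.log ((x1 : ℂ) + y * I - u) * W (x1 + y * I)) +
      (if x0 < u.re ∧ y0 < u.im ∧ u.im < y1 then
        2 * Real.pi * ∫ x in x0..u.re, W (x + u.im * I) else 0) -
      I * (∫ x in x0..x1, Complex.log ((x : ℂ) + y0 * I - u) * W (x + y0 * I)) +
      I * (∫ x in x0..x1, Complex.log ((x : ℂ) + y1 * I - u) * W (x + y1 * I)) := by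
  rcases lt_or_gt_of_ne h0 with h | h
  · have hc : ¬ (x0 < u.re ∧ y0 < u.im ∧ u.im < y1) := by
      rintro ⟨-, h2, -⟩
      exact absurd h2 (not_lt.mpr h.le)
    rw [if_neg hc, log_up hW hx h.le hy]
    ring
  rcases lt_or_gt_of_ne h1 with h' | h'
  · -- the middle case
    set m : ℝ := u.im with hm
    have e1 := log_up hW (u := u) hx (y0 := m) (y1 := y1) le_rfl h'
    have e2 := log_low hW (u := u) hx (y0 := y0) (y1 := m) h le_rfl
    have s0 := intervalIntegral.integral_add_adjacent_intervals
      (log_contour_integrable hW (u := u) x0 y0 m) (log_contour_integrable hW (u := u) x0 m y1)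
    have s1 := intervalIntegral.integral_add_adjacent_intervals
      (log_contour_integrable hW (u := u) x1 y0 m) (log_contour_integrable hW (u := u) x1 m y1)
    have hWc : Continuous fun x : ℝ ↦ W (x + m * I) := by
      refine hW.continuous.comp ?_
      fun_prop
    -- the jump
    set J : ℝ → ℂ := fun x ↦ (if m = m ∧ x < u.re then 2 * Real.pi * I else 0) * W (x + m * I)
      with hJ
    have hJeq : J = Set.indicator (Iio u.re) fun x : ℝ ↦ (2 * Real.pi * I) * W (x + m * I) := by
      funext x
      by_cases hxu : x < u.re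
      · rw [Set.indicator_of_mem (show x ∈ Iio u.re from hxu)]
        simp [hJ, hxu]
      · rw [Set.indicator_of_notMem (show x ∉ Iio u.re from hxu)]
        simp [hJ, hxu]
    have hWi : ∀ a b : ℝ, IntervalIntegrable (fun x : ℝ ↦ (2 * Real.pi * I) * W (x + m * I))
        volume a b := fun a b ↦ (continuous_const.mul hWc).intervalIntegrable a b
    have hJi : ∀ a b : ℝ, IntervalIntegrable J volume a b := by
      intro a b
      rw [hJeq]
      have := hWi a b
      rw [intervalIntegrable_iff] at this ⊢
      exact this.indicator measurableSet_Iio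
    have hsub : ∫ x in x0..x1, (Complex.log ((x : ℂ) + m * I - u) -
        if m = m ∧ x < u.re then 2 * Real.pi * I else 0) * W (x + m * I) =
        (∫ x in x0..x1, Complex.log ((x : ℂ) + m * I - u) * W (x + m * I)) -
        ∫ x in x0..x1, J x := by
      rw [← intervalIntegral.integral_sub (log_contour_integrable' hW x0 x1 m) (hJi x0 x1)]
      refine intervalIntegral.integral_congr fun x _ ↦ ?_
      simp only [hJ]
      ring
    have hJint : ∫ x in x0..x1, J x = if x0 < u.re then
        (2 * Real.pi * I) * ∫ x in x0..u.re, W (x + m * I) else 0 := by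
      by_cases hxu : x0 < u.re
      · rw [if_pos hxu, ← intervalIntegral.integral_add_adjacent_intervals (hJi x0 u.re)
          (hJi u.re x1)]
        have a1 : ∫ x in x0..u.re, J x = ∫ x in x0..u.re, (2 * Real.pi * I) * W (x + m * I) := by
          refine intervalIntegral.integral_congr_ae ?_
          have hne : ∀ᵐ x : ℝ, x ≠ u.re := by
            have := (measure_singleton (μ := (volume : Measure ℝ)) u.re)
            rw [ae_iff]
            simp
          filter_upwards [hne] with x hx1 hx2
          rw [uIoc_of_le hxu.le] at hx2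
          have : x < u.re := lt_of_le_of_ne hx2.2 hx1
          simp [hJ, this]
        have a2 : ∫ x in u.re..x1, J x = 0 := by
          have : ∫ x in u.re..x1, J x = ∫ x in u.re..x1, (0 : ℂ) := by
            refine intervalIntegral.integral_congr_ae ?_
            filter_upwards with x hx2
            rw [uIoc_of_le hux.le] at hx2
            have : ¬ x < u.re := not_lt.mpr hx2.1.le
            simp [hJ, this]
          rw [this, intervalIntegral.integral_zero]
        rw [a1, a2, add_zero, intervalIntegral.integral_const_mul]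
      · rw [if_neg hxu]
        have : ∫ x in x0..x1, J x = ∫ x in x0..x1, (0 : ℂ) := by
          refine intervalIntegral.integral_congr_ae ?_
          filter_upwards with x hx2
          rw [uIoc_of_le hx.le] at hx2
          have : ¬ x < u.re := by
            rw [not_lt] at hxu ⊢
            exact hxu.trans hx2.1.le
          simp [hJ, this]
        rw [this, intervalIntegral.integral_zero]
    rw [← s0, e1, e2, ← s1, hsub, hJint]
    by_cases hxu : x0 < u.re
    · rw [if_pos hxu, if_pos ⟨hxu, h, h'⟩]
      linear_combination (-(2 * Real.pi * ∫ x in x0..u.re, W (x + m * I))) * I_sq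
    · rw [if_neg hxu, if_neg (fun hh ↦ hxu hh.1)]
      ring
  · have hc : ¬ (x0 < u.re ∧ y0 < u.im ∧ u.im < y1) := by
      rintro ⟨-, -, h2⟩
      exact absurd h2 (not_lt.mpr (le_of_lt h'))
    have e2 := log_low hW (u := u) hx hy (le_of_lt h')
    rw [if_neg hc, e2]
    have : ∫ x in x0..x1, (Complex.log ((x : ℂ) + y1 * I - u) -
        if u.im = y1 ∧ x < u.re then 2 * Real.pi * I else 0) * W (x + y1 * I) =
        ∫ x in x0..x1, Complex.log ((x : ℂ) + y1 * I - u) * W (x + y1 * I) := by
      refine intervalIntegral.integral_congr fun x _ ↦ ?_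
      have : ¬ (u.im = y1 ∧ x < u.re) := fun hh ↦ h1 hh.1
      simp only [if_neg this, sub_zero]
    rw [this]
    ring

end Pool.Agent.H62.ST
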