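import Pool.Agent.H62.ST.LogUp

/-!
# Module LogLow: contour shift for `Log (z - u) W(z)` below the cut

Reflect `log_up`: `conj (Log (conj z - conj u)) = Log (z - u)` off the cut, and `= Log(z-u) - 2πi` on the cut (negative real axis); apply `log_up` to
`W*(z) = conj (W (conj z))`, `u* = conj u`, `y0* = -y1`, `y1* = -y0` and take complex conjugates (or repeat the proof of `log_up`).
-/

set_option autoImplicit false

open Complex Filter Topology MeasureTheory Set Metric
open scoped ArithmeticFunction.vonMangoldt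

namespace Pool.Agent.H62.ST

open Pool.Agent.H6 Pool.Agent.H6.Win

private lemma ll_conj (f : ℝ → ℂ) (a b : ℝ) :
    (starRingEnd ℂ) (∫ x in a..b, f x) = ∫ x in a..b, (starRingEnd ℂ) (f x) := by
  simp only [intervalIntegral, map_sub, integral_conj]

private lemma ll_log {w : ℂ} (hw : w.im ≠ 0) :
    (starRingEnd ℂ) (Complex.log ((starRingEnd ℂ) w)) = Complex.log w := by
  have h : w.arg ≠ Real.pi := fun h ↦ hw (Complex.arg_eq_pi_iff.1 h).2
  rw [Complex.log_conj w h, Complex.conj_conj]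

/-- the reflected logarithm on the real line -/
private lemma ll_log_real (r : ℝ) :
    (starRingEnd ℂ) (Complex.log ((starRingEnd ℂ) (r : ℂ))) =
      Complex.log (r : ℂ) - if r < 0 then 2 * Real.pi * I else 0 := by
  rw [Complex.conj_ofReal]
  split_ifs with hr
  · apply Complex.ext
    · simp [Complex.log_re]
    · simp [Complex.log_im, Complex.arg_ofReal_of_neg hr]
      ring
  · push Not at hr
    rw [sub_zero, ← Complex.ofReal_log hr, Complex.conj_ofReal]

private lemma ll_vert {u : ℂ} (W : ℂ → ℂ) {y0 y1 : ℝ} (hy : y0 < y1) (hu : y1 ≤ u.im) (x : ℝ) :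
    (starRingEnd ℂ) (∫ y in (-y1)..(-y0), Complex.log ((x : ℂ) + y * I - (starRingEnd ℂ) u) *
      (starRingEnd ℂ) (W ((starRingEnd ℂ) (x + y * I)))) =
    ∫ y in y0..y1, Complex.log ((x : ℂ) + y * I - u) * W (x + y * I) := by
  rw [ll_conj, ← intervalIntegral.integral_comp_neg]
  apply intervalIntegral.integral_congr_ae
  have hne : ∀ᵐ y : ℝ, y ≠ u.im := by
    have : (volume : Measure ℝ) {u.im} = 0 := by simp
    rw [ae_iff]
    simpa using this
  filter_upwards [hne] with y hy' _
  rw [map_mul, Complex.conj_conj]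
  have h1 : ((starRingEnd ℂ) ((x : ℂ) + ((-y : ℝ) : ℂ) * I)) = x + y * I := by
    simp
  have h2 : ((x : ℂ) + ((-y : ℝ) : ℂ) * I - (starRingEnd ℂ) u) =
      (starRingEnd ℂ) ((x : ℂ) + y * I - u) := by
    simp
  rw [h1, h2, ll_log]
  simpa [sub_eq_zero] using hy'

theorem log_low {u : ℂ} {W : ℂ → ℂ} (hW : Differentiable ℂ W) {x0 x1 y0 y1 : ℝ}
    (hx : x0 < x1) (hy : y0 < y1) (hu : y1 ≤ u.im) :
    ∫ y in y0..y1, Complex.log ((x0 : ℂ) + y * I - u) * W (x0 + y * I) =
      (∫ y in y0..y1, Complex.log ((x1 : ℂ) + y * I - u) * W (x1 + y * I)) -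
      I * (∫ x in x0..x1, Complex.log ((x : ℂ) + y0 * I - u) * W (x + y0 * I)) +
      I * (∫ x in x0..x1, (Complex.log ((x : ℂ) + y1 * I - u) -
        if u.im = y1 ∧ x < u.re then 2 * Real.pi * I else 0) * W (x + y1 * I)) := by
  have hW' : Differentiable ℂ (fun z ↦ (starRingEnd ℂ) (W ((starRingEnd ℂ) z))) := fun z ↦
    differentiableAt_conj_conj_iff.2 (hW _)
  have key := log_up (u := (starRingEnd ℂ) u) hW' (x0 := x0) (x1 := x1) (y0 := -y1) (y1 := -y0)
    hx (by simpa using hu) (by linarith)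
  have key2 := congrArg (starRingEnd ℂ) key
  rw [map_add, map_sub, map_mul, map_mul, Complex.conj_I] at key2
  have h0 : (starRingEnd ℂ) (∫ x in x0..x1, Complex.log ((x : ℂ) + ((-y0 : ℝ) : ℂ) * I -
      (starRingEnd ℂ) u) * (starRingEnd ℂ) (W ((starRingEnd ℂ) (x + ((-y0 : ℝ) : ℂ) * I)))) =
      ∫ x in x0..x1, Complex.log ((x : ℂ) + y0 * I - u) * W (x + y0 * I) := by
    rw [ll_conj]
    apply intervalIntegral.integral_congr
    intro x _
    simp only
    rw [map_mul, Complex.conj_conj]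
    have h1 : ((starRingEnd ℂ) ((x : ℂ) + ((-y0 : ℝ) : ℂ) * I)) = x + y0 * I := by
      simp
    have h2 : ((x : ℂ) + ((-y0 : ℝ) : ℂ) * I - (starRingEnd ℂ) u) =
        (starRingEnd ℂ) ((x : ℂ) + y0 * I - u) := by
      simp
    rw [h1, h2, ll_log]
    have : y0 < u.im := by linarith
    simp only [sub_im, add_im, ofReal_im, mul_im, ofReal_re, I_im, mul_one, I_re, mul_zero,
      add_zero, zero_add]
    intro h
    linarith
  have h1 : (starRingEnd ℂ) (∫ x in x0..x1, Complex.log ((x : ℂ) + ((-y1 : ℝ) : ℂ) * I -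
      (starRingEnd ℂ) u) * (starRingEnd ℂ) (W ((starRingEnd ℂ) (x + ((-y1 : ℝ) : ℂ) * I)))) =
      ∫ x in x0..x1, (Complex.log ((x : ℂ) + y1 * I - u) -
        if u.im = y1 ∧ x < u.re then 2 * Real.pi * I else 0) * W (x + y1 * I) := by
    rw [ll_conj]
    apply intervalIntegral.integral_congr
    intro x _
    simp only
    rw [map_mul, Complex.conj_conj]
    have h1 : ((starRingEnd ℂ) ((x : ℂ) + ((-y1 : ℝ) : ℂ) * I)) = x + y1 * I := by
      simp
    have h2 : ((x : ℂ) + ((-y1 : ℝ) : ℂ) * I - (starRingEnd ℂ) u) =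
        (starRingEnd ℂ) ((x : ℂ) + y1 * I - u) := by
      simp
    rw [h1, h2]
    congr 1
    by_cases hc : u.im = y1
    · have h3 : (x : ℂ) + y1 * I - u = ((x - u.re : ℝ) : ℂ) := by
        apply Complex.ext <;> simp [hc]
      rw [h3, ll_log_real]
      simp [hc]
    · rw [ll_log]
      · simp [hc]
      · simp only [sub_im, add_im, ofReal_im, mul_im, ofReal_re, I_im, mul_one, I_re, mul_zero,
          add_zero, zero_add]
        intro h
        exact hc (by linarith)
  rw [ll_vert W hy hu, ll_vert W hy hu, h0, h1] at key2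
  rw [key2]
  ring

end Pool.Agent.H62.ST
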