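import Pool.Agent.H62.ST.Defs

/-!
# Module LogUp: contour shift for `Log (z - u) W(z)` above the cut

The principal logarithm has its cut horizontally to the left of `u` and is continuous from above there (`Complex.log` of a negative real is `log|x| + iπ`).
Replace `u` by `u - iε`: the integrand is then holomorphic near the rectangle and
`Complex.integral_boundary_rect_eq_zero_of_differentiableOn` applies; let `ε → 0+` by dominated
convergence (`‖log (z - u + iε)‖ ≤ |log |Im z - Im u|| + C` on vertical edges,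
`≤ |log |Re z - Re u|| + C` on horizontal edges).
-/

set_option autoImplicit false

open Complex Filter Topology MeasureTheory Set Metric
open scoped ArithmeticFunction.vonMangoldt

namespace Pool.Agent.H62.ST

open Pool.Agent.H6 Pool.Agent.H6.Win

private lemma LogUp_norm_log_le {w : ℂ} {a : ℝ} (ha : a ≠ 0) (h : |a| ≤ ‖w‖) :
    ‖Complex.log w‖ ≤ |Real.log a| + ‖w‖ + Real.pi := by
  have hw : 0 < ‖w‖ := lt_of_lt_of_le (abs_pos.2 ha) h
  have h1 : ‖Complex.log w‖ ≤ |(Complex.log w).re| + |(Complex.log w).im| :=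
    Complex.norm_le_abs_re_add_abs_im _
  have h2 : |(Complex.log w).im| ≤ Real.pi := by
    rw [Complex.log_im]; exact Complex.abs_arg_le_pi w
  have h3 : |(Complex.log w).re| ≤ |Real.log a| + ‖w‖ := by
    rw [Complex.log_re]
    rcases le_total 1 ‖w‖ with h4 | h4
    · rw [abs_of_nonneg (Real.log_nonneg h4)]
      have h5 := Real.log_le_sub_one_of_pos hw
      have h6 := abs_nonneg (Real.log a)
      linarith
    · rw [abs_of_nonpos (Real.log_nonpos hw.le h4)]
      have h5 : Real.log |a| ≤ Real.log ‖w‖ := Real.log_le_log (abs_pos.2 ha) h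
      rw [Real.log_abs] at h5
      have h6 := neg_abs_le (Real.log a)
      linarith
  linarith

private lemma LogUp_bound_integrable {g V : ℝ → ℂ} (hg : Continuous g) (hV : Continuous V)
    (a b c : ℝ) :
    IntervalIntegrable (fun t ↦ (|Real.log (t - c)| + (‖g t‖ + 1) + Real.pi) * ‖V t‖)
      volume a b := by
  have h1 : IntervalIntegrable (fun t ↦ |Real.log (t - c)|) volume a b := by
    have h := (intervalIntegral.intervalIntegrable_log' (a := a - c) (b := b - c)).comp_sub_right c
    simpa using h.abs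
  have h2 : IntervalIntegrable (fun t ↦ |Real.log (t - c)| + (‖g t‖ + 1) + Real.pi)
      volume a b :=
    (h1.add ((hg.norm.add continuous_const).intervalIntegrable a b)).add
      (continuous_const.intervalIntegrable a b)
  exact h2.mul_continuousOn hV.norm.continuousOn

private lemma LogUp_integrable {g V : ℝ → ℂ} (hg : Continuous g) (hV : Continuous V)
    {a b c : ℝ} (hc : ∀ t, |t - c| ≤ ‖g t‖) :
    IntervalIntegrable (fun t ↦ Complex.log (g t) * V t) volume a b := by
  refine (LogUp_bound_integrable hg hV a b c).mono_fun ?_ ?_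
  · exact ((Complex.measurable_log.comp hg.measurable).mul hV.measurable).aestronglyMeasurable
  · have : ∀ᵐ t ∂(volume.restrict (Set.uIoc a b)), t ≠ c := by
      refine ae_restrict_of_ae ?_
      exact (Set.countable_singleton c).ae_notMem volume |>.mono fun t ht ↦ by simpa using ht
    filter_upwards [this] with t ht
    have h1 := LogUp_norm_log_le (sub_ne_zero.2 ht) (hc t)
    have hp := Real.pi_pos
    rw [norm_mul, Real.norm_of_nonneg (by positivity)]
    refine mul_le_mul_of_nonneg_right ?_ (norm_nonneg _)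
    linarith

private lemma LogUp_cwa {z : ℂ} (hz : z ≠ 0) (him : 0 ≤ z.im) :
    ContinuousWithinAt Complex.log {z : ℂ | 0 ≤ z.im} z := by
  by_cases h : z ∈ slitPlane
  · exact (continuousAt_clog h).continuousWithinAt
  · rw [Complex.mem_slitPlane_iff] at h
    push Not at h
    obtain ⟨h1, h2⟩ := h
    have h3 : z.re ≠ 0 := fun h3 ↦ hz (Complex.ext h3 h2)
    exact Complex.continuousWithinAt_log_of_re_neg_of_im_zero (lt_of_le_of_ne h1 h3) h2

private lemma LogUp_tendsto {g V : ℝ → ℂ} (hg : Continuous g) (hV : Continuous V)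
    {a b c : ℝ} (hc : ∀ t, |t - c| ≤ ‖g t‖)
    (hce : ∀ t ∈ Set.uIoc a b, ∀ ε : ℝ, 0 < ε → |t - c| ≤ ‖g t + ε * I‖)
    (him : ∀ t ∈ Set.uIoc a b, 0 ≤ (g t).im) :
    Tendsto (fun ε : ℝ ↦ ∫ t in a..b, Complex.log (g t + ε * I) * V t) (𝓝[>] 0)
      (𝓝 (∫ t in a..b, Complex.log (g t) * V t)) := by
  have hae : ∀ᵐ t : ℝ ∂volume, t ≠ c :=
    (Set.countable_singleton c).ae_notMem volume |>.mono fun t ht ↦ by simpa using ht
  refine intervalIntegral.tendsto_integral_filter_of_dominated_convergence
    (fun t ↦ (|Real.log (t - c)| + (‖g t‖ + 1) + Real.pi) * ‖V t‖) ?_ ?_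
    (LogUp_bound_integrable hg hV a b c) ?_
  · refine Eventually.of_forall fun ε ↦ ?_
    exact ((Complex.measurable_log.comp (hg.add continuous_const).measurable).mul
      hV.measurable).aestronglyMeasurable
  · have h0 : ∀ᶠ ε : ℝ in 𝓝[>] 0, ε ∈ Ioo (0 : ℝ) 1 := Ioo_mem_nhdsGT one_pos
    filter_upwards [h0] with ε hε
    filter_upwards [hae] with t ht hI
    have h1 := LogUp_norm_log_le (sub_ne_zero.2 ht) (hce t hI ε hε.1)
    have h2 : ‖g t + ε * I‖ ≤ ‖g t‖ + 1 := by
      refine (norm_add_le _ _).trans ?_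
      have : ‖(ε : ℂ) * I‖ ≤ 1 := by
        rw [norm_mul, Complex.norm_I, mul_one, Complex.norm_real, Real.norm_of_nonneg hε.1.le]
        exact hε.2.le
      linarith
    rw [norm_mul]
    refine mul_le_mul_of_nonneg_right ?_ (norm_nonneg _)
    linarith
  · filter_upwards [hae] with t ht hI
    have hz : g t ≠ 0 := by
      intro h
      have := hc t
      rw [h, norm_zero] at this
      exact ht (sub_eq_zero.1 (abs_eq_zero.1 (le_antisymm this (abs_nonneg _))))
    have h1 := LogUp_cwa hz (him t hI)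
    have h2 : Tendsto (fun ε : ℝ ↦ g t + ε * I) (𝓝[>] 0) (𝓝[{z : ℂ | 0 ≤ z.im}] (g t)) := by
      refine tendsto_nhdsWithin_iff.2 ⟨?_, ?_⟩
      · have : Continuous fun ε : ℝ ↦ g t + ε * I := by fun_prop
        have h3 := this.tendsto 0
        simp only [ofReal_zero, zero_mul, add_zero] at h3
        exact h3.mono_left nhdsWithin_le_nhds
      · filter_upwards [self_mem_nhdsWithin] with ε hε
        have h4 := him t hI
        have hε' : (0 : ℝ) < ε := hε
        simp only [add_im, mul_im, ofReal_re, I_im, mul_one, ofReal_im, I_re,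
          mul_zero, add_zero]
        linarith
    exact (h1.tendsto.comp h2).mul_const _

lemma log_contour_integrable {u : ℂ} {W : ℂ → ℂ} (hW : Differentiable ℂ W) (x0 y0 y1 : ℝ) :
    IntervalIntegrable (fun y : ℝ ↦ Complex.log ((x0 : ℂ) + y * I - u) * W (x0 + y * I))
      volume y0 y1 := by
  have hWc := hW.continuous
  refine LogUp_integrable (g := fun y : ℝ ↦ (x0 : ℂ) + y * I - u) (c := u.im) (by fun_prop)
    (by fun_prop) fun t ↦ ?_
  have := Complex.abs_im_le_norm ((x0 : ℂ) + t * I - u)
  simpa using this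

lemma log_contour_integrable' {u : ℂ} {W : ℂ → ℂ} (hW : Differentiable ℂ W) (x0 x1 y : ℝ) :
    IntervalIntegrable (fun x : ℝ ↦ Complex.log ((x : ℂ) + y * I - u) * W (x + y * I))
      volume x0 x1 := by
  have hWc := hW.continuous
  refine LogUp_integrable (g := fun x : ℝ ↦ (x : ℂ) + y * I - u) (c := u.re) (by fun_prop)
    (by fun_prop) fun t ↦ ?_
  have := Complex.abs_re_le_norm ((t : ℂ) + y * I - u)
  simpa using this

theorem log_up {u : ℂ} {W : ℂ → ℂ} (hW : Differentiable ℂ W) {x0 x1 y0 y1 : ℝ}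
    (hx : x0 < x1) (hu : u.im ≤ y0) (hy : y0 < y1) :
    ∫ y in y0..y1, Complex.log ((x0 : ℂ) + y * I - u) * W (x0 + y * I) =
      (∫ y in y0..y1, Complex.log ((x1 : ℂ) + y * I - u) * W (x1 + y * I)) -
      I * (∫ x in x0..x1, Complex.log ((x : ℂ) + y0 * I - u) * W (x + y0 * I)) +
      I * (∫ x in x0..x1, Complex.log ((x : ℂ) + y1 * I - u) * W (x + y1 * I)) := by
  have hWc := hW.continuous
  -- vertical limits
  have hv : ∀ x : ℝ, Tendsto (fun ε : ℝ ↦ ∫ y in y0..y1,
      Complex.log ((x : ℂ) + y * I - u + ε * I) * W (x + y * I)) (𝓝[>] 0)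
      (𝓝 (∫ y in y0..y1, Complex.log ((x : ℂ) + y * I - u) * W (x + y * I))) := by
    intro x
    refine LogUp_tendsto (g := fun y : ℝ ↦ (x : ℂ) + y * I - u) (c := u.im) (by fun_prop)
      (by fun_prop) (fun t ↦ ?_) (fun t ht ε hε ↦ ?_) fun t ht ↦ ?_
    · have := Complex.abs_im_le_norm ((x : ℂ) + t * I - u)
      simpa using this
    · rw [uIoc_of_le hy.le] at ht
      have h1 := Complex.abs_im_le_norm ((x : ℂ) + t * I - u + ε * I)
      have h2 : ((x : ℂ) + t * I - u + ε * I).im = t - u.im + ε := by simp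
      rw [h2] at h1
      refine le_trans ?_ h1
      rw [abs_of_nonneg (by linarith [ht.1]), abs_of_nonneg (by linarith [ht.1])]
      linarith
    · rw [uIoc_of_le hy.le] at ht
      have h2 : ((x : ℂ) + t * I - u).im = t - u.im := by simp
      simp only [h2]
      linarith [ht.1]
  -- horizontal limits
  have hh : ∀ y : ℝ, u.im ≤ y → Tendsto (fun ε : ℝ ↦ ∫ x in x0..x1,
      Complex.log ((x : ℂ) + y * I - u + ε * I) * W (x + y * I)) (𝓝[>] 0)
      (𝓝 (∫ x in x0..x1, Complex.log ((x : ℂ) + y * I - u) * W (x + y * I))) := by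
    intro y hy'
    refine LogUp_tendsto (g := fun x : ℝ ↦ (x : ℂ) + y * I - u) (c := u.re) (by fun_prop)
      (by fun_prop) (fun t ↦ ?_) (fun t ht ε hε ↦ ?_) fun t ht ↦ ?_
    · have := Complex.abs_re_le_norm ((t : ℂ) + y * I - u)
      simpa using this
    · have h1 := Complex.abs_re_le_norm ((t : ℂ) + y * I - u + ε * I)
      simpa using h1
    · have h2 : ((t : ℂ) + y * I - u).im = y - u.im := by simp
      simp only [h2]
      linarith
  -- the identity for `ε > 0`
  have hid : ∀ᶠ ε : ℝ in 𝓝[>] 0,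
      (∫ y in y0..y1, Complex.log ((x1 : ℂ) + y * I - u + ε * I) * W (x1 + y * I)) -
      I * (∫ x in x0..x1, Complex.log ((x : ℂ) + y0 * I - u + ε * I) * W (x + y0 * I)) +
      I * (∫ x in x0..x1, Complex.log ((x : ℂ) + y1 * I - u + ε * I) * W (x + y1 * I)) =
      ∫ y in y0..y1, Complex.log ((x0 : ℂ) + y * I - u + ε * I) * W (x0 + y * I) := by
    filter_upwards [self_mem_nhdsWithin] with ε hε
    have hε' : (0 : ℝ) < ε := hε
    have hd : DifferentiableOn ℂ (fun z : ℂ ↦ Complex.log (z - u + ε * I) * W z)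
        (Set.uIcc ((x0 : ℂ) + y0 * I).re ((x1 : ℂ) + y1 * I).re ×ℂ
          Set.uIcc ((x0 : ℂ) + y0 * I).im ((x1 : ℂ) + y1 * I).im) := by
      intro z hz
      rw [Complex.mem_reProdIm] at hz
      have h2 : y0 ≤ z.im := by
        have := hz.2
        simp only [add_im, ofReal_im, mul_im, ofReal_re, I_im, mul_one, I_re, mul_zero, add_zero,
          zero_add] at this
        rw [uIcc_of_le hy.le] at this
        exact this.1
      have h3 : z - u + ε * I ∈ slitPlane := by
        rw [Complex.mem_slitPlane_iff]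
        right
        have : (z - u + ε * I).im = z.im - u.im + ε := by simp
        rw [this]
        linarith [h2]
      have h4 : DifferentiableAt ℂ (fun z : ℂ ↦ z - u + ε * I) z := by fun_prop
      exact ((h4.clog h3).mul (hW z)).differentiableWithinAt
    have hc := Complex.integral_boundary_rect_eq_zero_of_differentiableOn _ _ _ hd
    simp only [add_im, ofReal_im, mul_im, ofReal_re, I_im, mul_one, I_re, mul_zero, add_zero,
      zero_add, add_re, mul_re, sub_zero, smul_eq_mul] at hc
    have hI : I * I = -1 := Complex.I_mul_I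
    linear_combination (-I) * hc + ((∫ y in y0..y1, Complex.log ((x1 : ℂ) + y * I - u + ε * I) *
      W (x1 + y * I)) - ∫ y in y0..y1, Complex.log ((x0 : ℂ) + y * I - u + ε * I) *
      W (x0 + y * I)) * hI
  have hlim := ((hv x1).sub ((hh y0 hu).const_mul I)).add
    ((hh y1 (hu.trans hy.le)).const_mul I)
  exact tendsto_nhds_unique (hv x0) (hlim.congr' hid)

end Pool.Agent.H62.ST
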