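import Pool.Agent.H62.ST.Defs

/-!
# Module LogZeta: the Dirichlet series of `log ζ`

`lz s = ∑ Λ(n)/log n n^{-s}` for `Re s > 1` is `LSeries` of `Λ/log` (the term `n = 0` is `0` because `Λ 0 = 0`); abscissa of absolute convergence `≤ 1`
(`|Λ n/log n| ≤ 1`). Derivative: `LSeries_hasDerivAt`, `logMul (Λ/log) = Λ`, `ArithmeticFunction.LSeries_vonMangoldt_eq_deriv_riemannZeta_div`
(`LSeries Λ = -ζ'/ζ`). Hence `ζ exp(-lz)` has derivative `0` on `Re s > 1` (convex), and tends to `1` along the reals `→ ∞`.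
(Alternative: Euler product, `riemannZeta_eulerProduct_exp_log`.) `lz` real at real points. `‖lz s‖ ≤ ∑_{n ≥ 2} n^{-2} ≤ 1` for `Re s = 2`.
-/

set_option autoImplicit false

open Complex Filter Topology MeasureTheory Set Metric
open scoped ArithmeticFunction.vonMangoldt

namespace Pool.Agent.H62.ST

open Pool.Agent.H6 Pool.Agent.H6.Win

private noncomputable def LogZeta_a (n : ℕ) : ℂ := ((Λ n / Real.log n : ℝ) : ℂ)

private lemma LogZeta_norm_a_le (n : ℕ) : ‖LogZeta_a n‖ ≤ 1 := by
  unfold LogZeta_a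
  rw [norm_real, Real.norm_eq_abs, abs_of_nonneg (div_nonneg
    ArithmeticFunction.vonMangoldt_nonneg (Real.log_natCast_nonneg n))]
  exact div_le_one_of_le₀ ArithmeticFunction.vonMangoldt_le_log (Real.log_natCast_nonneg n)

private lemma LogZeta_term (s : ℂ) (n : ℕ) :
    ((Λ n / Real.log n : ℝ) : ℂ) * (n : ℂ) ^ (-s) = LSeries.term LogZeta_a s n := by
  unfold LSeries.term LogZeta_a
  split_ifs with h
  · subst h; simp
  · rw [cpow_neg, ← div_eq_mul_inv]

private lemma LogZeta_lz : lz = LSeries LogZeta_a := by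
  funext s
  unfold lz LSeries
  exact tsum_congr fun n ↦ LogZeta_term s n

private lemma LogZeta_absc : LSeries.abscissaOfAbsConv LogZeta_a ≤ 1 :=
  LSeries.abscissaOfAbsConv_le_of_le_const ⟨1, fun n _ ↦ LogZeta_norm_a_le n⟩

lemma lz_summable {s : ℂ} (hs : 1 < s.re) :
    Summable fun n : ℕ ↦ ((Λ n / Real.log n : ℝ) : ℂ) * (n : ℂ) ^ (-s) := by
  simp_rw [LogZeta_term]
  exact LSeriesSummable_of_bounded_of_one_lt_re (m := 1) (fun n _ ↦ LogZeta_norm_a_le n) hs

private lemma LogZeta_absc_lt {s : ℂ} (hs : 1 < s.re) :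
    LSeries.abscissaOfAbsConv LogZeta_a < s.re := by
  refine lt_of_le_of_lt LogZeta_absc ?_
  exact_mod_cast hs

private lemma LogZeta_logMul (n : ℕ) : LSeries.logMul LogZeta_a n = (Λ n : ℂ) := by
  unfold LSeries.logMul LogZeta_a
  rcases eq_or_ne n 0 with h0 | h0
  · subst h0; simp
  rcases eq_or_ne n 1 with h1 | h1
  · subst h1; simp
  have hl : Real.log n ≠ 0 := by
    have : (1 : ℝ) < n := by
      have : 2 ≤ n := by omega
      exact_mod_cast this
    exact (Real.log_pos this).ne'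
  rw [← Complex.natCast_log, ← Complex.ofReal_mul]
  congr 1
  field_simp

private lemma LogZeta_hasDerivAt {s : ℂ} (hs : 1 < s.re) :
    HasDerivAt lz (deriv riemannZeta s / riemannZeta s) s := by
  have h := LSeries_hasDerivAt (LogZeta_absc_lt hs)
  rw [← LogZeta_lz] at h
  have h2 : LSeries (LSeries.logMul LogZeta_a) s = - deriv riemannZeta s / riemannZeta s := by
    rw [← ArithmeticFunction.LSeries_vonMangoldt_eq_deriv_riemannZeta_div hs]
    congr 1
    funext n
    exact LogZeta_logMul n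
  rw [h2] at h
  convert h using 1
  ring

lemma lz_differentiableAt {s : ℂ} (hs : 1 < s.re) : DifferentiableAt ℂ lz s :=
  (LogZeta_hasDerivAt hs).differentiableAt

theorem exp_lz {s : ℂ} (hs : 1 < s.re) : cexp (lz s) = riemannZeta s := by
  set F : ℂ → ℂ := fun z ↦ riemannZeta z * cexp (-lz z) with hF
  have hopen : IsOpen {z : ℂ | 1 < z.re} := Complex.isOpen_re_gt 1
  have hpre : IsPreconnected {z : ℂ | 1 < z.re} := (convex_halfSpace_re_gt 1).isPreconnected
  have hder : ∀ z : ℂ, 1 < z.re → HasDerivAt F 0 z := by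
    intro z hz
    have hz1 : z ≠ 1 := by intro h; rw [h, one_re] at hz; exact lt_irrefl _ hz
    have hne : riemannZeta z ≠ 0 := riemannZeta_ne_zero_of_one_lt_re hz
    have h1 : HasDerivAt riemannZeta (deriv riemannZeta z) z :=
      (differentiableAt_riemannZeta hz1).hasDerivAt
    have h2 := (LogZeta_hasDerivAt hz).neg.cexp
    have h3 := h1.mul h2
    have h4 : riemannZeta z * (deriv riemannZeta z / riemannZeta z) = deriv riemannZeta z := by
      field_simp
    refine h3.congr_deriv ?_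
    simp only [Pi.neg_apply]
    linear_combination (-cexp (-lz z)) * h4
  have hconst : ∀ x ∈ {z : ℂ | 1 < z.re}, ∀ y ∈ {z : ℂ | 1 < z.re}, F x = F y := by
    intro x hx y hy
    exact hopen.is_const_of_deriv_eq_zero hpre
      (fun z hz ↦ (hder z hz).differentiableAt.differentiableWithinAt)
      (fun z hz ↦ (hder z hz).deriv) hx hy
  have hlim1 : Tendsto (fun x : ℝ ↦ riemannZeta x) atTop (𝓝 1) := by
    have h := LSeries.tendsto_atTop (f := 1) (by
      rw [LSeries.abscissaOfAbsConv_one]; exact EReal.coe_lt_top 1)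
    refine (h.congr' ?_)
    filter_upwards [eventually_gt_atTop (1 : ℝ)] with x hx
    exact LSeries_one_eq_riemannZeta (by simpa using hx)
  have hlim2 : Tendsto (fun x : ℝ ↦ lz x) atTop (𝓝 0) := by
    have h := LSeries.tendsto_atTop (f := LogZeta_a)
      (lt_of_le_of_lt LogZeta_absc (EReal.coe_lt_top 1))
    rw [← LogZeta_lz] at h
    have h0 : LogZeta_a 1 = 0 := by simp [LogZeta_a]
    rwa [h0] at h
  have hlim : Tendsto (fun x : ℝ ↦ F x) atTop (𝓝 1) := by
    have h3 : Tendsto (fun x : ℝ ↦ cexp (-lz x)) atTop (𝓝 1) := by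
      have := (Complex.continuous_exp.tendsto _).comp hlim2.neg
      simp only [neg_zero, Complex.exp_zero] at this
      exact this
    simpa using hlim1.mul h3
  have hF1 : F s = 1 := by
    refine tendsto_nhds_unique (tendsto_const_nhds (x := F s) (f := (atTop : Filter ℝ))) ?_
    refine hlim.congr' ?_
    filter_upwards [eventually_gt_atTop (1 : ℝ)] with x hx
    exact hconst _ (by simpa using hx) _ hs
  have h4 : riemannZeta s * cexp (-lz s) = 1 := hF1
  have h5 : cexp (lz s) * cexp (-lz s) = 1 := by rw [← Complex.exp_add]; simp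
  have h6 : cexp (-lz s) ≠ 0 := Complex.exp_ne_zero _
  exact mul_right_cancel₀ h6 (h5.trans h4.symm)

lemma lz_two_im : (lz 2).im = 0 := by
  have h : lz 2 = ((∑' n : ℕ, (Λ n / Real.log n) * (n : ℝ) ^ (-(2 : ℝ)) : ℝ) : ℂ) := by
    unfold lz
    rw [Complex.ofReal_tsum]
    refine tsum_congr fun n ↦ ?_
    rw [Complex.ofReal_mul, Complex.ofReal_cpow (Nat.cast_nonneg n)]
    norm_num
  rw [h, Complex.ofReal_im]

lemma norm_lz_le {s : ℂ} (hs : s.re = 2) : ‖lz s‖ ≤ 1 := by
  set b : ℕ → ℝ := fun n ↦ (1 : ℝ) / (n : ℝ) ^ 2 with hb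
  set c : ℕ → ℝ := fun n ↦ if n = 1 then (1 : ℝ) else 0 with hc
  have hsb : HasSum b (Real.pi ^ 2 / 6) := hasSum_zeta_two
  have hsc : HasSum c 1 := hasSum_ite_eq 1 (1 : ℝ)
  have hsum := hsb.sub hsc
  have hle : ∀ n : ℕ, ‖((Λ n / Real.log n : ℝ) : ℂ) * (n : ℂ) ^ (-s)‖ ≤ b n - c n := by
    intro n
    rcases eq_or_ne n 0 with h0 | h0
    · subst h0
      simp [hb, hc]
    rcases eq_or_ne n 1 with h1 | h1
    · subst h1
      simp [hb, hc]
    have hn : 0 < n := Nat.pos_of_ne_zero h0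
    have e1 : ‖(n : ℂ) ^ (-s)‖ = 1 / (n : ℝ) ^ 2 := by
      rw [Complex.norm_natCast_cpow_of_pos hn, neg_re, hs, Real.rpow_neg (Nat.cast_nonneg n)]
      norm_num
    have e2 := LogZeta_norm_a_le n
    unfold LogZeta_a at e2
    rw [norm_mul, e1]
    simp only [hb, hc, if_neg h1, sub_zero]
    have : 0 ≤ 1 / (n : ℝ) ^ 2 := by positivity
    nlinarith
  have h1 := tsum_of_norm_bounded hsum hle
  have h2 : Real.pi ^ 2 / 6 - 1 ≤ 1 := by
    have h3 := Real.pi_lt_d2
    have h4 := Real.pi_pos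
    nlinarith
  unfold lz
  exact h1.trans h2

end Pool.Agent.H62.ST
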