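import Pool.Agent.H62.ST.DivA
import Pool.Agent.H62.ST.DivB

/-!
# Module Loss: the loss lemma

`k = ⌈√(log T)⌉₊ + 3`. For `m ≥ 1`, Cauchy-Schwarz over the pairs `(n, l)` with `n l = m`:
`‖conv A N a r m‖^2 ≤ (∑_{n | m} 1/uk k n) * (∑_{n l = m} uk k n ‖a n‖^2 ‖r l‖^2)`, `‖a n‖^2 ≤ 1/n`.
Sum over `m ∈ [1, A N]` (every pair `(n,l) ∈ [1,A] × [1,N]` occurs once):
`≤ exp (2 log (A N)/(k-2)) * (∑_{n ≤ A} uk k n / n) * nsq N r ≤ exp (4 √(log T)) * (1 + log T)^k * nsq N r`,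
and `log (1 + log T) ≤ 2 log log T`, `k ≤ 2 √(log T)` for large `T`.
-/

set_option autoImplicit false

open Complex Filter Topology MeasureTheory Set Metric
open scoped ArithmeticFunction.vonMangoldt

namespace Pool.Agent.H62.ST

open Pool.Agent.H6 Pool.Agent.H6.Win

private lemma Loss_nsq_nonneg (N : ℕ) (r : ℕ → ℂ) : 0 ≤ nsq N r :=
  Finset.sum_nonneg fun _ _ ↦ by positivity

/-- Cauchy-Schwarz at one `m`. -/
private lemma Loss_cs {k : ℕ} (hk : 3 ≤ k) (A N : ℕ) (a r : ℕ → ℂ)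
    (ha : ∀ n ∈ Finset.Icc 1 A, ‖a n‖ ≤ (n : ℝ) ^ (-(1 / 2) : ℝ)) {m : ℕ} (hm : 1 ≤ m)
    (hmAN : m ≤ A * N) :
    ‖conv A N a r m‖ ^ 2 ≤ Real.exp (2 * Real.log ((A * N : ℕ) : ℝ) / (k - 2)) *
      ∑ p ∈ (Finset.Icc 1 A ×ˢ Finset.Icc 1 N) with p.1 * p.2 = m,
        ((uk k p.1 : ℝ) / p.1) * ‖r p.2‖ ^ 2 := by
  have hk1 : 1 ≤ k := by omega
  have hkr : (0 : ℝ) < (k : ℝ) - 2 := by
    have : (3 : ℝ) ≤ k := by exact_mod_cast hk
    linarith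
  have h1 : ‖conv A N a r m‖ ≤
      ∑ p ∈ (Finset.Icc 1 A ×ˢ Finset.Icc 1 N) with p.1 * p.2 = m, ‖a p.1‖ * ‖r p.2‖ := by
    unfold conv
    refine (norm_sum_le _ _).trans (le_of_eq ?_)
    refine Finset.sum_congr rfl fun p _ ↦ ?_
    exact norm_mul _ _
  have h0 : 0 ≤ ∑ p ∈ (Finset.Icc 1 A ×ˢ Finset.Icc 1 N) with p.1 * p.2 = m,
      ‖a p.1‖ * ‖r p.2‖ := Finset.sum_nonneg fun _ _ ↦ by positivity
  have hmem : ∀ p ∈ (Finset.Icc 1 A ×ˢ Finset.Icc 1 N).filter (fun p ↦ p.1 * p.2 = m),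
      1 ≤ p.1 ∧ p.1 ≤ A ∧ 1 ≤ p.2 ∧ p.2 ≤ N ∧ p.1 * p.2 = m := by
    intro p hp
    rw [Finset.mem_filter, Finset.mem_product, Finset.mem_Icc, Finset.mem_Icc] at hp
    exact ⟨hp.1.1.1, hp.1.1.2, hp.1.2.1, hp.1.2.2, hp.2⟩
  have h2 : (∑ p ∈ (Finset.Icc 1 A ×ˢ Finset.Icc 1 N) with p.1 * p.2 = m,
      ‖a p.1‖ * ‖r p.2‖) ^ 2 ≤
      (∑ p ∈ (Finset.Icc 1 A ×ˢ Finset.Icc 1 N) with p.1 * p.2 = m, (1 : ℝ) / uk k p.1) *
      (∑ p ∈ (Finset.Icc 1 A ×ˢ Finset.Icc 1 N) with p.1 * p.2 = m,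
        (uk k p.1 : ℝ) * (‖a p.1‖ ^ 2 * ‖r p.2‖ ^ 2)) := by
    refine Finset.sum_sq_le_sum_mul_sum_of_sq_eq_mul _ (fun p _ ↦ by positivity)
      (fun p _ ↦ by positivity) fun p hp ↦ ?_
    have hpos : (0 : ℝ) < uk k p.1 := by exact_mod_cast uk_pos hk1 (hmem p hp).1
    field_simp
  have h3 : (∑ p ∈ (Finset.Icc 1 A ×ˢ Finset.Icc 1 N) with p.1 * p.2 = m,
      (1 : ℝ) / uk k p.1) ≤ Real.exp (2 * Real.log ((A * N : ℕ) : ℝ) / (k - 2)) := by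
    have hinj : Set.InjOn (fun p : ℕ × ℕ ↦ p.1)
        ((Finset.Icc 1 A ×ˢ Finset.Icc 1 N).filter (fun p ↦ p.1 * p.2 = m) : Finset (ℕ × ℕ)) := by
      intro p hp q hq hpq
      have hp' := hmem p (by exact_mod_cast hp)
      have hq' := hmem q (by exact_mod_cast hq)
      simp only at hpq
      ext
      · exact hpq
      · have : p.1 * p.2 = p.1 * q.2 := by rw [hp'.2.2.2.2, hpq, hq'.2.2.2.2]
        exact Nat.eq_of_mul_eq_mul_left (by omega) this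
    rw [← Finset.sum_image (f := fun n : ℕ ↦ (1 : ℝ) / uk k n) hinj]
    refine (Finset.sum_le_sum_of_subset_of_nonneg (t := m.divisors) ?_
      fun _ _ _ ↦ by positivity).trans ((sum_inv_uk hk hm).trans ?_)
    · intro n hn
      rw [Finset.mem_image] at hn
      obtain ⟨p, hp, rfl⟩ := hn
      rw [Nat.mem_divisors]
      exact ⟨⟨p.2, (hmem p hp).2.2.2.2.symm⟩, by omega⟩
    · rw [Real.exp_le_exp]
      have : Real.log (m : ℝ) ≤ Real.log ((A * N : ℕ) : ℝ) := by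
        refine Real.log_le_log (by exact_mod_cast hm) (by exact_mod_cast hmAN)
      gcongr
  have h4 : (∑ p ∈ (Finset.Icc 1 A ×ˢ Finset.Icc 1 N) with p.1 * p.2 = m,
        (uk k p.1 : ℝ) * (‖a p.1‖ ^ 2 * ‖r p.2‖ ^ 2)) ≤
      ∑ p ∈ (Finset.Icc 1 A ×ˢ Finset.Icc 1 N) with p.1 * p.2 = m,
        ((uk k p.1 : ℝ) / p.1) * ‖r p.2‖ ^ 2 := by
    refine Finset.sum_le_sum fun p hp ↦ ?_
    obtain ⟨hp1, hp2, -, -, -⟩ := hmem p hp
    have hpos : (0 : ℝ) < p.1 := by exact_mod_cast hp1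
    have h5 : ‖a p.1‖ ^ 2 ≤ 1 / (p.1 : ℝ) := by
      have := ha p.1 (Finset.mem_Icc.mpr ⟨hp1, hp2⟩)
      calc ‖a p.1‖ ^ 2 ≤ ((p.1 : ℝ) ^ (-(1 / 2) : ℝ)) ^ 2 := by gcongr
        _ = 1 / (p.1 : ℝ) := by
          rw [← Real.rpow_natCast, ← Real.rpow_mul hpos.le]
          norm_num
          rw [Real.rpow_neg_one]
    calc (uk k p.1 : ℝ) * (‖a p.1‖ ^ 2 * ‖r p.2‖ ^ 2)
        ≤ (uk k p.1 : ℝ) * (1 / (p.1 : ℝ) * ‖r p.2‖ ^ 2) := by gcongr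
      _ = ((uk k p.1 : ℝ) / p.1) * ‖r p.2‖ ^ 2 := by ring
  calc ‖conv A N a r m‖ ^ 2 ≤ (∑ p ∈ (Finset.Icc 1 A ×ˢ Finset.Icc 1 N) with p.1 * p.2 = m,
        ‖a p.1‖ * ‖r p.2‖) ^ 2 := by gcongr
    _ ≤ _ := h2
    _ ≤ _ := by
      refine mul_le_mul h3 h4 (Finset.sum_nonneg fun _ _ ↦ by positivity) (Real.exp_pos _).le

/-- The loss with the parameter `k`. -/
private lemma Loss_sum {k : ℕ} (hk : 3 ≤ k) (A N : ℕ) (hA : 1 ≤ A) (a r : ℕ → ℂ)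
    (ha : ∀ n ∈ Finset.Icc 1 A, ‖a n‖ ≤ (n : ℝ) ^ (-(1 / 2) : ℝ)) :
    nsq (A * N) (conv A N a r) ≤ Real.exp (2 * Real.log ((A * N : ℕ) : ℝ) / (k - 2)) *
      ((1 + Real.log A) ^ k * nsq N r) := by
  unfold nsq
  have h1 : ∑ m ∈ Finset.Icc 1 (A * N), ‖conv A N a r m‖ ^ 2 ≤
      ∑ m ∈ Finset.Icc 1 (A * N), Real.exp (2 * Real.log ((A * N : ℕ) : ℝ) / (k - 2)) *
      ∑ p ∈ (Finset.Icc 1 A ×ˢ Finset.Icc 1 N) with p.1 * p.2 = m,
        ((uk k p.1 : ℝ) / p.1) * ‖r p.2‖ ^ 2 := by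
    refine Finset.sum_le_sum fun m hm ↦ ?_
    rw [Finset.mem_Icc] at hm
    exact Loss_cs hk A N a r ha hm.1 hm.2
  refine h1.trans ?_
  rw [← Finset.mul_sum]
  refine mul_le_mul_of_nonneg_left ?_ (Real.exp_pos _).le
  rw [Finset.sum_fiberwise_of_maps_to (g := fun p : ℕ × ℕ ↦ p.1 * p.2)
    (f := fun p : ℕ × ℕ ↦ ((uk k p.1 : ℝ) / p.1) * ‖r p.2‖ ^ 2)]
  · rw [Finset.sum_product' (s := Finset.Icc 1 A) (t := Finset.Icc 1 N)
      (f := fun n l ↦ ((uk k n : ℝ) / n) * ‖r l‖ ^ 2), ← Finset.sum_mul_sum]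
    refine mul_le_mul_of_nonneg_right (sum_uk_div k A hA) ?_
    exact Finset.sum_nonneg fun _ _ ↦ by positivity
  · intro p hp
    rw [Finset.mem_product, Finset.mem_Icc, Finset.mem_Icc] at hp
    rw [Finset.mem_Icc]
    exact ⟨Nat.mul_pos hp.1.1 hp.2.1, Nat.mul_le_mul hp.1.2 hp.2.2⟩

theorem conv_loss : ∃ C : ℝ, 0 < C ∧ ∀ᶠ T : ℝ in atTop, ∀ (A N : ℕ) (a r : ℕ → ℂ),
    (A : ℝ) ≤ T → (N : ℝ) ≤ T →
    (∀ n ∈ Finset.Icc 1 A, ‖a n‖ ≤ (n : ℝ) ^ (-(1 / 2) : ℝ)) →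
    nsq (A * N) (conv A N a r) ≤ loss C T * nsq N r := by
  refine ⟨8, by norm_num, ?_⟩
  filter_upwards [eventually_ge_atTop (Real.exp 16)] with T hT A N a r hAT hNT ha
  have hT0 : 0 < T := (Real.exp_pos _).trans_le hT
  have hL : 16 ≤ Real.log T := by
    rw [Real.le_log_iff_exp_le hT0]; exact hT
  have hs4 : 4 ≤ Real.sqrt (Real.log T) := by
    rw [show (4 : ℝ) = Real.sqrt 16 by
      rw [show (16 : ℝ) = 4 ^ 2 by norm_num, Real.sqrt_sq (by norm_num)]]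
    exact Real.sqrt_le_sqrt hL
  have hss : Real.sqrt (Real.log T) * Real.sqrt (Real.log T) = Real.log T :=
    Real.mul_self_sqrt (by linarith)
  have hLL : 1 ≤ Real.log (Real.log T) := by
    rw [Real.le_log_iff_exp_le (by linarith)]
    have := Real.exp_one_lt_d9
    linarith
  rcases Nat.eq_zero_or_pos A with hA | hA
  · subst hA
    rw [Nat.zero_mul]
    have h1 : nsq 0 (conv 0 N a r) = 0 := by simp [nsq]
    rw [h1]
    exact mul_nonneg (Real.exp_pos _).le (Loss_nsq_nonneg _ _)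
  rcases Nat.eq_zero_or_pos N with hN | hN
  · subst hN
    rw [Nat.mul_zero]
    have h1 : nsq 0 (conv A 0 a r) = 0 := by simp [nsq]
    rw [h1]
    exact mul_nonneg (Real.exp_pos _).le (Loss_nsq_nonneg _ _)
  obtain ⟨k, hkdef⟩ : ∃ k : ℕ, k = ⌈Real.sqrt (Real.log T)⌉₊ + 3 := ⟨_, rfl⟩
  have hk3 : 3 ≤ k := by omega
  have hkl : Real.sqrt (Real.log T) ≤ (k : ℝ) - 2 := by
    rw [hkdef]; push_cast
    linarith [Nat.le_ceil (Real.sqrt (Real.log T))]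
  have hku : (k : ℝ) ≤ 2 * Real.sqrt (Real.log T) := by
    rw [hkdef]; push_cast
    linarith [Nat.ceil_lt_add_one (Real.sqrt_nonneg (Real.log T))]
  have hA0 : (0 : ℝ) < A := by exact_mod_cast hA
  have hN0 : (0 : ℝ) < N := by exact_mod_cast hN
  have hlogA : Real.log A ≤ Real.log T := Real.log_le_log hA0 hAT
  have hlogN : Real.log N ≤ Real.log T := Real.log_le_log hN0 hNT
  have hlogA0 : 0 ≤ Real.log A := Real.log_nonneg (by exact_mod_cast hA)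
  refine (Loss_sum hk3 A N hA a r ha).trans ?_
  rw [← mul_assoc]
  refine mul_le_mul_of_nonneg_right ?_ (Loss_nsq_nonneg _ _)
  have h1 : 2 * Real.log ((A * N : ℕ) : ℝ) / (k - 2) ≤ 4 * Real.sqrt (Real.log T) := by
    rw [div_le_iff₀ (by linarith)]
    push_cast
    rw [Real.log_mul hA0.ne' hN0.ne']
    nlinarith
  have h2 : (1 + Real.log A) ^ k ≤
      Real.exp (4 * (Real.sqrt (Real.log T) * Real.log (Real.log T))) := by
    have h3 : 1 + Real.log T ≤ Real.log T ^ 2 := by nlinarith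
    have h4 : Real.log (1 + Real.log T) ≤ 2 * Real.log (Real.log T) := by
      have := Real.log_le_log (by linarith) h3
      rw [Real.log_pow] at this
      exact_mod_cast this
    calc (1 + Real.log A) ^ k ≤ (1 + Real.log T) ^ k := by gcongr
      _ = Real.exp (k * Real.log (1 + Real.log T)) := by
        rw [mul_comm, Real.exp_mul, Real.exp_log (by linarith), Real.rpow_natCast]
      _ ≤ _ := by
        rw [Real.exp_le_exp]
        have h5 : 0 ≤ Real.log (1 + Real.log T) := Real.log_nonneg (by linarith)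
        nlinarith [Real.sqrt_nonneg (Real.log T)]
  unfold loss
  calc Real.exp (2 * Real.log ((A * N : ℕ) : ℝ) / (k - 2)) * (1 + Real.log A) ^ k
      ≤ Real.exp (4 * Real.sqrt (Real.log T)) *
        Real.exp (4 * (Real.sqrt (Real.log T) * Real.log (Real.log T))) := by
        refine mul_le_mul (Real.exp_le_exp.mpr h1) h2 (by positivity) (Real.exp_pos _).le
    _ = Real.exp (4 * Real.sqrt (Real.log T) +
        4 * (Real.sqrt (Real.log T) * Real.log (Real.log T))) := by rw [Real.exp_add]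
    _ ≤ _ := by
      rw [Real.exp_le_exp]
      nlinarith

end Pool.Agent.H62.ST
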