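import Pool.Agent.H62.ST.Defs

/-!
# Module LossCalc: calculus of `loss` and of Dirichlet polynomials
-/

set_option autoImplicit false

open Complex Filter Topology MeasureTheory Set Metric
open scoped ArithmeticFunction.vonMangoldt

namespace Pool.Agent.H62.ST

open Pool.Agent.H6 Pool.Agent.H6.Win

lemma loss_pos (C T : ℝ) : 0 < loss C T := Real.exp_pos _

lemma loss_add (C D T : ℝ) : loss C T * loss D T = loss (C + D) T := by
  unfold loss
  rw [← Real.exp_add]
  ring_nf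

private lemma LossCalc_loglog : Tendsto (fun T : ℝ ↦ Real.log (Real.log T)) atTop atTop :=
  Real.tendsto_log_atTop.comp Real.tendsto_log_atTop

lemma loss_mono {C D : ℝ} (h : C ≤ D) : ∀ᶠ T : ℝ in atTop, loss C T ≤ loss D T := by
  filter_upwards [LossCalc_loglog.eventually_ge_atTop 0] with T hT
  unfold loss
  apply Real.exp_le_exp.2
  have := Real.sqrt_nonneg (Real.log T)
  gcongr

/-- constants and powers of `log T` are absorbed by the loss -/
lemma const_log_le_loss (K p : ℝ) : ∀ᶠ T : ℝ in atTop, K * Real.log T ^ p ≤ loss 1 T := by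
  have h1 : Tendsto (fun T : ℝ ↦ Real.sqrt (Real.log T)) atTop atTop :=
    Real.tendsto_sqrt_atTop.comp Real.tendsto_log_atTop
  filter_upwards [LossCalc_loglog.eventually_ge_atTop 1, h1.eventually_ge_atTop (|p| + |K|),
    Real.tendsto_log_atTop.eventually_ge_atTop 1] with T h2 h3 h4
  have hL : 0 < Real.log T := by linarith
  have e1 : Real.log T ^ p = Real.exp (p * Real.log (Real.log T)) := by
    rw [Real.rpow_def_of_pos hL, mul_comm]
  have e2 : K ≤ Real.exp |K| := (le_abs_self K).trans ((by linarith [Real.add_one_le_exp |K|]))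
  rw [e1]
  unfold loss
  calc K * Real.exp (p * Real.log (Real.log T)) ≤ Real.exp |K| * Real.exp (p * Real.log (Real.log T)) := by
        gcongr
    _ = Real.exp (|K| + p * Real.log (Real.log T)) := by rw [Real.exp_add]
    _ ≤ _ := by
        apply Real.exp_le_exp.2
        have hp := le_abs_self p
        have hK := abs_nonneg K
        have h5 : (|p| + |K|) * Real.log (Real.log T) ≤
            Real.sqrt (Real.log T) * Real.log (Real.log T) := by gcongr
        nlinarith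

/-- a power of `T` with exponent `δ ≥ C0 log log T/√(log T)` beats the loss -/
lemma loss_mul_rpow_le {C C0 : ℝ} (D : ℝ) (h : C + D ≤ C0 / 16) : ∀ᶠ T : ℝ in atTop,
    T ^ (-(C0 * Real.log (Real.log T) / Real.sqrt (Real.log T) / 16)) * loss C T ≤
      loss (-D) T := by
  filter_upwards [LossCalc_loglog.eventually_ge_atTop 0, eventually_ge_atTop (1:ℝ),
    Real.tendsto_log_atTop.eventually_ge_atTop 1] with T h2 h3 h4
  have hT : 0 < T := by linarith
  have hL : 0 < Real.log T := by linarith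
  have hs : 0 < Real.sqrt (Real.log T) := Real.sqrt_pos.2 hL
  have e1 : Real.log T / Real.sqrt (Real.log T) = Real.sqrt (Real.log T) := Real.div_sqrt
  rw [Real.rpow_def_of_pos hT]
  unfold loss
  rw [← Real.exp_add]
  apply Real.exp_le_exp.2
  have e2 : Real.log T * -(C0 * Real.log (Real.log T) / Real.sqrt (Real.log T) / 16) =
      -(C0 / 16) * ((Real.log T / Real.sqrt (Real.log T)) * Real.log (Real.log T)) := by ring
  rw [e2, e1]
  have h5 : 0 ≤ Real.sqrt (Real.log T) * Real.log (Real.log T) := by positivity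
  nlinarith

lemma nsq_nonneg (N : ℕ) (r : ℕ → ℂ) : 0 ≤ nsq N r := Finset.sum_nonneg fun _ _ ↦ by positivity

private lemma LossCalc_cpow_cont (n : ℕ) (hn : 1 ≤ n) :
    Continuous fun t : ℝ ↦ (n : ℂ) ^ (-(t * I)) := by
  have hn0 : (n : ℂ) ≠ 0 := by
    have : n ≠ 0 := by omega
    exact_mod_cast this
  have h : (fun t : ℝ ↦ (n : ℂ) ^ (-(t * I))) = fun t : ℝ ↦ cexp (Complex.log n * (-(t * I))) := by
    funext t
    rw [cpow_def_of_ne_zero hn0]
  rw [h]
  fun_prop

lemma continuous_dp (N : ℕ) (r : ℕ → ℂ) : Continuous (dp N r) := by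
  unfold dp
  refine continuous_finsetSum _ fun n hn ↦ ?_
  exact continuous_const.mul (LossCalc_cpow_cont n (Finset.mem_Icc.1 hn).1)

lemma dp_conv (A N : ℕ) (a r : ℕ → ℂ) (t : ℝ) :
    dp A a t * dp N r t = dp (A * N) (conv A N a r) t := by
  unfold dp conv
  rw [Finset.sum_mul_sum, ← Finset.sum_product']
  have h1 : ∀ p ∈ Finset.Icc 1 A ×ˢ Finset.Icc 1 N, p.1 * p.2 ∈ Finset.Icc 1 (A * N) := by
    intro p hp
    rw [Finset.mem_product, Finset.mem_Icc, Finset.mem_Icc] at hp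
    rw [Finset.mem_Icc]
    exact ⟨Nat.mul_pos hp.1.1 hp.2.1, Nat.mul_le_mul hp.1.2 hp.2.2⟩
  rw [← Finset.sum_fiberwise_of_maps_to h1]
  refine Finset.sum_congr rfl fun n hn ↦ ?_
  rw [Finset.sum_mul]
  refine Finset.sum_congr rfl fun p hp ↦ ?_
  rw [Finset.mem_filter, Finset.mem_product, Finset.mem_Icc, Finset.mem_Icc] at hp
  rw [← hp.2]
  push_cast
  rw [natCast_mul_natCast_cpow]
  ring

/-- twisting the coefficients -/
lemma dp_shift (N : ℕ) (a : ℕ → ℂ) (t v : ℝ) :
    dp N a (t + v) = dp N (fun n ↦ a n * (n : ℂ) ^ (-(v * I))) t := by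
  unfold dp
  refine Finset.sum_congr rfl fun n hn ↦ ?_
  have hn0 : (n : ℂ) ≠ 0 := by
    have : n ≠ 0 := by have := (Finset.mem_Icc.1 hn).1; omega
    exact_mod_cast this
  rw [mul_assoc, ← cpow_add _ _ hn0]
  congr 2
  push_cast
  ring

private lemma LossCalc_norm_cpow {n : ℕ} (hn : 1 ≤ n) (v : ℝ) : ‖(n : ℂ) ^ (-(v * I))‖ = 1 := by
  rw [norm_natCast_cpow_of_pos (by omega)]
  simp

lemma nsq_twist (N : ℕ) (r : ℕ → ℂ) (v : ℝ) :
    nsq N (fun n ↦ r n * (n : ℂ) ^ (-(v * I))) = nsq N r := by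
  unfold nsq
  refine Finset.sum_congr rfl fun n hn ↦ ?_
  rw [norm_mul, LossCalc_norm_cpow (Finset.mem_Icc.1 hn).1, mul_one]

lemma norm_dp_sq_le (N : ℕ) (r : ℕ → ℂ) (t : ℝ) : ‖dp N r t‖ ^ 2 ≤ N * nsq N r := by
  have h1 : ‖dp N r t‖ ≤ ∑ n ∈ Finset.Icc 1 N, ‖r n‖ := by
    unfold dp
    refine (norm_sum_le _ _).trans (le_of_eq (Finset.sum_congr rfl fun n hn ↦ ?_))
    rw [norm_mul, LossCalc_norm_cpow (Finset.mem_Icc.1 hn).1, mul_one]
  calc ‖dp N r t‖ ^ 2 ≤ (∑ n ∈ Finset.Icc 1 N, ‖r n‖) ^ 2 := by gcongr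
    _ ≤ (Finset.Icc 1 N).card * ∑ n ∈ Finset.Icc 1 N, ‖r n‖ ^ 2 := sq_sum_le_card_mul_sum_sq
    _ = N * nsq N r := by rw [Nat.card_Icc]; simp [nsq]

end Pool.Agent.H62.ST
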