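import Pool.Agent.H62.ST.Twist
import Pool.Agent.H62.ST.Interp

/-!
# Module MeanG: weighted mean square of `G` to the right of the critical line

Square `interp`, Cauchy-Schwarz in `v`: `‖G(σ+iy)‖^2 ≤ C log^2 T T^{-(σ-1/2)/8} (1 + ∫ exp(-v^2/2) ‖G(1/2+i(y+v))‖^2 dv)`. The term `1`: `mvt_loss` with
`A = B = 1`. For `|v| ≤ 4T`: substitute `y' = y + v ∈ [-8T, 8T]`, `R(y'-v)` = twisted coefficients (`dp_shift`, `nsq_twist`), `twistedG`.
For `|v| > 4T`: crude bounds `‖G(1/2+iy')‖ ≤ C (1+|y'|)^4 (1 + xm T)` (`zetaPole_growth`, `|s-1| ≥ 1/2`), `‖dp N r‖^2 ≤ N nsq N r`, and `exp(-v^2/2)`.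
-/

set_option autoImplicit false

open Complex Filter Topology MeasureTheory Set Metric
open scoped ArithmeticFunction.vonMangoldt

namespace Pool.Agent.H62.ST

open Pool.Agent.H6 Pool.Agent.H6.Win

/-- the modulus on the critical line -/
private noncomputable def MeanG_g (T y : ℝ) : ℝ := ‖Gf T (1 / 2 + (y : ℂ) * I)‖

/-- the Gaussian weight -/
private noncomputable def MeanG_w (v : ℝ) : ℝ := Real.exp (-(v ^ 2 / 2))

private lemma MeanG_w_pos (v : ℝ) : 0 < MeanG_w v := Real.exp_pos _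

private lemma MeanG_w_cont : Continuous MeanG_w := by
  unfold MeanG_w
  fun_prop

private lemma MeanG_cpow (n : ℕ) (hn : 1 ≤ n) (y : ℝ) :
    ‖(n : ℂ) ^ (-((1 / 2 : ℂ) + (y : ℂ) * I))‖ ≤ 1 := by
  have hn0 : 0 < n := hn
  rw [Complex.norm_natCast_cpow_of_pos hn0]
  have h1 : (-((1 / 2 : ℂ) + (y : ℂ) * I)).re = -(1 / 2) := by simp
  rw [h1]
  exact Real.rpow_le_one_of_one_le_of_nonpos (by exact_mod_cast hn) (by norm_num)

private lemma MeanG_mobs (X : ℕ) (y : ℝ) : ‖mobs ((1 / 2 : ℂ) + (y : ℂ) * I) X‖ ≤ X := by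
  unfold mobs
  refine (norm_sum_le _ _).trans ?_
  have h1 : ∀ d ∈ Finset.Icc 1 X, ‖((ArithmeticFunction.moebius d : ℤ) : ℂ) *
      (d : ℂ) ^ (-((1 / 2 : ℂ) + (y : ℂ) * I))‖ ≤ 1 := by
    intro d hd
    rw [norm_mul]
    have h2 := MeanG_cpow d (Finset.mem_Icc.1 hd).1 y
    have h3 : ‖((ArithmeticFunction.moebius d : ℤ) : ℂ)‖ ≤ 1 := by
      rw [Complex.norm_intCast]
      exact_mod_cast ArithmeticFunction.abs_moebius_le_one
    calc _ ≤ 1 * 1 := mul_le_mul h3 h2 (norm_nonneg _) zero_le_one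
      _ = 1 := one_mul 1
  refine (Finset.sum_le_sum h1).trans ?_
  simp

private lemma MeanG_ne (y : ℝ) : (1 / 2 : ℂ) + (y : ℂ) * I ≠ 1 := by
  intro h
  have := congrArg Complex.re h
  norm_num at this

private lemma MeanG_growth : ∃ C : ℝ, 0 < C ∧ ∀ T y : ℝ,
    MeanG_g T y ≤ C * (1 + |y|) ^ 4 * (1 + xm T) := by
  obtain ⟨C, hC, h⟩ := zetaPole_growth
  refine ⟨2 * C + 1, by linarith, fun T y => ?_⟩
  set s : ℂ := (1 / 2 : ℂ) + (y : ℂ) * I with hs
  have hre : s.re = 1 / 2 := by simp [hs]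
  have him : s.im = y := by simp [hs]
  have h1 := h s (by rw [hre]; norm_num) (by rw [hre]; norm_num)
  rw [him, zetaPole_of_ne (MeanG_ne y), norm_mul] at h1
  have h2 : 1 / 2 ≤ ‖s - 1‖ := by
    have h3 := Complex.abs_re_le_norm (s - 1)
    have h4 : (s - 1).re = -(1 / 2) := by
      rw [Complex.sub_re, hre]
      norm_num
    rw [h4] at h3
    have h5 : |(-(1 / 2) : ℝ)| = 1 / 2 := by norm_num
    linarith
  have hz : ‖riemannZeta s‖ ≤ 2 * (C * (1 + |y|) ^ 4) := by
    have h5 : (1 / 2) * ‖riemannZeta s‖ ≤ ‖s - 1‖ * ‖riemannZeta s‖ :=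
      mul_le_mul_of_nonneg_right h2 (norm_nonneg _)
    linarith
  have hm := MeanG_mobs (xm T) y
  rw [← hs] at hm
  have h6 : MeanG_g T y ≤ ‖riemannZeta s‖ * ‖mobs s (xm T)‖ + 1 := by
    unfold MeanG_g Gf
    rw [← hs]
    refine (norm_sub_le _ _).trans ?_
    rw [norm_mul, norm_one]
  have hx : (0 : ℝ) ≤ xm T := Nat.cast_nonneg _
  have hp : (1 : ℝ) ≤ (1 + |y|) ^ 4 := one_le_pow₀ (by linarith [abs_nonneg y])
  have h7 : MeanG_g T y ≤ 2 * (C * (1 + |y|) ^ 4) * xm T + 1 := by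
    refine h6.trans ?_
    have h8 : ‖riemannZeta s‖ * ‖mobs s (xm T)‖ ≤ 2 * (C * (1 + |y|) ^ 4) * xm T :=
      mul_le_mul hz hm (norm_nonneg _) (by positivity)
    linarith
  have h9 : 0 ≤ (1 + |y|) ^ 4 * (xm T : ℝ) := by positivity
  have h10 : 0 ≤ C * (1 + |y|) ^ 4 := by positivity
  have h11 : (2 * C + 1) * (1 + |y|) ^ 4 * (1 + xm T) =
      2 * (C * (1 + |y|) ^ 4) * xm T + (1 + |y|) ^ 4 + 2 * (C * (1 + |y|) ^ 4) +
        (1 + |y|) ^ 4 * (xm T : ℝ) := by ring
  rw [h11]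
  linarith

private lemma MeanG_g_nonneg (T y : ℝ) : 0 ≤ MeanG_g T y := norm_nonneg _

private lemma MeanG_mobs_cont (X : ℕ) : Continuous fun s : ℂ => mobs s X := by
  unfold mobs
  refine continuous_finsetSum _ fun d hd => ?_
  have hd0 : (d : ℂ) ≠ 0 := by
    have := (Finset.mem_Icc.1 hd).1
    exact_mod_cast (by omega : d ≠ 0)
  exact continuous_const.mul (continuous_neg.const_cpow (Or.inl hd0))

private lemma MeanG_Gf_cont {p : ℝ → ℂ} {S : Set ℝ} (hp : Continuous p) (T : ℝ)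
    (hne : ∀ x ∈ S, p x ≠ 1) : ContinuousOn (fun x => Gf T (p x)) S := by
  unfold Gf
  refine ContinuousOn.sub (ContinuousOn.mul ?_ ?_) continuousOn_const
  · intro x hx
    have h1 : ContinuousAt riemannZeta (p x) := (differentiableAt_riemannZeta (hne x hx)).continuousAt
    exact (ContinuousAt.comp (f := p) h1 hp.continuousAt).continuousWithinAt
  · exact ((MeanG_mobs_cont _).comp hp).continuousOn

private lemma MeanG_g_cont (T : ℝ) : Continuous (MeanG_g T) := by
  unfold MeanG_g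
  rw [← continuousOn_univ]
  exact (MeanG_Gf_cont (S := univ) (p := fun y : ℝ => (1 / 2 : ℂ) + (y : ℂ) * I) (by fun_prop) T
    fun y _ => MeanG_ne y).norm

private lemma MeanG_pw (k : ℕ) (v : ℝ) :
    (1 + |v|) ^ k * MeanG_w v ≤ (k.factorial * Real.exp 2) * Real.exp (-(v ^ 2 / 4)) := by
  have h1 : (1 + |v|) ^ k ≤ k.factorial * Real.exp (1 + |v|) := by
    have h2 := Real.pow_div_factorial_le_exp (x := 1 + |v|) (by positivity) k
    rw [div_le_iff₀ (by positivity)] at h2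
    linarith
  have h3 : 1 + |v| ≤ 2 + v ^ 2 / 4 := by
    have h4 : |v| ^ 2 = v ^ 2 := sq_abs v
    nlinarith [sq_nonneg (|v| / 2 - 1)]
  have h5 : Real.exp (1 + |v|) ≤ Real.exp 2 * Real.exp (v ^ 2 / 4) := by
    rw [← Real.exp_add]
    exact Real.exp_le_exp.2 h3
  have h6 : Real.exp (v ^ 2 / 4) * MeanG_w v = Real.exp (-(v ^ 2 / 4)) := by
    unfold MeanG_w
    rw [← Real.exp_add]
    ring_nf
  have hw := MeanG_w_pos v
  calc (1 + |v|) ^ k * MeanG_w v ≤ (k.factorial * (Real.exp 2 * Real.exp (v ^ 2 / 4))) * MeanG_w v := by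
        refine mul_le_mul_of_nonneg_right (h1.trans ?_) hw.le
        gcongr
    _ = (k.factorial * Real.exp 2) * (Real.exp (v ^ 2 / 4) * MeanG_w v) := by ring
    _ = _ := by rw [h6]

private lemma MeanG_int4 : Integrable fun v : ℝ => Real.exp (-(v ^ 2 / 4)) := by
  have h := integrable_exp_neg_mul_sq (b := 1 / 4) (by norm_num)
  refine h.congr (Eventually.of_forall fun v => ?_)
  simp only
  ring_nf

private lemma MeanG_intw : Integrable MeanG_w := by
  have h := integrable_exp_neg_mul_sq (b := 1 / 2) (by norm_num)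
  refine h.congr (Eventually.of_forall fun v => ?_)
  simp only [MeanG_w]
  ring_nf

private lemma MeanG_val4 : ∫ v : ℝ, Real.exp (-(v ^ 2 / 4)) ≤ 4 := by
  have h := integral_gaussian (1 / 4)
  have e : (fun v : ℝ => Real.exp (-(v ^ 2 / 4))) = fun v : ℝ => Real.exp (-(1 / 4) * v ^ 2) := by
    funext v
    ring_nf
  rw [e, h]
  rw [Real.sqrt_le_left (by norm_num)]
  have := Real.pi_lt_four
  norm_num
  linarith

private lemma MeanG_valw : ∫ v : ℝ, MeanG_w v ≤ 3 := by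
  have h := integral_gaussian (1 / 2)
  have e : MeanG_w = fun v : ℝ => Real.exp (-(1 / 2) * v ^ 2) := by
    funext v
    unfold MeanG_w
    ring_nf
  rw [e, h]
  rw [Real.sqrt_le_left (by norm_num)]
  have := Real.pi_lt_four
  norm_num
  linarith

private lemma MeanG_abs (y v : ℝ) : 1 + |y + v| ≤ (1 + |y|) * (1 + |v|) := by
  have := abs_add_le y v
  nlinarith [abs_nonneg y, abs_nonneg v, mul_nonneg (abs_nonneg y) (abs_nonneg v)]

/-- polynomially bounded continuous functions are integrable against the weight -/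
private lemma MeanG_int {f : ℝ → ℝ} (hf : Continuous f) {D : ℝ} (k : ℕ)
    (hb : ∀ v, |f v| ≤ D * (1 + |v|) ^ k) : Integrable fun v => MeanG_w v * f v := by
  have hD : 0 ≤ D := by
    have := (abs_nonneg _).trans (hb 0)
    simpa using this
  refine Integrable.mono' (g := fun v => D * ((k.factorial * Real.exp 2) * Real.exp (-(v ^ 2 / 4))))
    ((MeanG_int4.const_mul _).const_mul _) (MeanG_w_cont.mul hf).aestronglyMeasurable
    (Eventually.of_forall fun v => ?_)
  rw [Real.norm_eq_abs, abs_mul, abs_of_pos (MeanG_w_pos v)]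
  calc MeanG_w v * |f v| ≤ MeanG_w v * (D * (1 + |v|) ^ k) :=
        mul_le_mul_of_nonneg_left (hb v) (MeanG_w_pos v).le
    _ = D * ((1 + |v|) ^ k * MeanG_w v) := by ring
    _ ≤ _ := mul_le_mul_of_nonneg_left (MeanG_pw k v) hD

private lemma MeanG_gb (T y : ℝ) (m : ℕ) : ∃ D : ℝ, ∀ v : ℝ,
    |MeanG_g T (y + v) ^ m| ≤ D * (1 + |v|) ^ (4 * m) := by
  obtain ⟨C, hC, h⟩ := MeanG_growth
  refine ⟨(C * (1 + |y|) ^ 4 * (1 + xm T)) ^ m, fun v => ?_⟩
  have hg := MeanG_g_nonneg T (y + v)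
  rw [abs_of_nonneg (pow_nonneg hg m), pow_mul, ← mul_pow]
  refine pow_le_pow_left₀ hg ((h T (y + v)).trans ?_) m
  have h1 : (1 + |y + v|) ^ 4 ≤ ((1 + |y|) * (1 + |v|)) ^ 4 :=
    pow_le_pow_left₀ (by positivity) (MeanG_abs y v) 4
  have hx : (0 : ℝ) ≤ 1 + xm T := by positivity
  calc C * (1 + |y + v|) ^ 4 * (1 + xm T) ≤ C * ((1 + |y|) * (1 + |v|)) ^ 4 * (1 + xm T) := by
        gcongr
    _ = C * (1 + |y|) ^ 4 * (1 + xm T) * (1 + |v|) ^ 4 := by ring

/-- Cauchy-Schwarz -/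
private lemma MeanG_CS (T y : ℝ) :
    (∫ v : ℝ, MeanG_w v * MeanG_g T (y + v)) ^ 2 ≤
      3 * ∫ v : ℝ, MeanG_w v * MeanG_g T (y + v) ^ 2 := by
  have hgc : Continuous fun v => MeanG_g T (y + v) := (MeanG_g_cont T).comp (by fun_prop)
  obtain ⟨D1, hD1⟩ := MeanG_gb T y 1
  obtain ⟨D2, hD2⟩ := MeanG_gb T y 2
  have i0 := MeanG_intw
  have i1 : Integrable fun v => MeanG_w v * MeanG_g T (y + v) :=
    MeanG_int hgc (4 * 1) (by simpa using hD1)
  have i2 : Integrable fun v => MeanG_w v * MeanG_g T (y + v) ^ 2 :=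
    MeanG_int (hgc.pow 2) (4 * 2) hD2
  set J := ∫ v : ℝ, MeanG_w v * MeanG_g T (y + v)
  set K := ∫ v : ℝ, MeanG_w v * MeanG_g T (y + v) ^ 2
  set W := ∫ v : ℝ, MeanG_w v
  have hW : W ≤ 3 := MeanG_valw
  have hpos : 0 ≤ ∫ v : ℝ, MeanG_w v * (3 * MeanG_g T (y + v) - J) ^ 2 :=
    integral_nonneg fun v => mul_nonneg (MeanG_w_pos v).le (sq_nonneg _)
  have e : ∫ v : ℝ, MeanG_w v * (3 * MeanG_g T (y + v) - J) ^ 2 = 9 * K - 6 * J * J + J ^ 2 * W := by
    have e1 : (fun v : ℝ => MeanG_w v * (3 * MeanG_g T (y + v) - J) ^ 2) = fun v =>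
        (9 * (MeanG_w v * MeanG_g T (y + v) ^ 2) - 6 * J * (MeanG_w v * MeanG_g T (y + v))) +
          J ^ 2 * MeanG_w v := by
      funext v
      ring
    have j1 : Integrable fun v : ℝ => 9 * (MeanG_w v * MeanG_g T (y + v) ^ 2) := i2.const_mul _
    have j2 : Integrable fun v : ℝ => 6 * J * (MeanG_w v * MeanG_g T (y + v)) := i1.const_mul _
    have j3 : Integrable fun v : ℝ => J ^ 2 * MeanG_w v := i0.const_mul _
    have j4 : Integrable fun v : ℝ => 9 * (MeanG_w v * MeanG_g T (y + v) ^ 2) -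
        6 * J * (MeanG_w v * MeanG_g T (y + v)) := j1.sub j2
    rw [e1, integral_add j4 j3, integral_sub j1 j2, integral_const_mul, integral_const_mul,
      integral_const_mul]
  rw [e] at hpos
  nlinarith [sq_nonneg J]

private lemma MeanG_dp_cont (N : ℕ) (r : ℕ → ℂ) : Continuous fun y => ‖dp N r y‖ ^ 2 :=
  (continuous_dp N r).norm.pow 2

/-- the shifted mean value -/
private lemma MeanG_shift {T B v : ℝ} (hT : 0 < T) (N : ℕ) (r : ℕ → ℂ)
    (h : ∀ r' : ℕ → ℂ, nsq N r' = nsq N r → ∫ y in (-(8 * T))..(8 * T),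
      ‖Gf T (1 / 2 + y * I)‖ ^ 2 * ‖dp N r' y‖ ^ 2 ≤ B) (hv : |v| ≤ 4 * T) (h1 : 1 ≤ 4 * T) :
    ∫ y in (1 : ℝ)..(4 * T), MeanG_g T (y + v) ^ 2 * ‖dp N r y‖ ^ 2 ≤ B := by
  have hv' := abs_le.1 hv
  set r' : ℕ → ℂ := fun n ↦ r n * (n : ℂ) ^ (-(((-v : ℝ) : ℂ) * I)) with hr'
  have e1 : ∀ y : ℝ, MeanG_g T (y + v) ^ 2 * ‖dp N r y‖ ^ 2 =
      (fun z : ℝ => MeanG_g T z ^ 2 * ‖dp N r' z‖ ^ 2) (y + v) := by
    intro y
    have h2 := dp_shift N r (y + v) (-v)
    have h3 : y + v + -v = y := by ring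
    rw [h3] at h2
    simp only [h2, hr']
  simp only [e1]
  rw [intervalIntegral.integral_comp_add_right
    (fun z : ℝ => MeanG_g T z ^ 2 * ‖dp N r' z‖ ^ 2)]
  refine le_trans ?_ (h r' (nsq_twist N r (-v)))
  have hc : Continuous fun z : ℝ => MeanG_g T z ^ 2 * ‖dp N r' z‖ ^ 2 :=
    ((MeanG_g_cont T).pow 2).mul (MeanG_dp_cont N r')
  refine intervalIntegral.integral_mono_interval (by linarith [hv'.1]) (by linarith)
    (by linarith [hv'.2]) (Eventually.of_forall fun z => ?_) (hc.intervalIntegrable _ _)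
  show 0 ≤ MeanG_g T z ^ 2 * ‖dp N r' z‖ ^ 2
  positivity

theorem meanG : ∃ C : ℝ, 0 < C ∧ ∀ᶠ T : ℝ in atTop, ∀ (N : ℕ) (r : ℕ → ℂ) (σ : ℝ),
    (N : ℝ) ≤ T ^ (1 / 16 : ℝ) → 1 / 2 + 1 / Real.log T ≤ σ → σ ≤ 3 / 2 →
    ∫ y in (1 : ℝ)..(4 * T), ‖Gf T (σ + y * I)‖ ^ 2 * ‖dp N r y‖ ^ 2 ≤
      T ^ (1 - (σ - 1 / 2) / 8) * loss C T * nsq N r := by
  obtain ⟨C1, hC1, h1⟩ := interp
  obtain ⟨C2, hC2, h2⟩ := mvt_one
  obtain ⟨C3, hC3, h3⟩ := twistedG
  obtain ⟨Cg, hCg, hg⟩ := MeanG_growth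
  set C4 : ℝ := Cg ^ 2 * 2 ^ 8 * ((Nat.factorial 12 : ℕ) * Real.exp 2) with hC4
  have hC4p : 0 < C4 := by positivity
  refine ⟨C2 + C3 + 1, by positivity, ?_⟩
  filter_upwards [h1, h2, h3, const_log_le_loss (6 * C1 ^ 2 * (4 + 4 * C4)) 2,
    eventually_ge_atTop (Real.exp (Real.exp 1))] with T h1 h2 h3 h4 hTe N r σ hN hσ1 hσ2
  have hTexp : Real.exp 1 ≤ Real.log T := by
    rw [Real.le_log_iff_exp_le ((Real.exp_pos _).trans_le hTe)]
    exact hTe
  have hlog1 : 1 ≤ Real.log T := by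
    have := Real.add_one_le_exp (1 : ℝ)
    linarith
  have hT1 : 1 ≤ T := by
    have h5 := Real.add_one_le_exp (Real.exp 1)
    have h6 := Real.add_one_le_exp (1 : ℝ)
    linarith
  have hT0 : 0 < T := by linarith
  have hnn := nsq_nonneg N r
  have hNT : (N : ℝ) ≤ T := by
    refine hN.trans ?_
    calc T ^ (1 / 16 : ℝ) ≤ T ^ (1 : ℝ) := Real.rpow_le_rpow_of_exponent_le hT1 (by norm_num)
      _ = T := Real.rpow_one T
  have hxm : (xm T : ℝ) ≤ T := by
    unfold xm
    refine (Nat.floor_le (by positivity)).trans ?_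
    calc T ^ (1 / 8 : ℝ) ≤ T ^ (1 : ℝ) := Real.rpow_le_rpow_of_exponent_le hT1 (by norm_num)
      _ = T := Real.rpow_one T
  have hloss1 : ∀ C : ℝ, 0 < C → 1 ≤ loss C T := by
    intro C hC
    unfold loss
    have h5 : 0 ≤ Real.log (Real.log T) := Real.log_nonneg hlog1
    have h6 : 0 ≤ C * (Real.sqrt (Real.log T) * Real.log (Real.log T)) := by positivity
    linarith [Real.add_one_le_exp (C * (Real.sqrt (Real.log T) * Real.log (Real.log T)))]
  set R : ℝ → ℝ := fun y => ‖dp N r y‖ ^ 2 with hR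
  have hRc : Continuous R := MeanG_dp_cont N r
  have hR0 : ∀ y, 0 ≤ R y := fun y => by positivity
  set K : ℝ → ℝ := fun y => ∫ v : ℝ, MeanG_w v * MeanG_g T (y + v) ^ 2 with hK
  have hK0 : ∀ y, 0 ≤ K y := fun y =>
    integral_nonneg fun v => mul_nonneg (MeanG_w_pos v).le (sq_nonneg _)
  set A : ℝ := 6 * C1 ^ 2 * Real.log T ^ (2 : ℝ) * T ^ (-((σ - 1 / 2) / 8)) with hA
  have hA0 : 0 ≤ A := by positivity
  -- the pointwise bound
  have hpt : ∀ y ∈ Ioc (1 : ℝ) (4 * T), ‖Gf T (σ + y * I)‖ ^ 2 * ‖dp N r y‖ ^ 2 ≤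
      A * (R y + K y * R y) := by
    intro y hy
    have hy1 : 1 ≤ |y| := by
      rw [abs_of_pos (by linarith [hy.1])]
      exact hy.1.le
    have h5 := h1 σ y hσ1 hσ2 hy1
    set J : ℝ := ∫ v : ℝ, MeanG_w v * MeanG_g T (y + v) with hJ
    have hJ0 : 0 ≤ J := integral_nonneg fun v => mul_nonneg (MeanG_w_pos v).le (MeanG_g_nonneg _ _)
    have h6 : ‖Gf T (σ + y * I)‖ ≤ C1 * Real.log T * T ^ (-((σ - 1 / 2) / 16)) * (1 + J) := h5
    have h7 : J ^ 2 ≤ 3 * K y := MeanG_CS T y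
    have h8 : ‖Gf T (σ + y * I)‖ ^ 2 ≤ A * (1 + K y) := by
      have h9 := pow_le_pow_left₀ (norm_nonneg _) h6 2
      refine h9.trans ?_
      have h10 : (T ^ (-((σ - 1 / 2) / 16)) : ℝ) ^ 2 = T ^ (-((σ - 1 / 2) / 8)) := by
        rw [← Real.rpow_natCast, ← Real.rpow_mul hT0.le]
        congr 1
        push_cast
        ring
      have h11 : Real.log T ^ (2 : ℝ) = Real.log T ^ 2 := by
        rw [← Real.rpow_natCast]
        norm_num
      have h12 : (1 + J) ^ 2 ≤ 6 * (1 + K y) := by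
        nlinarith [sq_nonneg (1 - J), hK0 y]
      have h13 : 0 ≤ C1 ^ 2 * Real.log T ^ 2 * T ^ (-((σ - 1 / 2) / 8)) := by positivity
      calc (C1 * Real.log T * T ^ (-((σ - 1 / 2) / 16)) * (1 + J)) ^ 2
          = C1 ^ 2 * Real.log T ^ 2 * (T ^ (-((σ - 1 / 2) / 16)) : ℝ) ^ 2 * (1 + J) ^ 2 := by ring
        _ = C1 ^ 2 * Real.log T ^ 2 * T ^ (-((σ - 1 / 2) / 8)) * (1 + J) ^ 2 := by rw [h10]
        _ ≤ C1 ^ 2 * Real.log T ^ 2 * T ^ (-((σ - 1 / 2) / 8)) * (6 * (1 + K y)) :=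
            mul_le_mul_of_nonneg_left h12 h13
        _ = A * (1 + K y) := by rw [hA, h11]; ring
    calc ‖Gf T (σ + y * I)‖ ^ 2 * ‖dp N r y‖ ^ 2 ≤ A * (1 + K y) * R y :=
          mul_le_mul_of_nonneg_right h8 (hR0 y)
      _ = A * (R y + K y * R y) := by ring
  -- the two parts
  set B1 : ℝ := T * loss C3 T * nsq N r with hB1
  have hB10 : 0 ≤ B1 := by
    have := loss_pos C3 T
    positivity
  have h14 : 1 ≤ 4 * T := by linarith
  have hpart1 : ∫⁻ y in Ioc (1 : ℝ) (4 * T), ENNReal.ofReal (R y) ≤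
      ENNReal.ofReal (T * loss C2 T * nsq N r) := by
    have h5 : ∫ y in Ioc (1 : ℝ) (4 * T), R y ≤ T * loss C2 T * nsq N r := by
      rw [← intervalIntegral.integral_of_le h14]
      refine le_trans ?_ (h2 N r hNT)
      refine intervalIntegral.integral_mono_interval (by linarith) h14 (by linarith)
        (Eventually.of_forall fun z => hR0 z) (hRc.intervalIntegrable _ _)
    rw [← ofReal_integral_eq_lintegral_ofReal]
    · exact ENNReal.ofReal_le_ofReal h5
    · exact (hRc.integrableOn_Icc).mono_set Ioc_subset_Icc_self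
    · exact Eventually.of_forall fun z => hR0 z
  have hpart2 : ∫⁻ y in Ioc (1 : ℝ) (4 * T), ENNReal.ofReal (K y * R y) ≤
      ENNReal.ofReal (3 * B1 + 4 * (C4 * nsq N r)) := by
    set Q : ℝ → ℝ → ℝ := fun y v => MeanG_w v * MeanG_g T (y + v) ^ 2 * R y with hQ
    have hQc : Continuous (Function.uncurry Q) := by
      have e1 : Continuous fun z : ℝ × ℝ => MeanG_g T (z.1 + z.2) :=
        (MeanG_g_cont T).comp (by fun_prop)
      exact ((MeanG_w_cont.comp continuous_snd).mul (e1.pow 2)).mul (hRc.comp continuous_fst)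
    have hQ0 : ∀ y v, 0 ≤ Q y v := fun y v =>
      mul_nonneg (mul_nonneg (MeanG_w_pos v).le (sq_nonneg _)) (hR0 y)
    have h5 : ∀ y, ENNReal.ofReal (K y * R y) ≤ ∫⁻ v, ENNReal.ofReal (Q y v) := by
      intro y
      have e1 : K y * R y = ∫ v, Q y v := by
        rw [hK, hQ]
        simp only
        rw [integral_mul_const]
      rw [e1, integral_eq_lintegral_of_nonneg_ae (Eventually.of_forall fun v => hQ0 y v)
        (hQc.comp (Continuous.prodMk_right y)).aestronglyMeasurable]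
      exact ENNReal.ofReal_toReal_le
    have hmeas : AEMeasurable (Function.uncurry fun y v => ENNReal.ofReal (Q y v))
        ((volume.restrict (Ioc (1 : ℝ) (4 * T))).prod (volume : Measure ℝ)) :=
      (hQc.measurable.ennreal_ofReal).aemeasurable
    have h6 : ∫⁻ y in Ioc (1 : ℝ) (4 * T), ENNReal.ofReal (K y * R y) ≤
        ∫⁻ v, ∫⁻ y in Ioc (1 : ℝ) (4 * T), ENNReal.ofReal (Q y v) := by
      refine (lintegral_mono fun y => h5 y).trans ?_
      rw [lintegral_lintegral_swap hmeas]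
    refine h6.trans ?_
    have h7 : ∀ v, ∫⁻ y in Ioc (1 : ℝ) (4 * T), ENNReal.ofReal (Q y v) ≤
        ENNReal.ofReal (B1 * MeanG_w v + C4 * nsq N r * Real.exp (-(v ^ 2 / 4))) := by
      intro v
      have hQv : Continuous fun y => Q y v := hQc.comp (Continuous.prodMk_left v)
      rw [← ofReal_integral_eq_lintegral_ofReal
        ((hQv.integrableOn_Icc).mono_set Ioc_subset_Icc_self)
        (Eventually.of_forall fun y => hQ0 y v)]
      refine ENNReal.ofReal_le_ofReal ?_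
      have hw := MeanG_w_pos v
      by_cases hv : |v| ≤ 4 * T
      · have h8 := MeanG_shift (B := B1) hT0 N r (fun r' hr' => by
          have h9 := h3 N r' hN
          rw [hr'] at h9
          exact h9) hv h14
        have e2 : ∫ y in Ioc (1 : ℝ) (4 * T), Q y v =
            MeanG_w v * ∫ y in (1 : ℝ)..(4 * T), MeanG_g T (y + v) ^ 2 * ‖dp N r y‖ ^ 2 := by
          rw [intervalIntegral.integral_of_le h14, ← integral_const_mul]
          refine integral_congr_ae (Eventually.of_forall fun y => ?_)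
          simp only [hQ, hR]
          ring
        rw [e2]
        have h9 : 0 ≤ C4 * nsq N r * Real.exp (-(v ^ 2 / 4)) := by positivity
        have h10 := mul_le_mul_of_nonneg_left h8 hw.le
        linarith
      · push Not at hv
        have h8 : ∀ y ∈ Ioc (1 : ℝ) (4 * T), Q y v ≤
            Cg ^ 2 * 2 ^ 8 * (1 + |v|) ^ 11 * MeanG_w v * nsq N r := by
          intro y hy
          have hTv : T ≤ |v| := by linarith
          have hyv : 1 + |y + v| ≤ 2 * (1 + |v|) := by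
            have h9 := abs_add_le y v
            have h10 : |y| ≤ |v| := by
              rw [abs_of_pos (by linarith [hy.1])]
              linarith [hy.2]
            linarith [abs_nonneg v]
          have h9 : MeanG_g T (y + v) ≤ Cg * (2 * (1 + |v|)) ^ 4 * (1 + |v|) := by
            refine (hg T (y + v)).trans ?_
            have h10 : (1 + |y + v|) ^ 4 ≤ (2 * (1 + |v|)) ^ 4 :=
              pow_le_pow_left₀ (by positivity) hyv 4
            have h11 : (1 : ℝ) + xm T ≤ 1 + |v| := by linarith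
            gcongr
          have h10 : MeanG_g T (y + v) ^ 2 ≤ (Cg * (2 * (1 + |v|)) ^ 4 * (1 + |v|)) ^ 2 :=
            pow_le_pow_left₀ (MeanG_g_nonneg _ _) h9 2
          have h11 : R y ≤ (1 + |v|) * nsq N r := by
            refine (norm_dp_sq_le N r y).trans ?_
            have : (N : ℝ) ≤ 1 + |v| := by linarith
            gcongr
          calc Q y v = MeanG_w v * (MeanG_g T (y + v) ^ 2 * R y) := by rw [hQ]; ring
            _ ≤ MeanG_w v * ((Cg * (2 * (1 + |v|)) ^ 4 * (1 + |v|)) ^ 2 * ((1 + |v|) * nsq N r)) :=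
                mul_le_mul_of_nonneg_left (mul_le_mul h10 h11 (hR0 y) (sq_nonneg _)) hw.le
            _ = _ := by ring
        have h12 : ∫ y in Ioc (1 : ℝ) (4 * T), Q y v ≤
            (Cg ^ 2 * 2 ^ 8 * (1 + |v|) ^ 11 * MeanG_w v * nsq N r) * (4 * T - 1) := by
          have h13 := setIntegral_mono_on (μ := volume) (f := fun y => Q y v)
            (g := fun _ => Cg ^ 2 * 2 ^ 8 * (1 + |v|) ^ 11 * MeanG_w v * nsq N r)
            (s := Ioc (1 : ℝ) (4 * T)) ((hQv.integrableOn_Icc).mono_set Ioc_subset_Icc_self)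
            ((continuous_const.integrableOn_Icc).mono_set Ioc_subset_Icc_self)
            measurableSet_Ioc h8
          refine h13.trans ?_
          rw [setIntegral_const, smul_eq_mul, mul_comm]
          rw [measureReal_def, Real.volume_Ioc, ENNReal.toReal_ofReal (by linarith)]
        have h13 : (4 * T - 1) ≤ 1 + |v| := by linarith
        have h14' : 0 ≤ Cg ^ 2 * 2 ^ 8 * (1 + |v|) ^ 11 * MeanG_w v * nsq N r := by positivity
        have h15 : (1 + |v|) ^ 12 * MeanG_w v ≤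
            ((Nat.factorial 12 : ℕ) * Real.exp 2) * Real.exp (-(v ^ 2 / 4)) := MeanG_pw 12 v
        have h16 : 0 ≤ B1 * MeanG_w v := by positivity
        calc ∫ y in Ioc (1 : ℝ) (4 * T), Q y v
            ≤ (Cg ^ 2 * 2 ^ 8 * (1 + |v|) ^ 11 * MeanG_w v * nsq N r) * (4 * T - 1) := h12
          _ ≤ (Cg ^ 2 * 2 ^ 8 * (1 + |v|) ^ 11 * MeanG_w v * nsq N r) * (1 + |v|) :=
              mul_le_mul_of_nonneg_left h13 h14'
          _ = Cg ^ 2 * 2 ^ 8 * nsq N r * ((1 + |v|) ^ 12 * MeanG_w v) := by ring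
          _ ≤ Cg ^ 2 * 2 ^ 8 * nsq N r *
              (((Nat.factorial 12 : ℕ) * Real.exp 2) * Real.exp (-(v ^ 2 / 4))) :=
              mul_le_mul_of_nonneg_left h15 (by positivity)
          _ = C4 * nsq N r * Real.exp (-(v ^ 2 / 4)) := by rw [hC4]; ring
          _ ≤ _ := by linarith
    refine (lintegral_mono h7).trans ?_
    have i1 : Integrable fun v : ℝ => B1 * MeanG_w v + C4 * nsq N r * Real.exp (-(v ^ 2 / 4)) :=
      (MeanG_intw.const_mul _).add (MeanG_int4.const_mul _)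
    rw [← ofReal_integral_eq_lintegral_ofReal i1 (Eventually.of_forall fun v => by
      have := MeanG_w_pos v
      positivity)]
    refine ENNReal.ofReal_le_ofReal ?_
    rw [integral_add (MeanG_intw.const_mul _) (MeanG_int4.const_mul _), integral_const_mul,
      integral_const_mul]
    have h17 := mul_le_mul_of_nonneg_left MeanG_valw hB10
    have h18 := mul_le_mul_of_nonneg_left MeanG_val4 (mul_nonneg hC4p.le hnn)
    linarith
  -- conclusion
  have hfc : ContinuousOn (fun y : ℝ => ‖Gf T (σ + y * I)‖ ^ 2 * ‖dp N r y‖ ^ 2)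
      (Icc (1 : ℝ) (4 * T)) := by
    refine ContinuousOn.mul (ContinuousOn.pow (ContinuousOn.norm ?_) 2) hRc.continuousOn
    refine MeanG_Gf_cont (p := fun y : ℝ => (σ : ℂ) + y * I) (by fun_prop) T fun y hy h => ?_
    have := congrArg Complex.im h
    simp at this
    linarith [hy.1]
  have hfin : ∫ y in (1 : ℝ)..(4 * T), ‖Gf T (σ + y * I)‖ ^ 2 * ‖dp N r y‖ ^ 2 ≤
      A * (T * loss C2 T * nsq N r + (3 * B1 + 4 * (C4 * nsq N r))) := by
    rw [intervalIntegral.integral_of_le h14, integral_eq_lintegral_of_nonneg_ae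
      (Eventually.of_forall fun y => by positivity)
      ((hfc.mono Ioc_subset_Icc_self).aestronglyMeasurable measurableSet_Ioc)]
    refine ENNReal.toReal_le_of_le_ofReal ?_ ?_
    · have h5 : 0 ≤ T * loss C2 T * nsq N r := by
        have := loss_pos C2 T
        positivity
      positivity
    · have h5 : ∫⁻ y in Ioc (1 : ℝ) (4 * T),
          ENNReal.ofReal (‖Gf T (σ + y * I)‖ ^ 2 * ‖dp N r y‖ ^ 2) ≤
          ∫⁻ y in Ioc (1 : ℝ) (4 * T), ENNReal.ofReal A *
            (ENNReal.ofReal (R y) + ENNReal.ofReal (K y * R y)) := by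
        refine setLIntegral_mono' measurableSet_Ioc fun y hy => ?_
        rw [← ENNReal.ofReal_add (hR0 y) (mul_nonneg (hK0 y) (hR0 y)), ← ENNReal.ofReal_mul hA0]
        exact ENNReal.ofReal_le_ofReal (hpt y hy)
      refine h5.trans ?_
      rw [lintegral_const_mul' _ _ ENNReal.ofReal_ne_top,
        lintegral_add_left (hRc.measurable.ennreal_ofReal)]
      have h6 : 0 ≤ T * loss C2 T * nsq N r := by
        have := loss_pos C2 T
        positivity
      rw [ENNReal.ofReal_mul hA0, ENNReal.ofReal_add h6 (by positivity)]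
      gcongr
  refine hfin.trans ?_
  have hl2 : loss C2 T ≤ loss (C2 + C3) T := by
    rw [← loss_add]
    have := hloss1 C3 hC3
    have := loss_pos C2 T
    nlinarith
  have hl3 : loss C3 T ≤ loss (C2 + C3) T := by
    rw [← loss_add]
    have := hloss1 C2 hC2
    have := loss_pos C3 T
    nlinarith
  have hl1 : 1 ≤ loss (C2 + C3) T := hloss1 _ (by positivity)
  set L := loss (C2 + C3) T with hL
  have hL0 : 0 < L := loss_pos _ _
  have hTn : 0 ≤ T * nsq N r := by positivity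
  have h19 : T * loss C2 T * nsq N r + (3 * B1 + 4 * (C4 * nsq N r)) ≤
      (4 + 4 * C4) * (T * nsq N r * L) := by
    have a1 : T * loss C2 T * nsq N r ≤ T * nsq N r * L := by
      calc T * loss C2 T * nsq N r = T * nsq N r * loss C2 T := by ring
        _ ≤ _ := mul_le_mul_of_nonneg_left hl2 hTn
    have a2 : B1 ≤ T * nsq N r * L := by
      calc B1 = T * nsq N r * loss C3 T := by rw [hB1]; ring
        _ ≤ _ := mul_le_mul_of_nonneg_left hl3 hTn
    have a3 : nsq N r ≤ T * nsq N r * L := by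
      calc nsq N r = 1 * nsq N r * 1 := by ring
        _ ≤ T * nsq N r * L := by gcongr
    have a4 := mul_le_mul_of_nonneg_left a3 hC4p.le
    linarith
  have h20 : T ^ (1 - (σ - 1 / 2) / 8) = T * T ^ (-((σ - 1 / 2) / 8)) := by
    rw [sub_eq_add_neg, Real.rpow_add hT0, Real.rpow_one]
  calc A * (T * loss C2 T * nsq N r + (3 * B1 + 4 * (C4 * nsq N r)))
      ≤ A * ((4 + 4 * C4) * (T * nsq N r * L)) := mul_le_mul_of_nonneg_left h19 hA0
    _ = (6 * C1 ^ 2 * (4 + 4 * C4) * Real.log T ^ (2 : ℝ)) *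
          (T * T ^ (-((σ - 1 / 2) / 8)) * L * nsq N r) := by rw [hA]; ring
    _ ≤ loss 1 T * (T * T ^ (-((σ - 1 / 2) / 8)) * L * nsq N r) :=
        mul_le_mul_of_nonneg_right h4 (by positivity)
    _ = T ^ (1 - (σ - 1 / 2) / 8) * (L * loss 1 T) * nsq N r := by rw [h20]; ring
    _ = _ := by rw [hL, loss_add]

end Pool.Agent.H62.ST
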