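import Pool.Agent.H62.ST.Loss
import Pool.Agent.H62.ST.LossCalc

/-!
# Module MvtLoss: mean value theorem for products

Apply `Pool.Agent.H6.Win.mean_value` with `T := 9 T` to `dp (A*(B*N)) (conv A (B*N) a (conv B N b r))` (`dp_conv` twice):
`∫_{-9T}^{9T} ≤ C ∑ (9T + n) ‖c_n‖^2 ≤ 10 C T nsq (A*(B*N)) c`, then `conv_loss` twice (if `A = 0`, `B = 0` or `N = 0` everything is `0`; otherwise
`A, N, B*N ≤ T`, `B ≤ T`). Constants: `10 C ≤ loss 1 T`.
-/

set_option autoImplicit false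

open Complex Filter Topology MeasureTheory Set Metric
open scoped ArithmeticFunction.vonMangoldt

namespace Pool.Agent.H62.ST

open Pool.Agent.H6 Pool.Agent.H6.Win

/-- the mean value theorem for one Dirichlet polynomial of length at most `T` -/
private lemma MvtLoss_mean : ∃ C : ℝ, 0 < C ∧ ∀ (T : ℝ) (M : ℕ) (c : ℕ → ℂ), 1 ≤ T →
    (M : ℝ) ≤ T → ∫ t in (-(9 * T))..(9 * T), ‖dp M c t‖ ^ 2 ≤ C * (10 * T) * nsq M c := by
  obtain ⟨C, hC, h⟩ := mean_value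
  refine ⟨C, hC, fun T M c hT hM ↦ ?_⟩
  have h1 := h (9 * T) (Finset.Icc 1 M) c (by linarith)
    (fun n hn ↦ (Finset.mem_Icc.1 hn).1)
  have h2 : ∑ n ∈ Finset.Icc 1 M, (9 * T + (n : ℝ)) * ‖c n‖ ^ 2 ≤ 10 * T * nsq M c := by
    unfold nsq
    rw [Finset.mul_sum]
    refine Finset.sum_le_sum fun n hn ↦ ?_
    have hn' : (n : ℝ) ≤ T := by
      have : (n : ℝ) ≤ M := by exact_mod_cast (Finset.mem_Icc.1 hn).2
      linarith
    have : 9 * T + (n : ℝ) ≤ 10 * T := by linarith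
    gcongr
  calc ∫ t in (-(9 * T))..(9 * T), ‖dp M c t‖ ^ 2 ≤
        C * ∑ n ∈ Finset.Icc 1 M, (9 * T + (n : ℝ)) * ‖c n‖ ^ 2 := h1
    _ ≤ C * (10 * T * nsq M c) := by gcongr
    _ = _ := by ring

private lemma MvtLoss_zero (a : ℕ → ℂ) (t : ℝ) : dp 0 a t = 0 := by
  simp [dp]

theorem mvt_loss : ∃ C : ℝ, 0 < C ∧ ∀ᶠ T : ℝ in atTop, ∀ (A B N : ℕ) (a b r : ℕ → ℂ),
    (A : ℝ) * B * N ≤ T →
    (∀ n ∈ Finset.Icc 1 A, ‖a n‖ ≤ (n : ℝ) ^ (-(1 / 2) : ℝ)) →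
    (∀ n ∈ Finset.Icc 1 B, ‖b n‖ ≤ (n : ℝ) ^ (-(1 / 2) : ℝ)) →
    ∫ t in (-(9 * T))..(9 * T), ‖dp A a t‖ ^ 2 * ‖dp B b t‖ ^ 2 * ‖dp N r t‖ ^ 2 ≤
      T * loss C T * nsq N r := by
  obtain ⟨C, hC, hmv⟩ := MvtLoss_mean
  obtain ⟨D, hD, hconv⟩ := conv_loss
  refine ⟨1 + D + D, by positivity, ?_⟩
  filter_upwards [hconv, const_log_le_loss (10 * C) 0, eventually_ge_atTop (1 : ℝ)] with
    T h1 h2 h3 A B N a b r hlen ha hb
  have hT0 : 0 < T := by linarith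
  rw [Real.rpow_zero, mul_one] at h2
  have hR : 0 ≤ T * loss (1 + D + D) T * nsq N r :=
    mul_nonneg (mul_nonneg hT0.le (loss_pos _ _).le) (nsq_nonneg _ _)
  rcases Nat.eq_zero_or_pos A with hA | hA
  · subst hA
    simpa [MvtLoss_zero] using hR
  rcases Nat.eq_zero_or_pos B with hB | hB
  · subst hB
    simpa [MvtLoss_zero] using hR
  rcases Nat.eq_zero_or_pos N with hN | hN
  · subst hN
    simpa [MvtLoss_zero] using hR
  have hlen' : ((A * (B * N) : ℕ) : ℝ) ≤ T := by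
    push_cast
    linarith
  have hA' : (A : ℝ) ≤ T := by
    have : A ≤ A * (B * N) := Nat.le_mul_of_pos_right _ (Nat.mul_pos hB hN)
    exact le_trans (by exact_mod_cast this) hlen'
  have hBN : B * N ≤ A * (B * N) := Nat.le_mul_of_pos_left _ hA
  have hBN' : ((B * N : ℕ) : ℝ) ≤ T := le_trans (by exact_mod_cast hBN) hlen'
  have hB' : (B : ℝ) ≤ T := by
    have : B ≤ B * N := Nat.le_mul_of_pos_right _ hN
    exact le_trans (by exact_mod_cast this) hBN'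
  have hN' : (N : ℝ) ≤ T := by
    have : N ≤ B * N := Nat.le_mul_of_pos_left _ hB
    exact le_trans (by exact_mod_cast this) hBN'
  have e1 : ∀ t : ℝ, ‖dp A a t‖ ^ 2 * ‖dp B b t‖ ^ 2 * ‖dp N r t‖ ^ 2 =
      ‖dp (A * (B * N)) (conv A (B * N) a (conv B N b r)) t‖ ^ 2 := by
    intro t
    rw [← dp_conv, ← dp_conv, norm_mul, norm_mul]
    ring
  have h4 := h1 B N b r hB' hN' hb
  have h5 := h1 A (B * N) a (conv B N b r) hA' hBN' ha
  have h6 := hmv T (A * (B * N)) (conv A (B * N) a (conv B N b r)) h3 hlen'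
  have hl : 0 < loss D T := loss_pos _ _
  calc ∫ t in (-(9 * T))..(9 * T), ‖dp A a t‖ ^ 2 * ‖dp B b t‖ ^ 2 * ‖dp N r t‖ ^ 2
      = ∫ t in (-(9 * T))..(9 * T),
          ‖dp (A * (B * N)) (conv A (B * N) a (conv B N b r)) t‖ ^ 2 := by
        refine intervalIntegral.integral_congr fun t _ ↦ e1 t
    _ ≤ C * (10 * T) * nsq (A * (B * N)) (conv A (B * N) a (conv B N b r)) := h6
    _ ≤ C * (10 * T) * (loss D T * (loss D T * nsq N r)) := by
        gcongr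
        exact h5.trans (mul_le_mul_of_nonneg_left h4 hl.le)
    _ = T * (10 * C) * loss D T * loss D T * nsq N r := by ring
    _ ≤ T * loss 1 T * loss D T * loss D T * nsq N r := by
        have := nsq_nonneg N r
        gcongr
    _ = T * loss (1 + D + D) T * nsq N r := by
        rw [← loss_add, ← loss_add]
        ring

/-- the case `A = B = 1` -/
theorem mvt_one : ∃ C : ℝ, 0 < C ∧ ∀ᶠ T : ℝ in atTop, ∀ (N : ℕ) (r : ℕ → ℂ),
    (N : ℝ) ≤ T → ∫ t in (-(9 * T))..(9 * T), ‖dp N r t‖ ^ 2 ≤ T * loss C T * nsq N r := by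
  obtain ⟨C, hC, hmv⟩ := MvtLoss_mean
  refine ⟨1, one_pos, ?_⟩
  filter_upwards [const_log_le_loss (10 * C) 0, eventually_ge_atTop (1 : ℝ)] with
    T h2 h3 N r hN
  have hT0 : 0 < T := by linarith
  rw [Real.rpow_zero, mul_one] at h2
  have := nsq_nonneg N r
  calc ∫ t in (-(9 * T))..(9 * T), ‖dp N r t‖ ^ 2 ≤ C * (10 * T) * nsq N r := hmv T N r h3 hN
    _ = T * (10 * C) * nsq N r := by ring
    _ ≤ T * loss 1 T * nsq N r := by gcongr

end Pool.Agent.H62.ST
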