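import Pool.Agent.H62.ST.Defs
import Pool.Agent.H55.Odd.Windows

/-!
# Module PrimeSum: the primes of the resonator

`mertens1` (H55/Odd/Windows, with `W = 1`; `PB 1 a b` = primes in `(a, b]`) or `Pool.Agent.H41.SF.mertens`: `∑_{p ≤ N} log p/p = log N + O(1)`, so with
`X = log T`: `∑_{X < p ≤ X^3} log p/p ≥ 2 log X - C`, and `1/p ≥ (log p/p)/(3 log X)`, so the sum is `≥ 2/3 - C/log X ≥ 1/2`.
-/

set_option autoImplicit false

open Complex Filter Topology MeasureTheory Set Metric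
open scoped ArithmeticFunction.vonMangoldt

namespace Pool.Agent.H62.ST

open Pool.Agent.H6 Pool.Agent.H6.Win

lemma mem_Pset {T : ℝ} {p : ℕ} (hp : p ∈ Pset T) :
    p.Prime ∧ Real.log T < p ∧ (p : ℝ) ≤ Real.log T ^ 3 := by
  rw [Pset, Finset.mem_filter, Finset.mem_Ioc] at hp
  obtain ⟨⟨h1, h2⟩, h3⟩ := hp
  exact ⟨h3, Nat.lt_of_floor_lt h1, (Nat.le_floor_iff' h3.ne_zero).mp h2⟩

theorem prime_sum : ∀ᶠ T : ℝ in atTop, 1 / 2 ≤ ∑ p ∈ Pset T, (1 : ℝ) / p := by
  obtain ⟨C, hC0, hC⟩ := Pool.Agent.H55.Odd.mertens2 1 one_pos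
  have ht : Tendsto (fun T : ℝ ↦ Real.log (Real.log T)) atTop atTop :=
    Real.tendsto_log_atTop.comp Real.tendsto_log_atTop
  filter_upwards [ht.eventually_ge_atTop (2 * (Real.log 2 + 2 * C) + 1),
    Real.tendsto_log_atTop.eventually_ge_atTop 2] with T h1 h2
  set X := Real.log T with hX
  have hlog2 : 0 < Real.log 2 := Real.log_pos (by norm_num)
  have hX0 : 0 < X := by linarith
  have hL0 : 0 < Real.log X := Real.log_pos (by linarith)
  have hX3 : X ≤ X ^ 3 := by nlinarith [sq_nonneg X, mul_pos hX0 hX0]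
  have hfl1 : 1 ≤ ⌊X⌋₊ := Nat.le_floor (by push_cast; linarith)
  have hfl : ⌊X⌋₊ ≤ ⌊X ^ 3⌋₊ := Nat.floor_mono hX3
  have hm := hC ⌊X⌋₊ ⌊X ^ 3⌋₊ hfl1 hfl
  have hP : Pool.Agent.H55.Odd.PB 1 ⌊X⌋₊ ⌊X ^ 3⌋₊ = Pset T := by
    unfold Pool.Agent.H55.Odd.PB Pset
    refine Finset.filter_congr fun p _ ↦ ?_
    simp [Nat.mod_one]
  rw [hP, Nat.totient_one, Nat.cast_one, div_one] at hm
  have hY : Real.log (⌊X⌋₊ : ℝ) ≤ Real.log X :=
    Real.log_le_log (by exact_mod_cast hfl1) (Nat.floor_le hX0.le)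
  have hZ : 3 * Real.log X - Real.log 2 ≤ Real.log (⌊X ^ 3⌋₊ : ℝ) := by
    have h3 : 3 * Real.log X - Real.log 2 = Real.log (X ^ 3 / 2) := by
      rw [Real.log_div (by positivity) (by norm_num), Real.log_pow]
      norm_num
    rw [h3]
    refine Real.log_le_log (by positivity) ?_
    have := Nat.lt_floor_add_one (X ^ 3)
    have h4 : (2 : ℝ) ≤ X ^ 3 := h2.trans hX3
    linarith
  have hsum : ∑ p ∈ Pset T, Real.log p / p ≤ 3 * Real.log X * ∑ p ∈ Pset T, (1 : ℝ) / p := by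
    rw [Finset.mul_sum]
    refine Finset.sum_le_sum fun p hp ↦ ?_
    obtain ⟨hp1, hp2, hp3⟩ := mem_Pset hp
    have hp0 : (0 : ℝ) < p := by exact_mod_cast hp1.pos
    have : Real.log p ≤ 3 * Real.log X := by
      have := Real.log_le_log hp0 hp3
      rw [Real.log_pow] at this
      exact_mod_cast this
    rw [div_eq_mul_one_div]
    exact mul_le_mul_of_nonneg_right this (by positivity)
  have hfin : 3 * Real.log X * (1 / 2) ≤ 3 * Real.log X * ∑ p ∈ Pset T, (1 : ℝ) / p := by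
    refine le_trans ?_ hsum
    linarith
  exact le_of_mul_le_mul_left hfin (by positivity)

end Pool.Agent.H62.ST
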