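import Pool.Agent.H62.ST.PrimeSum

/-!
# Module RCoef: the coefficients of the resonator

`B ↦ ∏_{p ∈ B} p` is a bijection from `powersetCard (k-1) P ∪ powersetCard k P` onto the support of `rcoef P k λ ε` (inverse: `primeFactors`).
* `nsq_rcoef`: `‖rcoef a‖^2 = ∏_{p | a} λ^2/p` (`|−εi| = 1`), all these `a` are `≤ N` by `hN`.
* `diag_rcoef`: for `p ∈ P` and `a` in the support with `p a` in the support: `|a| = k-1` primes, `p ∤ a`, and
  `r_a conj(r_{pa}) = (-εi)^{k-1} conj((-εi)^k) v_a λ/√p = εi (λ/√p) v_a` (`ε^2 = 1`).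
* `diag_rcoef_eq_zero`: if `n = q^j` is a prime power and `rcoef (n a) ≠ 0` then `n a` is squarefree with prime factors in `P`, so `j = 1`, `q ∈ P`, `n ∈ P`.
-/

set_option autoImplicit false

open Complex Filter Topology MeasureTheory Set Metric
open scoped ArithmeticFunction.vonMangoldt

namespace Pool.Agent.H62.ST

open Pool.Agent.H6 Pool.Agent.H6.Win

/-- the coefficients of the resonator -/
noncomputable def rcoef (P : Finset ℕ) (k : ℕ) (lam ε : ℝ) (a : ℕ) : ℂ := by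
  classical
  exact if Squarefree a ∧ a.primeFactors ⊆ P ∧
      (a.primeFactors.card + 1 = k ∨ a.primeFactors.card = k) then
    (-(ε * I)) ^ a.primeFactors.card * ∏ p ∈ a.primeFactors, ((lam / Real.sqrt p : ℝ) : ℂ) else 0

/-- elementary symmetric polynomials of `λ^2/p` -/
noncomputable def Esym (P : Finset ℕ) (lam : ℝ) (j : ℕ) : ℝ :=
  ∑ B ∈ P.powersetCard j, ∏ p ∈ B, lam ^ 2 / (p : ℝ)

/-- the same, over sets not containing `q` -/
noncomputable def Esym' (P : Finset ℕ) (lam : ℝ) (j q : ℕ) : ℝ :=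
  ∑ B ∈ (P.powersetCard j).filter (fun B ↦ q ∉ B), ∏ p ∈ B, lam ^ 2 / (p : ℝ)

variable {P : Finset ℕ} {k N : ℕ} {lam ε : ℝ}

private def good (P : Finset ℕ) (k : ℕ) (a : ℕ) : Prop :=
  Squarefree a ∧ a.primeFactors ⊆ P ∧ (a.primeFactors.card + 1 = k ∨ a.primeFactors.card = k)

private lemma rcoef_pos' {a : ℕ} (h : good P k a) : rcoef P k lam ε a =
    (-(ε * I)) ^ a.primeFactors.card * ∏ p ∈ a.primeFactors, ((lam / Real.sqrt p : ℝ) : ℂ) := by
  unfold rcoef
  exact if_pos h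

private lemma rcoef_neg' {a : ℕ} (h : ¬ good P k a) : rcoef P k lam ε a = 0 := by
  unfold rcoef
  exact if_neg h

private lemma norm_eI (hε : ε = 1 ∨ ε = -1) : ‖(-(ε * I) : ℂ)‖ = 1 := by
  rcases hε with h | h <;> simp [h]

private lemma nsq_prod (B : Finset ℕ) (lam : ℝ) :
    (∏ p ∈ B, lam / Real.sqrt p) ^ 2 = ∏ p ∈ B, lam ^ 2 / (p : ℝ) := by
  rw [← Finset.prod_pow]
  refine Finset.prod_congr rfl fun p _ ↦ ?_
  rw [div_pow, Real.sq_sqrt (Nat.cast_nonneg p)]

private lemma norm_rcoef_sq (hε : ε = 1 ∨ ε = -1) {a : ℕ} (h : good P k a) :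
    ‖rcoef P k lam ε a‖ ^ 2 = ∏ p ∈ a.primeFactors, lam ^ 2 / (p : ℝ) := by
  rw [rcoef_pos' h, norm_mul, norm_pow, norm_eI hε, one_pow, one_mul, ← Complex.ofReal_prod,
    Complex.norm_real, Real.norm_eq_abs, sq_abs, nsq_prod]

private lemma sqf_prod {B : Finset ℕ} (hB : ∀ p ∈ B, p.Prime) : Squarefree (∏ p ∈ B, p) := by
  refine Finset.squarefree_prod_of_pairwise_isCoprime (fun p hp q hq hpq ↦ ?_)
    (fun p hp ↦ (hB p hp).squarefree)
  exact (Nat.coprime_iff_isRelPrime).1 ((Nat.coprime_primes (hB p hp) (hB q hq)).2 hpq)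

private lemma good_prod (hP : ∀ p ∈ P, p.Prime) {B : Finset ℕ} (hB : B ⊆ P)
    (hc : B.card + 1 = k ∨ B.card = k) : good P k (∏ p ∈ B, p) := by
  have h1 : (∏ p ∈ B, p).primeFactors = B := Nat.primeFactors_prod fun p hp ↦ hP p (hB hp)
  exact ⟨sqf_prod fun p hp ↦ hP p (hB hp), by rw [h1]; exact hB, by rw [h1]; exact hc⟩

theorem nsq_rcoef (hP : ∀ p ∈ P, p.Prime) (hk : 1 ≤ k) (hε : ε = 1 ∨ ε = -1)
    (hN : ∀ B ⊆ P, B.card ≤ k → ∏ p ∈ B, p ≤ N) :
    nsq N (rcoef P k lam ε) = Esym P lam (k - 1) + Esym P lam k := by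
  classical
  have hdis : Disjoint (P.powersetCard (k - 1)) (P.powersetCard k) := by
    rw [Finset.disjoint_left]
    intro B h1 h2
    rw [Finset.mem_powersetCard] at h1 h2
    omega
  unfold nsq Esym
  rw [← Finset.sum_union hdis]
  have h1 : ∑ n ∈ Finset.Icc 1 N, ‖rcoef P k lam ε n‖ ^ 2 =
      ∑ n ∈ (Finset.Icc 1 N).filter (fun a ↦ good P k a),
        ∏ p ∈ n.primeFactors, lam ^ 2 / (p : ℝ) := by
    rw [Finset.sum_filter]
    refine Finset.sum_congr rfl fun n _ ↦ ?_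
    split_ifs with h
    · exact norm_rcoef_sq hε h
    · rw [rcoef_neg' h]; simp
  rw [h1]
  refine Finset.sum_nbij' (fun n ↦ n.primeFactors) (fun B ↦ ∏ p ∈ B, p) ?_ ?_ ?_ ?_ ?_
  · intro n hn
    obtain ⟨-, h⟩ := Finset.mem_filter.1 hn
    obtain ⟨-, h2, h3⟩ := h
    rw [Finset.mem_union, Finset.mem_powersetCard, Finset.mem_powersetCard]
    rcases h3 with h3 | h3
    · left; exact ⟨h2, by omega⟩
    · right; exact ⟨h2, h3⟩
  · intro B hB
    rw [Finset.mem_union, Finset.mem_powersetCard, Finset.mem_powersetCard] at hB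
    have hBP : B ⊆ P := by rcases hB with h | h <;> exact h.1
    have hBc : B.card + 1 = k ∨ B.card = k := by
      rcases hB with h | h
      · left; have := h.2; omega
      · right; exact h.2
    rw [Finset.mem_filter, Finset.mem_Icc]
    refine ⟨⟨?_, hN B hBP (by omega)⟩, good_prod hP hBP hBc⟩
    exact Nat.one_le_iff_ne_zero.2 (Finset.prod_ne_zero_iff.2 fun p hp ↦ (hP p (hBP hp)).ne_zero)
  · intro n hn
    obtain ⟨-, h⟩ := Finset.mem_filter.1 hn
    exact Nat.prod_primeFactors_of_squarefree h.1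
  · intro B hB
    rw [Finset.mem_union, Finset.mem_powersetCard, Finset.mem_powersetCard] at hB
    have hBP : B ⊆ P := by rcases hB with h | h <;> exact h.1
    exact Nat.primeFactors_prod fun p hp ↦ hP p (hBP hp)
  · intro n _
    rfl

private lemma term_eq (hP : ∀ p ∈ P, p.Prime) (hε : ε = 1 ∨ ε = -1) {q : ℕ} (hq : q ∈ P)
    {B : Finset ℕ} (hB : B ⊆ P) (hc : B.card + 1 = k) (hqB : q ∉ B) :
    rcoef P k lam ε (∏ p ∈ B, p) * (starRingEnd ℂ) (rcoef P k lam ε (q * ∏ p ∈ B, p)) =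
      ((ε * (lam / Real.sqrt q) * ∏ p ∈ B, lam ^ 2 / (p : ℝ) : ℝ) : ℂ) * I := by
  classical
  have hB' : insert q B ⊆ P := Finset.insert_subset hq hB
  have h1 : (∏ p ∈ B, p).primeFactors = B := Nat.primeFactors_prod fun p hp ↦ hP p (hB hp)
  have h2 : (q * ∏ p ∈ B, p) = ∏ p ∈ insert q B, p := by rw [Finset.prod_insert hqB]
  have h3 : (∏ p ∈ insert q B, p).primeFactors = insert q B :=
    Nat.primeFactors_prod fun p hp ↦ hP p (hB' hp)
  have hc' : (insert q B).card = k := by rw [Finset.card_insert_of_notMem hqB]; exact hc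
  rw [h2, rcoef_pos' (good_prod hP hB (Or.inl hc)), rcoef_pos' (good_prod hP hB' (Or.inr hc')),
    h1, h3, hc', ← hc, ← nsq_prod, Finset.prod_insert hqB, ← Complex.ofReal_prod]
  simp only [map_mul, map_pow, map_neg, Complex.conj_ofReal, Complex.conj_I]
  have h4 : (-(ε * I) : ℂ) ^ B.card * (-(ε * -I)) ^ (B.card + 1) = ε * I := by
    rw [pow_succ, ← mul_assoc, ← mul_pow]
    have h5 : (-(ε * I) : ℂ) * (-(ε * -I)) = 1 := by
      have h6 : (ε : ℂ) ^ 2 = 1 := by rcases hε with h | h <;> simp [h]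
      have h7 : (-(ε * I) : ℂ) * (-(ε * -I)) = -((ε : ℂ) ^ 2 * I ^ 2) := by ring
      rw [h7, h6, Complex.I_sq]; ring
    rw [h5, one_pow]
    ring
  push_cast
  calc _ = ((-(ε * I) : ℂ) ^ B.card * (-(ε * -I)) ^ (B.card + 1)) *
        ((lam / Real.sqrt q : ℝ) : ℂ) * (∏ p ∈ B, ((lam / Real.sqrt p : ℝ) : ℂ)) ^ 2 := by
        push_cast; ring
    _ = _ := by rw [h4]; push_cast; ring

theorem diag_rcoef (hP : ∀ p ∈ P, p.Prime) (hk : 1 ≤ k) (hε : ε = 1 ∨ ε = -1)
    (hN : ∀ B ⊆ P, B.card ≤ k → ∏ p ∈ B, p ≤ N) {q : ℕ} (hq : q ∈ P) :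
    diag N (rcoef P k lam ε) q =
      ((ε * (lam / Real.sqrt q) * Esym' P lam (k - 1) q : ℝ) : ℂ) * I := by
  classical
  have hqp := hP q hq
  unfold diag Esym'
  have key : ∀ a : ℕ, a ∈ (Finset.Icc 1 N).filter (fun a ↦ q * a ≤ N) →
      rcoef P k lam ε a * (starRingEnd ℂ) (rcoef P k lam ε (q * a)) ≠ 0 →
      good P k a ∧ q ∉ a.primeFactors ∧ a.primeFactors.card + 1 = k := by
    intro a ha hne
    have ha0 : a ≠ 0 := by
      have := (Finset.mem_Icc.1 (Finset.mem_filter.1 ha).1).1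
      omega
    have g1 : good P k a := by
      by_contra h
      exact hne (by rw [rcoef_neg' h]; simp)
    have g2 : good P k (q * a) := by
      by_contra h
      exact hne (by rw [rcoef_neg' h]; simp)
    have hnd : ¬ q ∣ a := by
      intro hd
      have : q * q ∣ q * a := Nat.mul_dvd_mul_left q hd
      have h1 := g2.1 q this
      exact hqp.one_lt.ne' (Nat.isUnit_iff.1 h1)
    have hqn : q ∉ a.primeFactors := fun h ↦ hnd (Nat.dvd_of_mem_primeFactors h)
    have hpf : (q * a).primeFactors = insert q a.primeFactors := by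
      rw [Nat.primeFactors_mul hqp.ne_zero ha0, hqp.primeFactors]
      rfl
    have hcard : (q * a).primeFactors.card = a.primeFactors.card + 1 := by
      rw [hpf, Finset.card_insert_of_notMem hqn]
    refine ⟨g1, hqn, ?_⟩
    rcases g1.2.2 with h | h
    · exact h
    · have h2 := g2.2.2
      omega
  have hsum : ∑ a ∈ (Finset.Icc 1 N).filter (fun a ↦ q * a ≤ N),
      rcoef P k lam ε a * (starRingEnd ℂ) (rcoef P k lam ε (q * a)) =
      ∑ B ∈ (P.powersetCard (k - 1)).filter (fun B ↦ q ∉ B),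
        (((ε * (lam / Real.sqrt q) * ∏ p ∈ B, lam ^ 2 / (p : ℝ) : ℝ) : ℂ) * I) := by
    rw [← Finset.sum_filter_ne_zero]
    rw [← Finset.sum_filter_ne_zero (s := (P.powersetCard (k - 1)).filter (fun B ↦ q ∉ B))
      (f := fun B : Finset ℕ ↦
        (((ε * (lam / Real.sqrt q) * ∏ p ∈ B, lam ^ 2 / (p : ℝ) : ℝ) : ℂ) * I))]
    refine Finset.sum_nbij' (fun n ↦ n.primeFactors) (fun B ↦ ∏ p ∈ B, p) ?_ ?_ ?_ ?_ ?_
    · intro a ha
      obtain ⟨ha1, ha2⟩ := Finset.mem_filter.1 ha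
      obtain ⟨g1, g2, g3⟩ := key a ha1 ha2
      have hpr := Nat.prod_primeFactors_of_squarefree g1.1
      rw [Finset.mem_filter, Finset.mem_filter, Finset.mem_powersetCard]
      refine ⟨⟨⟨g1.2.1, by omega⟩, g2⟩, ?_⟩
      rw [← term_eq (lam := lam) hP hε hq g1.2.1 g3 g2, hpr]
      exact ha2
    · intro B hB
      obtain ⟨hB1, hB2⟩ := Finset.mem_filter.1 hB
      obtain ⟨hB3, hqB⟩ := Finset.mem_filter.1 hB1
      rw [Finset.mem_powersetCard] at hB3
      obtain ⟨hBP, hBc⟩ := hB3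
      have hBc' : B.card + 1 = k := by omega
      rw [Finset.mem_filter, Finset.mem_filter, Finset.mem_Icc]
      refine ⟨⟨⟨?_, hN B hBP (by omega)⟩, ?_⟩, ?_⟩
      · exact Nat.one_le_iff_ne_zero.2
          (Finset.prod_ne_zero_iff.2 fun p hp ↦ (hP p (hBP hp)).ne_zero)
      · have h := hN (insert q B) (Finset.insert_subset hq hBP)
          (by rw [Finset.card_insert_of_notMem hqB]; omega)
        rwa [Finset.prod_insert hqB] at h
      · rw [term_eq (lam := lam) hP hε hq hBP hBc' hqB]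
        exact hB2
    · intro a ha
      obtain ⟨ha1, ha2⟩ := Finset.mem_filter.1 ha
      exact Nat.prod_primeFactors_of_squarefree (key a ha1 ha2).1.1
    · intro B hB
      obtain ⟨hB1, hB2⟩ := Finset.mem_filter.1 hB
      obtain ⟨hB3, hqB⟩ := Finset.mem_filter.1 hB1
      rw [Finset.mem_powersetCard] at hB3
      exact Nat.primeFactors_prod fun p hp ↦ hP p (hB3.1 hp)
    · intro a ha
      obtain ⟨ha1, ha2⟩ := Finset.mem_filter.1 ha
      obtain ⟨g1, g2, g3⟩ := key a ha1 ha2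
      have hpr := Nat.prod_primeFactors_of_squarefree g1.1
      have := term_eq (lam := lam) hP hε hq g1.2.1 g3 g2
      rw [hpr] at this
      exact this
  rw [hsum, ← Finset.sum_mul]
  congr 1
  push_cast
  rw [Finset.mul_sum]

theorem diag_rcoef_eq_zero (hP : ∀ p ∈ P, p.Prime) {n : ℕ} (hn : IsPrimePow n) (hnP : n ∉ P) :
    diag N (rcoef P k lam ε) n = 0 := by
  unfold diag
  refine Finset.sum_eq_zero fun a ha ↦ ?_
  have ha0 : a ≠ 0 := by
    have := (Finset.mem_Icc.1 (Finset.mem_filter.1 ha).1).1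
    omega
  have h : ¬ good P k (n * a) := by
    intro g
    have h1 : Squarefree n := g.1.squarefree_of_dvd (Dvd.intro _ rfl)
    have h2 : n.Prime := Nat.squarefree_and_prime_pow_iff_prime.1 ⟨h1, hn⟩
    refine hnP (g.2.1 ?_)
    rw [Nat.mem_primeFactors]
    exact ⟨h2, Dvd.intro _ rfl, g.1.ne_zero⟩
  rw [rcoef_neg' h]
  simp

end Pool.Agent.H62.ST
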