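import Pool.Agent.H62.ST.Afe
import Pool.Agent.H62.ST.MvtLoss

/-!
# Module Twist: the twisted second moment

`twisted`: by `afe` and Cauchy-Schwarz in `v`: `‖ζ‖^2 ≤ C log^2 T (1 + ∫ exp(-v^2/2) ‖Pz T (y+v)‖^2 dv)`; exchange the integrals; for fixed `v`,
`Pz T (y+v) = dp (Zm T) (twisted coefficients of norm ≤ n^{-1/2}) y` (`dp_shift`), `mobs (1/2+iy) (xm T) = dp (xm T) (μ(d) d^{-1/2}) y`, and
`mvt_loss` applies because `Zm T * xm T * N ≤ 2 T^{3/4} T^{1/8} T^{1/16} ≤ T` (the integrand is nonnegative and `[-8T, 8T] ⊆ [-9T, 9T]`).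
`twistedG`: `‖G‖^2 ≤ 2 ‖ζ M‖^2 + 2`, and `mvt_loss` with `A = B = 1`, `a = b = 1` for the second term.
-/

set_option autoImplicit false

open Complex Filter Topology MeasureTheory Set Metric
open scoped ArithmeticFunction.vonMangoldt

namespace Pool.Agent.H62.ST

open Pool.Agent.H6 Pool.Agent.H6.Win

section twist_aux

lemma tw_continuous_zeta : Continuous fun y : ℝ ↦ riemannZeta (1 / 2 + y * I) := by
  rw [continuous_iff_continuousAt]
  intro y
  have h1 : (1 / 2 + (y : ℂ) * I) ≠ 1 := by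
    intro h
    have := congrArg Complex.re h
    simp at this
  have h2 := (differentiableAt_riemannZeta h1).continuousAt
  exact ContinuousAt.comp (f := fun y : ℝ ↦ (1 / 2 + (y : ℂ) * I)) h2 (by fun_prop)

/-- coefficients of the mollifier -/
noncomputable def tw_b (d : ℕ) : ℂ :=
  ((ArithmeticFunction.moebius d : ℤ) : ℂ) * (d : ℂ) ^ (-(1 / 2 : ℂ))

lemma tw_mobs (X : ℕ) (y : ℝ) : mobs (1 / 2 + y * I) X = dp X tw_b y := by
  unfold mobs dp tw_b
  refine Finset.sum_congr rfl fun d hd ↦ ?_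
  have hd1 : 1 ≤ d := (Finset.mem_Icc.1 hd).1
  have hd0 : (d : ℂ) ≠ 0 := by exact_mod_cast (by omega : d ≠ 0)
  rw [neg_add, Complex.cpow_add _ _ hd0]
  ring

lemma tw_norm_cpow {n : ℕ} (hn : 1 ≤ n) (s : ℂ) : ‖(n : ℂ) ^ s‖ = (n : ℝ) ^ s.re := by
  have h : (0 : ℝ) < n := by exact_mod_cast hn
  have := Complex.norm_cpow_eq_rpow_re_of_pos h s
  simpa using this

lemma tw_norm_b {d : ℕ} (hd : 1 ≤ d) : ‖tw_b d‖ ≤ (d : ℝ) ^ (-(1 / 2) : ℝ) := by
  unfold tw_b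
  rw [norm_mul, tw_norm_cpow hd]
  have h1 : ‖((ArithmeticFunction.moebius d : ℤ) : ℂ)‖ ≤ 1 := by
    rw [Complex.norm_intCast]
    exact_mod_cast ArithmeticFunction.abs_moebius_le_one
  have h2 : (0 : ℝ) ≤ (d : ℝ) ^ (-(1 / 2 : ℂ)).re := by positivity
  have h3 : (-(1 / 2 : ℂ)).re = (-(1 / 2) : ℝ) := by simp
  calc _ ≤ 1 * (d : ℝ) ^ (-(1 / 2 : ℂ)).re := by gcongr
    _ = _ := by rw [one_mul, h3]

/-- twisted coefficients of the partial sum of `ζ` -/
noncomputable def tw_a (T v : ℝ) (n : ℕ) : ℂ :=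
  ((((n : ℝ) ^ (-(1 / 2 + 1 / Real.log T) : ℝ) : ℝ)) : ℂ) * (n : ℂ) ^ (-(v * I))

lemma tw_Pz (T y v : ℝ) : Pz T (y + v) = dp (Zm T) (tw_a T v) y := by
  unfold Pz
  rw [dp_shift]
  rfl

lemma tw_norm_a {T : ℝ} (hT : 1 < T) (v : ℝ) {n : ℕ} (hn : 1 ≤ n) :
    ‖tw_a T v n‖ ≤ (n : ℝ) ^ (-(1 / 2) : ℝ) := by
  unfold tw_a
  have h1 : ‖(n : ℂ) ^ (-(v * I))‖ = 1 := by
    rw [tw_norm_cpow hn]
    simp
  have hn' : (1 : ℝ) ≤ n := by exact_mod_cast hn
  rw [norm_mul, h1, mul_one, Complex.norm_real, Real.norm_of_nonneg (by positivity)]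
  apply Real.rpow_le_rpow_of_exponent_le hn'
  have : 0 < 1 / Real.log T := one_div_pos.2 (Real.log_pos hT)
  linarith

lemma tw_dp_one (t : ℝ) : dp 1 (fun _ ↦ 1) t = 1 := by
  unfold dp
  simp

lemma tw_gauss : Integrable fun v : ℝ ↦ Real.exp (-(v ^ 2 / 2)) := by
  have h := integrable_exp_neg_mul_sq (b := 1 / 2) (by norm_num)
  refine h.congr (ae_of_all _ fun v ↦ ?_)
  show Real.exp (-(1 / 2) * v ^ 2) = _
  congr 1
  ring

lemma tw_length {T : ℝ} (hT : (2 : ℝ) ^ 16 ≤ T) {N : ℕ} (hN : (N : ℝ) ≤ T ^ (1 / 16 : ℝ)) :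
    (Zm T : ℝ) * xm T * N ≤ T := by
  have hT0 : 0 < T := lt_of_lt_of_le (by positivity) hT
  have hT1 : 1 ≤ T := le_trans (by norm_num) hT
  have h1 : (Zm T : ℝ) ≤ 2 * T ^ (3 / 4 : ℝ) := by
    have h2 : (Zm T : ℝ) < T ^ (3 / 4 : ℝ) + 1 := Nat.ceil_lt_add_one (by positivity)
    have h3 : (1 : ℝ) ≤ T ^ (3 / 4 : ℝ) := Real.one_le_rpow hT1 (by norm_num)
    linarith
  have h2 : (xm T : ℝ) ≤ T ^ (1 / 8 : ℝ) := Nat.floor_le (by positivity)
  have h3 : (2 : ℝ) ≤ T ^ (1 / 16 : ℝ) := by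
    have : (2 : ℝ) = ((2 : ℝ) ^ 16) ^ (1 / 16 : ℝ) := by
      rw [← Real.rpow_natCast, ← Real.rpow_mul (by norm_num)]
      norm_num
    rw [this]
    exact Real.rpow_le_rpow (by positivity) hT (by norm_num)
  calc (Zm T : ℝ) * xm T * N ≤ (2 * T ^ (3 / 4 : ℝ)) * T ^ (1 / 8 : ℝ) * T ^ (1 / 16 : ℝ) := by
        gcongr
    _ ≤ (T ^ (1 / 16 : ℝ) * T ^ (3 / 4 : ℝ)) * T ^ (1 / 8 : ℝ) * T ^ (1 / 16 : ℝ) := by gcongr
    _ = T := by
        rw [← Real.rpow_add hT0, ← Real.rpow_add hT0, ← Real.rpow_add hT0]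
        norm_num

/-- monotonicity in the interval for nonnegative continuous functions -/
lemma tw_interval_mono {f : ℝ → ℝ} (hf : Continuous f) (h0 : ∀ t, 0 ≤ f t) {T : ℝ} (hT : 0 ≤ T) :
    ∫ t in (-(8 * T))..(8 * T), f t ≤ ∫ t in (-(9 * T))..(9 * T), f t := by
  apply intervalIntegral.integral_mono_interval (by linarith) (by linarith) (by linarith)
  · exact ae_of_all _ h0
  · exact hf.intervalIntegrable _ _

lemma tw_jensen {e p : ℝ → ℝ} (he : ∀ v, 0 ≤ e v) (hei : Integrable e)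
    (h1 : Integrable fun v ↦ e v * p v) (h2 : Integrable fun v ↦ e v * p v ^ 2)
    (hS : 0 < ∫ v, e v) :
    (∫ v, e v * p v) ^ 2 ≤ (∫ v, e v) * ∫ v, e v * p v ^ 2 := by
  set S := ∫ v, e v with hSdef
  set J := ∫ v, e v * p v with hJ
  set K := ∫ v, e v * p v ^ 2 with hK
  have h3 : 0 ≤ ∫ v, e v * (p v - J / S) ^ 2 :=
    integral_nonneg fun v ↦ mul_nonneg (he v) (sq_nonneg _)
  have h4 : ∫ v, e v * (p v - J / S) ^ 2 = K - 2 * (J / S) * J + (J / S) ^ 2 * S := by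
    have h5 : ∀ v, e v * (p v - J / S) ^ 2 =
        e v * p v ^ 2 - 2 * (J / S) * (e v * p v) + (J / S) ^ 2 * e v := fun v ↦ by ring
    have h6 : Integrable fun v ↦ e v * p v ^ 2 - 2 * (J / S) * (e v * p v) :=
      h2.sub (h1.const_mul _)
    calc ∫ v, e v * (p v - J / S) ^ 2
        = ∫ v, ((e v * p v ^ 2 - 2 * (J / S) * (e v * p v)) + (J / S) ^ 2 * e v) := by
          simp_rw [h5]
      _ = (∫ v, (e v * p v ^ 2 - 2 * (J / S) * (e v * p v))) + ∫ v, (J / S) ^ 2 * e v :=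
          integral_add h6 (hei.const_mul _)
      _ = (K - 2 * (J / S) * J) + (J / S) ^ 2 * S := by
          rw [integral_sub h2 (h1.const_mul _), integral_const_mul, integral_const_mul]
  rw [h4] at h3
  have h6 : K - 2 * (J / S) * J + (J / S) ^ 2 * S = K - J ^ 2 / S := by
    field_simp
    ring
  rw [h6] at h3
  have h7 : J ^ 2 / S ≤ K := by linarith
  rw [div_le_iff₀ hS] at h7
  linarith

end twist_aux

theorem twisted : ∃ C : ℝ, 0 < C ∧ ∀ᶠ T : ℝ in atTop, ∀ (N : ℕ) (r : ℕ → ℂ),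
    (N : ℝ) ≤ T ^ (1 / 16 : ℝ) →
    ∫ y in (-(8 * T))..(8 * T), ‖riemannZeta (1 / 2 + y * I)‖ ^ 2 *
      ‖mobs (1 / 2 + y * I) (xm T)‖ ^ 2 * ‖dp N r y‖ ^ 2 ≤ T * loss C T * nsq N r := by
  obtain ⟨C0, hC0, hafe⟩ := afe
  obtain ⟨C1, hC1, hmvt⟩ := mvt_loss
  set S : ℝ := ∫ v : ℝ, Real.exp (-(v ^ 2 / 2)) with hS
  have hS0 : 0 ≤ S := integral_nonneg fun v ↦ (Real.exp_pos _).le
  have hSpos : 0 < S := integral_exp_pos tw_gauss
  have hloss := const_log_le_loss (2 * C0 ^ 2 * (1 + S ^ 2)) 2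
  refine ⟨C1 + 1, by linarith, ?_⟩
  filter_upwards [hafe, hmvt, hloss, eventually_ge_atTop ((2 : ℝ) ^ 16)] with T hafe hmvt hloss hT N r hN
  have hT1 : 1 < T := lt_of_lt_of_le (by norm_num) hT
  have hT0 : 0 < T := by linarith
  have hL : 0 < Real.log T := Real.log_pos hT1
  -- the weight
  set g : ℝ → ℝ := fun y ↦ ‖dp (xm T) tw_b y‖ ^ 2 * ‖dp N r y‖ ^ 2 with hg
  have hg0 : ∀ y, 0 ≤ g y := fun y ↦ by positivity
  have hgc : Continuous g := by
    have h1 := continuous_dp (xm T) tw_b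
    have h2 := continuous_dp N r
    exact (h1.norm.pow 2).mul (h2.norm.pow 2)
  have hPc : Continuous (Pz T) := continuous_dp _ _
  -- bound for Pz
  obtain ⟨P0, hP0, hPb⟩ : ∃ P0 : ℝ, 0 ≤ P0 ∧ ∀ y, ‖Pz T y‖ ^ 2 ≤ P0 :=
    ⟨_, mul_nonneg (Nat.cast_nonneg _) (nsq_nonneg _ _), fun y ↦ norm_dp_sq_le _ _ y⟩
  obtain ⟨G0, hG0, hGb⟩ : ∃ G0 : ℝ, 0 ≤ G0 ∧ ∀ y, g y ≤ G0 := by
    refine ⟨(xm T * nsq (xm T) tw_b) * (N * nsq N r),
      mul_nonneg (mul_nonneg (Nat.cast_nonneg _) (nsq_nonneg _ _))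
        (mul_nonneg (Nat.cast_nonneg _) (nsq_nonneg _ _)), fun y ↦ ?_⟩
    exact mul_le_mul (norm_dp_sq_le _ _ y) (norm_dp_sq_le _ _ y) (by positivity)
      (mul_nonneg (Nat.cast_nonneg _) (nsq_nonneg _ _))
  have hPb1 : ∀ y, ‖Pz T y‖ ≤ 1 + P0 := fun y ↦ by
    have h1 := hPb y
    nlinarith [sq_nonneg (‖Pz T y‖ - 1), norm_nonneg (Pz T y)]
  -- integrability in v
  have hi1 : ∀ y, Integrable fun v : ℝ ↦ Real.exp (-(v ^ 2 / 2)) * ‖Pz T (y + v)‖ := by
    intro y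
    refine (tw_gauss.mul_const (1 + P0)).mono' ?_ (ae_of_all _ fun v ↦ ?_)
    · exact Continuous.aestronglyMeasurable (by fun_prop)
    · rw [Real.norm_of_nonneg (by positivity)]
      exact mul_le_mul_of_nonneg_left (hPb1 _) (Real.exp_pos _).le
  have hi2 : ∀ y, Integrable fun v : ℝ ↦ Real.exp (-(v ^ 2 / 2)) * ‖Pz T (y + v)‖ ^ 2 := by
    intro y
    refine (tw_gauss.mul_const P0).mono' ?_ (ae_of_all _ fun v ↦ ?_)
    · exact Continuous.aestronglyMeasurable (by fun_prop)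
    · rw [Real.norm_of_nonneg (by positivity)]
      exact mul_le_mul_of_nonneg_left (hPb _) (Real.exp_pos _).le
  -- the product integrability
  set μ := (volume : Measure ℝ).restrict (Ioc (-(8 * T)) (8 * T)) with hμ
  set F : ℝ → ℝ → ℝ := fun y v ↦ Real.exp (-(v ^ 2 / 2)) * ‖Pz T (y + v)‖ ^ 2 * g y with hF
  have hFc : Continuous (Function.uncurry F) := by
    have h1 : Continuous fun z : ℝ × ℝ ↦ ‖Pz T (z.1 + z.2)‖ ^ 2 := by fun_prop
    have h2 : Continuous fun z : ℝ × ℝ ↦ g z.1 := hgc.comp continuous_fst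
    have h3 : Continuous fun z : ℝ × ℝ ↦ Real.exp (-(z.2 ^ 2 / 2)) := by fun_prop
    exact (h3.mul h1).mul h2
  have hFi : Integrable (Function.uncurry F) (μ.prod volume) := by
    have h1 : Integrable (fun z : ℝ × ℝ ↦ (P0 * G0) * Real.exp (-(z.2 ^ 2 / 2))) (μ.prod volume) := by
      have h2 : Integrable (fun _ : ℝ ↦ P0 * G0) μ := integrable_const _
      exact h2.mul_prod tw_gauss
    refine h1.mono' hFc.aestronglyMeasurable (ae_of_all _ fun z ↦ ?_)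
    show ‖F z.1 z.2‖ ≤ _
    have h0 := hg0 z.1
    have h3 : 0 ≤ F z.1 z.2 := by
      simp only [hF]
      positivity
    rw [Real.norm_of_nonneg h3]
    simp only [hF]
    calc Real.exp (-(z.2 ^ 2 / 2)) * ‖Pz T (z.1 + z.2)‖ ^ 2 * g z.1
        ≤ Real.exp (-(z.2 ^ 2 / 2)) * P0 * G0 := by
          gcongr
          · exact hPb _
          · exact hGb _
      _ = _ := by ring
  -- exchange of the integrals
  have hswap : ∫ y in (-(8 * T))..(8 * T), ∫ v : ℝ, F y v =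
      ∫ v : ℝ, ∫ y in (-(8 * T))..(8 * T), F y v := by
    rw [intervalIntegral.integral_of_le (by linarith)]
    simp_rw [intervalIntegral.integral_of_le (show -(8 * T) ≤ 8 * T by linarith)]
    exact integral_integral_swap hFi
  -- the bound for a fixed shift
  have hv : ∀ v : ℝ, ∫ y in (-(8 * T))..(8 * T), F y v ≤
      Real.exp (-(v ^ 2 / 2)) * (T * loss C1 T * nsq N r) := by
    intro v
    have h1 : ∀ y, F y v = Real.exp (-(v ^ 2 / 2)) *
        (‖dp (Zm T) (tw_a T v) y‖ ^ 2 * ‖dp (xm T) tw_b y‖ ^ 2 * ‖dp N r y‖ ^ 2) := fun y ↦ by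
      simp only [hF, hg, tw_Pz]
      ring
    simp_rw [h1]
    rw [intervalIntegral.integral_const_mul]
    refine mul_le_mul_of_nonneg_left ?_ (Real.exp_pos _).le
    refine le_trans (tw_interval_mono ?_ (fun t ↦ by positivity) hT0.le) ?_
    · have h2 := continuous_dp (Zm T) (tw_a T v)
      have h3 := continuous_dp (xm T) tw_b
      have h4 := continuous_dp N r
      exact ((h2.norm.pow 2).mul (h3.norm.pow 2)).mul (h4.norm.pow 2)
    · exact hmvt (Zm T) (xm T) N (tw_a T v) tw_b r (tw_length hT hN)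
        (fun n hn ↦ tw_norm_a hT1 v (Finset.mem_Icc.1 hn).1)
        (fun n hn ↦ tw_norm_b (Finset.mem_Icc.1 hn).1)
  -- the integral over v
  have hvi : ∫ v : ℝ, ∫ y in (-(8 * T))..(8 * T), F y v ≤ S * (T * loss C1 T * nsq N r) := by
    rw [hS, ← integral_mul_const]
    refine integral_mono ?_ (tw_gauss.mul_const _) hv
    have h1 := hFi.integral_prod_right
    simp_rw [intervalIntegral.integral_of_le (show -(8 * T) ≤ 8 * T by linarith)]
    exact h1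
  -- the term without zeta
  have hg1 : ∫ y in (-(8 * T))..(8 * T), g y ≤ T * loss C1 T * nsq N r := by
    refine le_trans (tw_interval_mono hgc hg0 hT0.le) ?_
    have h1 := hmvt 1 (xm T) N (fun _ ↦ 1) tw_b r ?_ ?_
      (fun n hn ↦ tw_norm_b (Finset.mem_Icc.1 hn).1)
    · simp_rw [tw_dp_one, norm_one, one_pow, one_mul] at h1
      exact h1
    · refine le_trans ?_ (tw_length hT hN)
      have h2 : (1 : ℝ) ≤ Zm T := by
        have : 1 ≤ Zm T := Nat.one_le_ceil_iff.2 (by positivity)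
        exact_mod_cast this
      simp only [Nat.cast_one]
      gcongr
    · intro n hn
      have h2 : n = 1 := by
        have := Finset.mem_Icc.1 hn
        omega
      subst h2
      simp
  -- pointwise bound
  have hpt : ∀ y ∈ Icc (-(8 * T)) (8 * T), ‖riemannZeta (1 / 2 + y * I)‖ ^ 2 *
      ‖mobs (1 / 2 + y * I) (xm T)‖ ^ 2 * ‖dp N r y‖ ^ 2 ≤
      2 * C0 ^ 2 * Real.log T ^ 2 * (g y + S * ∫ v : ℝ, F y v) := by
    intro y hy
    have hy' : |y| ≤ 8 * T := abs_le.2 hy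
    have h1 := hafe y hy'
    set J := ∫ v : ℝ, Real.exp (-(v ^ 2 / 2)) * ‖Pz T (y + v)‖ with hJ
    set K := ∫ v : ℝ, Real.exp (-(v ^ 2 / 2)) * ‖Pz T (y + v)‖ ^ 2 with hK
    have hJ2 : J ^ 2 ≤ S * K := tw_jensen (p := fun v ↦ ‖Pz T (y + v)‖)
      (fun v ↦ (Real.exp_pos _).le) tw_gauss (hi1 y) (hi2 y) hSpos
    have hJ0 : 0 ≤ J := integral_nonneg fun v ↦ by positivity
    have h2 : ‖riemannZeta (1 / 2 + y * I)‖ ^ 2 ≤ 2 * C0 ^ 2 * Real.log T ^ 2 * (1 + S * K) := by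
      calc ‖riemannZeta (1 / 2 + y * I)‖ ^ 2 ≤ (C0 * Real.log T * (1 + J)) ^ 2 :=
            pow_le_pow_left₀ (norm_nonneg _) h1 2
        _ = C0 ^ 2 * Real.log T ^ 2 * (1 + J) ^ 2 := by ring
        _ ≤ C0 ^ 2 * Real.log T ^ 2 * (2 * (1 + S * K)) := by
            gcongr
            nlinarith [sq_nonneg (J - 1)]
        _ = _ := by ring
    have h3 : ∫ v : ℝ, F y v = K * g y := by
      simp only [hF]
      rw [integral_mul_const]
    rw [h3, tw_mobs]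
    calc ‖riemannZeta (1 / 2 + y * I)‖ ^ 2 * ‖dp (xm T) tw_b y‖ ^ 2 * ‖dp N r y‖ ^ 2
        = ‖riemannZeta (1 / 2 + y * I)‖ ^ 2 * g y := by simp only [hg]; ring
      _ ≤ (2 * C0 ^ 2 * Real.log T ^ 2 * (1 + S * K)) * g y :=
          mul_le_mul_of_nonneg_right h2 (hg0 y)
      _ = _ := by ring
  -- integrability of the inner integral in y
  have hKi : IntervalIntegrable (fun y ↦ ∫ v : ℝ, F y v) volume (-(8 * T)) (8 * T) := by
    rw [intervalIntegrable_iff_integrableOn_Ioc_of_le (by linarith)]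
    exact hFi.integral_prod_left
  have hgi : IntervalIntegrable g volume (-(8 * T)) (8 * T) := hgc.intervalIntegrable _ _
  have hzi : IntervalIntegrable (fun y : ℝ ↦ ‖riemannZeta (1 / 2 + y * I)‖ ^ 2 *
      ‖mobs (1 / 2 + y * I) (xm T)‖ ^ 2 * ‖dp N r y‖ ^ 2) volume (-(8 * T)) (8 * T) := by
    apply Continuous.intervalIntegrable
    simp_rw [tw_mobs]
    have h2 := tw_continuous_zeta
    have h3 := continuous_dp (xm T) tw_b
    have h4 := continuous_dp N r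
    exact ((h2.norm.pow 2).mul (h3.norm.pow 2)).mul (h4.norm.pow 2)
  have hfin : ∫ y in (-(8 * T))..(8 * T), ‖riemannZeta (1 / 2 + y * I)‖ ^ 2 *
      ‖mobs (1 / 2 + y * I) (xm T)‖ ^ 2 * ‖dp N r y‖ ^ 2 ≤
      2 * C0 ^ 2 * Real.log T ^ 2 * (T * loss C1 T * nsq N r +
        S * (S * (T * loss C1 T * nsq N r))) := by
    calc _ ≤ ∫ y in (-(8 * T))..(8 * T),
            2 * C0 ^ 2 * Real.log T ^ 2 * (g y + S * ∫ v : ℝ, F y v) :=
          intervalIntegral.integral_mono_on (by linarith) hzi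
            ((hgi.add (hKi.const_mul S)).const_mul _) hpt
      _ = 2 * C0 ^ 2 * Real.log T ^ 2 * ((∫ y in (-(8 * T))..(8 * T), g y) +
            S * ∫ y in (-(8 * T))..(8 * T), ∫ v : ℝ, F y v) := by
          rw [intervalIntegral.integral_const_mul, intervalIntegral.integral_add hgi
            (hKi.const_mul S), intervalIntegral.integral_const_mul]
      _ ≤ _ := by
          rw [hswap]
          gcongr
  refine hfin.trans ?_
  have hns := nsq_nonneg N r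
  have hl1 := loss_pos C1 T
  have h8 : 2 * C0 ^ 2 * (1 + S ^ 2) * Real.log T ^ (2 : ℝ) ≤ loss 1 T := hloss
  rw [Real.rpow_two] at h8
  calc 2 * C0 ^ 2 * Real.log T ^ 2 * (T * loss C1 T * nsq N r +
        S * (S * (T * loss C1 T * nsq N r))) =
        (2 * C0 ^ 2 * (1 + S ^ 2) * Real.log T ^ 2) * (T * loss C1 T * nsq N r) := by ring
    _ ≤ loss 1 T * (T * loss C1 T * nsq N r) := by gcongr
    _ = T * (loss C1 T * loss 1 T) * nsq N r := by ring
    _ = _ := by rw [loss_add]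

theorem twistedG : ∃ C : ℝ, 0 < C ∧ ∀ᶠ T : ℝ in atTop, ∀ (N : ℕ) (r : ℕ → ℂ),
    (N : ℝ) ≤ T ^ (1 / 16 : ℝ) →
    ∫ y in (-(8 * T))..(8 * T), ‖Gf T (1 / 2 + y * I)‖ ^ 2 * ‖dp N r y‖ ^ 2 ≤
      T * loss C T * nsq N r := by
  obtain ⟨C0, hC0, h0⟩ := twisted
  obtain ⟨C1, hC1, h1⟩ := mvt_one
  have hm0 := loss_mono (le_max_left C0 C1)
  have hm1 := loss_mono (le_max_right C0 C1)
  have hloss := const_log_le_loss 4 0
  refine ⟨max C0 C1 + 1, by have := lt_max_of_lt_left (b := C0) (c := C1) hC0; linarith, ?_⟩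
  filter_upwards [h0, h1, hm0, hm1, hloss, eventually_ge_atTop ((2 : ℝ) ^ 16)] with
    T h0 h1 hm0 hm1 hloss hT N r hN
  have hT1 : 1 < T := lt_of_lt_of_le (by norm_num) hT
  have hT0 : 0 < T := by linarith
  have hNT : (N : ℝ) ≤ T := hN.trans (by
    conv_rhs => rw [← Real.rpow_one T]
    exact Real.rpow_le_rpow_of_exponent_le hT1.le (by norm_num))
  have h2 := h0 N r hN
  have h3 : ∫ t in (-(8 * T))..(8 * T), ‖dp N r t‖ ^ 2 ≤ T * loss C1 T * nsq N r :=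
    (tw_interval_mono ((continuous_dp N r).norm.pow 2) (fun t ↦ sq_nonneg _) hT0.le).trans
      (h1 N r hNT)
  set f : ℝ → ℝ := fun y ↦ ‖riemannZeta (1 / 2 + y * I)‖ ^ 2 *
      ‖mobs (1 / 2 + y * I) (xm T)‖ ^ 2 * ‖dp N r y‖ ^ 2 with hf
  have hmc : Continuous fun y : ℝ ↦ mobs (1 / 2 + y * I) (xm T) := by
    simp_rw [tw_mobs]
    exact continuous_dp _ _
  have hfc : Continuous f :=
    ((tw_continuous_zeta.norm.pow 2).mul (hmc.norm.pow 2)).mul ((continuous_dp N r).norm.pow 2)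
  have hrc : Continuous fun y ↦ ‖dp N r y‖ ^ 2 := (continuous_dp N r).norm.pow 2
  have hGc : Continuous fun y : ℝ ↦ ‖Gf T (1 / 2 + y * I)‖ ^ 2 * ‖dp N r y‖ ^ 2 := by
    unfold Gf
    exact (((tw_continuous_zeta.mul hmc).sub continuous_const).norm.pow 2).mul hrc
  have hpt : ∀ y ∈ Icc (-(8 * T)) (8 * T), ‖Gf T (1 / 2 + y * I)‖ ^ 2 * ‖dp N r y‖ ^ 2 ≤
      2 * f y + 2 * ‖dp N r y‖ ^ 2 := by
    intro y _
    have h4 : ‖Gf T (1 / 2 + y * I)‖ ^ 2 ≤ 2 * (‖riemannZeta (1 / 2 + y * I)‖ ^ 2 *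
        ‖mobs (1 / 2 + y * I) (xm T)‖ ^ 2) + 2 := by
      unfold Gf
      have h5 : ‖riemannZeta (1 / 2 + y * I) * mobs (1 / 2 + y * I) (xm T) - 1‖ ≤
          ‖riemannZeta (1 / 2 + y * I) * mobs (1 / 2 + y * I) (xm T)‖ + 1 := by
        simpa using norm_sub_le (riemannZeta (1 / 2 + y * I) * mobs (1 / 2 + y * I) (xm T)) 1
      rw [← mul_pow, ← norm_mul]
      set u := ‖riemannZeta (1 / 2 + y * I) * mobs (1 / 2 + y * I) (xm T)‖ with hu
      calc _ ≤ (u + 1) ^ 2 := pow_le_pow_left₀ (norm_nonneg _) h5 2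
        _ ≤ _ := by nlinarith [sq_nonneg (u - 1)]
    calc ‖Gf T (1 / 2 + y * I)‖ ^ 2 * ‖dp N r y‖ ^ 2 ≤
        (2 * (‖riemannZeta (1 / 2 + y * I)‖ ^ 2 *
        ‖mobs (1 / 2 + y * I) (xm T)‖ ^ 2) + 2) * ‖dp N r y‖ ^ 2 := by gcongr
      _ = _ := by simp only [hf]; ring
  have hns := nsq_nonneg N r
  rw [Real.rpow_zero, mul_one] at hloss
  calc ∫ y in (-(8 * T))..(8 * T), ‖Gf T (1 / 2 + y * I)‖ ^ 2 * ‖dp N r y‖ ^ 2
      ≤ ∫ y in (-(8 * T))..(8 * T), (2 * f y + 2 * ‖dp N r y‖ ^ 2) :=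
        intervalIntegral.integral_mono_on (by linarith) (hGc.intervalIntegrable _ _)
          (((hfc.const_mul 2).add (hrc.const_mul 2)).intervalIntegrable _ _) hpt
    _ = 2 * (∫ y in (-(8 * T))..(8 * T), f y) +
          2 * ∫ y in (-(8 * T))..(8 * T), ‖dp N r y‖ ^ 2 := by
        rw [intervalIntegral.integral_add ((hfc.const_mul 2).intervalIntegrable _ _)
          ((hrc.const_mul 2).intervalIntegrable _ _), intervalIntegral.integral_const_mul,
          intervalIntegral.integral_const_mul]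
    _ ≤ 2 * (T * loss C0 T * nsq N r) + 2 * (T * loss C1 T * nsq N r) := by gcongr
    _ ≤ 2 * (T * loss (max C0 C1) T * nsq N r) + 2 * (T * loss (max C0 C1) T * nsq N r) := by
        gcongr
    _ = 4 * loss (max C0 C1) T * (T * nsq N r) := by ring
    _ ≤ loss 1 T * loss (max C0 C1) T * (T * nsq N r) := by
        have := loss_pos (max C0 C1) T
        gcongr
    _ = T * (loss (max C0 C1) T * loss 1 T) * nsq N r := by ring
    _ = _ := by rw [loss_add]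

end Pool.Agent.H62.ST
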