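import Pool.Agent.H62.ST.Defs

/-!
# Module WBase: the smoothed density `W(z) = ∫ K(z - t) μ(t) dt`

`Kc Δ z = Δ exp(-π Δ^2 z^2)`; for `z = y - ia` and real `t`: `‖Kc Δ (z - t)‖ = Δ exp(-π Δ^2 ((y-t)^2 - a^2)) = exp(π Δ^2 a^2) Δ exp(-π Δ^2 (y-t)^2)`.
* differentiable: `hasDerivAt_integral_of_dominated_loc_of_deriv_le` (the kernel and its derivative are bounded for `z` in a bounded set, uniformly in real `t`;
  dominated by a constant times `μ`).
* `∫ Wr = ∫ μ`: Fubini and `∫ Δ exp(-π Δ^2 v^2) dv = 1` (`integral_gaussian`).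
-/

set_option autoImplicit false

open Complex Filter Topology MeasureTheory Set Metric
open scoped ArithmeticFunction.vonMangoldt

namespace Pool.Agent.H62.ST

open Pool.Agent.H6 Pool.Agent.H6.Win

variable {Δ : ℝ} {μ : ℝ → ℝ}

/-- Norm of the kernel. -/
lemma norm_Kc (hΔ : 0 < Δ) (z : ℂ) :
    ‖Kc Δ z‖ = Δ * Real.exp (-(Real.pi * Δ ^ 2 * (z.re ^ 2 - z.im ^ 2))) := by
  unfold Kc
  rw [norm_mul, Complex.norm_exp, Complex.norm_real, Real.norm_of_nonneg hΔ.le]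
  congr 2
  have h : ((Real.pi : ℂ) * (Δ : ℂ) ^ 2 * z ^ 2) = ((Real.pi * Δ ^ 2 : ℝ) : ℂ) * z ^ 2 := by
    push_cast; ring
  rw [neg_re, h, Complex.re_ofReal_mul]
  congr 2
  rw [pow_two, Complex.mul_re]
  ring

lemma Kc_continuous : Continuous (Kc Δ) := by
  unfold Kc
  fun_prop

lemma Kc_hasDerivAt (z : ℂ) :
    HasDerivAt (Kc Δ) (Kc Δ z * (-(2 * Real.pi * Δ ^ 2 * z))) z := by
  unfold Kc
  have h1 : HasDerivAt (fun z : ℂ ↦ -((Real.pi : ℂ) * (Δ : ℂ) ^ 2 * z ^ 2))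
      (-((Real.pi : ℂ) * (Δ : ℂ) ^ 2 * (2 * z))) z := by
    have := ((hasDerivAt_pow 2 z).const_mul ((Real.pi : ℂ) * (Δ : ℂ) ^ 2)).fun_neg
    simpa using this
  have h2 := (h1.cexp).const_mul (Δ : ℂ)
  convert! h2 using 1
  ring

/-- Bound for the derivative of the kernel in a strip. -/
lemma deriv_Kc_bound (hΔ : 0 < Δ) {Y : ℝ} (hY : 0 ≤ Y) :
    ∃ C : ℝ, ∀ z : ℂ, |z.im| ≤ Y → ‖Kc Δ z‖ ≤ C ∧
      ‖Kc Δ z * (-(2 * Real.pi * Δ ^ 2 * z))‖ ≤ C := by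
  set c : ℝ := Real.pi * Δ ^ 2 with hc
  have hcpos : 0 < c := by positivity
  set E : ℝ := Real.exp (c * Y ^ 2) with hE
  have hEpos : 0 < E := Real.exp_pos _
  refine ⟨Δ * E + Δ * E * (2 * c * (1 + 1 / c + Y)), fun z hz ↦ ?_⟩
  have h1 : ‖Kc Δ z‖ ≤ Δ * E * Real.exp (-(c * z.re ^ 2)) := by
    rw [norm_Kc hΔ, mul_assoc Δ E, hE, ← Real.exp_add]
    refine mul_le_mul_of_nonneg_left (Real.exp_le_exp.2 ?_) hΔ.le
    have : z.im ^ 2 ≤ Y ^ 2 := by
      rw [← sq_abs z.im]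
      exact pow_le_pow_left₀ (abs_nonneg _) hz 2
    nlinarith
  have hexp1 : Real.exp (-(c * z.re ^ 2)) ≤ 1 := by
    rw [Real.exp_le_one_iff]
    nlinarith [sq_nonneg z.re]
  have hexp0 : 0 < Real.exp (-(c * z.re ^ 2)) := Real.exp_pos _
  have h2 : |z.re| * Real.exp (-(c * z.re ^ 2)) ≤ 1 + 1 / c := by
    have ha : (1 + c * z.re ^ 2) ≤ Real.exp (c * z.re ^ 2) := by
      have := Real.add_one_le_exp (c * z.re ^ 2); linarith
    have hb : |z.re| ≤ (1 + 1 / c) * (1 + c * z.re ^ 2) := by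
      have h3 : |z.re| ≤ 1 + z.re ^ 2 := by
        rw [← sq_abs z.re]; nlinarith [sq_nonneg (|z.re| - 1), abs_nonneg z.re]
      have h4 : (1 + 1 / c) * (1 + c * z.re ^ 2) = 1 + z.re ^ 2 + (c * z.re ^ 2 + 1 / c) := by
        field_simp
        ring
      have h5 : 0 ≤ c * z.re ^ 2 + 1 / c := by positivity
      linarith
    rw [Real.exp_neg]
    rw [mul_inv_le_iff₀ (Real.exp_pos _)]
    calc |z.re| ≤ (1 + 1 / c) * (1 + c * z.re ^ 2) := hb
      _ ≤ (1 + 1 / c) * Real.exp (c * z.re ^ 2) := by gcongr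
  have hΔE : 0 < Δ * E := by positivity
  refine ⟨?_, ?_⟩
  · have h3 : 0 ≤ Δ * E * (2 * c * (1 + 1 / c + Y)) := by positivity
    nlinarith
  · rw [norm_mul, norm_neg]
    have h3 : ‖(2 * (Real.pi : ℂ) * (Δ : ℂ) ^ 2 * z)‖ = 2 * c * ‖z‖ := by
      have h4 : (2 * (Real.pi : ℂ) * (Δ : ℂ) ^ 2 * z) = ((2 * c : ℝ) : ℂ) * z := by
        rw [hc]; push_cast; ring
      rw [h4, norm_mul, Complex.norm_real, Real.norm_of_nonneg (by positivity)]
    rw [h3]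
    have h4 : ‖z‖ ≤ |z.re| + Y := (Complex.norm_le_abs_re_add_abs_im z).trans (by linarith)
    calc ‖Kc Δ z‖ * (2 * c * ‖z‖) ≤ (Δ * E * Real.exp (-(c * z.re ^ 2))) * (2 * c * (|z.re| + Y)) := by
          gcongr
      _ = Δ * E * (2 * c * (|z.re| * Real.exp (-(c * z.re ^ 2)) + Y * Real.exp (-(c * z.re ^ 2)))) := by ring
      _ ≤ Δ * E * (2 * c * ((1 + 1 / c) + Y * 1)) := by gcongr
      _ ≤ Δ * E + Δ * E * (2 * c * (1 + 1 / c + Y)) := by
          rw [mul_one]; linarith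

theorem Wc_differentiable (hΔ : 0 < Δ) (hμ : Integrable μ) : Differentiable ℂ (Wc Δ μ) := by
  intro z₀
  obtain ⟨C, hC⟩ := deriv_Kc_bound hΔ (Y := |z₀.im| + 1) (by positivity)
  have hμc : Integrable (fun t ↦ (μ t : ℂ)) := hμ.ofReal
  have him : ∀ z ∈ ball z₀ 1, ∀ t : ℝ, |(z - t).im| ≤ |z₀.im| + 1 := by
    intro z hz t
    have h1 : |(z - z₀).im| ≤ 1 := (Complex.abs_im_le_norm _).trans (by
      rw [← dist_eq_norm]; exact (mem_ball.1 hz).le)
    have h2 : (z - t).im = z₀.im + (z - z₀).im := by simp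
    rw [h2]
    exact (abs_add_le _ _).trans (by linarith)
  have hmeas : ∀ z : ℂ, AEStronglyMeasurable (fun t : ℝ ↦ Kc Δ (z - t) * (μ t : ℂ)) := by
    intro z
    refine AEStronglyMeasurable.mul ?_ hμc.1
    exact (Kc_continuous.comp (by fun_prop : Continuous fun t : ℝ ↦ (z - (t : ℂ)))).aestronglyMeasurable
  have hint : Integrable (fun t : ℝ ↦ Kc Δ (z₀ - t) * (μ t : ℂ)) := by
    refine (hμ.norm.const_mul C).mono' (hmeas z₀) (Eventually.of_forall fun t ↦ ?_)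
    rw [norm_mul, Complex.norm_real]
    exact mul_le_mul_of_nonneg_right (hC _ (him z₀ (mem_ball_self one_pos) t)).1 (norm_nonneg _)
  have h := hasDerivAt_integral_of_dominated_loc_of_deriv_le (𝕜 := ℂ) (μ := volume)
    (F := fun z : ℂ ↦ fun t : ℝ ↦ Kc Δ (z - t) * (μ t : ℂ))
    (F' := fun z : ℂ ↦ fun t : ℝ ↦ Kc Δ (z - t) * (-(2 * Real.pi * Δ ^ 2 * (z - t))) * (μ t : ℂ))
    (x₀ := z₀) (s := ball z₀ 1) (bound := fun t ↦ C * ‖μ t‖) (ball_mem_nhds z₀ one_pos)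
    (Eventually.of_forall hmeas) hint ?_ ?_ (hμ.norm.const_mul C) ?_
  · exact h.2.differentiableAt
  · refine AEStronglyMeasurable.mul ?_ hμc.1
    have : Continuous fun t : ℝ ↦ Kc Δ (z₀ - t) * (-(2 * (Real.pi : ℂ) * (Δ : ℂ) ^ 2 * (z₀ - (t : ℂ)))) :=
      (Kc_continuous.comp (by fun_prop : Continuous fun t : ℝ ↦ (z₀ - (t : ℂ)))).mul (by fun_prop)
    exact this.aestronglyMeasurable
  · refine Eventually.of_forall fun t z hz ↦ ?_
    rw [norm_mul, Complex.norm_real]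
    exact mul_le_mul_of_nonneg_right (hC _ (him z hz t)).2 (norm_nonneg _)
  · refine Eventually.of_forall fun t z _ ↦ ?_
    have h1 : HasDerivAt (fun z : ℂ ↦ Kc Δ (z - t)) (Kc Δ (z - t) * (-(2 * Real.pi * Δ ^ 2 * (z - t)))) z := by
      have := (Kc_hasDerivAt (Δ := Δ) (z - t)).comp z ((hasDerivAt_id z).sub_const (t : ℂ))
      rw [mul_one] at this
      exact this
    exact h1.mul_const _

lemma Ws_differentiable (hΔ : 0 < Δ) (hμ : Integrable μ) : Differentiable ℂ (Ws Δ μ) := by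
  unfold Ws
  exact (Wc_differentiable hΔ hμ).comp (by fun_prop : Differentiable ℂ fun s : ℂ ↦ -I * (s - 1 / 2))

lemma Wc_ofReal (hΔ : 0 < Δ) (y : ℝ) : Wc Δ μ y = (Wr Δ μ y : ℂ) := by
  unfold Wc Wr Kc
  rw [← integral_complex_ofReal]
  refine integral_congr_ae (Eventually.of_forall fun t ↦ ?_)
  simp only
  push_cast
  ring_nf

lemma Wr_nonneg (hΔ : 0 < Δ) (h0 : ∀ t, 0 ≤ μ t) (y : ℝ) : 0 ≤ Wr Δ μ y :=
  integral_nonneg fun t ↦ mul_nonneg (by positivity) (h0 t)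

lemma norm_Wc_le (hΔ : 0 < Δ) (hμ : Integrable μ) (h0 : ∀ t, 0 ≤ μ t) (y a : ℝ) :
    ‖Wc Δ μ (y - a * I)‖ ≤ Real.exp (Real.pi * Δ ^ 2 * a ^ 2) * Wr Δ μ y := by
  unfold Wc Wr
  refine (norm_integral_le_integral_norm _).trans (le_of_eq ?_)
  rw [← integral_const_mul]
  refine integral_congr_ae (Eventually.of_forall fun t ↦ ?_)
  simp only
  rw [norm_mul, Complex.norm_real, Real.norm_of_nonneg (h0 t), norm_Kc hΔ]
  have h : Real.exp (-(Real.pi * Δ ^ 2 * ((↑y - ↑a * I - ↑t : ℂ).re ^ 2 - (↑y - ↑a * I - ↑t : ℂ).im ^ 2))) =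
      Real.exp (Real.pi * Δ ^ 2 * a ^ 2) * Real.exp (-(Real.pi * Δ ^ 2 * (y - t) ^ 2)) := by
    rw [← Real.exp_add]
    congr 1
    simp
    ring
  rw [h]
  ring

/-- The real Gaussian kernel is integrable. -/
lemma gauss_integrable (hΔ : 0 < Δ) :
    Integrable fun v : ℝ ↦ Δ * Real.exp (-(Real.pi * Δ ^ 2 * v ^ 2)) := by
  have h := (integrable_exp_neg_mul_sq (b := Real.pi * Δ ^ 2) (by positivity)).const_mul Δ
  refine h.congr (Eventually.of_forall fun v ↦ ?_)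
  simp only [neg_mul]

lemma integral_gauss (hΔ : 0 < Δ) :
    ∫ v : ℝ, Δ * Real.exp (-(Real.pi * Δ ^ 2 * v ^ 2)) = 1 := by
  have h := integral_gaussian (Real.pi * Δ ^ 2)
  have h2 : ∫ v : ℝ, Real.exp (-(Real.pi * Δ ^ 2 * v ^ 2)) = 1 / Δ := by
    have h3 : (fun v : ℝ ↦ Real.exp (-(Real.pi * Δ ^ 2 * v ^ 2))) =
        fun v ↦ Real.exp (-(Real.pi * Δ ^ 2) * v ^ 2) := by
      ext v; rw [neg_mul]
    rw [h3, h]
    rw [show Real.pi / (Real.pi * Δ ^ 2) = (1 / Δ) ^ 2 by field_simp]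
    exact Real.sqrt_sq (by positivity)
  rw [integral_const_mul, h2]
  field_simp

lemma Wr_eq_convolution (y : ℝ) : Wr Δ μ y =
    (convolution μ (fun v : ℝ ↦ Δ * Real.exp (-(Real.pi * Δ ^ 2 * v ^ 2)))
      (ContinuousLinearMap.mul ℝ ℝ) volume) y := by
  unfold Wr
  rw [convolution_def]
  refine integral_congr_ae (Eventually.of_forall fun t ↦ ?_)
  simp only [ContinuousLinearMap.mul_apply']
  ring

lemma Wr_integrable (hΔ : 0 < Δ) (hμ : Integrable μ) : Integrable (Wr Δ μ) := by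
  have h := Integrable.integrable_convolution (ContinuousLinearMap.mul ℝ ℝ) hμ (gauss_integrable hΔ)
  refine h.congr (Eventually.of_forall fun y ↦ ?_)
  exact (Wr_eq_convolution y).symm

lemma integral_Wr (hΔ : 0 < Δ) (hμ : Integrable μ) : ∫ y, Wr Δ μ y = ∫ t, μ t := by
  have h := integral_convolution (ContinuousLinearMap.mul ℝ ℝ) hμ (gauss_integrable hΔ)
  rw [integral_gauss hΔ] at h
  simp only [ContinuousLinearMap.mul_apply', mul_one] at h
  rw [← h]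
  exact integral_congr_ae (Eventually.of_forall fun y ↦ Wr_eq_convolution y)

end Pool.Agent.H62.ST
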